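import Pool.Agent.P.MP_e94e4b_nt.RP.IfS

/-! Step EXP. -/

set_option autoImplicit false
set_option linter.unusedSectionVars false

namespace Pool.Agent.P.MP_e94e4b_nt.RP

open Polynomial Finset
open Pool.Agent.P.MP_8be758_nt Pool.Agent.P.MP_8be758_nt.C2 Pool.Agent.P.MP_8be758_nt.L2
open Pool.Agent.P.MP_e94e4b_nt.LG
open scoped Classical

theorem p_EXP :
    S_EXP := by
  intro k _ p T
  induction T using Finset.induction_on with
  | empty => intro lam; simp [EE, PA, wt]
  | insert x T hx ih =>
    intro lam
    have h1 : EE p (insert x T) lam = EE p T lam + p x * EE p T (fun S => lam (insert x S)) := by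
      simp only [EE]
      rw [sum_powerset_insert hx, mul_sum]
      congr 1
      refine sum_congr rfl fun S hS => ?_
      rw [prod_insert fun h => hx (mem_powerset.1 hS h)]
      ring
    rw [h1, ih, ih, sum_powerset_insert hx, mul_sum, ← sum_add_distrib, ← sum_add_distrib]
    refine sum_congr rfl fun A hA => ?_
    have hA' : x ∉ A := fun h => hx (mem_powerset.1 hA h)
    have e1 : PA p (insert x T) A = (1 - p x) * PA p T A := by
      rw [PA, PA, insert_sdiff_of_notMem _ hA', prod_insert fun h => hx (mem_sdiff.1 h).1]
      ring
    have e2 : PA p (insert x T) (insert x A) = p x * PA p T A := by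
      rw [PA, PA, insert_sdiff_insert, sdiff_insert_of_notMem hx, prod_insert hA']
      ring
    have e3 : wt lam (insert x A) = wt lam A + wt (fun S => lam (insert x S)) A := by
      simp only [wt]
      rw [sum_powerset_insert hA']
    rw [e1, e2, e3]
    ring

end Pool.Agent.P.MP_e94e4b_nt.RP
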