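import Pool.Agent.P.MP_e94e4b_nt.RP.IfS

/-! Step FLB. -/

set_option autoImplicit false
set_option linter.unusedSectionVars false

namespace Pool.Agent.P.MP_e94e4b_nt.RP

open Polynomial Finset
open Pool.Agent.P.MP_8be758_nt Pool.Agent.P.MP_8be758_nt.C2 Pool.Agent.P.MP_8be758_nt.L2
open Pool.Agent.P.MP_e94e4b_nt.LG
open scoped Classical

namespace FLB

variable {k : Type} [Field k]

noncomputable def ps (p : k[X] → ℝ) (S A : Finset k[X]) : ℝ :=
  ∏ Q ∈ S, (if Q ∈ A then -1 else hh p Q)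

theorem ps_split (p : k[X] → ℝ) {T S A : Finset k[X]} (hS : S ⊆ T) (hA : A ⊆ T) :
    ps p S A = (∏ Q ∈ A, (if Q ∈ S then (-1 : ℝ) else 1)) *
      ∏ Q ∈ T \ A, (if Q ∈ S then hh p Q else 1) := by
  have h1 : ps p S A = ∏ Q ∈ T, (if Q ∈ S then (if Q ∈ A then -1 else hh p Q) else 1) := by
    unfold ps
    rw [← Finset.prod_filter]
    refine Finset.prod_congr ?_ (fun _ _ => rfl)
    ext Q
    simp only [Finset.mem_filter]
    exact ⟨fun h => ⟨hS h, h⟩, fun h => h.2⟩
  rw [h1, ← Finset.prod_sdiff hA, mul_comm]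
  refine congrArg₂ (· * ·) ?_ ?_
  · refine Finset.prod_congr rfl (fun Q hQ => ?_)
    simp [hQ]
  · refine Finset.prod_congr rfl (fun Q hQ => ?_)
    have : Q ∉ A := (Finset.mem_sdiff.1 hQ).2
    simp [this]

theorem orth (p : k[X] → ℝ) {T S S' : Finset k[X]} (hp : ∀ P ∈ T, 0 ≤ p P ∧ p P ≤ 1 / 2)
    (hS : S ⊆ T) (hS' : S' ⊆ T) :
    ∑ A ∈ T.powerset, PA p T A * (ps p S A * ps p S' A) =
      if S = S' then ∏ Q ∈ S, hh p Q else 0 := by
  have h1 : ∑ A ∈ T.powerset, PA p T A * (ps p S A * ps p S' A) =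
      ∏ Q ∈ T, (p Q * ((if Q ∈ S then (-1 : ℝ) else 1) * (if Q ∈ S' then (-1 : ℝ) else 1)) +
        (1 - p Q) * ((if Q ∈ S then hh p Q else 1) * (if Q ∈ S' then hh p Q else 1))) := by
    rw [Finset.prod_add]
    refine Finset.sum_congr rfl (fun A hA => ?_)
    have hA' : A ⊆ T := Finset.mem_powerset.1 hA
    rw [ps_split p hS hA', ps_split p hS' hA']
    unfold PA
    simp only [Finset.prod_mul_distrib]
    ring
  rw [h1]
  have hne : ∀ Q ∈ T, (1 - p Q) ≠ 0 := fun Q hQ => by
    have := (hp Q hQ).2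
    linarith
  split_ifs with h
  · subst h
    have h2 : ∏ Q ∈ S, hh p Q = ∏ Q ∈ T, (if Q ∈ S then hh p Q else 1) := by
      rw [← Finset.prod_filter]
      refine Finset.prod_congr ?_ (fun _ _ => rfl)
      ext Q
      simp only [Finset.mem_filter]
      exact ⟨fun h => ⟨hS h, h⟩, fun h => h.2⟩
    rw [h2]
    refine Finset.prod_congr rfl (fun Q hQ => ?_)
    have := hne Q hQ
    by_cases hQS : Q ∈ S
    · simp only [hQS, if_true]
      unfold hh
      field_simp
      ring
    · simp only [hQS, if_false]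
      ring
  · have : ∃ Q, (Q ∈ S ∧ Q ∉ S') ∨ (Q ∉ S ∧ Q ∈ S') := by
      by_contra hc
      apply h
      ext Q
      by_contra hq
      apply hc
      refine ⟨Q, ?_⟩
      by_cases h1 : Q ∈ S <;> by_cases h2 : Q ∈ S' <;> simp_all
    obtain ⟨Q, hQ | hQ⟩ := this
    · refine Finset.prod_eq_zero (hS hQ.1) ?_
      have := hne Q (hS hQ.1)
      simp only [hQ.1, hQ.2, if_true, if_false]
      unfold hh
      field_simp
      ring
    · refine Finset.prod_eq_zero (hS' hQ.2) ?_
      have := hne Q (hS' hQ.2)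
      simp only [hQ.1, hQ.2, if_true, if_false]
      unfold hh
      field_simp
      ring

theorem ps_insert_right (p : k[X] → ℝ) {S A : Finset k[X]} {P : k[X]} (hP : P ∉ S) :
    ps p S (insert P A) = ps p S A := by
  unfold ps
  refine Finset.prod_congr rfl (fun Q hQ => ?_)
  have : Q ≠ P := fun h => hP (h ▸ hQ)
  simp [this]

theorem FA_insert (p : k[X] → ℝ) (R : ℕ) {T A : Finset k[X]} {P : k[X]} (hP : P ∉ T) :
    FA p (insert P T) R (insert P A) =
      ∑ S ∈ T.powerset.filter (fun S => dg S ≤ R ∧ R < dg S + P.natDegree), ps p S A := by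
  have h0 : FA p (insert P T) R (insert P A) =
      ∑ S ∈ (insert P T).powerset, (if dg S ≤ R then ps p S (insert P A) else 0) := by
    unfold FA ps
    rw [Finset.sum_filter]
  rw [h0, Finset.sum_powerset_insert hP, ← Finset.sum_add_distrib, Finset.sum_filter]
  refine Finset.sum_congr rfl (fun S hS => ?_)
  have hPS : P ∉ S := fun h => hP (Finset.mem_powerset.1 hS h)
  have h1 : dg (insert P S) = P.natDegree + dg S := by
    unfold dg
    rw [Finset.sum_insert hPS]
  have h2 : ps p (insert P S) (insert P A) = - ps p S A := by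
    rw [← ps_insert_right p (A := A) hPS]
    unfold ps
    rw [Finset.prod_insert hPS]
    simp
  rw [h1, h2, ps_insert_right p hPS]
  by_cases ha : dg S ≤ R
  · by_cases hb : R < dg S + P.natDegree
    · have hc : ¬ (P.natDegree + dg S ≤ R) := by omega
      simp [ha, hb, hc]
    · have hc : P.natDegree + dg S ≤ R := by omega
      simp [ha, hb, hc]
  · have hc : ¬ (P.natDegree + dg S ≤ R) := by omega
    simp [ha, hc]

theorem PA_insert (p : k[X] → ℝ) {T A : Finset k[X]} {P : k[X]} (hP : P ∉ T) (hA : A ⊆ T) :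
    PA p (insert P T) (insert P A) = p P * PA p T A := by
  have hPA : P ∉ A := fun h => hP (hA h)
  unfold PA
  rw [Finset.prod_insert hPA]
  have : insert P T \ insert P A = T \ A := by
    ext Q
    simp only [Finset.mem_sdiff, Finset.mem_insert]
    constructor
    · rintro ⟨h1 | h1, h2⟩
      · exact absurd (Or.inl h1) h2
      · exact ⟨h1, fun h => h2 (Or.inr h)⟩
    · rintro ⟨h1, h2⟩
      refine ⟨Or.inr h1, ?_⟩
      rintro (h | h)
      · exact hP (h ▸ h1)
      · exact h2 h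
  rw [this]
  ring

theorem sq_sum (p : k[X] → ℝ) {T : Finset k[X]} (hp : ∀ P ∈ T, 0 ≤ p P ∧ p P ≤ 1 / 2)
    (F : Finset (Finset k[X])) (hF : ∀ S ∈ F, S ⊆ T) :
    ∑ A ∈ T.powerset, PA p T A * (∑ S ∈ F, ps p S A) ^ 2 = ∑ S ∈ F, ∏ Q ∈ S, hh p Q := by
  have h1 : ∀ A : Finset k[X], PA p T A * (∑ S ∈ F, ps p S A) ^ 2 =
      ∑ S ∈ F, ∑ S' ∈ F, PA p T A * (ps p S A * ps p S' A) := by
    intro A
    rw [sq, Finset.sum_mul_sum, Finset.mul_sum]
    refine Finset.sum_congr rfl (fun S _ => ?_)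
    rw [Finset.mul_sum]
  simp only [h1]
  rw [Finset.sum_comm]
  refine Finset.sum_congr rfl (fun S hS => ?_)
  rw [Finset.sum_comm]
  have h2 : ∀ S' ∈ F, ∑ A ∈ T.powerset, PA p T A * (ps p S A * ps p S' A) =
      if S = S' then ∏ Q ∈ S, hh p Q else 0 := fun S' hS' => orth p hp (hF S hS) (hF S' hS')
  rw [Finset.sum_congr rfl h2, Finset.sum_ite_eq]
  simp [hS]

theorem one_prime (p : k[X] → ℝ) (R : ℕ) {T : Finset k[X]} {P : k[X]} (hP : P ∉ T)
    (hp : ∀ P ∈ T, 0 ≤ p P ∧ p P ≤ 1 / 2) :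
    ∑ A ∈ (insert P T).powerset,
        (if P ∈ A then PA p (insert P T) A * FA p (insert P T) R A ^ 2 else 0) =
      p P * ∑ S ∈ T.powerset.filter (fun S => dg S ≤ R ∧ R < dg S + P.natDegree),
        ∏ Q ∈ S, hh p Q := by
  rw [Finset.sum_powerset_insert hP]
  have h0 : ∑ A ∈ T.powerset,
      (if P ∈ A then PA p (insert P T) A * FA p (insert P T) R A ^ 2 else 0) = 0 := by
    refine Finset.sum_eq_zero (fun A hA => ?_)
    have : P ∉ A := fun h => hP (Finset.mem_powerset.1 hA h)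
    simp [this]
  rw [h0, zero_add, ← sq_sum p hp _
    (fun S hS => Finset.mem_powerset.1 (Finset.mem_filter.1 hS).1), Finset.mul_sum]
  refine Finset.sum_congr rfl (fun A hA => ?_)
  rw [if_pos (Finset.mem_insert_self P A), PA_insert p hP (Finset.mem_powerset.1 hA),
    FA_insert p R hP]
  ring

end FLB

theorem p_FLB :
    S_FLB := by
  intro k _ p T R hp
  have h1 : ∀ A ∈ T.powerset, PA p T A * (FA p T R A ^ 2 * (A.card : ℝ)) =
      ∑ P ∈ T, (if P ∈ A then PA p T A * FA p T R A ^ 2 else 0) := by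
    intro A hA
    have hA' : A ⊆ T := Finset.mem_powerset.1 hA
    rw [← Finset.sum_filter]
    have : T.filter (fun P => P ∈ A) = A := by
      ext Q
      simp only [Finset.mem_filter]
      exact ⟨fun h => h.2, fun h => ⟨hA' h, h⟩⟩
    rw [this, Finset.sum_const, nsmul_eq_mul]
    ring
  rw [Finset.sum_congr rfl h1, Finset.sum_comm]
  unfold XR
  refine Finset.sum_congr rfl (fun P hP => ?_)
  have h2 := FLB.one_prime p R (T := T.erase P) (P := P) (Finset.notMem_erase P T)
    (fun Q hQ => hp Q (Finset.mem_of_mem_erase hQ))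
  rw [Finset.insert_erase hP] at h2
  exact h2

end Pool.Agent.P.MP_e94e4b_nt.RP
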