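import Pool.Agent.P.MP_e94e4b_nt.RP.IfS

/-! Step RAN. -/

set_option autoImplicit false
set_option linter.unusedSectionVars false

namespace Pool.Agent.P.MP_e94e4b_nt.RP

open Polynomial Finset
open Pool.Agent.P.MP_8be758_nt Pool.Agent.P.MP_8be758_nt.C2 Pool.Agent.P.MP_8be758_nt.L2
open Pool.Agent.P.MP_e94e4b_nt.LG
open scoped Classical

theorem ran_exp {u : ℝ} (h0 : 0 ≤ u) (h1 : u ≤ 1) : Real.exp (2 * u) ≤ 1 + 7 * u := by
  have h := convexOn_exp.2 (Set.mem_univ 0) (Set.mem_univ 2) (sub_nonneg.2 h1) h0 (by ring)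
  have e : Real.exp 2 ≤ 8 := by
    have h2 := Real.exp_one_lt_d9
    have h3 := Real.exp_pos 1
    rw [show (2 : ℝ) = 1 + 1 by norm_num, Real.exp_add]
    nlinarith
  simp only [smul_eq_mul, mul_zero, zero_add, Real.exp_zero, mul_one] at h
  rw [mul_comm]
  nlinarith

theorem ran_sum (k : Type) [Field k] [Finite k] (Z : ℕ) :
    ∑ P ∈ Pr k Z, (P.natDegree : ℝ) / qq k ^ P.natDegree ≤ Z := by
  rw [← sum_fiberwise_of_maps_to (g := fun P : k[X] => P.natDegree) (t := Icc 1 Z)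
    (fun P hP => mem_Icc.2 ⟨(mem_Pr.1 hP).1.pos, (mem_Pr.1 hP).2⟩)]
  refine (sum_le_card_nsmul _ _ 1 fun a ha => ?_).trans_eq (by simp)
  have e : (Pr k Z).filter (fun P => P.natDegree = a) = Pd k a := by
    ext P
    rw [mem_filter, mem_Pr, mem_Pd]
    exact ⟨fun h => ⟨h.1.1, h.2⟩, fun h => ⟨⟨h.1, h.2 ▸ (mem_Icc.1 ha).2⟩, h.2⟩⟩
  rw [e, sum_congr rfl (g := fun _ => (a : ℝ) / qq k ^ a) fun P hP => by rw [(mem_Pd.1 hP).2],
    sum_const, nsmul_eq_mul, ← mul_div_assoc, div_le_one (pow_pos qq_pos _), mul_comm]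
  exact (a_GAUSS k a (mem_Icc.1 ha).1).1

theorem p_RAN :
    S_RAN := by
  refine ⟨Real.exp 14, Real.one_le_exp (by norm_num), fun k _ _ p T Z s hT hZ hp => ?_⟩
  have Z0 : (0 : ℝ) < Z := by exact_mod_cast hZ
  set w : k[X] → ℝ := fun P => Real.exp (2 * ((P.natDegree : ℝ) / Z)) with hw
  have q0 : ∀ P ∈ T, 0 < 1 - p P := fun P hP => by linarith [(hp P hP).2.1]
  have h0 : ∀ P ∈ T, 0 ≤ hh p P := fun P hP => div_nonneg (hp P hP).1 (q0 P hP).le
  have V0 : 0 ≤ VV p T := prod_nonneg fun P hP => (q0 P hP).le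
  have h1 : (∑ S ∈ T.powerset.filter (fun S => s * Z < dg S), (dg S : ℝ) * ∏ P ∈ S, hh p P) *
      2 ^ s ≤ Z * ∏ P ∈ T, (1 + hh p P * w P) := by
    rw [prod_one_add, sum_mul, mul_sum]
    refine (sum_le_sum fun S hS => ?_).trans (sum_le_sum_of_subset_of_nonneg (filter_subset _ _)
      fun S hS _ => mul_nonneg Z0.le (prod_nonneg fun P hP =>
        mul_nonneg (h0 P (mem_powerset.1 hS hP)) (Real.exp_pos _).le))
    obtain ⟨hS1, hS2⟩ := mem_filter.1 hS
    have a0 : 0 ≤ ∏ P ∈ S, hh p P := prod_nonneg fun P hP => h0 P (mem_powerset.1 hS1 hP)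
    have a1 : ∏ P ∈ S, w P = Real.exp (dg S / Z) * Real.exp (dg S / Z) := by
      rw [hw, ← Real.exp_sum, ← Real.exp_add, ← mul_sum, ← sum_div, dg, Nat.cast_sum, two_mul]
    have a2 : (dg S : ℝ) / Z ≤ Real.exp (dg S / Z) := by linarith [Real.add_one_le_exp ((dg S : ℝ) / Z)]
    have a3 : (2 : ℝ) ^ s ≤ Real.exp (dg S / Z) := by
      have b1 : (s : ℝ) ≤ dg S / Z := by
        rw [le_div_iff₀ Z0]; exact_mod_cast hS2.le
      have b2 : (2 : ℝ) ^ s ≤ Real.exp 1 ^ s :=
        pow_le_pow_left₀ (by norm_num) (by linarith [Real.add_one_le_exp 1]) s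
      rw [Real.exp_one_pow] at b2
      exact b2.trans (Real.exp_le_exp.2 b1)
    rw [prod_mul_distrib, a1]
    rw [div_le_iff₀ Z0] at a2
    have a4 := mul_le_mul a2 a3 (by positivity) (by positivity)
    calc _ = (dg S : ℝ) * 2 ^ s * ∏ P ∈ S, hh p P := by ring
      _ ≤ _ := (mul_le_mul_of_nonneg_right a4 a0).trans_eq (by ring)
  have h2 : (∏ P ∈ T, (1 + hh p P * w P)) * VV p T ≤ Real.exp 14 := by
    rw [VV, ← prod_mul_distrib]
    refine (prod_le_prod (g := fun P => Real.exp (14 / Z * (P.natDegree / qq k ^ P.natDegree)))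
      (fun P hP => mul_nonneg (add_nonneg zero_le_one (mul_nonneg (h0 P hP) (Real.exp_pos _).le))
        (q0 P hP).le) fun P hP => ?_).trans ?_
    · have b0 : (0 : ℝ) ≤ P.natDegree / Z := by positivity
      have b1 : (P.natDegree : ℝ) / Z ≤ 1 := by
        rw [div_le_one Z0]; exact_mod_cast (mem_Pr.1 (hT hP)).2
      have b2 : w P ≤ 1 + 7 * (P.natDegree / Z) := ran_exp b0 b1
      have b3 : (1 + hh p P * w P) * (1 - p P) = p P * (w P - 1) + 1 := by
        have := (q0 P hP).ne'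
        rw [hh]; field_simp; ring
      rw [b3]
      refine le_trans ?_ (Real.add_one_le_exp _)
      have b4 : p P * (w P - 1) ≤ pc 2 P * (7 * (P.natDegree / Z)) :=
        (mul_le_mul_of_nonneg_left (by linarith) (hp P hP).1).trans
          (mul_le_mul_of_nonneg_right (hp P hP).2.2 (by positivity))
      have b5 : pc 2 P * (7 * (P.natDegree / Z)) = 14 / Z * (P.natDegree / qq k ^ P.natDegree) := by
        rw [pc]; ring
      linarith
    · rw [← Real.exp_sum, ← mul_sum]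
      refine Real.exp_le_exp.2 ?_
      have b := (sum_le_sum_of_subset_of_nonneg hT fun P _ _ =>
        div_nonneg (Nat.cast_nonneg P.natDegree) (pow_pos (qq_pos (k := k)) P.natDegree).le).trans
        (ran_sum k Z)
      exact (mul_le_mul_of_nonneg_left b (by positivity)).trans_eq (by field_simp)
  rw [← mul_assoc]
  refine (mul_le_mul_of_nonneg_right h1 V0).trans ?_
  rw [mul_assoc, mul_comm]
  exact mul_le_mul_of_nonneg_right h2 Z0.le

end Pool.Agent.P.MP_e94e4b_nt.RP
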