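import Pool.Agent.P.MP_e94e4b_nt.RP.IfS

/-! Step MER1. -/

set_option autoImplicit false
set_option linter.unusedSectionVars false

namespace Pool.Agent.P.MP_e94e4b_nt.RP

open Polynomial Finset
open Pool.Agent.P.MP_8be758_nt Pool.Agent.P.MP_8be758_nt.C2 Pool.Agent.P.MP_8be758_nt.L2
open Pool.Agent.P.MP_e94e4b_nt.LG
open scoped Classical

namespace MER1x

variable {k : Type} [Field k] [Finite k]

/-- the harmonic sum over the polynomials made of the primes of `s` -/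
noncomputable def HS (Z : ℕ) (s : Finset k[X]) : ℝ :=
  ∑ m ∈ (Mle k Z).filter (fun m => pf m ⊆ s), pc 1 m

theorem pc_nonneg (m : k[X]) : 0 ≤ pc 1 m := div_nonneg zero_le_one (pow_pos qq_pos _).le

theorem pc_lt {P : k[X]} (h : IsPr P) : 0 < 1 - pc 1 P :=
  sub_pos.2 ((div_lt_one (pow_pos qq_pos _)).2
    (one_lt_pow₀ (by linarith [two_le_qq (k := k)]) (by have := h.pos; omega)))

theorem step (Z : ℕ) (s : Finset k[X]) {P : k[X]} (h : IsPr P) :
    HS Z (insert P s) ≤ HS Z s + pc 1 P * HS Z (insert P s) := by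
  unfold HS
  conv_lhs => rw [← sum_filter_not_add_sum_filter _ (P ∣ ·)]
  refine add_le_add (sum_le_sum_of_subset_of_nonneg (fun m hm => ?_) fun _ _ _ => pc_nonneg _) ?_
  · obtain ⟨h1, h2⟩ := mem_filter.1 hm
    obtain ⟨h3, h4⟩ := mem_filter.1 h1
    exact mem_filter.2 ⟨h3, fun Q hQ => (mem_insert.1 (h4 hQ)).resolve_left fun e =>
      h2 (e ▸ ((mem_pf (mem_Mle.1 h3).1.ne_zero).1 hQ).2)⟩
  · have e : ∀ m ∈ (Mle k Z).filter (fun m => pf m ⊆ insert P s), pc 1 P * pc 1 m = pc 1 (P * m) :=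
      fun m hm => by
        rw [pc, pc, pc, h.1.natDegree_mul (mem_Mle.1 (mem_filter.1 hm).1).1, pow_add,
          div_mul_div_comm, one_mul]
    rw [mul_sum, sum_congr rfl e,
      ← sum_image (f := pc 1) fun a _ b _ e => mul_left_cancel₀ h.ne_zero e]
    refine sum_le_sum_of_subset_of_nonneg (fun m hm => ?_) fun _ _ _ => pc_nonneg _
    obtain ⟨h1, c, rfl⟩ := mem_filter.1 hm
    obtain ⟨h3, h4⟩ := mem_filter.1 h1
    obtain ⟨h5, h6⟩ := mem_Mle.1 h3
    have c1 : c.Monic := h.1.of_mul_monic_left h5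
    rw [h.1.natDegree_mul c1] at h6
    refine mem_image_of_mem _ (mem_filter.2 ⟨mem_Mle.2 ⟨c1, by omega⟩, fun Q hQ => h4 ?_⟩)
    obtain ⟨a, b⟩ := (mem_pf c1.ne_zero).1 hQ
    exact (mem_pf h5.ne_zero).2 ⟨a, b.mul_left _⟩

theorem bound (Z : ℕ) (s : Finset k[X]) (hs : ∀ P ∈ s, IsPr P) : VV (pc 1) s * HS Z s ≤ 1 := by
  induction s using Finset.induction_on with
  | empty =>
    have : (Mle k Z).filter (fun m => pf m ⊆ ∅) ⊆ {1} := fun m hm => by
      obtain ⟨h1, h2⟩ := mem_filter.1 hm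
      have h3 := (mem_Mle.1 h1).1
      by_contra h4
      obtain ⟨P, a, b, c⟩ := exists_monic_irreducible_factor m
        fun u => h4 (mem_singleton.2 (h3.eq_one_of_isUnit u))
      exact notMem_empty _ (h2 ((mem_pf h3.ne_zero).2 ⟨⟨a, b⟩, c⟩))
    rw [VV, prod_empty, one_mul]
    exact (sum_le_sum_of_subset_of_nonneg this fun _ _ _ => pc_nonneg _).trans (by simp [pc])
  | insert P s hP ih =>
    have h1 := step Z s (hs P (mem_insert_self _ _))
    have h2 : ∀ Q ∈ s, IsPr Q := fun Q hQ => hs Q (mem_insert_of_mem hQ)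
    have h3 : 0 ≤ VV (pc 1) s := prod_nonneg fun Q hQ => (pc_lt (h2 Q hQ)).le
    rw [VV, prod_insert hP, mul_comm (1 - _), mul_assoc]
    exact (mul_le_mul_of_nonneg_left (by linarith) h3).trans (ih h2)

theorem full (Z : ℕ) : HS Z (Pr k Z) = Z + 1 := by
  have h : ∀ m ∈ Mle k Z, pf m ⊆ Pr k Z := fun m hm =>
    (filter_subset _ _).trans (Pr_mono (mem_Mle.1 hm).2)
  rw [HS, filter_true_of_mem h,
    ← sum_fiberwise_of_maps_to (t := range (Z + 1)) (g := natDegree)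
      fun m hm => mem_range.2 (Nat.lt_succ_of_le (mem_Mle.1 hm).2),
    sum_congr rfl (g := fun _ => (1 : ℝ)) fun j hj => ?_]
  · simp
  · have : (Mle k Z).filter (fun m => m.natDegree = j) = Mo k j := by
      ext m
      have := mem_range.1 hj
      rw [mem_filter, mem_Mle, mem_Mo]
      exact ⟨fun h => ⟨h.1.1, h.2⟩, fun h => ⟨⟨h.1, by omega⟩, h.2⟩⟩
    rw [this, sum_congr rfl (g := fun _ => 1 / qq k ^ j) fun m hm => by rw [pc, (mem_Mo.1 hm).2],
      sum_const, nsmul_eq_mul, card_Mo, mul_one_div_cancel (pow_pos qq_pos _).ne']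

end MER1x

theorem p_MER1 :
    S_MER1 := fun k _ _ Z =>
  ⟨prod_pos fun P hP => MER1x.pc_lt (isPr_Pr P hP),
    MER1x.full (k := k) Z ▸ MER1x.bound Z _ isPr_Pr⟩

end Pool.Agent.P.MP_e94e4b_nt.RP
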