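import Pool.Agent.P.MP_e94e4b_nt.RP.BasT

/-! Basic facts on the densities and divisor sums. -/

namespace Pool.Agent.P.MP_e94e4b_nt.RP

open Polynomial Finset
open Pool.Agent.P.MP_8be758_nt Pool.Agent.P.MP_8be758_nt.C2 Pool.Agent.P.MP_8be758_nt.L2
open Pool.Agent.P.MP_e94e4b_nt.LG
open scoped Classical

variable {k : Type} [Field k]

theorem av_nonneg (T : Finset k[X]) (f : k[X]) : 0 ≤ av T f := by
  unfold av; split_ifs <;> norm_num

theorem av_le_one (T : Finset k[X]) (f : k[X]) : av T f ≤ 1 := by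
  unfold av; split_ifs <;> norm_num

theorem abs_av (T : Finset k[X]) (f : k[X]) : |av T f| = av T f := abs_of_nonneg (av_nonneg T f)

theorem av_of {T : Finset k[X]} {f : k[X]} (h : Av T f) : av T f = 1 := if_pos h

theorem av_of_not {T : Finset k[X]} {f : k[X]} (h : ¬ Av T f) : av T f = 0 := if_neg h

theorem Av.of_dvd {T : Finset k[X]} {f d : k[X]} (h : Av T f) (hd : d ∣ f) : Av T d :=
  fun P hP h' => h P hP (h'.trans hd)

theorem Av.mono {T T' : Finset k[X]} {f : k[X]} (h : Av T f) (hT : T' ⊆ T) : Av T' f :=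
  fun P hP => h P (hT hP)

theorem Av_mul {T : Finset k[X]} (hT : ∀ P ∈ T, IsPr P) {f g : k[X]} :
    Av T (f * g) ↔ Av T f ∧ Av T g :=
  ⟨fun h => ⟨h.of_dvd (dvd_mul_right _ _), h.of_dvd (dvd_mul_left _ _)⟩,
    fun h P hP hd => ((hT P hP).prime.dvd_or_dvd hd).elim (h.1 P hP) (h.2 P hP)⟩

theorem av_mul {T : Finset k[X]} (hT : ∀ P ∈ T, IsPr P) (f g : k[X]) :
    av T (f * g) = av T f * av T g := by
  unfold av
  by_cases h1 : Av T f <;> by_cases h2 : Av T g <;> simp [Av_mul hT, h1, h2]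

theorem av_mono {T T' : Finset k[X]} (hT : T' ⊆ T) (f : k[X]) : av T f ≤ av T' f := by
  by_cases h : Av T f
  · rw [av_of h, av_of (h.mono hT)]
  · rw [av_of_not h]; exact av_nonneg _ _

/-- a polynomial that avoids `T` is coprime to products of primes of `T` -/
theorem Av.coprime {T S : Finset k[X]} {f : k[X]} (h : Av T f) (hS : S ⊆ T)
    (hp : ∀ P ∈ S, IsPr P) : IsCoprime (pr S) f :=
  IsCoprime.prod_left fun P hP => (hp P hP).2.coprime_iff_not_dvd.2 (h P (hS hP))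

theorem abs_ma_le (T : Finset k[X]) (d : k[X]) : |ma T d| ≤ av T d := by
  rw [ma, abs_mul, abs_av]
  exact mul_le_of_le_one_left (av_nonneg _ _) (abs_mu_le _)

theorem bd_av (T : Finset k[X]) : Bd (av T) := fun d => by rw [abs_av]; exact av_le_one _ _

theorem bd_ma (T : Finset k[X]) : Bd (ma T) := fun d => (abs_ma_le T d).trans (av_le_one _ _)

theorem on_av (T : Finset k[X]) : On T (av T) := fun _ h => by
  by_contra h'; exact h (av_of_not h')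

theorem on_ma (T : Finset k[X]) : On T (ma T) := fun d h => on_av T d (right_ne_zero_of_mul h)

theorem On.mono {T T' : Finset k[X]} {α : k[X] → ℝ} (h : On T α) (hT : T' ⊆ T) : On T' α :=
  fun d hd => (h d hd).mono hT

theorem On.abs {T : Finset k[X]} {α : k[X] → ℝ} (h : On T α) : On T fun d => |α d| :=
  fun d hd => h d (abs_ne_zero.1 hd)

theorem Bd.abs {α : k[X] → ℝ} (h : Bd α) : Bd fun d => |α d| := fun d => by
  rw [abs_abs]; exact h d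

theorem abs_le_av {T : Finset k[X]} {α : k[X] → ℝ} (h1 : Bd α) (h2 : On T α) (d : k[X]) :
    |α d| ≤ av T d := by
  by_cases h : α d = 0
  · rw [h, abs_zero]; exact av_nonneg _ _
  · rw [av_of (h2 d h)]; exact h1 d

theorem sqf_of_ma {T : Finset k[X]} {d : k[X]} (h : ma T d ≠ 0) : Squarefree d := by
  by_contra h'; exact h (by rw [ma, mu_of_not_squarefree h', zero_mul])

theorem Lv.mono {T : Finset k[X]} {δ δ' : ℕ} {lam : Finset k[X] → ℝ} (h : Lv T δ lam)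
    (hd : δ ≤ δ') : Lv T δ' lam :=
  ⟨fun S hS => ⟨(h.1 S hS).1, (h.1 S hS).2.trans hd⟩, h.2⟩

/-- the weight sees only the part inside `T` -/
theorem wt_inter {T : Finset k[X]} {lam : Finset k[X] → ℝ} (h : ∀ S, lam S ≠ 0 → S ⊆ T)
    (A : Finset k[X]) : wt lam A = wt lam (A ∩ T) := by
  unfold wt
  refine (sum_subset (powerset_mono.2 inter_subset_left) fun S h1 h2 => ?_).symm
  by_contra h3
  exact h2 (mem_powerset.2 (subset_inter (mem_powerset.1 h1) (h S h3)))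

theorem Sv.mono {p : k[X] → ℝ} {T : Finset k[X]} {δ : ℕ} {E E' : ℝ} {lam xi : Finset k[X] → ℝ}
    (h : Sv p T δ E lam xi) (hE : E ≤ E') : Sv p T δ E' lam xi :=
  { h with
    e2 := h.e2.trans (mul_le_mul_of_nonneg_right (by linarith) h.e0)
    e4 := h.e4.trans (mul_le_mul_of_nonneg_right hE h.e0) }

variable [Finite k]

theorem QQ_pos (h : k[X]) (M : ℕ) : 0 < QQ h M :=
  div_pos (pow_pos qq_pos _) (pow_pos qq_pos _)

theorem QQ_le (h : k[X]) (M : ℕ) : QQ h M ≤ qq k ^ M :=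
  div_le_self (pow_pos qq_pos _).le (one_le_pow₀ one_le_qq)

theorem isPr_Pr {Z : ℕ} : ∀ P ∈ Pr k Z, IsPr P := fun _ h => (mem_Pr.1 h).1

theorem T2_sub (h : k[X]) (Z : ℕ) : T2 h Z ⊆ Pr k Z := sdiff_subset

theorem isPr_T2 {h : k[X]} {Z : ℕ} : ∀ P ∈ T2 h Z, IsPr P := fun P hP => isPr_Pr P (T2_sub h Z hP)

theorem mem_T2 {h P : k[X]} {Z : ℕ} (h0 : h ≠ 0) :
    P ∈ T2 h Z ↔ IsPr P ∧ P.natDegree ≤ Z ∧ ¬ P ∣ h := by
  rw [T2, mem_sdiff, mem_Pr, mem_pf h0]; tauto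

theorem mem_JJ {a b : ℕ} {P : k[X]} :
    P ∈ JJ k a b ↔ IsPr P ∧ a < P.natDegree ∧ P.natDegree ≤ b := by
  rw [JJ, mem_sdiff, mem_Pr, mem_Pr]
  exact ⟨fun h => ⟨h.1.1, not_le.1 fun h' => h.2 ⟨h.1.1, h'⟩, h.1.2⟩,
    fun h => ⟨⟨h.1, h.2.2⟩, fun h' => absurd h'.2 (not_le.2 h.2.1)⟩⟩

theorem Pr_mono {a b : ℕ} (h : a ≤ b) : Pr k a ⊆ Pr k b := fun _ hP =>
  mem_Pr.2 ⟨(mem_Pr.1 hP).1, (mem_Pr.1 hP).2.trans h⟩

theorem Av_Pr {Z : ℕ} {f : k[X]} : Av (Pr k Z) f ↔ ∀ P, IsPr P → P ∣ f → Z < P.natDegree :=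
  ⟨fun h P hP hd => not_le.1 fun h' => h P (mem_Pr.2 ⟨hP, h'⟩) hd,
    fun h P hP hd => absurd (mem_Pr.1 hP).2 (not_le.2 (h P (mem_Pr.1 hP).1 hd))⟩

theorem Av_iff {T : Finset k[X]} (hT : ∀ P ∈ T, IsPr P) {f : k[X]} (h0 : f ≠ 0) :
    Av T f ↔ Disjoint (pf f) T :=
  ⟨fun h => disjoint_left.2 fun P hP hP' => h P hP' ((mem_pf h0).1 hP).2,
    fun h P hP hd => disjoint_left.1 h ((mem_pf h0).2 ⟨hT P hP, hd⟩) hP⟩

theorem mn_mono {j : ℕ} {α α' : k[X] → ℝ} (h : ∀ d ∈ Mo k j, α d ≤ α' d) : mn j α ≤ mn j α' :=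
  div_le_div_of_nonneg_right (sum_le_sum h) (pow_pos qq_pos _).le

theorem mn_nonneg {j : ℕ} {α : k[X] → ℝ} (h : ∀ d, 0 ≤ α d) : 0 ≤ mn j α :=
  div_nonneg (sum_nonneg fun d _ => h d) (pow_pos qq_pos _).le

theorem abs_mn_le (j : ℕ) (α : k[X] → ℝ) : |mn j α| ≤ mn j fun d => |α d| := by
  rw [mn, abs_div, abs_of_pos (pow_pos qq_pos _)]
  exact div_le_div_of_nonneg_right (abs_sum_le_sum_abs _ _) (pow_pos qq_pos _).le

theorem mn_add (j : ℕ) (α α' : k[X] → ℝ) :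
    mn j (fun d => α d + α' d) = mn j α + mn j α' := by
  simp only [mn, sum_add_distrib, add_div]

theorem mn_sub (j : ℕ) (α α' : k[X] → ℝ) :
    mn j (fun d => α d - α' d) = mn j α - mn j α' := by
  simp only [mn, sum_sub_distrib, sub_div]

theorem mn_one (j : ℕ) : mn j (fun _ : k[X] => (1 : ℝ)) = 1 := by
  rw [mn, sum_const, nsmul_eq_mul, mul_one, card_Mo, div_self (pow_pos qq_pos _).ne']

theorem rho_nonneg (T : Finset k[X]) (j : ℕ) : 0 ≤ rho T j := mn_nonneg (av_nonneg T)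

theorem rho_le_one (T : Finset k[X]) (j : ℕ) : rho T j ≤ 1 :=
  (mn_mono fun d _ => av_le_one T d).trans_eq (mn_one j)

theorem rho_mono {T T' : Finset k[X]} (h : T' ⊆ T) (j : ℕ) : rho T j ≤ rho T' j :=
  mn_mono fun d _ => av_mono h d

theorem abs_mn_le_rho {T : Finset k[X]} {α : k[X] → ℝ} (h1 : Bd α) (h2 : On T α) (j : ℕ) :
    |mn j α| ≤ rho T j := (abs_mn_le j α).trans (mn_mono fun d _ => abs_le_av h1 h2 d)

theorem abs_mm_le (T : Finset k[X]) (j : ℕ) : |mm T j| ≤ rho T j :=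
  abs_mn_le_rho (bd_ma T) (on_ma T) j

theorem DS_nonneg {j : ℕ} {α : k[X] → ℝ} (h : ∀ d, 0 ≤ α d) (f : k[X]) : 0 ≤ DS j α f :=
  sum_nonneg fun d _ => h d

theorem DS_mono {j : ℕ} {α α' : k[X] → ℝ} (h : ∀ d, α d ≤ α' d) (f : k[X]) :
    DS j α f ≤ DS j α' f := sum_le_sum fun d _ => h d

theorem abs_DS_le (j : ℕ) (α : k[X] → ℝ) (f : k[X]) : |DS j α f| ≤ DS j (fun d => |α d|) f :=
  abs_sum_le_sum_abs _ _

/-- a set of monic divisors has at most `nd` members -/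
theorem card_le_nd {m : k[X]} (h0 : m ≠ 0) {S : Finset k[X]} (hS : ∀ d ∈ S, d.Monic ∧ d ∣ m) :
    (S.card : ℝ) ≤ nd m := by
  unfold nd
  exact_mod_cast card_le_card fun d hd => mem_filter.2
    ⟨mem_Mle.2 ⟨(hS d hd).1, natDegree_le_of_dvd (hS d hd).2 h0⟩, (hS d hd).2⟩

theorem DS_le_nd {j : ℕ} {α : k[X] → ℝ} (h : Bd α) {m : k[X]} (h0 : m ≠ 0) :
    |DS j α m| ≤ nd m := by
  refine (abs_sum_le_sum_abs _ _).trans ((sum_le_card_nsmul _ _ (1 : ℝ) fun d _ => h d).trans ?_)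
  rw [nsmul_eq_mul, mul_one]
  exact card_le_nd h0 fun d hd => ⟨(mem_Mo.1 (mem_filter.1 hd).1).1, (mem_filter.1 hd).2⟩

/-- the number of monic multiples -/
theorem card_Mo_dvd {d : k[X]} (h0 : d ≠ 0) {j : ℕ} (h : d.natDegree ≤ j) :
    (((Mo k j).filter fun f => d ∣ f).card : ℝ) = qq k ^ j / qq k ^ d.natDegree := by
  rw [← card_Gs h0 0 h]
  congr 2
  ext f
  simp [mem_Mo, mem_Gs, and_assoc]

/-- factorisations: a sum over divisors is a sum over pairs -/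
theorem sum_Mo_dvd {i j : ℕ} (G : k[X] → k[X] → ℝ) :
    ∑ f ∈ Mo k (i + j), ∑ d ∈ (Mo k i).filter (fun d => d ∣ f), G d (f /ₘ d) =
      ∑ d ∈ Mo k i, ∑ e ∈ Mo k j, G d e := by
  simp only [sum_filter]
  rw [sum_comm]
  refine sum_congr rfl fun d hd => ?_
  obtain ⟨d1, d2⟩ := mem_Mo.1 hd
  rw [← sum_filter]
  refine (sum_bij (fun e _ => d * e) (fun e he => ?_) (fun e _ e' _ h => ?_) (fun f hf => ?_)
    fun e _ => by rw [mul_divByMonic_cancel_left _ d1]).symm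
  · obtain ⟨e1, e2⟩ := mem_Mo.1 he
    exact mem_filter.2 ⟨mem_Mo.2 ⟨d1.mul e1, by rw [d1.natDegree_mul e1, d2, e2]⟩,
      dvd_mul_right _ _⟩
  · exact mul_left_cancel₀ d1.ne_zero h
  · obtain ⟨f1, c, rfl⟩ := mem_filter.1 hf
    obtain ⟨f2, f3⟩ := mem_Mo.1 f1
    have c1 : c.Monic := d1.of_mul_monic_left f2
    rw [d1.natDegree_mul c1] at f3
    exact ⟨c, mem_Mo.2 ⟨c1, by omega⟩, rfl⟩

end Pool.Agent.P.MP_e94e4b_nt.RP
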