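import Pool.Agent.P.MP_e94e4b_nt.RP.DefsS
import Pool.Agent.P.MP_e94e4b_nt.RP.Bas

/-! The fundamental lemma and the densities, as statements. -/

namespace Pool.Agent.P.MP_e94e4b_nt.RP

open Polynomial Finset
open Pool.Agent.P.MP_8be758_nt Pool.Agent.P.MP_8be758_nt.C2 Pool.Agent.P.MP_8be758_nt.L2
open Pool.Agent.P.MP_e94e4b_nt.LG
open scoped Classical

-- deps:
def S_EXP : Prop :=
  ∀ (k : Type) [Field k] (p : k[X] → ℝ) (T : Finset k[X]) (lam : Finset k[X] → ℝ),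
    EE p T lam = ∑ A ∈ T.powerset, PA p T A * wt lam A

-- deps:
def S_FLA : Prop :=
  ∀ (k : Type) [Field k] (p : k[X] → ℝ) (T : Finset k[X]) (R Z : ℕ),
    (∀ P ∈ T, 0 ≤ p P ∧ p P ≤ 1 / 2 ∧ P.natDegree ≤ Z) →
    1 ≤ GR p T R ∧ ∃ lam xi : Finset k[X] → ℝ, Lv T (2 * R + Z) lam ∧ Lv T (2 * R + Z) xi ∧
      ∀ A, wt lam A = (FA p T R A / GR p T R) ^ 2 ∧
        wt xi A = (FA p T R A / GR p T R) ^ 2 * ((A ∩ T).card : ℝ)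

-- deps:
def S_FLB : Prop :=
  ∀ (k : Type) [Field k] (p : k[X] → ℝ) (T : Finset k[X]) (R : ℕ),
    (∀ P ∈ T, 0 ≤ p P ∧ p P ≤ 1 / 2) →
    ∑ A ∈ T.powerset, PA p T A * (FA p T R A ^ 2 * (A.card : ℝ)) = XR p T R

-- deps:
def S_RAN : Prop :=
  ∃ C : ℝ, 1 ≤ C ∧ ∀ (k : Type) [Field k] [Finite k] (p : k[X] → ℝ) (T : Finset k[X]) (Z s : ℕ),
    T ⊆ Pr k Z → 1 ≤ Z → (∀ P ∈ T, 0 ≤ p P ∧ p P ≤ 1 / 2 ∧ p P ≤ pc 2 P) →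
    (∑ S ∈ T.powerset.filter (fun S => s * Z < dg S), (dg S : ℝ) * ∏ P ∈ S, hh p P) *
      (2 ^ s * VV p T) ≤ C * Z

-- deps: RAN
def S_FLC : Prop :=
  ∃ C : ℝ, 1 ≤ C ∧ ∀ (k : Type) [Field k] [Finite k] (p : k[X] → ℝ) (T : Finset k[X]) (Z s : ℕ),
    T ⊆ Pr k Z → 1 ≤ Z → (∀ P ∈ T, 0 ≤ p P ∧ p P ≤ 1 / 2 ∧ p P ≤ pc 2 P) → C ≤ 2 ^ s →
    ∃ R, R ≤ (s + 1) * Z ∧ XR p T R ≤ C / 2 ^ s * VV p T * GR p T R ^ 2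

-- deps: EXP FLA FLB FLC
def S_FL : Prop :=
  ∃ C : ℝ, 1 ≤ C ∧ ∀ (k : Type) [Field k] [Finite k] (p : k[X] → ℝ) (T : Finset k[X]) (Z s : ℕ),
    T ⊆ Pr k Z → 1 ≤ Z → (∀ P ∈ T, 0 ≤ p P ∧ p P ≤ 1 / 2 ∧ p P ≤ pc 2 P) → C ≤ 2 ^ s →
    ∃ lam xi, Sv p T ((2 * s + 3) * Z) (C / 2 ^ s) lam xi

-- deps:
def S_EQ : Prop :=
  ∀ (k : Type) [Field k] [Finite k] (T : Finset k[X]) (δ j : ℕ) (lam : Finset k[X] → ℝ),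
    (∀ P ∈ T, IsPr P) → Lv T δ lam → δ ≤ j → mn j (sw lam) = EE (pc 1) T lam

-- deps: EQ
def S_RH2 : Prop :=
  ∀ (k : Type) [Field k] [Finite k] (T : Finset k[X]) (δ j : ℕ) (E : ℝ)
    (lam xi : Finset k[X] → ℝ), (∀ P ∈ T, IsPr P) → Sv (pc 1) T δ E lam xi → δ ≤ j →
    |rho T j - VV (pc 1) T| ≤ E * VV (pc 1) T

-- deps: FL RH2
def S_RHO : Prop :=
  ∃ c0 : ℕ, 2 ≤ c0 ∧ ∀ (k : Type) [Field k] [Finite k] (T : Finset k[X]) (Z j : ℕ),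
    T ⊆ Pr k Z → 1 ≤ Z → c0 * Z ≤ j → rho T j ≤ 2 * VV (pc 1) T

-- deps:
def S_MER1 : Prop :=
  ∀ (k : Type) [Field k] [Finite k] (Z : ℕ),
    0 < VV (pc 1) (Pr k Z) ∧ VV (pc 1) (Pr k Z) * ((Z : ℝ) + 1) ≤ 1

-- deps:
def S_MER2 : Prop :=
  ∀ (k : Type) [Field k] [Finite k] (a b : ℕ), 3 ≤ a → a ≤ b →
    0 ≤ VV (pc 1) (JJ k a b) ∧ VV (pc 1) (JJ k a b) ^ 2 * ((b : ℝ) + 1) ≤ (a : ℝ) + 1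

-- deps:
def S_MER3 : Prop :=
  ∀ (k : Type) [Field k] [Finite k] (c a b : ℕ), 1 ≤ a → a ≤ b →
    ∏ P ∈ JJ k a b, (1 + pc (c : ℝ) P) ≤ ((b : ℝ) / a) ^ c

-- deps:
def S_ADM : Prop :=
  ∀ (k : Type) [Field k] [Finite k] [CharP k 2] (h : k[X]) (Z : ℕ), Adm h →
    (∀ P ∈ T2 h Z, 4 ≤ qq k ^ P.natDegree ∧ 0 ≤ pc 2 P ∧ pc 2 P ≤ 1 / 2) ∧
      0 < VV (pc 2) (T2 h Z) ∧ VV (pc 2) (T2 h Z) ≤ 1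

-- deps: ADM
def S_SING : Prop :=
  ∀ (k : Type) [Field k] [Finite k] [CharP k 2] (h : k[X]) (Z : ℕ), Adm h →
    VV (pc 1) (Pr k Z) ^ 2 ≤ 4 * VV (pc 2) (T2 h Z)

-- deps: RHO MER1
def S_RZ : Prop :=
  ∃ CR : ℝ, 1 ≤ CR ∧ ∀ (k : Type) [Field k] [Finite k] (Z j : ℕ), 1 ≤ Z → 1 ≤ j →
    rho (Pr k Z) j ≤ CR / Z

-- deps: RHO MER1 MER2
def S_RJ : Prop :=
  ∃ c0 : ℕ, 2 ≤ c0 ∧ ∀ (k : Type) [Field k] [Finite k] (Z a b j : ℕ), 3 ≤ Z → Z ≤ a → a ≤ b →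
    c0 * b ≤ j → rho (Pr k Z ∪ JJ k a b) j ≤ 2 * √(((a : ℝ) + 1) / ((b : ℝ) + 1)) / Z

-- deps:
def S_MUS : Prop :=
  ∀ (k : Type) [Field k] [Finite k] (T : Finset k[X]) (δ D : ℕ) (lam : Finset k[X] → ℝ),
    (∀ P ∈ T, IsPr P) → Lv T δ lam → δ ≤ D →
    |mn D (fun d => mu d * sw lam d)| ≤ qq k * (3 * ((δ : ℝ) + 1)) ^ 200 / √(qq k) ^ (D - δ)

-- deps: EQ MUS
def S_MUR : Prop :=
  ∀ (k : Type) [Field k] [Finite k] (T : Finset k[X]) (δ D : ℕ) (E : ℝ)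
    (lam xi : Finset k[X] → ℝ), (∀ P ∈ T, IsPr P) → Sv (pc 1) T δ E lam xi → δ ≤ D →
    |mm T D| ≤ E * VV (pc 1) T + qq k * (3 * ((δ : ℝ) + 1)) ^ 200 / √(qq k) ^ (D - δ)

-- deps:
def S_U0 : Prop :=
  ∀ (k : Type) [Field k] [Finite k] (f : k[X]), f.Monic → 1 ≤ f.natDegree →
    ∑ D ∈ range (f.natDegree + 1), DS D mu f = 0 ∧
    ∑ D ∈ range (f.natDegree + 1), (D : ℝ) * DS D mu f =
      -(if (pf f).card = 1 then (dg (pf f) : ℝ) else 0)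

-- deps:
def S_CVX : Prop :=
  ∀ (k : Type) [Field k] [Finite k] (T : Finset k[X]) (n D : ℕ), (∀ P ∈ T, IsPr P) → D ≤ n →
    ∑ f ∈ Mo k n, av T f * DS D mu f = qq k ^ n * (mm T D * rho T (n - D))

-- deps: U0 CVX
def S_CV : Prop :=
  ∀ (k : Type) [Field k] [Finite k] (Z n : ℕ), 4 ≤ n → Z < n →
    ∑ D ∈ range (n + 1), mm (Pr k Z) D * rho (Pr k Z) (n - D) = 0 ∧
    ∑ D ∈ range (n + 1), (D : ℝ) * (mm (Pr k Z) D * rho (Pr k Z) (n - D)) ≤ -(1 / 2)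

-- deps:
def S_MA : Prop :=
  ∀ (m r : ℕ → ℝ) (n Y : ℕ) (V E μ0 R : ℝ), Y ≤ n → 0 ≤ V → 0 ≤ E → 0 ≤ μ0 →
    (∀ D, |m D| ≤ r D) → ∑ D ∈ range (n + 1), r D ≤ R →
    (∀ D, Y < D → D ≤ n → |m D| ≤ μ0) → (∀ D, D ≤ Y → |r (n - D) - V| ≤ E * V) →
    ∑ D ∈ range (n + 1), m D * r (n - D) = 0 →
    ∑ D ∈ range (n + 1), (D : ℝ) * (m D * r (n - D)) ≤ -(1 / 2) →
    n * ((E * V + μ0) * R) ≤ 1 / 8 → (E * V + μ0) * R * (V * n ^ 2 * R) ≤ 1 / 64 →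
    V ^ 2 * ∑ i ∈ range (Y + 1), ∑ j ∈ range (Y + 1), ((i : ℝ) - j) ^ 2 * (m i * m j) ≤ -(1 / 4)

-- deps:
def S_M2 : Prop :=
  ∀ (k : Type) [Field k] [Finite k] (Z i j : ℕ) (α α' : k[X] → ℝ),
    (Bd α → Bd α' → On (Pr k Z) α → |m2 i α j α' - mn i α * mn j α'| ≤ 2 / qq k ^ Z) ∧
    ((∀ d, 0 ≤ α d) → (∀ d, 0 ≤ α' d) → 0 ≤ m2 i α j α' ∧ m2 i α j α' ≤ mn i α * mn j α')

-- deps:
def S_LAND : Prop :=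
  ∀ (k : Type) [Field k] (A : Finset k[X]) (n a : ℕ), (∀ P ∈ A, P.natDegree ≤ a) → dg A ≤ n →
    8 * a ≤ n → ∃ U ⊆ A, 4 * dg U ≤ n ∧ A.card ≤ 9 * U.card

end Pool.Agent.P.MP_e94e4b_nt.RP
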