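import Pool.Agent.P.MP_e94e4b_nt.RP.If0
import Pool.Agent.P.MP_e94e4b_nt.RP.IfS

/-! Exact statements on the window, and the passage from the inputs to the cells. -/

namespace Pool.Agent.P.MP_e94e4b_nt.RP

open Polynomial Finset
open Pool.Agent.P.MP_8be758_nt Pool.Agent.P.MP_8be758_nt.C2 Pool.Agent.P.MP_8be758_nt.L2
open Pool.Agent.P.MP_e94e4b_nt.LG
open scoped Classical

-- deps:
def S_WB : Prop :=
  ∀ (k : Type) [Field k] [Finite k] [CharP k 2] (F h f : k[X]) (M : ℕ), F.Monic → h ≠ 0 →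
    h.natDegree < M → M ≤ F.natDegree → f ∈ Wn F h M →
    f ∈ Mo k F.natDegree ∧ f + h ∈ Mo k F.natDegree ∧ f + h ∈ Wn F h M ∧ f + h + h = f ∧
      IsCoprime f h ∧ IsCoprime (f + h) h ∧ IsCoprime f (f + h) ∧
      pf (f * (f + h)) = pf f ∪ pf (f + h) ∧ Disjoint (pf f) (pf (f + h))

-- deps: WB
def S_SYM : Prop :=
  ∀ (k : Type) [Field k] [Finite k] [CharP k 2] (F h : k[X]) (M i j : ℕ) (w α α' : k[X] → ℝ),
    F.Monic → h ≠ 0 → h.natDegree < M → M ≤ F.natDegree →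
    BS F h M w i α j α' = BS F h M w j α' i α

-- deps: WB
def S_CNT : Prop :=
  ∀ (k : Type) [Field k] [Finite k] [CharP k 2] (F h A C : k[X]) (M : ℕ), F.Monic → h ≠ 0 →
    h.natDegree < M → M ≤ F.natDegree → A.Monic → C.Monic →
    (¬ (IsCoprime A C ∧ IsCoprime (A * C) h) → cnt F h M A C = 0) ∧
    (IsCoprime A C ∧ IsCoprime (A * C) h → ∃ f0 : k[X], A ∣ f0 ∧ C ∣ f0 + h ∧ h ∣ f0 - 1 ∧
      cnt F h M A C = (((low k M).filter (fun x => A * C * h ∣ F + f0 + x)).card : ℝ)) ∧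
    (A.natDegree + C.natDegree + h.natDegree ≤ M → rm F h M A C = 0)

-- deps:
def S_SWX : Prop :=
  ∀ (k : Type) [Field k] [Finite k] (T : Finset k[X]) (lam : Finset k[X] → ℝ) (f m : k[X]),
    (∀ P ∈ T, IsPr P) → (∀ S, lam S ≠ 0 → S ⊆ T) → f ≠ 0 → m ≠ 0 → IsCoprime f m →
    sw lam (f * m) = ∑ S ∈ T.powerset, ∑ S' ∈ T.powerset,
      if Disjoint S S' ∧ pr S ∣ f ∧ pr S' ∣ m then lam (S ∪ S') else 0

-- deps: WB SWX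
def S_XP0 : Prop :=
  ∀ (k : Type) [Field k] [Finite k] [CharP k 2] (F h : k[X]) (M Z i j : ℕ)
    (lam : Finset k[X] → ℝ) (α α' : k[X] → ℝ), F.Monic → h ≠ 0 → h.natDegree < M →
    M ≤ F.natDegree → (∀ S, lam S ≠ 0 → S ⊆ T2 h Z) → On (Pr k Z) α → On (Pr k Z) α' →
    BS F h M (sw lam) i α j α' = ∑ S ∈ (T2 h Z).powerset, ∑ S' ∈ (T2 h Z).powerset,
      (if Disjoint S S' then lam (S ∪ S') else 0) * ∑ d ∈ Mo k i, ∑ d' ∈ Mo k j,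
        α d * α' d' * cnt F h M (d * pr S) (d' * pr S')

-- deps:
def S_XP1 : Prop :=
  ∀ (k : Type) [Field k] [Finite k] (h : k[X]) (M Z i j : ℕ)
    (lam : Finset k[X] → ℝ) (α α' : k[X] → ℝ), h ≠ 0 → h.natDegree ≤ Z →
    On (Pr k Z) α → On (Pr k Z) α' →
    ∑ S ∈ (T2 h Z).powerset, ∑ S' ∈ (T2 h Z).powerset,
      (if Disjoint S S' then lam (S ∪ S') else 0) * ∑ d ∈ Mo k i, ∑ d' ∈ Mo k j,
        α d * α' d' * ex h M (d * pr S) (d' * pr S') =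
      QQ h M * EE (pc 2) (T2 h Z) lam * m2 i α j α'

-- deps: XP0 XP1 CNT
def S_XP : Prop :=
  ∀ (k : Type) [Field k] [Finite k] [CharP k 2] (F h : k[X]) (M Z δ i j : ℕ)
    (lam : Finset k[X] → ℝ) (α α' : k[X] → ℝ), F.Monic → h ≠ 0 → h.natDegree ≤ Z →
    h.natDegree < M → M ≤ F.natDegree → Lv (T2 h Z) δ lam → On (Pr k Z) α → On (Pr k Z) α' →
    BS F h M (sw lam) i α j α' =
      QQ h M * EE (pc 2) (T2 h Z) lam * m2 i α j α' + RM F h M (T2 h Z) lam i α j α' ∧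
    (i + j + δ + h.natDegree ≤ M → RM F h M (T2 h Z) lam i α j α' = 0)

-- deps: WB
def S_PW : Prop :=
  ∀ (k : Type) [Field k] [Finite k] [CharP k 2] (F h f : k[X]) (M Z δ : ℕ) (E : ℝ)
    (lam xi : Finset k[X] → ℝ), Ctx F h M Z δ E lam xi → f ∈ Wn F h M →
    av (Pr k Z) (f * (f + h)) = av (Pr k Z) f * av (Pr k Z) (f + h) ∧
    av (Pr k Z) (f * (f + h)) ≤ sw lam (f * (f + h)) ∧
    |av (Pr k Z) (f * (f + h)) - sw lam (f * (f + h))| ≤ sw xi (f * (f + h)) ∧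
    (Av (Pr k Z) f → sw lam (f * (f + h)) = sw lam (f + h))

-- deps:
def S_DSB : Prop :=
  ∀ (k : Type) [Field k] [Finite k] (f : k[X]) (T : Finset k[X]) (i β : ℕ) (α : k[X] → ℝ),
    f.Monic → i ≤ f.natDegree →
    |DM i (av T) f| ≤ DS i (av T) f ∧ |DS i α f| ≤ DS i (fun d => |α d|) f ∧
    (Av T f → DS i α f = DS i (fun d => α d * av T d) f ∧
      DS i mu f = DM (f.natDegree - i) (av T) f ∧
      (β = i ∨ β = f.natDegree - i → |DS i mu f| ≤ DS β (av T) f))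

-- deps: XP M2
def S_UB : Prop :=
  ∀ (k : Type) [Field k] [Finite k] [CharP k 2] (F h : k[X]) (M Z δ i j : ℕ) (E : ℝ)
    (lam xi : Finset k[X] → ℝ) (α α' : k[X] → ℝ), Ctx F h M Z δ E lam xi →
    (∀ d, 0 ≤ α d) → (∀ d, 0 ≤ α' d) → On (Pr k Z) α → On (Pr k Z) α' →
    i + j + δ + h.natDegree ≤ M →
    BS F h M (sw lam) i α j α' ≤ 2 * (QQ h M * VV (pc 2) (T2 h Z)) * (mn i α * mn j α') ∧
    BS F h M (sw xi) i α j α' ≤ E * (QQ h M * VV (pc 2) (T2 h Z)) * (mn i α * mn j α')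

-- deps: PW XP M2 ADM
def S_CG : Prop :=
  ∀ (k : Type) [Field k] [Finite k] [CharP k 2] (F h : k[X]) (M Z δ i j : ℕ) (E : ℝ)
    (lam xi : Finset k[X] → ℝ) (α α' : k[X] → ℝ), Ctx F h M Z δ E lam xi →
    Bd α → Bd α' → On (Pr k Z) α → On (Pr k Z) α' →
    |BS F h M (av (Pr k Z)) i α j α' -
        QQ h M * EE (pc 2) (T2 h Z) lam * (mn i α * mn j α')| ≤
      E * (QQ h M * VV (pc 2) (T2 h Z)) * (rho (Pr k Z) i * rho (Pr k Z) j) +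
        4 * QQ h M / qq k ^ Z + |RM F h M (T2 h Z) lam i α j α'| +
        |RM F h M (T2 h Z) xi i (fun d => |α d|) j (fun d => |α' d|)|

-- deps: WB PW DSB UB
def S_CP : Prop :=
  ∀ (k : Type) [Field k] [Finite k] [CharP k 2] (F h : k[X]) (M Z δ i j β β' : ℕ) (E : ℝ)
    (lam xi : Finset k[X] → ℝ), Ctx F h M Z δ E lam xi → i ≤ F.natDegree → j ≤ F.natDegree →
    (β = i ∨ β = F.natDegree - i) → (β' = j ∨ β' = F.natDegree - j) →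
    β + β' + δ + h.natDegree ≤ M →
    |CC F h M Z i j| ≤
      2 * (QQ h M * VV (pc 2) (T2 h Z)) * (rho (Pr k Z) β * rho (Pr k Z) β')

-- deps: WB PW DSB UB
def S_AX : Prop :=
  ∀ (k : Type) [Field k] [Finite k] [CharP k 2] (F h : k[X]) (M Z δ i j β : ℕ) (E : ℝ)
    (lam xi : Finset k[X] → ℝ), Ctx F h M Z δ E lam xi → i ≤ F.natDegree → j ≤ F.natDegree →
    (i + (F.natDegree - j) + δ + h.natDegree ≤ M →
      |CC F h M Z i j - ∑ f ∈ Wn F h M, sw lam (f * (f + h)) *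
          (DS i (ma (Pr k Z)) f * DM (F.natDegree - j) (av (Pr k Z)) (f + h))| ≤
        E * (QQ h M * VV (pc 2) (T2 h Z)) * (rho (Pr k Z) i * rho (Pr k Z) (F.natDegree - j))) ∧
    ((β = i ∨ β = F.natDegree - i) → β + (F.natDegree - j) + δ + h.natDegree ≤ M →
      |CC F h M Z i j - ∑ f ∈ Wn F h M, av (Pr k Z) f * DS i mu f *
          (sw lam (f + h) * DM (F.natDegree - j) (av (Pr k Z)) (f + h))| ≤
        E * (QQ h M * VV (pc 2) (T2 h Z)) * (rho (Pr k Z) β * rho (Pr k Z) (F.natDegree - j)))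

-- deps:
def S_MAP : Prop :=
  ∃ κ5 D0 : ℕ, 1 ≤ κ5 ∧ ∀ (k : Type) [Field k] [Finite k] [CharP k 2] (d0 R : k[X]) (l j : ℕ),
    R ≠ 0 → d0 ∈ Mo k j → l ≤ j → D0 ≤ j →
    |∑ d ∈ (Mo k j).filter (fun d => d - d0 ∈ low k l ∧ R ∣ d - d0), mu d| * qq k ^ (j / κ5) ≤
      qq k ^ j

-- deps: MAP WB
def S_MAW : Prop :=
  ∃ κ5 D0 : ℕ, 1 ≤ κ5 ∧ ∀ (k : Type) [Field k] [Finite k] [CharP k 2] (F h e A C : k[X])
    (M y j : ℕ), F.Monic → h ≠ 0 → h.natDegree < M → M ≤ F.natDegree → e ∈ Mo k y →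
    y + j = F.natDegree → y ≤ M → A ≠ 0 → C ≠ 0 → IsCoprime C e → D0 ≤ j →
    |∑ d ∈ (Mo k j).filter (fun d => d * e + h ∈ Wn F h M ∧ A ∣ d * e + h ∧ C ∣ d * e), mu d| *
      qq k ^ (j / κ5) ≤ qq k ^ j

-- deps: MAW WB SWX
def S_AS : Prop :=
  ∃ κ5 D0 : ℕ, 1 ≤ κ5 ∧ ∀ (k : Type) [Field k] [Finite k] [CharP k 2] (F h : k[X])
    (M Z δ i y j : ℕ) (Λ : ℝ) (lam : Finset k[X] → ℝ), F.Monic → h ≠ 0 → h.natDegree < M →
    M ≤ F.natDegree → Lv (T2 h Z) δ lam → (∀ S, |lam S| ≤ Λ) → y + j = F.natDegree → y ≤ M →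
    D0 ≤ j →
    |∑ f ∈ Wn F h M, sw lam (f * (f + h)) *
        (DS i (ma (Pr k Z)) f * DM y (av (Pr k Z)) (f + h))| * qq k ^ (j / κ5) ≤
      Λ * qq k ^ (2 * δ + 2 + i + F.natDegree)

-- deps: WB
def S_TW : Prop :=
  ∀ (k : Type) [Field k] [Finite k] [CharP k 2] (F h : k[X]) (M Z i β : ℕ) (Ψ : k[X] → ℝ)
    (B0 B1 τ : ℝ), F.Monic → h ≠ 0 → h.natDegree < M → M ≤ F.natDegree → i ≤ F.natDegree →
    (β = i ∨ β = F.natDegree - i) →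
    (∀ c : k[X] → ℝ, Bd c → (∀ b, c b ≠ 0 → Squarefree b) →
      ∑ a ∈ Mo k (F.natDegree - β),
        |∑ b ∈ Mo k β, if a * b ∈ Wn F h M then c b * Ψ (a * b + h) else 0| ≤ B0) →
    (∀ m ∈ Mo k F.natDegree, |Ψ m| ≤ B1) → (∀ m ∈ Mo k F.natDegree, nd m ≤ τ) →
    |∑ f ∈ Wn F h M, av (Pr k Z) f * DS i mu f * Ψ (f + h)| ≤
      B0 + τ * B1 * (qq k ^ (F.natDegree + 1) / qq k ^ Z)

-- deps: WB
def S_TA1 : Prop :=
  ∀ (k : Type) [Field k] [Finite k] [CharP k 2] (F h : k[X]) (M Z δ β y : ℕ) (Λ B : ℝ)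
    (lam : Finset k[X] → ℝ) (c : k[X] → ℝ), F.Monic → h ≠ 0 → h.natDegree < M →
    M ≤ F.natDegree → Lv (T2 h Z) δ lam → 0 < Λ → (∀ S, |lam S| ≤ Λ) → TB F h M β y δ B →
    Bd c → (∀ b, c b ≠ 0 → Squarefree b) →
    ∑ a ∈ Mo k (F.natDegree - β), |∑ b ∈ Mo k β, if a * b ∈ Wn F h M then
      c b * (sw lam (a * b + h) * DM y (av (Pr k Z)) (a * b + h)) else 0| ≤ Λ * B

-- deps:
def S_TA0 : Prop :=
  ∀ (k : Type) [Field k] [Finite k] (T : Finset k[X]) (Z δ y ρ : ℕ) (Λ : ℝ)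
    (lam : Finset k[X] → ℝ), T ⊆ Pr k Z → Lv T δ lam → (∀ S, |lam S| ≤ Λ) →
    ∃ γ : k[X] → k[X] → ℝ, (∀ e t, |γ e t| ≤ Λ) ∧ ∀ m : k[X], m.Monic →
      |sw lam m * DM y (av (Pr k Z)) m - ∑ a ∈ range (δ + 1), ∑ e ∈ Mo k (y + a),
          ∑ t ∈ Mle k ρ, if e * t ∣ m then γ e t * mu (m /ₘ e) else 0| ≤
        if ∃ t : k[X], t.Monic ∧ ρ < t.natDegree ∧ t ^ 2 ∣ m then Λ * nd m ^ 3 else 0

-- deps: WB TA0
def S_TA2 : Prop :=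
  ∀ (k : Type) [Field k] [Finite k] [CharP k 2] (F h : k[X]) (M Z δ β y ρ : ℕ) (Λ B τ : ℝ)
    (lam : Finset k[X] → ℝ) (c : k[X] → ℝ), F.Monic → h ≠ 0 → h.natDegree < M →
    M ≤ F.natDegree → Lv (T2 h Z) δ lam → 0 < Λ → (∀ S, |lam S| ≤ Λ) →
    (∀ a, a ≤ δ → TB F h M β (y + a) ρ B) → (∀ m ∈ Mo k F.natDegree, nd m ≤ τ) →
    Bd c → (∀ b, c b ≠ 0 → Squarefree b) →
    ∑ a ∈ Mo k (F.natDegree - β), |∑ b ∈ Mo k β, if a * b ∈ Wn F h M then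
      c b * (sw lam (a * b + h) * DM y (av (Pr k Z)) (a * b + h)) else 0| ≤
      Λ * (((δ : ℝ) + 1) * B + τ ^ 4 * (qq k ^ (F.natDegree + 1) / qq k ^ ρ))

-- deps:
def S_RK0 : Prop :=
  ∀ (k : Type) [Field k] [Finite k] (F h : k[X]) (M Z δ i u j : ℕ) (Λ B : ℝ)
    (lam : Finset k[X] → ℝ) (b : k[X] → k[X] → ℝ) (α' : k[X] → ℝ), Lv (T2 h Z) δ lam →
    (∀ S, |lam S| ≤ Λ) → 0 ≤ B → (∀ d p, |b d p| ≤ 1) →
    (∀ d p, b d p ≠ 0 → Av (Pr k Z) (d * p) ∧ Squarefree (d * p)) → Bd α' → On (Pr k Z) α' →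
    (∀ a a', a + a' ≤ δ → KB F h M (i + a) u (j + a') B) →
    |∑ S ∈ (T2 h Z).powerset, ∑ S' ∈ (T2 h Z).powerset,
      (if Disjoint S S' then lam (S ∪ S') else 0) * ∑ d ∈ Mo k i, ∑ p ∈ Mo k u, ∑ d' ∈ Mo k j,
        b d p * α' d' * rm F h M (d * p * pr S) (d' * pr S')| ≤ ((δ : ℝ) + 1) ^ 2 * Λ * B

-- deps: RK0
def S_RK1 : Prop :=
  ∀ (k : Type) [Field k] [Finite k] (F h : k[X]) (M Z δ i j : ℕ) (Λ B : ℝ)
    (lam : Finset k[X] → ℝ) (α α' : k[X] → ℝ), Lv (T2 h Z) δ lam → (∀ S, |lam S| ≤ Λ) →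
    0 ≤ B → Bd α → On (Pr k Z) α → (∀ d, α d ≠ 0 → Squarefree d) → Bd α' → On (Pr k Z) α' →
    (∀ a a', a + a' ≤ δ → KB F h M a i (j + a') B) →
    |RM F h M (T2 h Z) lam i α j α'| ≤ ((δ : ℝ) + 1) ^ 2 * Λ * B

-- deps:
def S_RAM : Prop :=
  ∀ (k : Type) [Field k] [Finite k] (ε : ℝ) (Z a b i : ℕ), |ε| = 1 → b ≤ i →
    ∃ c : k[X] → k[X] → ℝ, (∀ d p, |c d p| ≤ 1) ∧
      (∀ d p, c d p ≠ 0 → Av (Pr k Z) (d * p) ∧ Squarefree (d * p)) ∧ ∀ φ : k[X] → ℝ,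
        ∑ d ∈ Mo k i, aJ ε Z a b d * φ d =
          ∑ u ∈ Ioc a b, ∑ d ∈ Mo k (i - u), ∑ p ∈ Mo k u, c d p * φ (d * p)

-- deps: RK0 RAM
def S_RK2 : Prop :=
  ∀ (k : Type) [Field k] [Finite k] (F h : k[X]) (M Z δ i j J0 J1 : ℕ) (ε Λ B : ℝ)
    (lam : Finset k[X] → ℝ) (α' : k[X] → ℝ), Lv (T2 h Z) δ lam → (∀ S, |lam S| ≤ Λ) →
    0 ≤ B → |ε| = 1 → J1 ≤ i → Bd α' → On (Pr k Z) α' →
    (∀ u a a', J0 < u → u ≤ J1 → a + a' ≤ δ → KB F h M (i - u + a) u (j + a') B) →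
    |RM F h M (T2 h Z) lam i (aJ ε Z J0 J1) j α'| ≤ J1 * (((δ : ℝ) + 1) ^ 2 * Λ * B)

-- deps: LAND
def S_LF0 : Prop :=
  ∀ (k : Type) [Field k] [Finite k] (m : k[X]) (Z a b : ℕ), m.Monic → Av (Pr k Z) m →
    Z ≤ a → a ≤ b → 1 ≤ b → 8 * a ≤ m.natDegree →
    ∑ j ∈ range (m.natDegree + 1), |DS j (ma (Pr k Z ∪ JJ k a b)) m| ≤
      2 ^ (m.natDegree / b) * ∑ u ∈ range (m.natDegree / 4 + 1), DS u
        (fun d => if Squarefree d ∧ pf d ⊆ JJ k Z a then (512 : ℝ) ^ (pf d).card else 0) m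

-- deps: WB PW UB LF0 MER3
def S_LEFT : Prop :=
  ∀ (k : Type) [Field k] [Finite k] [CharP k 2] (F h : k[X]) (M Z δ i a b : ℕ) (E : ℝ)
    (lam xi : Finset k[X] → ℝ), Ctx F h M Z δ E lam xi → 1 ≤ Z → Z ≤ a → a ≤ b →
    8 * a ≤ F.natDegree → i + F.natDegree / 4 + δ + h.natDegree ≤ M →
    ∑ j ∈ range (F.natDegree + 1),
        |BS F h M (av (Pr k Z)) i (ma (Pr k Z ∪ JJ k a b)) j (ma (Pr k Z ∪ JJ k a b))| ≤
      2 * (QQ h M * VV (pc 2) (T2 h Z)) * rho (Pr k Z ∪ JJ k a b) i *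
        (2 ^ (F.natDegree / b) * ((a : ℝ) / Z) ^ 512)

-- deps: WB PW SYM
def S_CZ0 : Prop :=
  ∀ (k : Type) [Field k] [Finite k] [CharP k 2] (F h : k[X]) (M Z δ i j a b : ℕ) (E : ℝ)
    (lam xi : Finset k[X] → ℝ), Ctx F h M Z δ E lam xi →
    CC F h M Z i j = BS F h M (av (Pr k Z)) i (ma (Pr k Z)) j (ma (Pr k Z)) ∧
    CC F h M Z i j = BS F h M (av (Pr k Z)) i (aJ (-1) Z a b) j (ma (Pr k Z)) +
      BS F h M (av (Pr k Z)) j (aJ (-1) Z a b) i (ma (Pr k Z ∪ JJ k a b)) +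
      BS F h M (av (Pr k Z)) i (ma (Pr k Z ∪ JJ k a b)) j (ma (Pr k Z ∪ JJ k a b)) ∧
    |mn i (aJ (-1) Z a b : k[X] → ℝ)| ≤ |mm (Pr k Z) i| + rho (Pr k Z ∪ JJ k a b) i ∧
    (fun d : k[X] => |aJ (-1) Z a b d|) = aJ 1 Z a b

-- deps: WB U0
def S_IDT : Prop :=
  ∀ (k : Type) [Field k] [Finite k] [CharP k 2] (F h : k[X]) (M Z : ℕ), F.Monic → h ≠ 0 →
    h.natDegree < M → M ≤ F.natDegree →
    -∑ i ∈ range (F.natDegree + 1), ∑ j ∈ range (F.natDegree + 1),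
        ((i : ℝ) - j) ^ 2 * CC F h M Z i j ≤
      2 * (F.natDegree : ℝ) ^ 2 * PI2 F h M +
        4 * (F.natDegree : ℝ) ^ 2 * (qq k ^ (F.natDegree + 1) / qq k ^ Z)

end Pool.Agent.P.MP_e94e4b_nt.RP
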