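import Pool.Agent.P.MP_e94e4b_nt.RP.IfC
import Pool.Agent.P.MP_e94e4b_nt.RP.IfW
import Pool.Agent.P.MP_e94e4b_nt.RP.IfS

/-! Step FIN. -/

set_option autoImplicit false
set_option linter.unusedSectionVars false

namespace Pool.Agent.P.MP_e94e4b_nt.RP

open Polynomial Finset
open Pool.Agent.P.MP_8be758_nt Pool.Agent.P.MP_8be758_nt.C2 Pool.Agent.P.MP_8be758_nt.L2
open Pool.Agent.P.MP_e94e4b_nt.LG
open scoped Classical

theorem fin_err (q n Qg QM A B C : ℝ) (hq : 0 < q) (hn : 0 ≤ n) (hg : 0 < Qg) (hM : 0 < QM)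
    (_hA : 0 < A) (hB : 0 < B) (_hC : 0 < C) (D Zq : ℝ) (h1 : 512 * Qg * (n + 1) ^ 4 ≤ A)
    (h2 : 512 * (Qg * q) * (n + 1) ^ 2 ≤ C) (h3 : D ≤ QM * B * q) (h4 : B * C ≤ Zq) :
    4 * (QM / A) * (n ^ 2 * (n + 1) ^ 2) + 4 * n ^ 2 * (D / Zq) ≤ QM / Qg / 64 := by
  have hn2 : n ^ 2 ≤ (n + 1) ^ 2 := by nlinarith
  have e1 : 4 * (QM / A) * (n ^ 2 * (n + 1) ^ 2) ≤ QM / Qg / 128 := by
    have a1 : QM / A ≤ QM / (512 * Qg * (n + 1) ^ 4) :=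
      div_le_div_of_nonneg_left hM.le (by positivity) h1
    calc 4 * (QM / A) * (n ^ 2 * (n + 1) ^ 2)
        ≤ 4 * (QM / (512 * Qg * (n + 1) ^ 4)) * ((n + 1) ^ 2 * (n + 1) ^ 2) := by gcongr
      _ = QM / Qg / 128 := by field_simp; ring
  have e2 : 4 * n ^ 2 * (D / Zq) ≤ QM / Qg / 128 := by
    have a0 : B * (512 * (Qg * q) * (n + 1) ^ 2) ≤ Zq :=
      le_trans (mul_le_mul_of_nonneg_left h2 hB.le) h4
    have a1 : D / Zq ≤ QM * B * q / (B * (512 * (Qg * q) * (n + 1) ^ 2)) :=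
      div_le_div₀ (by positivity) h3 (by positivity) a0
    calc 4 * n ^ 2 * (D / Zq)
        ≤ 4 * n ^ 2 * (QM * B * q / (B * (512 * (Qg * q) * (n + 1) ^ 2))) := by gcongr
      _ ≤ 4 * (n + 1) ^ 2 * (QM * B * q / (B * (512 * (Qg * q) * (n + 1) ^ 2))) := by gcongr
      _ = QM / Qg / 128 := by field_simp; ring
  linarith

theorem p_FIN (hNUM : S_NUM) (hINP : S_INP) (hSUM : S_SUM) (hMAIN : S_MAIN) (hIDT : S_IDT) (hSING : S_SING) (hMER1 : S_MER1) (hEND : S_END) :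
    S_FIN := by
  obtain ⟨CF, CR, c0, κ5, hCF, hCR, -, -, hI⟩ := hINP
  obtain ⟨t, K0, ht, h1, h2, h3, hη⟩ := hNUM CF CR c0 κ5 hCF hCR
  obtain ⟨κ, hκ, hI⟩ := hI t K0 ht h1 h2 h3
  have hp : 1 ≤ 2 ^ t := Nat.one_le_two_pow
  have hp1 : 2 ^ (t + 1) = 2 * 2 ^ t := by ring
  have hp2 : 2 ≤ 2 ^ t := by
    calc 2 = 2 ^ 1 := rfl
      _ ≤ 2 ^ t := Nat.pow_le_pow_right (by norm_num) ht
  refine ⟨κ * 2 ^ (t + 1), Nat.mul_pos hκ (by positivity), fun k _ _ _ h hh => ?_⟩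
  obtain ⟨n1, hI⟩ := hI k h hh
  obtain ⟨n2, hn2⟩ := NEG 4 κ (512 * qq k ^ h.natDegree) 1 hκ one_pos
  obtain ⟨n3, hn3⟩ := NEG 2 (2 ^ (t + 1)) (512 * (qq k ^ h.natDegree * qq k)) 1
    Nat.one_le_two_pow one_pos
  refine ⟨n1 + n2 + n3 + 2 ^ t + 2 * h.natDegree + 4, fun F M hF hn hM hnM => ?_⟩
  have d1 : F.natDegree / (κ * 2 ^ (t + 1)) ≤ F.natDegree / κ :=
    Nat.div_le_div_left (Nat.le_mul_of_pos_right _ (by positivity)) hκ
  have d2 : F.natDegree / (κ * 2 ^ (t + 1)) ≤ F.natDegree / 2 ^ (t + 1) :=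
    Nat.div_le_div_left (Nat.le_mul_of_pos_left _ hκ) (by positivity)
  have d3 : F.natDegree / 2 ^ (t + 1) = F.natDegree / 2 ^ t / 2 := by
    rw [Nat.div_div_eq_div_mul, pow_succ]
  have d4 : F.natDegree / 2 ^ t ≤ F.natDegree / 2 := Nat.div_le_div_left hp2 (by norm_num)
  obtain ⟨Θ, c3, hΘ, hC, hρ⟩ := hI F M hF (by omega) hM (by omega)
  have hZ1 : 1 ≤ zz F.natDegree t := hC.n1
  have hZd : zz F.natDegree t = F.natDegree / 2 ^ t := rfl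
  have hN : F.natDegree ≤ 2 ^ (t + 1) * zz F.natDegree t := by
    have a1 := Nat.div_add_mod F.natDegree (2 ^ t)
    have a2 := Nat.mod_lt F.natDegree hp
    rw [← hZd] at a1
    have a3 : 2 ^ t ≤ 2 ^ t * zz F.natDegree t := Nat.le_mul_of_pos_right _ hZ1
    rw [hp1, mul_assoc]
    omega
  have hN' : (F.natDegree : ℝ) ≤ 2 ^ (t + 1) * (zz F.natDegree t : ℝ) := by exact_mod_cast hN
  have hK0 : (0 : ℝ) < K0 := by exact_mod_cast (show 0 < K0 by omega)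
  have hu : ((F.natDegree / K0 : ℕ) : ℝ) ≤ 2 ^ (t + 1) / K0 * (zz F.natDegree t : ℝ) := by
    refine le_trans Nat.cast_div_le ?_
    rw [div_mul_eq_mul_div]
    exact div_le_div_of_nonneg_right hN' hK0.le
  have hy : 134 * (dl F.natDegree t : ℝ) ≤ 134 * (10 * t + 3) * (zz F.natDegree t : ℝ) := by
    simp only [dl, zz]
    push_cast
    linarith
  have hS := hSUM _ _ _ _ _ _ _ _ _ _ _ _ _ _ _ _ _ _ _ _ hC hN' hu hy
  have hE : 360 * CR ^ 3 * (CF / 2 ^ (5 * t)) * (2 ^ (t + 1)) ^ 4 ≤ 1 / 16 := by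
    refine le_trans ?_ hη
    have b1 := hC.a6
    have b2 := hC.a7
    have b3 : 0 < CR := by linarith
    unfold eta
    have b4 : 0 ≤ 72 * CR ^ 2 * ((2 : ℝ) ^ (t + 1)) ^ 2 * (2 ^ (t + 1) / K0) ^ 2 := by positivity
    have b5 : 0 ≤ 24 * CR ^ 2 * ((2 : ℝ) ^ (t + 1)) ^ 3 * (2 ^ (t + 1) / K0) := by positivity
    have b6 : 0 ≤ 4 * (134 * (10 * (t : ℝ) + 3)) ^ 4 * om0 c0 t * CR := by positivity
    have b7 : 0 ≤ (134 * (10 * (t : ℝ) + 3)) ^ 3 * om0 c0 t * lc0 c0 t := by positivity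
    linarith
  have hn4 := hC.n4
  have hMa := hMAIN k F.natDegree (zz F.natDegree t) (dl F.natDegree t) (CF / 2 ^ (5 * t)) CR
    (2 ^ (t + 1)) (by omega) hZ1 (by omega) (by omega) hN' hCR hC.a4 hE hC.r1 hC.mb hρ
  have hId := hIDT k F h M (zz F.natDegree t) hF hh.1 (by omega) hM
  obtain ⟨m1, m2⟩ := hMER1 k (zz F.natDegree t)
  have hq := qq_pos (k := k)
  refine hEND _ _ _ _ _ _ _ _ _ _ _ _ (QQ_pos h M).le m1 (Nat.cast_nonneg _) m2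
    (hSING k h _ hh) hΘ hη hS hMa hId ?_
  refine fin_err (qq k) _ _ _ _ (qq k ^ (F.natDegree / (κ * 2 ^ (t + 1))))
    (qq k ^ (F.natDegree / 2 ^ (t + 1))) hq (Nat.cast_nonneg _) (by positivity) (by positivity)
    (by positivity) (by positivity) (by positivity) _ _ ?_ ?_ ?_ ?_
  · exact (hn2 _ (by omega)).trans (by rw [one_mul]; exact two_pow_le_qq _)
  · exact (hn3 _ (by omega)).trans (by rw [one_mul]; exact two_pow_le_qq _)
  · rw [← pow_add, ← pow_succ]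
    exact qq_pow_mono (by omega)
  · rw [← pow_add]
    exact qq_pow_mono (by omega)

end Pool.Agent.P.MP_e94e4b_nt.RP
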