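import Pool.Agent.P.MP_e94e4b_nt.RP.IfS

/-! Step SING. -/

set_option autoImplicit false
set_option linter.unusedSectionVars false

namespace Pool.Agent.P.MP_e94e4b_nt.RP

open Polynomial Finset
open Pool.Agent.P.MP_8be758_nt Pool.Agent.P.MP_8be758_nt.C2 Pool.Agent.P.MP_8be758_nt.L2
open Pool.Agent.P.MP_e94e4b_nt.LG
open scoped Classical

theorem sing_prod {ι : Type} (T : Finset ι) (w : ι → ℝ) (h : ∀ i ∈ T, 0 ≤ w i ∧ w i ≤ 1) :
    1 - ∑ i ∈ T, w i ≤ ∏ i ∈ T, (1 - w i) := by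
  induction T using Finset.induction_on with
  | empty => simp
  | insert a T ha ih =>
    rw [sum_insert ha, prod_insert ha]
    have h1 := h a (mem_insert_self _ _)
    have h2 := ih fun i hi => h i (mem_insert_of_mem hi)
    have h3 : 0 ≤ ∑ i ∈ T, w i := sum_nonneg fun i hi => (h i (mem_insert_of_mem hi)).1
    nlinarith [mul_le_mul_of_nonneg_left h2 (sub_nonneg.2 h1.2), mul_nonneg h1.1 h3]

theorem sing_sum {k : Type} [Field k] [Finite k] (T : Finset k[X]) (s Z : ℕ) (hs : 1 ≤ s) (x : ℝ)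
    (hx : x < 1) (hq : 1 / qq k ≤ x) (hT : ∀ P ∈ T, IsPr P ∧ s ≤ P.natDegree ∧ P.natDegree ≤ Z) :
    ∑ P ∈ T, pc 1 P ^ 2 ≤ 1 / s * (x ^ s / (1 - x)) := by
  have q0 := qq_pos (k := k)
  have x0 : 0 ≤ x := le_trans (by positivity) hq
  have s0 : (0 : ℝ) < s := by exact_mod_cast hs
  rw [← sum_fiberwise_of_maps_to (t := Ico s (Z + 1)) (g := fun P : k[X] => P.natDegree)
    (fun P hP => mem_Ico.2 ⟨(hT P hP).2.1, Nat.lt_succ_of_le (hT P hP).2.2⟩)]
  refine le_trans ?_ (mul_le_mul_of_nonneg_left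
    (geom_sum_Ico_le_of_lt_one (m := s) (n := Z + 1) x0 hx) (by positivity))
  rw [mul_sum]
  refine sum_le_sum fun a ha => ?_
  have sa := (mem_Ico.1 ha).1
  have h1 := (a_GAUSS k a (hs.trans sa)).1
  have h2 : ∑ P ∈ T.filter (fun P => P.natDegree = a), pc 1 P ^ 2 ≤
      ((Pd k a).card : ℝ) * (1 / qq k ^ a) ^ 2 := by
    rw [← nsmul_eq_mul, ← sum_const]
    refine le_trans (le_of_eq (sum_congr rfl fun P hP => ?_))
      (sum_le_sum_of_subset_of_nonneg (fun P hP => ?_) fun _ _ _ => by positivity)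
    · rw [pc, (mem_filter.1 hP).2]
    · exact mem_Pd.2 ⟨(hT P (mem_filter.1 hP).1).1, (mem_filter.1 hP).2⟩
  have h3 : 1 / qq k ^ a ≤ x ^ a := by
    rw [← one_div_pow]
    exact pow_le_pow_left₀ (by positivity) hq a
  have h4 : ((Pd k a).card : ℝ) * (1 / qq k ^ a) ≤ 1 / s := by
    have h5 : (s : ℝ) ≤ a := by exact_mod_cast sa
    rw [mul_one_div, div_le_div_iff₀ (by positivity) s0]
    nlinarith [mul_le_mul_of_nonneg_right h5 (Nat.cast_nonneg (α := ℝ) (Pd k a).card)]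
  refine h2.trans ?_
  rw [sq, ← mul_assoc]
  exact mul_le_mul h4 h3 (by positivity) (by positivity)

theorem p_SING (hADM : S_ADM) :
    S_SING := by
  intro k _ _ _ h Z hA
  obtain ⟨h1, -, -⟩ := hADM k h Z hA
  have q0 := qq_pos (k := k)
  have u0 : ∀ P : k[X], 0 ≤ pc 1 P := fun P => by unfold pc; positivity
  have u1 : ∀ P : k[X], pc 1 P ≤ 1 := fun P => by
    unfold pc
    rw [div_le_one (by positivity)]
    exact one_le_pow₀ one_le_qq
  have u4 : ∀ P ∈ T2 h Z, pc 1 P ≤ 1 / 4 := fun P hP =>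
    one_div_le_one_div_of_le (by norm_num) (h1 P hP).1
  have hs : ∑ P ∈ T2 h Z, pc 1 P ^ 2 ≤ 1 / 3 := by
    rcases le_or_gt 4 (qq k) with hq | hq
    · refine (sing_sum _ 1 Z le_rfl (1 / 4) (by norm_num)
        (one_div_le_one_div_of_le (by norm_num) hq) fun P hP => ?_).trans (by norm_num)
      obtain ⟨a, b, -⟩ := (mem_T2 hA.1).1 hP
      exact ⟨a, a.pos, b⟩
    · refine (sing_sum _ 2 Z (by norm_num) (1 / 2) (by norm_num)
        (one_div_le_one_div_of_le (by norm_num) two_le_qq) fun P hP => ?_).trans (by norm_num)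
      obtain ⟨a, b, -⟩ := (mem_T2 hA.1).1 hP
      refine ⟨a, ?_, b⟩
      by_contra c
      have d := (h1 P hP).1
      rw [show P.natDegree = 1 by have := a.pos; omega, pow_one] at d
      linarith
  have h2 : VV (pc 1) (Pr k Z) ≤ VV (pc 1) (T2 h Z) := by
    unfold VV T2
    rw [← prod_sdiff (sdiff_subset (s := Pr k Z) (t := pf h))]
    refine mul_le_of_le_one_left (prod_nonneg fun P _ => sub_nonneg.2 (u1 P))
      (prod_le_one (fun P _ => sub_nonneg.2 (u1 P)) fun P _ => by linarith [u0 P])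
  have h3 : 0 ≤ VV (pc 1) (Pr k Z) := prod_nonneg fun P _ => sub_nonneg.2 (u1 P)
  have w1 : ∀ P ∈ T2 h Z, 0 ≤ 16 / 9 * pc 1 P ^ 2 ∧ 16 / 9 * pc 1 P ^ 2 ≤ 1 := fun P hP =>
    ⟨by positivity, by nlinarith [u0 P, u4 P hP]⟩
  have h4 := sing_prod (T2 h Z) (fun P => 16 / 9 * pc 1 P ^ 2) w1
  rw [← mul_sum] at h4
  have h5 : VV (pc 1) (T2 h Z) ^ 2 * ∏ P ∈ T2 h Z, (1 - 16 / 9 * pc 1 P ^ 2) ≤
      VV (pc 2) (T2 h Z) := by
    unfold VV
    rw [← prod_pow, ← prod_mul_distrib]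
    refine prod_le_prod (fun P hP => mul_nonneg (sq_nonneg _) (sub_nonneg.2 (w1 P hP).2))
      fun P hP => ?_
    have e : pc 2 P = 2 * pc 1 P := by unfold pc; ring
    have a : 9 / 16 ≤ (1 - pc 1 P) ^ 2 := by nlinarith [u0 P, u4 P hP]
    rw [e]
    nlinarith [mul_le_mul_of_nonneg_right a (sq_nonneg (pc 1 P))]
  have h6 := pow_le_pow_left₀ h3 h2 2
  have h7 : 1 / 4 ≤ ∏ P ∈ T2 h Z, (1 - 16 / 9 * pc 1 P ^ 2) := by linarith
  nlinarith [mul_le_mul_of_nonneg_left h7 (sq_nonneg (VV (pc 1) (T2 h Z)))]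

end Pool.Agent.P.MP_e94e4b_nt.RP
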