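import Pool.Agent.P.MP_e94e4b_nt.RP.IfS

/-! Step ADM. -/

set_option autoImplicit false
set_option linter.unusedSectionVars false

namespace Pool.Agent.P.MP_e94e4b_nt.RP

open Polynomial Finset
open Pool.Agent.P.MP_8be758_nt Pool.Agent.P.MP_8be758_nt.C2 Pool.Agent.P.MP_8be758_nt.L2
open Pool.Agent.P.MP_e94e4b_nt.LG
open scoped Classical

theorem p_ADM :
    S_ADM := by
  intro k _ _ _ h Z ha
  have key : ∀ P ∈ T2 h Z, 4 ≤ qq k ^ P.natDegree ∧ 0 ≤ pc 2 P ∧ pc 2 P ≤ 1 / 2 := by
    intro P hP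
    obtain ⟨h1, -, h3⟩ := (mem_T2 ha.1).1 hP
    have h4 : 4 ≤ qq k ^ P.natDegree := by
      have h5 : ¬ qq k ^ P.natDegree ≤ 2 := fun e => h3 (ha.2 P h1 e)
      have e : qq k ^ P.natDegree = 2 ^ (Nat.log 2 (Nat.card k) * P.natDegree) := by
        rw [qq, pow_mul]
        congr 1
        exact_mod_cast card_eq_two_pow (K := k)
      rw [e] at h5 ⊢
      generalize Nat.log 2 (Nat.card k) * P.natDegree = m at h5
      have h6 : 2 ≤ m := by
        by_contra h7
        have : m ≤ 1 := by omega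
        exact h5 ((pow_le_pow_right₀ one_le_two this).trans_eq (pow_one _))
      exact le_trans (by norm_num) (pow_le_pow_right₀ one_le_two h6)
    refine ⟨h4, div_nonneg zero_le_two (by linarith), ?_⟩
    rw [pc, div_le_iff₀ (by linarith)]
    linarith
  refine ⟨key, prod_pos fun P hP => ?_, prod_le_one (fun P hP => ?_) fun P hP => ?_⟩ <;>
    linarith [(key P hP).2.1, (key P hP).2.2]

end Pool.Agent.P.MP_e94e4b_nt.RP
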