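import Pool.Agent.P.MP_e94e4b_nt.RP.IfC

/-! Step CELL. -/

set_option autoImplicit false
set_option linter.unusedSectionVars false

namespace Pool.Agent.P.MP_e94e4b_nt.RP

open Polynomial Finset
open Pool.Agent.P.MP_8be758_nt Pool.Agent.P.MP_8be758_nt.C2 Pool.Agent.P.MP_8be758_nt.L2
open Pool.Agent.P.MP_e94e4b_nt.LG
open scoped Classical

theorem p_CELL :
    S_CELL := by
  intro n M g Z δ u C c3 m r Qv Qt E W ω Lc CR c i j hij hj
  have ⟨n1, n2, n3, n4, n5⟩ := And.intro c.n1 (And.intro c.n2 (And.intro c.n3 (And.intro c.n4 c.n5)))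
  have ⟨a1, a2, a3, a4, a5⟩ := And.intro c.a1 (And.intro c.a2 (And.intro c.a3 (And.intro c.a4 c.a5)))
  have ⟨a6, a8⟩ := And.intro c.a6 c.a8
  have r0 : ∀ D, 0 ≤ r D := fun D => (abs_nonneg _).trans (c.mr D)
  have z0 : (0 : ℝ) < Z := by exact_mod_cast n1
  have zi : (0 : ℝ) ≤ 1 / Z := by positivity
  have s1 : ∀ a, r a ≤ sig n Z r a := fun a => by unfold sig; linarith [r0 (n - a)]
  have s2 : ∀ a, r (n - a) ≤ sig n Z r a := fun a => by unfold sig; linarith [r0 a]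
  have s3 : ∀ a, 1 / Z ≤ sig n Z r a := fun a => by unfold sig; linarith [r0 a, r0 (n - a)]
  have s4 : ∀ a β, (β = a ∨ β = n - a) → r β ≤ sig n Z r a := fun a β h => by
    rcases h with h | h <;> rw [h]
    exacts [s1 a, s2 a]
  have si := zi.trans (s3 i)
  have sj := zi.trans (s3 j)
  have c0 := c.c30 i j
  obtain ⟨S, hS⟩ : ∃ S, S = E * Qv * (sig n Z r i * sig n Z r j) := ⟨_, rfl⟩
  have S0 : 0 ≤ S := by rw [hS]; positivity
  have SC : S ≤ CR * S := le_mul_of_one_le_left S0 a8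
  have pS : ∀ a b : ℝ, 0 ≤ b → a ≤ sig n Z r i → b ≤ sig n Z r j → E * Qv * (a * b) ≤ S :=
    fun a b h0 h1 h2 => by rw [hS]; gcongr
  obtain ⟨x1, e1, p1⟩ : ∃ x : ℝ, x = (if j < i + u then 2 * Qv * (sig n Z r i * sig n Z r j)
    else 0) ∧ 0 ≤ x := ⟨_, rfl, by split_ifs <;> positivity⟩
  obtain ⟨x2, e2, p2⟩ : ∃ x : ℝ, x = (if n < 2 * i + 2 * u ∧ 2 * i < n + 2 * u then
    2 * Qv * (CR / Z * sig n Z r j) else 0) ∧ 0 ≤ x := ⟨_, rfl, by split_ifs <;> positivity⟩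
  obtain ⟨x3, e3, p3⟩ : ∃ x : ℝ, x = (if Cor n δ i ∧ Cor n δ j then
    4 * Qv * ω * CR / Z ^ 2 + c3 i j else 0) ∧ 0 ≤ x := ⟨_, rfl, by split_ifs <;> positivity⟩
  have eb : bb n Z δ u c3 r Qv E W ω CR i j = 10 * (CR * S) + x1 + x2 + x3 + 2 * W := by
    rw [bb, e1, e2, e3, hS]; ring
  rw [eb]
  have hm : n / 4 < j → |C i j - Qt * (m i * m j)| ≤ E * Qv * (r i * r j) + W →
      |C i j| ≤ 5 * S + W := fun h1 h2 => by
    have b1 := pS _ _ (r0 j) (s1 i) (s1 j)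
    have b2 := pS _ _ zi (s1 i) (s3 j)
    have b3 : |Qt * (m i * m j)| ≤ 2 * Qv * (r i * (2 * E / Z)) := by
      rw [abs_mul, abs_mul, abs_of_nonneg a2]
      have := r0 i
      gcongr
      exacts [c.mr i, c.mb j h1 hj]
    have b4 : 2 * Qv * (r i * (2 * E / Z)) = 4 * (E * Qv * (r i * (1 / Z))) := by ring
    have b5 := abs_sub_abs_le_abs_sub (C i j) (Qt * (m i * m j))
    linarith
  by_cases hX : i + j + δ + g ≤ M
  · have := c.cX i j hX
    split_ifs with h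
    · have := pS _ _ (r0 j) (s1 i) (s1 j)
      linarith
    · have := hm (by omega) this
      rw [sub_zero]; linarith
  rw [if_neg (by omega), sub_zero]
  have t : ∀ β, (β = i ∨ β = n - i) → |C i j| ≤ E * Qv * (r β * r (n - j)) + W →
      |C i j| ≤ 10 * (CR * S) + x1 + x2 + x3 + 2 * W := fun β h1 h2 => by
    have := pS _ _ (r0 _) (s4 i β h1) (s2 j)
    linarith
  by_cases h1 : i ≤ 65 * δ
  · exact t i (Or.inl rfl) (c.cA i j h1 (by omega) hj)
  by_cases h2 : 2 * i + 130 * δ ≤ n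
  · by_cases h3 : n - j + u ≤ i
    · exact t i (Or.inl rfl) (c.cT1 i j i (by omega) hj (Or.inl rfl) h2 h3)
    · have := hm (by omega) (c.cK i j (by omega) (by omega) hj (by omega))
      linarith
  by_cases h4 : n + 130 * δ ≤ 2 * i
  · by_cases h3 : n - j + u ≤ n - i
    · exact t _ (Or.inr rfl) (c.cT1 i j _ (by omega) hj (Or.inr rfl) (by omega) h3)
    · have b1 := c.cP i j _ _ (by omega) hj (Or.inr rfl) (Or.inr rfl) (by omega)
      have b2 : 2 * Qv * (r (n - i) * r (n - j)) ≤ x1 := by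
        rw [e1, if_pos (by omega)]
        have := r0 (n - j)
        gcongr
        exacts [s2 i, s2 j]
      linarith
  obtain ⟨β, b1, b2, b3⟩ : ∃ β, (β = i ∨ β = n - i) ∧ β ≤ i ∧ β ≤ n - i :=
    ⟨min i (n - i), by omega, by omega, by omega⟩
  by_cases h5 : 2 * (n - j) + 134 * δ ≤ n
  · by_cases h3 : 2 * β + 2 * u ≤ n
    · exact t β b1 (c.cT2 i j β (by omega) hj b1 h3 (by omega))
    · have b4 := c.cP i j β _ (by omega) hj b1 (Or.inr rfl) (by omega)
      have b5 : 2 * Qv * (r β * r (n - j)) ≤ x2 := by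
        rw [e2, if_pos (by omega)]
        have := r0 (n - j)
        gcongr
        exacts [c.r1 β (by omega), s2 j]
      linarith
  have k1 : Cor n δ i := ⟨by omega, by omega⟩
  have k2 : Cor n δ j := ⟨by omega, by omega⟩
  have b4 := c.cZ i j k1 k2
  have b5 := pS _ _ (r0 j) (s1 i) (s1 j)
  have b6 : CR * (E * Qv * (1 / Z * (1 / Z))) ≤ CR * S :=
    mul_le_mul_of_nonneg_left (pS _ _ zi (s3 i) (s3 j)) (by linarith)
  have b7 : 4 * Qv * ((2 * E + ω) / Z * (CR / Z)) =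
      8 * (CR * (E * Qv * (1 / Z * (1 / Z)))) + 4 * Qv * ω * CR / Z ^ 2 := by ring
  rw [if_pos ⟨k1, k2⟩] at e3
  linarith

end Pool.Agent.P.MP_e94e4b_nt.RP
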