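import Pool.Agent.P.MP_e94e4b_nt.RP.IfS

/-! Step CV. -/

set_option autoImplicit false
set_option linter.unusedSectionVars false

namespace Pool.Agent.P.MP_e94e4b_nt.RP

open Polynomial Finset
open Pool.Agent.P.MP_8be758_nt Pool.Agent.P.MP_8be758_nt.C2 Pool.Agent.P.MP_8be758_nt.L2
open Pool.Agent.P.MP_e94e4b_nt.LG
open scoped Classical

theorem p_CV (hU0 : S_U0) (hCVX : S_CVX) :
    S_CV := by
  intro k _ _ Z n hn hZ
  have q0 : (0 : ℝ) < qq k ^ n := pow_pos qq_pos _
  have key : ∀ c : ℕ → ℝ, qq k ^ n * ∑ D ∈ range (n + 1),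
      c D * (mm (Pr k Z) D * rho (Pr k Z) (n - D)) =
      ∑ f ∈ Mo k n, av (Pr k Z) f * ∑ D ∈ range (n + 1), c D * DS D mu f := fun c => by
    simp only [mul_sum]
    rw [sum_comm]
    refine sum_congr rfl fun D hD => ?_
    rw [mul_left_comm, ← hCVX k _ n D isPr_Pr (by have := mem_range.1 hD; omega), mul_sum]
    exact sum_congr rfl fun f _ => by ring
  have hU : ∀ f ∈ Mo k n, _ := fun f hf => by
    have := hU0 k f (mem_Mo.1 hf).1 (by rw [(mem_Mo.1 hf).2]; omega)
    rw [(mem_Mo.1 hf).2] at this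
    exact this
  constructor
  · have := key fun _ => 1
    simp only [one_mul] at this
    exact (mul_eq_zero.1 (this.trans (sum_eq_zero fun f hf => by
      rw [(hU f hf).1, mul_zero]))).resolve_left q0.ne'
  · refine le_of_mul_le_mul_left ?_ q0
    rw [key, sum_congr rfl fun f hf => by rw [(hU f hf).2, mul_neg], sum_neg_distrib]
    have h1 : ∑ f ∈ Pd k n, (n : ℝ) ≤ ∑ f ∈ Mo k n,
        av (Pr k Z) f * (if (pf f).card = 1 then (dg (pf f) : ℝ) else 0) := by
      refine (sum_congr rfl fun P hP => ?_).trans_le (sum_le_sum_of_subset_of_nonneg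
        (fun P hP => mem_Mo.2 ⟨(mem_Pd.1 hP).1.1, (mem_Pd.1 hP).2⟩) fun f _ _ =>
          mul_nonneg (av_nonneg _ _) (by positivity))
      obtain ⟨h1, h2⟩ := mem_Pd.1 hP
      have e : pf P = {P} := by
        simpa [pr] using pf_pr (S := {P}) (by simpa using h1)
      rw [av_of (Av_Pr.2 fun Q hQ hd => by rw [hQ.eq_of_dvd h1 hd]; omega), e]
      simp [dg, h2]
    have h2 := (a_GAUSS k n (by omega)).2 hn
    rw [sum_const, nsmul_eq_mul] at h1
    linarith

end Pool.Agent.P.MP_e94e4b_nt.RP
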