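import Pool.Agent.P.MP_e94e4b_nt.RP.IfS

/-! Step CVX. -/

set_option autoImplicit false
set_option linter.unusedSectionVars false

namespace Pool.Agent.P.MP_e94e4b_nt.RP

open Polynomial Finset
open Pool.Agent.P.MP_8be758_nt Pool.Agent.P.MP_8be758_nt.C2 Pool.Agent.P.MP_8be758_nt.L2
open Pool.Agent.P.MP_e94e4b_nt.LG
open scoped Classical

theorem p_CVX :
    S_CVX := by
  intro k _ _ T n D hT hD
  obtain ⟨j, rfl⟩ := Nat.exists_eq_add_of_le hD
  have h := sum_Mo_dvd (k := k) (i := D) (j := j) fun d e => ma T d * av T e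
  have h2 : ∑ f ∈ Mo k (D + j), av T f * DS D mu f = ∑ f ∈ Mo k (D + j),
      ∑ d ∈ (Mo k D).filter (fun d => d ∣ f), ma T d * av T (f /ₘ d) := by
    refine sum_congr rfl fun f _ => ?_
    rw [DS, mul_sum]
    refine sum_congr rfl fun d hd => ?_
    obtain ⟨h1, e, rfl⟩ := mem_filter.1 hd
    rw [mul_divByMonic_cancel_left _ (mem_Mo.1 h1).1, av_mul hT, ma]
    ring
  have q : ∀ i, qq k ^ i ≠ 0 := fun i => (pow_pos qq_pos i).ne'
  rw [h2, h, ← sum_mul_sum, Nat.add_sub_cancel_left, mm, rho, mn, mn, pow_add]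
  field_simp [q D, q j]

end Pool.Agent.P.MP_e94e4b_nt.RP
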