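import Pool.Agent.P.MP_e94e4b_nt.RP.If0

/-! Step DIV. -/

set_option autoImplicit false
set_option linter.unusedSectionVars false

namespace Pool.Agent.P.MP_e94e4b_nt.RP

open Polynomial Finset
open Pool.Agent.P.MP_8be758_nt Pool.Agent.P.MP_8be758_nt.C2 Pool.Agent.P.MP_8be758_nt.L2
open Pool.Agent.P.MP_e94e4b_nt.LG
open scoped Classical

open UniqueFactorizationMonoid in
theorem DIV_aux {k : Type} [Field k] [Finite k] {m : k[X]} (h0 : m ≠ 0) (t : ℕ) :
    ∃ w : ℕ, w * t ≤ m.natDegree ∧ nd m ≤ ((m.natDegree : ℝ) + 1) ^ (Pr k t).card * 2 ^ w := by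
  set s := normalizedFactors m with hs
  have hp : ∀ P ∈ s, IsPr P := fun P hP => ⟨by
    rw [← normalize_normalized_factor P hP]
    exact monic_normalize (irreducible_of_normalized_factor P hP).ne_zero,
    irreducible_of_normalized_factor P hP⟩
  have hd : ∑ P ∈ s.toFinset, s.count P * P.natDegree = m.natDegree := by
    rw [← natDegree_eq_of_degree_eq (degree_eq_degree_of_associated (prod_normalizedFactors h0)),
      natDegree_multiset_prod_of_monic _ fun P hP => (hp P hP).1, sum_multiset_map_count]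
    simp
  have h1 : ((Mle k m.natDegree).filter (fun d => d ∣ m)).card ≤ (Iic s).card :=
    card_le_card_of_injOn normalizedFactors (fun d hd => by
      have := mem_filter.1 hd
      exact mem_Iic.2 ((dvd_iff_normalizedFactors_le_normalizedFactors
        (mem_filter.1 this.1).2.ne_zero h0).1 this.2)) fun d hd e he h => by
      have a := (mem_filter.1 (mem_filter.1 hd).1).2
      have b := (mem_filter.1 (mem_filter.1 he).1).2
      exact eq_of_monic_of_associated a b
        ((associated_iff_normalizedFactors_eq_normalizedFactors a.ne_zero b.ne_zero).2 h)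
  refine ⟨∑ P ∈ s.toFinset.filter (fun P => ¬ P.natDegree ≤ t), s.count P, ?_, ?_⟩
  · rw [sum_mul, ← hd]
    exact (sum_le_sum fun P hP => Nat.mul_le_mul_left _ (not_le.1 (mem_filter.1 hP).2).le).trans
      (sum_le_sum_of_subset (filter_subset _ _))
  rw [Multiset.card_Iic, ← prod_filter_mul_prod_filter_not _ fun P => P.natDegree ≤ t] at h1
  have h2 : ∏ P ∈ s.toFinset.filter (fun P => P.natDegree ≤ t), (s.count P + 1) ≤
      (m.natDegree + 1) ^ (Pr k t).card := by
    refine (prod_le_pow_card _ _ (m.natDegree + 1) fun P hP => ?_).trans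
      (Nat.pow_le_pow_right (by omega) (card_le_card fun P hP => mem_Pr.2
        ⟨hp P (Multiset.mem_toFinset.1 (mem_filter.1 hP).1), (mem_filter.1 hP).2⟩))
    have a := single_le_sum (f := fun P => s.count P * P.natDegree) (fun _ _ => Nat.zero_le _)
      (mem_filter.1 hP).1
    have b := Nat.mul_le_mul_left (s.count P) (hp P (Multiset.mem_toFinset.1 (mem_filter.1 hP).1)).pos
    omega
  have h3 : ∏ P ∈ s.toFinset.filter (fun P => ¬ P.natDegree ≤ t), (s.count P + 1) ≤
      2 ^ ∑ P ∈ s.toFinset.filter (fun P => ¬ P.natDegree ≤ t), s.count P := by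
    rw [← prod_pow_eq_pow_sum]
    exact prod_le_prod' fun P _ => Nat.lt_two_pow_self
  unfold nd
  exact_mod_cast h1.trans (Nat.mul_le_mul h2 h3)

theorem p_DIV :
    S_DIV := by
  intro κ hκ k _ _
  obtain ⟨n0, h0⟩ := NEG (Pr k (8 * κ)).card (2 * κ) (4 ^ (Pr k (8 * κ)).card) 1 (by omega) one_pos
  refine ⟨n0, fun n hn m hm hd => ?_⟩
  obtain ⟨w, h1, h2⟩ := DIV_aux hm (8 * κ)
  have h3 : w ≤ n / (2 * κ) := (Nat.le_div_iff_mul_le (by omega)).2 (by nlinarith)
  have h4 : n / (2 * κ) + n / (2 * κ) ≤ n / κ := by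
    rw [mul_comm, ← Nat.div_div_eq_div_mul]; omega
  have h5 := h0 n hn
  rw [one_mul, ← mul_pow] at h5
  have h6 : (m.natDegree : ℝ) + 1 ≤ 4 * ((n : ℝ) + 1) := by
    have : (m.natDegree : ℝ) ≤ 4 * n := by exact_mod_cast hd
    linarith
  calc nd m ≤ _ := h2
    _ ≤ 2 ^ (n / (2 * κ)) * 2 ^ (n / (2 * κ)) :=
        mul_le_mul ((pow_le_pow_left₀ (by positivity) h6 _).trans h5)
          (pow_le_pow_right₀ one_le_two h3) (by positivity) (by positivity)
    _ ≤ 2 ^ (n / κ) := by rw [← pow_add]; exact pow_le_pow_right₀ one_le_two h4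
    _ ≤ _ := two_pow_le_qq _

end Pool.Agent.P.MP_e94e4b_nt.RP
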