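import Pool.Agent.P.MP_e94e4b_nt.RP.IfW

/-! Step DSB. -/

set_option autoImplicit false
set_option linter.unusedSectionVars false

namespace Pool.Agent.P.MP_e94e4b_nt.RP

open Polynomial Finset
open Pool.Agent.P.MP_8be758_nt Pool.Agent.P.MP_8be758_nt.C2 Pool.Agent.P.MP_8be758_nt.L2
open Pool.Agent.P.MP_e94e4b_nt.LG
open scoped Classical

namespace DSBx

variable {k : Type} [Field k] [Finite k]

theorem dm_le (f : k[X]) (T : Finset k[X]) (i : ℕ) : |DM i (av T) f| ≤ DS i (av T) f := by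
  refine (abs_sum_le_sum_abs _ _).trans (sum_le_sum fun e _ => ?_)
  rw [abs_mul, abs_av]
  exact mul_le_of_le_one_right (av_nonneg _ _) (abs_mu_le _)

theorem ds_av {f : k[X]} {T : Finset k[X]} (h : Av T f) (i : ℕ) (α : k[X] → ℝ) :
    DS i α f = DS i (fun d => α d * av T d) f :=
  sum_congr rfl fun d hd => by simp only [av_of (h.of_dvd (mem_filter.1 hd).2), mul_one]

theorem cof {f d : k[X]} (hf : f.Monic) {i : ℕ} (hd : d ∈ (Mo k i).filter fun d => d ∣ f) :
    f /ₘ d ∈ (Mo k (f.natDegree - i)).filter (fun d => d ∣ f) ∧ f /ₘ (f /ₘ d) = d := by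
  obtain ⟨h1, c, rfl⟩ := mem_filter.1 hd
  obtain ⟨d1, d2⟩ := mem_Mo.1 h1
  have c1 : c.Monic := d1.of_mul_monic_left hf
  rw [mul_divByMonic_cancel_left _ d1]
  refine ⟨mem_filter.2 ⟨mem_Mo.2 ⟨c1, ?_⟩, dvd_mul_left _ _⟩, ?_⟩
  · rw [d1.natDegree_mul c1]; omega
  · rw [mul_comm, mul_divByMonic_cancel_left _ c1]

theorem ds_dm {f : k[X]} {T : Finset k[X]} (hf : f.Monic) (h : Av T f) {i : ℕ}
    (hi : i ≤ f.natDegree) : DS i mu f = DM (f.natDegree - i) (av T) f := by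
  refine sum_nbij' (fun d => f /ₘ d) (fun e => f /ₘ e) (fun d hd => (cof hf hd).1)
    (fun e he => ?_) (fun d hd => (cof hf hd).2) (fun e he => (cof hf he).2) fun d hd => ?_
  · have := (cof hf he).1
    rwa [Nat.sub_sub_self hi] at this
  · rw [(cof hf hd).2, av_of (h.of_dvd (mem_filter.1 (cof hf hd).1).2), one_mul]

end DSBx

open DSBx in
theorem p_DSB :
    S_DSB := by
  intro k _ _ f T i β α hf hi
  refine ⟨dm_le f T i, abs_DS_le i α f, fun h => ⟨ds_av h i α, ds_dm hf h hi, ?_⟩⟩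
  rintro (rfl | rfl)
  · rw [ds_av h]
    exact (abs_DS_le _ _ _).trans (DS_mono (abs_ma_le T) f)
  · rw [ds_dm hf h hi]
    exact dm_le f T _

end Pool.Agent.P.MP_e94e4b_nt.RP
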