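import Pool.Agent.P.MP_e94e4b_nt.RP.IfC

/-! Step END. -/

set_option autoImplicit false
set_option linter.unusedSectionVars false

namespace Pool.Agent.P.MP_e94e4b_nt.RP

open Polynomial Finset
open Pool.Agent.P.MP_8be758_nt Pool.Agent.P.MP_8be758_nt.C2 Pool.Agent.P.MP_8be758_nt.L2
open Pool.Agent.P.MP_e94e4b_nt.LG
open scoped Classical

theorem p_END :
    S_END := by
  intro A Y Q V1 V2 Θ Z η e1 e2 n π hQ hV hZ hVZ h4 hΘ hη hA hY hπ he
  have hW : 0 < V1 ^ 2 := by positivity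
  obtain ⟨t, ht⟩ : ∃ t, V2 = t * V1 ^ 2 := ⟨V2 / V1 ^ 2, by field_simp⟩
  have ht4 : 1 / 4 ≤ t := by
    by_contra hc
    have hc' : t < 1 / 4 := lt_of_not_ge hc
    have := mul_lt_mul_of_pos_right hc' hW
    linarith
  have hY0 : Y ≤ 0 := by
    by_contra hc
    have hc' : 0 < Y := lt_of_not_ge hc
    have := mul_pos hW hc'
    linarith
  have h1 : V1 * Z ≤ 1 := by nlinarith
  have h1' : 0 ≤ V1 * Z := by positivity
  have h2 : V1 ^ 2 * Z ^ 2 ≤ 1 := by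
    have : V1 ^ 2 * Z ^ 2 = (V1 * Z) * (V1 * Z) := by ring
    rw [this]
    nlinarith
  have h3 : Θ * Y ≤ V2 * Y := by nlinarith
  have h5 : V2 * Y ≤ -(t / 4) := by
    have : V2 * Y = t * (V1 ^ 2 * Y) := by rw [ht]; ring
    rw [this]
    nlinarith
  have h6 : V2 * Z ^ 2 ≤ t := by
    have : V2 * Z ^ 2 = t * (V1 ^ 2 * Z ^ 2) := by rw [ht]; ring
    rw [this]
    nlinarith
  have h6' : 0 ≤ V2 * Z ^ 2 := by
    have : 0 ≤ V2 := by linarith
    positivity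
  have h7 : V2 * Z ^ 2 * η ≤ t / 16 := by nlinarith
  have h8 : Q * (Θ * Y) ≤ Q * (-(t / 4)) := mul_le_mul_of_nonneg_left (h3.trans h5) hQ
  have h9 : Q * (V2 * Z ^ 2 * η) ≤ Q * (t / 16) := mul_le_mul_of_nonneg_left h7 hQ
  have h10 : Q * (1 / 4) ≤ Q * t := mul_le_mul_of_nonneg_left ht4 hQ
  have h11 := (abs_le.1 hA).2
  nlinarith

end Pool.Agent.P.MP_e94e4b_nt.RP
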