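import Pool.Agent.P.MP_e94e4b_nt.RP.IfS

/-! Step EQ. -/

set_option autoImplicit false
set_option linter.unusedSectionVars false

namespace Pool.Agent.P.MP_e94e4b_nt.RP

open Polynomial Finset
open Pool.Agent.P.MP_8be758_nt Pool.Agent.P.MP_8be758_nt.C2 Pool.Agent.P.MP_8be758_nt.L2
open Pool.Agent.P.MP_e94e4b_nt.LG
open scoped Classical

theorem p_EQ :
    S_EQ := by
  intro k _ _ T δ j lam hT hL hj
  have h1 : ∀ d ∈ Mo k j, sw lam d = ∑ S ∈ T.powerset, if pr S ∣ d then lam S else 0 := by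
    intro d hd
    rw [sw, wt_inter fun S h => (hL.1 S h).1, wt, ← sum_filter]
    refine sum_congr ?_ fun _ _ => rfl
    ext S
    simp only [mem_powerset, mem_filter, subset_inter_iff]
    exact ⟨fun h => ⟨h.2, (subset_pf_iff (mem_Mo.1 hd).1.ne_zero fun P hP => hT P (h.2 hP)).1 h.1⟩,
      fun h => ⟨(subset_pf_iff (mem_Mo.1 hd).1.ne_zero fun P hP => hT P (h.1 hP)).2 h.2, h.1⟩⟩
  rw [mn, sum_congr rfl h1, sum_comm, sum_div, EE]
  refine sum_congr rfl fun S hS => ?_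
  by_cases h0 : lam S = 0
  · simp [h0]
  have hp : ∀ P ∈ S, IsPr P := fun P hP => hT P (mem_powerset.1 hS hP)
  have hq : (qq k ^ j : ℝ) ≠ 0 := (pow_pos qq_pos _).ne'
  rw [← sum_filter, sum_const, nsmul_eq_mul, card_Mo_dvd (monic_pr hp).ne_zero
    (by rw [natDegree_pr hp]; exact (hL.1 S h0).2.trans hj), natDegree_pr hp]
  simp only [pc, prod_div_distrib, prod_const_one, prod_pow_eq_pow_sum, dg]
  field_simp

end Pool.Agent.P.MP_e94e4b_nt.RP
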