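import Pool.Agent.P.MP_e94e4b_nt.RP.IfS

/-! Step FL. -/

set_option autoImplicit false
set_option linter.unusedSectionVars false

namespace Pool.Agent.P.MP_e94e4b_nt.RP

open Polynomial Finset
open Pool.Agent.P.MP_8be758_nt Pool.Agent.P.MP_8be758_nt.C2 Pool.Agent.P.MP_8be758_nt.L2
open Pool.Agent.P.MP_e94e4b_nt.LG
open scoped Classical

theorem p_FL (hEXP : S_EXP) (hFLA : S_FLA) (hFLB : S_FLB) (hFLC : S_FLC) :
    S_FL := by
  obtain ⟨C, hC, hc⟩ := hFLC
  refine ⟨C, hC, fun k _ _ p T Z s hT hZ hp hs => ?_⟩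
  obtain ⟨R, hR, hX⟩ := hc k p T Z s hT hZ hp hs
  obtain ⟨g1, lam, xi, l1, l2, hw⟩ :=
    hFLA k p T R Z fun P h => ⟨(hp P h).1, (hp P h).2.1, (mem_Pr.1 (hT h)).2⟩
  have g0 : 0 < GR p T R := by linarith
  have hd : 2 * R + Z ≤ (2 * s + 3) * Z := by nlinarith
  have one : ∀ A, Disjoint A T → wt lam A = 1 := fun A hA => by
    have : FA p T R A = GR p T R := sum_congr rfl fun S hS => prod_congr rfl fun P hP =>
      if_neg (disjoint_right.1 hA (mem_powerset.1 (mem_filter.1 hS).1 hP))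
    rw [(hw A).1, this, div_self g0.ne', one_pow]
  have pos : ∀ A, 0 ≤ wt lam A ∧ 0 ≤ wt xi A := fun A => by
    rw [(hw A).1, (hw A).2]; exact ⟨by positivity, by positivity⟩
  have dom : ∀ A, ¬ Disjoint A T → wt lam A ≤ wt xi A := fun A hA => by
    rw [(hw A).1, (hw A).2]
    exact le_mul_of_one_le_right (sq_nonneg _)
      (by exact_mod_cast card_pos.2 (not_disjoint_iff_nonempty_inter.1 hA))
  have pa : ∀ A ∈ T.powerset, 0 ≤ PA p T A := fun A hA =>
    mul_nonneg (prod_nonneg fun P h => (hp P (mem_powerset.1 hA h)).1)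
      (prod_nonneg fun P h => by linarith [(hp P (mem_sdiff.1 h).1).2.1])
  have p0 : PA p T ∅ = VV p T := by simp [PA, VV]
  have e4 : EE p T xi ≤ C / 2 ^ s * VV p T := by
    have : EE p T xi = XR p T R / GR p T R ^ 2 := by
      rw [hEXP, ← hFLB k p T R fun P h => ⟨(hp P h).1, (hp P h).2.1⟩, sum_div]
      refine sum_congr rfl fun A hA => ?_
      rw [(hw A).2, inter_eq_left.2 (mem_powerset.1 hA)]; ring
    rw [this, div_le_iff₀ (by positivity)]; exact hX
  have sp : EE p T lam = VV p T + ∑ A ∈ T.powerset.erase ∅, PA p T A * wt lam A := by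
    rw [hEXP, ← add_sum_erase _ _ (empty_mem_powerset T), one _ (disjoint_empty_left T), p0,
      mul_one]
  have le : ∑ A ∈ T.powerset.erase ∅, PA p T A * wt lam A ≤ EE p T xi := by
    rw [hEXP]
    refine (sum_le_sum fun A hA => ?_).trans (sum_le_sum_of_subset_of_nonneg (erase_subset ∅ _)
      fun A hA _ => mul_nonneg (pa A hA) (pos A).2)
    obtain ⟨h0, hA⟩ := mem_erase.1 hA
    exact mul_le_mul_of_nonneg_left
      (dom A fun h => h0 (disjoint_self.1 (h.mono_right (mem_powerset.1 hA)))) (pa A hA)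
  refine ⟨lam, xi, l1.mono hd, l2.mono hd, one, pos, dom, p0 ▸ pa _ (empty_mem_powerset T), ?_, ?_,
    ?_, e4⟩
  · rw [sp]
    exact le_add_of_nonneg_right
      (sum_nonneg fun A hA => mul_nonneg (pa A (mem_of_mem_erase hA)) (pos A).1)
  · linarith
  · rw [hEXP]; exact sum_nonneg fun A hA => mul_nonneg (pa A hA) (pos A).2

end Pool.Agent.P.MP_e94e4b_nt.RP
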