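import Pool.Agent.P.MP_e94e4b_nt.RP.IfS

/-! Step FLA. -/

set_option autoImplicit false
set_option linter.unusedSectionVars false

namespace Pool.Agent.P.MP_e94e4b_nt.RP

open Polynomial Finset
open Pool.Agent.P.MP_8be758_nt Pool.Agent.P.MP_8be758_nt.C2 Pool.Agent.P.MP_8be758_nt.L2
open Pool.Agent.P.MP_e94e4b_nt.LG
open scoped Classical

section
variable {ι : Type} [DecidableEq ι] {T : Finset ι} {h : ι → ℝ}

theorem FLA_rho (F : Finset (Finset ι)) (h0 : ∀ P ∈ T, 0 ≤ h P ∧ h P ≤ 1) (F0 : ∅ ∈ F)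
    (F1 : ∀ e ∈ F, e ⊆ T) (F2 : ∀ e ∈ F, ∀ S ⊆ e, S ∈ F) :
    1 ≤ ∑ S ∈ F, ∏ P ∈ S, h P ∧
    ∃ ρ : Finset ι → ℝ, (∀ S, ρ S ≠ 0 → S ∈ F) ∧ (∀ S, |ρ S| ≤ 2 ^ S.card) ∧
      ∀ A : Finset ι, ∑ S ∈ A.powerset, ρ S =
        (∑ e ∈ F, ∏ P ∈ e, (if P ∈ A then -1 else h P)) / ∑ S ∈ F, ∏ P ∈ S, h P := by
  have nn : ∀ e ∈ F, 0 ≤ ∏ P ∈ e, h P := fun e he => prod_nonneg fun P hP => (h0 P (F1 e he hP)).1
  obtain ⟨G, hG⟩ : ∃ G, G = ∑ S ∈ F, ∏ P ∈ S, h P := ⟨_, rfl⟩
  have G1 : 1 ≤ G := by simpa [hG] using single_le_sum nn F0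
  have G0 : 0 < G := one_pos.trans_le G1
  refine ⟨hG ▸ G1,
    fun S => (∏ P ∈ S, -(1 + h P)) * (∑ e ∈ F.filter (S ⊆ ·), ∏ P ∈ e \ S, h P) / G,
    fun S hS => ?_, fun S => ?_, fun A => ?_⟩
  · by_contra H
    beta_reduce at hS
    rw [filter_false_of_mem fun e he h' => H (F2 e he S h')] at hS
    simp at hS
  · beta_reduce
    by_cases H : S ∈ F
    · have a1 : |∏ P ∈ S, -(1 + h P)| ≤ 2 ^ S.card := by
        rw [abs_prod]
        refine (prod_le_prod (fun _ _ => abs_nonneg _) fun P hP => ?_).trans_eq (prod_const 2)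
        have := h0 P (F1 S H hP)
        rw [abs_le]
        constructor <;> linarith
      have a2 : ∑ e ∈ F.filter (S ⊆ ·), ∏ P ∈ e \ S, h P ≤ G := by
        rw [← sum_image (f := fun e => ∏ P ∈ e, h P) (g := fun e => e \ S), hG]
        · refine sum_le_sum_of_subset_of_nonneg (fun e he => ?_) fun e he _ => nn e he
          obtain ⟨e', he', rfl⟩ := mem_image.1 he
          exact F2 e' (mem_filter.1 he').1 _ sdiff_subset
        · intro a ha b hb E
          rw [← sdiff_union_of_subset (mem_filter.1 ha).2,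
            ← sdiff_union_of_subset (mem_filter.1 hb).2]
          exact congrArg (· ∪ S) E
      have a3 : 0 ≤ ∑ e ∈ F.filter (S ⊆ ·), ∏ P ∈ e \ S, h P :=
        sum_nonneg fun e he => nn _ (F2 e (mem_filter.1 he).1 _ sdiff_subset)
      rw [abs_div, abs_mul, abs_of_nonneg a3, abs_of_pos G0, div_le_iff₀ G0]
      exact mul_le_mul a1 a2 a3 (by positivity)
    · rw [filter_false_of_mem fun e he h' => H (F2 e he S h')]
      simp
  · have e0 : ∀ P, (if P ∈ A then -1 else h P) = (if P ∈ A then -(1 + h P) else 0) + h P := by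
      intro P
      split_ifs <;> ring
    rw [← sum_div, ← hG]
    congr 1
    simp only [sum_filter, mul_sum, e0]
    rw [sum_comm]
    refine sum_congr rfl fun e _ => ?_
    rw [prod_add]
    simp only [prod_ite_zero, mul_ite, ite_mul, mul_zero, zero_mul]
    rw [← sum_filter, ← sum_filter]
    refine sum_congr ?_ fun _ _ => rfl
    ext S
    simp only [mem_filter, mem_powerset]
    exact and_comm

theorem FLA_sq (ρ : Finset ι → ℝ) (hρ : ∀ S, |ρ S| ≤ 2 ^ S.card) :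
    ∃ lam : Finset ι → ℝ, (∀ S, lam S ≠ 0 → ∃ U U', ρ U ≠ 0 ∧ ρ U' ≠ 0 ∧ U ∪ U' = S) ∧
      (∀ S, |lam S| ≤ 16 ^ S.card) ∧
      ∀ A : Finset ι, ∑ S ∈ A.powerset, lam S = (∑ S ∈ A.powerset, ρ S) ^ 2 := by
  refine ⟨fun S => ∑ x ∈ (S.powerset ×ˢ S.powerset).filter (fun x => x.1 ∪ x.2 = S),
    ρ x.1 * ρ x.2, fun S hS => ?_, fun S => ?_, fun A => ?_⟩
  · obtain ⟨x, hx, h1⟩ := exists_ne_zero_of_sum_ne_zero hS
    exact ⟨x.1, x.2, left_ne_zero_of_mul h1, right_ne_zero_of_mul h1, (mem_filter.1 hx).2⟩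
  · have b : ∀ U ∈ S.powerset, |ρ U| ≤ 2 ^ S.card := fun U hU =>
      (hρ U).trans (pow_le_pow_right₀ one_le_two (card_le_card (mem_powerset.1 hU)))
    refine (abs_sum_le_sum_abs _ _).trans
      ((sum_le_sum_of_subset_of_nonneg (filter_subset _ _) fun _ _ _ => abs_nonneg _).trans ?_)
    refine (sum_le_card_nsmul _ _ (2 ^ S.card * 2 ^ S.card) fun x hx => ?_).trans_eq ?_
    · rw [abs_mul]
      exact mul_le_mul (b _ (mem_product.1 hx).1) (b _ (mem_product.1 hx).2) (abs_nonneg _)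
        (by positivity)
    · rw [card_product, card_powerset, nsmul_eq_mul]
      push_cast
      rw [← mul_pow, ← mul_pow]
      norm_num
  · rw [sq, sum_mul_sum, ← sum_product', ← sum_fiberwise_of_maps_to
      (s := A.powerset ×ˢ A.powerset) (t := A.powerset) (g := fun x => x.1 ∪ x.2) fun x hx =>
        mem_powerset.2 (union_subset (mem_powerset.1 (mem_product.1 hx).1)
          (mem_powerset.1 (mem_product.1 hx).2))]
    refine sum_congr rfl fun S hS => sum_congr ?_ fun _ _ => rfl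
    ext x
    simp only [mem_filter, mem_product, mem_powerset]
    refine and_congr_left fun e => ?_
    have := mem_powerset.1 hS
    exact iff_of_true ⟨e ▸ subset_union_left, e ▸ subset_union_right⟩
      ⟨(e ▸ subset_union_left : x.1 ⊆ S).trans this, (e ▸ subset_union_right : x.2 ⊆ S).trans this⟩

theorem FLA_num (n : ℕ) : 2 * (n : ℝ) ≤ 3 ^ n := by
  induction n with
  | zero => simp
  | succ n ih =>
    have : (1 : ℝ) ≤ 3 ^ n := one_le_pow₀ (by norm_num)
    push_cast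
    rw [pow_succ]
    linarith

theorem FLA_xi (T : Finset ι) (lam : Finset ι → ℝ) (hl : ∀ S, |lam S| ≤ 16 ^ S.card) :
    ∃ xi : Finset ι → ℝ, (∀ S, xi S ≠ 0 → ∃ P ∈ S, P ∈ T ∧ (lam S ≠ 0 ∨ lam (S.erase P) ≠ 0)) ∧
      (∀ S, |xi S| ≤ 50 ^ S.card) ∧
      ∀ A : Finset ι, ∑ S ∈ A.powerset, xi S = (∑ S ∈ A.powerset, lam S) * (A ∩ T).card := by
  refine ⟨fun S => ∑ P ∈ S ∩ T, (lam S + lam (S.erase P)), fun S hS => ?_, fun S => ?_,
    fun A => ?_⟩
  · obtain ⟨P, hP, h1⟩ := exists_ne_zero_of_sum_ne_zero hS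
    refine ⟨P, (mem_inter.1 hP).1, (mem_inter.1 hP).2, ?_⟩
    by_contra H
    push Not at H
    simp [H.1, H.2] at h1
  · refine (abs_sum_le_sum_abs _ _).trans
      ((sum_le_card_nsmul _ _ (2 * 16 ^ S.card) fun P _ => ?_).trans ?_)
    · have a1 := hl S
      have a2 := (hl (S.erase P)).trans
        (pow_le_pow_right₀ (by norm_num) (card_le_card (erase_subset P S)))
      linarith [abs_add_le (lam S) (lam (S.erase P))]
    · have a1 : ((S ∩ T).card : ℝ) ≤ S.card := by exact_mod_cast card_le_card inter_subset_left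
      have a2 := FLA_num S.card
      have a3 : (3 : ℝ) ^ S.card * 16 ^ S.card ≤ 50 ^ S.card := by
        rw [← mul_pow]
        exact pow_le_pow_left₀ (by norm_num) (by norm_num) _
      have a4 : (0 : ℝ) ≤ 16 ^ S.card := by positivity
      rw [nsmul_eq_mul]
      nlinarith
  · have e1 : ∀ S ∈ A.powerset, ∑ P ∈ S ∩ T, (lam S + lam (S.erase P)) =
        ∑ P ∈ A ∩ T, if P ∈ S then lam S + lam (S.erase P) else 0 := fun S hS => by
      rw [← sum_filter]
      refine sum_congr ?_ fun _ _ => rfl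
      ext P
      simp only [mem_filter, mem_inter]
      exact ⟨fun a => ⟨⟨mem_powerset.1 hS a.1, a.2⟩, a.1⟩, fun a => ⟨a.2, a.1.2⟩⟩
    rw [sum_congr rfl e1, sum_comm, mul_comm, ← nsmul_eq_mul, ← sum_const]
    refine sum_congr rfl fun P hP => ?_
    rw [← insert_erase (mem_inter.1 hP).1, sum_powerset_insert (notMem_erase P A),
      sum_powerset_insert (notMem_erase P A), ← sum_add_distrib, ← sum_add_distrib]
    refine sum_congr rfl fun S hS => ?_
    have : P ∉ S := fun a => notMem_erase P A (mem_powerset.1 hS a)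
    rw [if_neg this, if_pos (mem_insert_self _ _), erase_insert this]
    ring

end

theorem p_FLA :
    S_FLA := by
  intro k _ p T R Z hp
  have p1 : ∀ P ∈ T, 0 < 1 - p P := fun P hP => by linarith [(hp P hP).2.1]
  obtain ⟨G1, ρ, r1, r2, r3⟩ := FLA_rho (T := T) (h := hh p) (T.powerset.filter fun S => dg S ≤ R)
    (fun P hP => ⟨div_nonneg (hp P hP).1 (p1 P hP).le,
      by rw [hh, div_le_iff₀ (p1 P hP)]; linarith [(hp P hP).2.1]⟩)
    (by simp [dg_empty]) (fun e he => mem_powerset.1 (mem_filter.1 he).1)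
    fun e he S hS => mem_filter.2 ⟨mem_powerset.2 (hS.trans (mem_powerset.1 (mem_filter.1 he).1)),
      (dg_mono hS).trans (mem_filter.1 he).2⟩
  obtain ⟨lam, l1, l2, l3⟩ := FLA_sq ρ r2
  obtain ⟨xi, x1, x2, x3⟩ := FLA_xi T lam l2
  have l4 : ∀ S, lam S ≠ 0 → S ⊆ T ∧ dg S ≤ 2 * R := fun S hS => by
    obtain ⟨U, U', a, b, rfl⟩ := l1 S hS
    have a' := mem_filter.1 (r1 U a)
    have b' := mem_filter.1 (r1 U' b)
    have := dg_union_le U U'
    exact ⟨union_subset (mem_powerset.1 a'.1) (mem_powerset.1 b'.1), by omega⟩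
  have w : ∀ A, wt lam A = (FA p T R A / GR p T R) ^ 2 := fun A => by
    rw [wt, l3, r3]; rfl
  refine ⟨G1, lam, xi, ⟨fun S hS => ⟨(l4 S hS).1, (l4 S hS).2.trans le_self_add⟩, fun S =>
    (l2 S).trans (pow_le_pow_left₀ (by norm_num) (by norm_num) _)⟩, ⟨fun S hS => ?_, x2⟩,
    fun A => ⟨w A, by rw [← w, wt, x3]; rfl⟩⟩
  obtain ⟨P, a, b, c | c⟩ := x1 S hS
  · exact ⟨(l4 S c).1, (l4 S c).2.trans le_self_add⟩
  · obtain ⟨d, e⟩ := l4 _ c
    have f := dg_insert (notMem_erase P S)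
    rw [insert_erase a] at f
    have := (hp P b).2.2
    exact ⟨by rw [← insert_erase a]; exact insert_subset b d, by omega⟩

end Pool.Agent.P.MP_e94e4b_nt.RP
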