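import Pool.Agent.P.MP_e94e4b_nt.RP.IfS

/-! Step FLC. -/

set_option autoImplicit false
set_option linter.unusedSectionVars false

namespace Pool.Agent.P.MP_e94e4b_nt.RP

open Polynomial Finset
open Pool.Agent.P.MP_8be758_nt Pool.Agent.P.MP_8be758_nt.C2 Pool.Agent.P.MP_8be758_nt.L2
open Pool.Agent.P.MP_e94e4b_nt.LG
open scoped Classical

theorem FLC_sum {α : Type} [DecidableEq α] (T : Finset α) (d : α → ℝ) (F : Finset α → ℝ) :
    ∑ S ∈ T.powerset, (∑ P ∈ S, d P) * F S =
      ∑ P ∈ T, ∑ S ∈ (T.erase P).powerset, d P * F (insert P S) := by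
  rw [sum_congr rfl (g := fun S => ∑ P ∈ T, if P ∈ S then d P * F S else 0) fun S h => by
    rw [sum_mul, ← sum_filter, filter_mem_eq_inter, inter_eq_right.2 (mem_powerset.1 h)], sum_comm]
  refine sum_congr rfl fun P hP => ?_
  conv_lhs => rw [← insert_erase hP]
  rw [sum_powerset_insert (notMem_erase P T), sum_eq_zero fun S h =>
    if_neg fun e => notMem_erase P T (mem_powerset.1 h e)]
  simp

theorem FLC_cnt (a b m d : ℕ) {x : ℝ} (hx : 0 ≤ x) :
    ∑ R ∈ Ico a b, (if m ≤ R ∧ R < m + d then x else 0) ≤ d * (if a < d + m then x else 0) := by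
  split_ifs with h
  · rw [← sum_filter, sum_const, nsmul_eq_mul]
    refine mul_le_mul_of_nonneg_right (Nat.cast_le.2 ((card_le_card (t := Ico m (m + d))
      fun R hR => mem_Ico.2 (mem_filter.1 hR).2).trans (by simp))) hx
  · rw [sum_eq_zero fun R hR => if_neg fun e => by have := (mem_Ico.1 hR).1; omega]
    simp

theorem p_FLC (hRAN : S_RAN) :
    S_FLC := by
  obtain ⟨C, hC, H⟩ := hRAN
  refine ⟨4 * C, by linarith, fun k _ _ p T Z s hT hZ hp hs => ?_⟩
  have hW := H k p T Z s hT hZ hp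
  set W := ∑ S ∈ T.powerset.filter (fun S => s * Z < dg S), (dg S : ℝ) * ∏ P ∈ S, hh p P with eW
  have h1 : ∀ P ∈ T, 0 < 1 - p P := fun P h => by have := hp P h; linarith
  have h2 : ∀ P ∈ T, p P ≤ hh p P := fun P h => by
    rw [hh, le_div_iff₀ (h1 P h)]; nlinarith [(hp P h).1]
  have h3 : ∀ S ⊆ T, 0 ≤ ∏ P ∈ S, hh p P := fun S h =>
    prod_nonneg fun P m => (hp P (h m)).1.trans (h2 P (h m))
  have hV : 0 < VV p T := prod_pos h1
  have s1 : 1 ≤ s := Nat.pos_of_ne_zero fun e => by rw [e] at hs; linarith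
  have hA : ∑ R ∈ Ico (s * Z) (s * Z + Z), XR p T R ≤ W := by
    have := FLC_sum T (fun P => (P.natDegree : ℝ))
      (fun S => if s * Z < dg S then ∏ P ∈ S, hh p P else 0)
    rw [eW, sum_filter, sum_congr rfl (g := fun S => (∑ P ∈ S, (P.natDegree : ℝ)) *
      if s * Z < dg S then ∏ P ∈ S, hh p P else 0) fun S _ => by
        rw [← Nat.cast_sum, ← dg, mul_ite, mul_zero], this]
    simp only [XR, sum_filter]
    rw [sum_comm]
    refine sum_le_sum fun P hP => ?_
    rw [← mul_sum, sum_comm, mul_sum]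
    refine sum_le_sum fun S hS => ?_
    have m : P ∉ S := fun e => notMem_erase P T (mem_powerset.1 hS e)
    have n := h3 S ((mem_powerset.1 hS).trans (erase_subset P T))
    refine (mul_le_mul (h2 P hP) (FLC_cnt _ _ _ _ n) (sum_nonneg fun R _ => by positivity)
      ((hp P hP).1.trans (h2 P hP))).trans (le_of_eq ?_)
    rw [dg_insert m, prod_insert m]
    split_ifs <;> ring
  obtain ⟨R, hR, hX⟩ := exists_le_of_sum_le (s := Ico (s * Z) (s * Z + Z)) (nonempty_Ico.2 (by omega))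
    (f := fun R => Z * XR p T R) (g := fun _ => W) (by
      rw [← mul_sum, sum_const, nsmul_eq_mul]
      simpa using mul_le_mul_of_nonneg_left hA (Nat.cast_nonneg Z))
  obtain ⟨r1, r2⟩ := mem_Ico.1 hR
  refine ⟨R, by rw [add_mul]; omega, ?_⟩
  set t := ∑ S ∈ T.powerset.filter (fun S => ¬ dg S ≤ R), ∏ P ∈ S, hh p P with et
  have hG : (GR p T R + t) * VV p T = 1 := by
    rw [GR, et, sum_filter_add_sum_filter_not, ← prod_one_add, VV, ← prod_mul_distrib]
    exact prod_eq_one fun P h => by have := (h1 P h).ne'; rw [hh]; field_simp; ring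
  have ht : Z * t ≤ W := by
    rw [et, mul_sum]
    refine (sum_le_sum fun S h => ?_).trans (sum_le_sum_of_subset_of_nonneg
      (fun S h => mem_filter.2 ⟨(mem_filter.1 h).1, by have := (mem_filter.1 h).2; omega⟩)
      fun S h _ => mul_nonneg (Nat.cast_nonneg _) (h3 S (mem_powerset.1 (mem_filter.1 h).1)))
    refine mul_le_mul_of_nonneg_right (Nat.cast_le.2 ?_) (h3 S (mem_powerset.1 (mem_filter.1 h).1))
    have := (mem_filter.1 h).2
    have := Nat.le_mul_of_pos_left Z s1
    omega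
  have z0 : (0 : ℝ) < Z := by exact_mod_cast hZ
  have p0 : (0 : ℝ) < 2 ^ s := by positivity
  have key : ∀ x : ℝ, Z * x ≤ W → x * (2 ^ s * VV p T) ≤ C := fun x h =>
    le_of_mul_le_mul_left (by nlinarith [mul_le_mul_of_nonneg_right h (mul_pos p0 hV).le]) z0
  have k1 := key _ hX
  have k2 := key _ ht
  have k3 : t * VV p T ≤ 1 / 4 := le_of_mul_le_mul_left (by nlinarith) p0
  have k4 : 1 ≤ 4 * (GR p T R * VV p T) ^ 2 := by nlinarith
  rw [div_mul_eq_mul_div, div_mul_eq_mul_div, le_div_iff₀ p0]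
  refine le_of_mul_le_mul_left ?_ hV
  nlinarith [mul_le_mul_of_nonneg_left k4 (zero_le_one.trans hC)]

end Pool.Agent.P.MP_e94e4b_nt.RP
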