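import Pool.Agent.P.MP_e94e4b_nt.RP.IfK

/-! Step KB. -/

set_option autoImplicit false
set_option linter.unusedSectionVars false

namespace Pool.Agent.P.MP_e94e4b_nt.RP

open Polynomial Finset
open Pool.Agent.P.MP_8be758_nt Pool.Agent.P.MP_8be758_nt.C2 Pool.Agent.P.MP_8be758_nt.L2
open Pool.Agent.P.MP_e94e4b_nt.LG
open scoped Classical

theorem p_KB :
    S_KB := by
  intro k _ _ j
  have hq := qq_pos (k := k)
  have h1 : (Mo k j ×ˢ Mo k j).filter (fun p => ¬ ∀ g : k[X], g.Monic → g ∣ p.1 → g ∣ p.2 →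
      2 * g.natDegree ≤ j) ⊆ (Icc (j / 2) j).biUnion fun i => (Mo k i).biUnion fun g =>
        Gs g 0 j ×ˢ Gs g 0 j := by
    intro p hp
    obtain ⟨p1, p2⟩ := mem_filter.1 hp
    push Not at p2
    obtain ⟨g, g1, g2, g3, g4⟩ := p2
    obtain ⟨a, b⟩ := mem_product.1 p1
    rw [mem_Mo] at a b
    have := natDegree_le_of_dvd g2 a.1.ne_zero
    exact mem_biUnion.2 ⟨_, mem_Icc.2 ⟨by omega, by omega⟩, mem_biUnion.2 ⟨g, mem_Mo.2 ⟨g1, rfl⟩,
      mem_product.2 ⟨mem_Gs.2 ⟨a.1, a.2, by rwa [sub_zero]⟩, mem_Gs.2 ⟨b.1, b.2, by rwa [sub_zero]⟩⟩⟩⟩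
  have h2 := (Nat.cast_le (α := ℝ)).2 ((card_le_card h1).trans (card_biUnion_le.trans
    (sum_le_sum fun i _ => card_biUnion_le)))
  refine (mul_le_mul_of_nonneg_right h2 (by positivity)).trans ?_
  rw [Nat.cast_sum, sum_mul]
  refine (sum_le_card_nsmul _ _ (qq k ^ (2 * j)) fun i hi => ?_).trans ?_
  · obtain ⟨i1, i2⟩ := mem_Icc.1 hi
    rw [Nat.cast_sum, sum_congr rfl fun g hg => show ((Gs g 0 j ×ˢ Gs g 0 j).card : ℝ) =
      (qq k ^ j / qq k ^ i) ^ 2 by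
        rw [card_product, Nat.cast_mul, card_Gs (mem_Mo.1 hg).1.ne_zero _ ((mem_Mo.1 hg).2.trans_le i2),
          (mem_Mo.1 hg).2, sq], sum_const, nsmul_eq_mul, card_Mo]
    have := qq_pow_mono (k := k) i1
    rw [mul_comm 2, pow_mul]
    calc _ ≤ qq k ^ i * (qq k ^ j / qq k ^ i) ^ 2 * qq k ^ i := by gcongr
      _ = _ := by field_simp
  · rw [nsmul_eq_mul, Nat.card_Icc]
    gcongr
    exact_mod_cast Nat.sub_le _ _

end Pool.Agent.P.MP_e94e4b_nt.RP
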