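import Pool.Agent.P.MP_e94e4b_nt.RP.IfK

/-! Step KG. -/

set_option autoImplicit false
set_option linter.unusedSectionVars false

namespace Pool.Agent.P.MP_e94e4b_nt.RP

open Polynomial Finset
open Pool.Agent.P.MP_8be758_nt Pool.Agent.P.MP_8be758_nt.C2 Pool.Agent.P.MP_8be758_nt.L2
open Pool.Agent.P.MP_e94e4b_nt.LG
open scoped Classical

theorem p_KG (hKW : S_KW) :
    S_KG := by
  intro k _ _ _ S h A E Φ c L hS hh hL hc h1 h2
  have hq := qq_pos (k := k)
  by_cases hE : IsCoprime (pr S) E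
  swap
  · rw [sum_eq_zero fun C _ => by rw [K_zero fun e => hE e.of_mul_right_left, mul_zero]]
    simp only [ne_eq, OfNat.ofNat_ne_zero, not_false_eq_true, zero_pow, zero_mul]
    positivity
  generalize hB : 256 ^ S.card * qq k ^ (dg S + dg (S.filter (fun P => P ∣ A))) = B
  have B0 : 0 ≤ B := by rw [← hB]; positivity
  have av := sum_avg (Mo k c) (low k L) (fun x => h * x)
    (fun x hx g hg => add_mem_Gs hg (mul_mem_low hx hc) (one_dvd _))
    fun C => Φ C * DEC2_a (pr S) (E * C) A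
  have inner : ∀ C ∈ Mo k c,
      |∑ x ∈ low k L, Φ (C + h * x) * DEC2_a (pr S) (E * (C + h * x)) A| ≤ √B := fun C hC => by
    rw [sum_congr rfl fun x hx => by rw [h2 C hC x hx, mul_add, ← mul_assoc E], ← mul_sum, abs_mul]
    exact (mul_le_of_le_one_left (abs_nonneg _) (h1 C)).trans
      (Real.abs_le_sqrt (hB ▸ hKW k S A (E * C) (E * h) L hS (hE.mul_right hh) hL))
  have tot := (abs_sum_le_sum_abs _ _).trans (sum_le_card_nsmul _ _ _ inner)
  rw [← av, card_low', nsmul_eq_mul, card_Mo] at tot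
  have := pow_le_pow_left₀ (abs_nonneg _) tot 2
  rw [sq_abs, mul_pow, mul_pow, Real.sq_sqrt B0, ← pow_mul, ← pow_mul, mul_comm L, mul_comm c,
    mul_comm] at this
  exact this

end Pool.Agent.P.MP_e94e4b_nt.RP
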