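import Pool.Agent.P.MP_e94e4b_nt.RP.IfK
import Pool.Agent.P.MP_e94e4b_nt.W.Loc

/-! Step KW. -/

set_option autoImplicit false
set_option linter.unusedSectionVars false

namespace Pool.Agent.P.MP_e94e4b_nt.RP

open Polynomial Finset
open Pool.Agent.P.MP_8be758_nt Pool.Agent.P.MP_8be758_nt.C2 Pool.Agent.P.MP_8be758_nt.L2
open Pool.Agent.P.MP_e94e4b_nt.LG
open scoped Classical

theorem KW_der {k : Type} [Field k] [Finite k] {S : Finset k[X]} (hS : ∀ P ∈ S, IsPr P) {P : k[X]}
    (hP : P ∈ S) : ¬ P ∣ derivative (pr S) := by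
  simpa only [one_mul, pr] using DEC2_der (V1 := 1) hS hP
    fun h => (hS P hP).2.not_isUnit (isUnit_of_dvd_one h)

theorem KW_fac {k : Type} [Field k] [Finite k] [CharP k 2] {S : Finset k[X]}
    (hS : ∀ P ∈ S, IsPr P) (U A : k[X]) :
    DEC2_a (pr S) U A = ∏ P ∈ S, lk P A (derivative (pr S) * U) := by
  by_cases c : IsCoprime (pr S) U
  · obtain ⟨w, hw⟩ := K_inv.2 c
    rw [DEC2_eq hw, a_SPLIT k (pr S) 1 0 (w * A) S one_ne_zero (one_mul _).symm
      (fun P hP => ⟨(hS P hP).1, (hS P hP).2,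
        fun h => (hS P hP).2.not_isUnit (isUnit_of_dvd_one h)⟩)
      (one_dvd _), res_of_dvd (one_dvd _), psi_zero, one_mul]
    refine prod_congr rfl fun P hP => ?_
    have hp := hS P hP
    have : Fact (Irreducible P) := ⟨hp.2⟩
    have d2 : AdjoinRoot.mk P w * AdjoinRoot.mk P U = 1 := by
      rw [← map_mul, ← (AdjoinRoot.mk P).map_one, AdjoinRoot.mk_eq_mk]
      exact (dvd_prod_of_mem _ hP).trans hw
    have d3 : AdjoinRoot.mk P U ≠ 0 := right_ne_zero_of_mul_eq_one d2
    rw [lk, if_neg fun h => (hp.prime.dvd_or_dvd h).elim (KW_der hS hP)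
      fun h => d3 (AdjoinRoot.mk_eq_zero.2 h), lp_eq, lp_eq, map_mul, map_mul,
      eq_inv_of_mul_eq_one_left d2]
    congr 1
    ring
  · rw [K_zero c]
    obtain ⟨P, hP, h⟩ : ∃ P ∈ S, P ∣ U := by
      by_contra h
      exact c (IsCoprime.prod_left fun P hP =>
        (hS P hP).2.coprime_iff_not_dvd.2 fun d => h ⟨P, hP, d⟩)
    exact (prod_eq_zero hP (by rw [lk, if_pos (h.mul_left _)])).symm

theorem p_KW :
    S_KW := by
  intro k _ _ _ S A u b l hS hb hl
  have hq := qq_pos (k := k)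
  have key := a_COMP k S (fun P x => lk P A (derivative (pr S) * u + derivative (pr S) * b * x))
    (fun P => if P ∣ A then qq k ^ P.natDegree else 16 * √(qq k ^ P.natDegree)) (fun _ => 1) l hS
    (fun P _ x y => lk_congr (by simp) ⟨derivative (pr S) * b * y, by ring⟩) (fun P hP l => ?_)
    (by simp) (by simp) hl
  · simp only [KW_fac hS, mul_add, ← mul_assoc]
    simp only [one_mul] at key
    refine (sq_abs _).symm.trans_le ((pow_le_pow_left₀ (abs_nonneg _) key 2).trans ?_)
    rw [pow_add, dg, dg, sum_filter, ← prod_pow_eq_pow_sum, ← prod_pow_eq_pow_sum, ← prod_const,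
      ← prod_mul_distrib, ← prod_mul_distrib, ← prod_pow]
    refine prod_le_prod (fun _ _ => sq_nonneg _) fun P _ => ?_
    have := pow_pos hq P.natDegree
    split_ifs
    · nlinarith
    · rw [mul_pow, Real.sq_sqrt this.le]; norm_num
  · have hp := hS P hP
    split_ifs with c
    · refine (abs_sum_le_sum_abs _ _).trans ((sum_le_card_nsmul _ _ 1 fun x _ => ?_).trans ?_)
      · rw [abs_mul, abs_psi, mul_one]; exact abs_lk_le _ _ _
      · rw [nsmul_eq_mul, card_low', mul_one]
    · have := W.lks C2.p_LOC ({()} : Finset Unit) (fun _ => A) (fun _ => derivative (pr S) * u)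
        (fun _ => derivative (pr S) * b) l hp.1 hp.2
        (fun _ _ h => (hp.prime.dvd_or_dvd h).elim (KW_der hS hP)
          fun h => hp.2.not_isUnit (hb.isUnit_of_dvd' (dvd_prod_of_mem _ hP) h))
        (fun _ _ _ _ _ _ _ => rfl) ⟨(), mem_singleton_self _, c⟩
      simp only [prod_singleton, card_singleton] at this
      exact this.trans_eq (by norm_num [qq])

end Pool.Agent.P.MP_e94e4b_nt.RP
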