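import Pool.Agent.P.MP_e94e4b_nt.RP.Defs

/-! The two analytic inputs and the divisor bounds, as statements. -/

namespace Pool.Agent.P.MP_e94e4b_nt.RP

open Polynomial Finset
open Pool.Agent.P.MP_8be758_nt Pool.Agent.P.MP_8be758_nt.C2 Pool.Agent.P.MP_8be758_nt.L2
open Pool.Agent.P.MP_e94e4b_nt.LG
open scoped Classical

-- deps:
def S_DIV : Prop :=
  ∀ κ : ℕ, 1 ≤ κ → ∀ (k : Type) [Field k] [Finite k], ∃ n0 : ℕ, ∀ n, n0 ≤ n →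
    ∀ m : k[X], m ≠ 0 → m.natDegree ≤ 4 * n → nd m ≤ qq k ^ (n / κ)

-- deps:
def S_CW : Prop :=
  ∀ c κ : ℕ, 1 ≤ κ → ∀ (k : Type) [Field k] [Finite k], ∃ n0 : ℕ, ∀ n, n0 ≤ n →
    ∀ S : Finset k[X], (∀ P ∈ S, IsPr P) → dg S ≤ 4 * n → (c : ℝ) ^ S.card ≤ qq k ^ (n / κ)

-- deps: DIV
def S_T : Prop :=
  ∀ K0 : ℕ, 1 ≤ K0 → ∃ κ : ℕ, 1 ≤ κ ∧ ∀ (k : Type) [Field k] [Finite k] [CharP k 2] (h : k[X]),
    h ≠ 0 → ∃ n0 : ℕ, ∀ (F : k[X]) (M β y ρ : ℕ), F.Monic → n0 ≤ F.natDegree →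
      M ≤ F.natDegree → F.natDegree ≤ M + F.natDegree / κ → y + F.natDegree / K0 ≤ β →
      2 * β + 128 * ρ + F.natDegree / K0 ≤ F.natDegree →
      TB F h M β y ρ (qq k ^ F.natDegree / qq k ^ (F.natDegree / κ))

-- deps: CW
def S_K : Prop :=
  ∀ κ : ℕ, 1 ≤ κ → ∀ (k : Type) [Field k] [Finite k] [CharP k 2] (h : k[X]), h ≠ 0 →
    ∃ n0 : ℕ, ∀ (F : k[X]) (M D j c v : ℕ), F.Monic → n0 ≤ F.natDegree → h.natDegree < M →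
      M ≤ F.natDegree → F.natDegree / κ ≤ v → D + j ≤ 2 * F.natDegree →
      5 * (D + j + c + h.natDegree - M) + 8 * v ≤ j →
      D + 2 * j + min D j + 5 * (D + j + c + h.natDegree - M) + 2 * (F.natDegree - M) +
        2 * h.natDegree + 8 * v ≤ 2 * c →
      KB F h M D j c (qq k ^ M / qq k ^ v)

end Pool.Agent.P.MP_e94e4b_nt.RP
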