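import Pool.Agent.P.MP_e94e4b_nt.RP.IfC
import Pool.Agent.P.MP_e94e4b_nt.RP.If0

/-! Step LAMB. -/

set_option autoImplicit false
set_option linter.unusedSectionVars false

namespace Pool.Agent.P.MP_e94e4b_nt.RP

open Polynomial Finset
open Pool.Agent.P.MP_8be758_nt Pool.Agent.P.MP_8be758_nt.C2 Pool.Agent.P.MP_8be758_nt.L2
open Pool.Agent.P.MP_e94e4b_nt.LG
open scoped Classical

theorem p_LAMB (hCW : S_CW) :
    S_LAMB := by
  intro κ hκ k _ _
  obtain ⟨n0, hn0⟩ := hCW 51 κ hκ k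
  refine ⟨n0, fun n hn T δ lam hT hL hδ => ⟨fun S => ?_, fun m hm => ?_⟩⟩
  · by_cases h0 : lam S = 0
    · rw [h0, abs_zero]
      exact (pow_pos qq_pos _).le
    · obtain ⟨h1, h2⟩ := hL.1 S h0
      refine (hL.2 S).trans (le_trans ?_ (hn0 n hn S (fun P hP => hT P (h1 hP)) (by omega)))
      exact pow_le_pow_left₀ (by norm_num) (by norm_num) _
  · obtain ⟨m1, m2⟩ := mem_Mo.1 hm
    have hd : dg (pf m) ≤ 4 * n := by
      have := dg_pf_le m1.ne_zero
      omega
    refine le_trans ?_ (hn0 n hn (pf m) (fun P => isPr_of_mem_pf) hd)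
    unfold sw wt
    refine (abs_sum_le_sum_abs _ _).trans ((sum_le_sum fun S _ => hL.2 S).trans (le_of_eq ?_))
    have := Finset.prod_one_add (f := fun _ : k[X] => (50 : ℝ)) (pf m)
    simp only [prod_const] at this
    rw [← this]
    norm_num

end Pool.Agent.P.MP_e94e4b_nt.RP
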