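import Pool.Agent.P.MP_e94e4b_nt.RP.IfS

/-! Step LAND. -/

set_option autoImplicit false
set_option linter.unusedSectionVars false

namespace Pool.Agent.P.MP_e94e4b_nt.RP

open Polynomial Finset
open Pool.Agent.P.MP_8be758_nt Pool.Agent.P.MP_8be758_nt.C2 Pool.Agent.P.MP_8be758_nt.L2
open Pool.Agent.P.MP_e94e4b_nt.LG
open scoped Classical

theorem land_aux {α : Type} [DecidableEq α] (w : α → ℕ) (A : Finset α) (j : ℕ) (hj : j ≤ A.card) :
    ∃ U ⊆ A, U.card + j = A.card ∧ A.card * ∑ x ∈ U, w x ≤ U.card * ∑ x ∈ A, w x := by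
  induction j with
  | zero => exact ⟨A, Subset.refl _, rfl, le_rfl⟩
  | succ j ih =>
    obtain ⟨U, hUA, hc, hle⟩ := ih (by omega)
    have hne : U.Nonempty := card_pos.1 (by omega)
    obtain ⟨x, hx, hmax⟩ := exists_max_image U w hne
    have h1 : ∑ y ∈ U, w y ≤ U.card * w x := by
      simpa using sum_le_card_nsmul U w (w x) hmax
    have h2 := sum_erase_add U w hx
    have h3 := card_erase_of_mem hx
    have hpos : 0 < U.card := card_pos.2 hne
    refine ⟨U.erase x, (erase_subset _ _).trans hUA, by omega, ?_⟩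
    obtain ⟨m, hm⟩ : ∃ m, U.card = m + 1 := ⟨U.card - 1, by omega⟩
    have h4 : (U.erase x).card = m := by omega
    rw [h4]
    rw [hm, ← h2] at h1 hle
    generalize ∑ y ∈ U.erase x, w y = s at *
    generalize ∑ y ∈ A, w y = t at *
    have h5 : s ≤ m * w x := by nlinarith
    have h6 : (m + 1) * (A.card * s) ≤ (m + 1) * (m * t) := by
      calc (m + 1) * (A.card * s) = A.card * (m * s + s) := by ring
        _ ≤ A.card * (m * s + m * w x) := by gcongr
        _ = m * (A.card * (s + w x)) := by ring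
        _ ≤ m * ((m + 1) * t) := by gcongr
        _ = (m + 1) * (m * t) := by ring
    exact Nat.le_of_mul_le_mul_left h6 (by omega)

theorem p_LAND :
    S_LAND := by
  intro k _ A n a ha hn h8
  obtain ⟨U, hUA, hc, hle⟩ := land_aux (fun P : k[X] => P.natDegree) A (A.card - A.card / 9)
    (Nat.sub_le _ _)
  have hU : U.card = A.card / 9 := by omega
  have hdU : dg U = ∑ x ∈ U, x.natDegree := rfl
  have hdA : dg A = ∑ x ∈ A, x.natDegree := rfl
  rw [← hdU, ← hdA] at hle
  rcases Nat.eq_zero_or_pos A.card with h0 | hpos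
  · refine ⟨∅, empty_subset _, ?_, by omega⟩
    have : dg (∅ : Finset k[X]) = 0 := rfl
    omega
  have h9 : 9 * dg U ≤ n := by
    have : A.card * (9 * dg U) ≤ A.card * n := by
      calc A.card * (9 * dg U) = 9 * (A.card * dg U) := by ring
        _ ≤ 9 * (U.card * dg A) := by gcongr
        _ = (9 * U.card) * dg A := by ring
        _ ≤ A.card * n := Nat.mul_le_mul (by omega) hn
    exact Nat.le_of_mul_le_mul_left this hpos
  obtain ⟨x, hxA, hxU⟩ := exists_mem_notMem_of_card_lt_card (show U.card < A.card by omega)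
  refine ⟨insert x U, insert_subset hxA hUA, ?_, ?_⟩
  · have : dg (insert x U) = x.natDegree + dg U := by
      rw [hdU]; exact sum_insert hxU
    have := ha x hxA
    omega
  · rw [card_insert_of_notMem hxU]; omega

end Pool.Agent.P.MP_e94e4b_nt.RP
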