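import Pool.Agent.P.MP_e94e4b_nt.RP.IfW
import Pool.Agent.P.MP_e94e4b_nt.RP.IfS

/-! Step LF0. -/

set_option autoImplicit false
set_option linter.unusedSectionVars false

namespace Pool.Agent.P.MP_e94e4b_nt.RP

open Polynomial Finset
open Pool.Agent.P.MP_8be758_nt Pool.Agent.P.MP_8be758_nt.C2 Pool.Agent.P.MP_8be758_nt.L2
open Pool.Agent.P.MP_e94e4b_nt.LG
open scoped Classical

theorem LF0_pr {k : Type} [Field k] [Finite k] {d : k[X]} (hm : d.Monic) (hs : Squarefree d) :
    pr (pf d) = d := by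
  have h : ∀ P ∈ pf d, IsPr P := fun P => isPr_of_mem_pf
  refine eq_of_monic_of_associated (monic_pr h) hm
    (associated_of_dvd_dvd ((subset_pf_iff hm.ne_zero h).1 subset_rfl) ?_)
  rw [← hs.dvd_pow_iff_dvd (n := d.natDegree + 1) (by omega)]
  obtain ⟨c, hc⟩ := (subset_pf_iff hm.ne_zero h).1 subset_rfl
  have hu : IsUnit c := by
    by_contra hu
    have c0 : c ≠ 0 := by rintro rfl; exact hm.ne_zero (by rw [hc, mul_zero])
    obtain ⟨P, p1, p2, p3⟩ := exists_monic_irreducible_factor c hu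
    have p4 : P ∈ pf d := (mem_pf hm.ne_zero).2 ⟨⟨p1, p2⟩, by rw [hc]; exact p3.mul_left _⟩
    have p5 : P * P ∣ d := by
      rw [hc]; exact mul_dvd_mul (dvd_prod_of_mem _ p4) p3
    exact p2.not_isUnit (hs P p5)
  refine dvd_trans ?_ (dvd_pow_self _ (by omega))
  conv_lhs => rw [hc]
  exact (hu.mul_right_dvd).2 dvd_rfl

theorem p_LF0 (hLAND : S_LAND) :
    S_LF0 := by
  intro k _ _ m Z a b hm hav hZa hab hb h8
  have m0 := hm.ne_zero
  set A := (pf m).filter fun P => P.natDegree ≤ a with hA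
  set L := (pf m).filter fun P => b < P.natDegree with hL
  have hAp : ∀ P ∈ A, IsPr P := fun P hP => isPr_of_mem_pf (mem_filter.1 hP).1
  have hdA : dg A ≤ m.natDegree := (dg_mono (filter_subset _ _)).trans (dg_pf_le m0)
  have hdL : L.card ≤ m.natDegree / b := by
    rw [Nat.le_div_iff_mul_le (by omega)]
    refine le_trans ?_ ((dg_mono (filter_subset (fun P => b < P.natDegree) _)).trans (dg_pf_le m0))
    have := card_nsmul_le_sum L (fun P => P.natDegree) b fun P hP => (mem_filter.1 hP).2.le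
    simpa [dg] using this
  obtain ⟨U, hU, u1, u2⟩ := hLAND k A m.natDegree a (fun P hP => (mem_filter.1 hP).2) hdA h8
  have hUp : ∀ P ∈ U, IsPr P := fun P hP => hAp P (hU hP)
  -- the left side
  set T := Pr k Z ∪ JJ k a b with hT
  set D := (range (m.natDegree + 1)).sigma fun j =>
    ((Mo k j).filter (fun d => d ∣ m)).filter fun d => Squarefree d ∧ Av T d with hD
  have l1 : ∑ j ∈ range (m.natDegree + 1), |DS j (ma T) m| ≤ (D.card : ℝ) := by
    rw [hD, card_sigma]
    push_cast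
    refine sum_le_sum fun j _ => (abs_DS_le j _ m).trans ?_
    rw [DS, card_filter]
    push_cast
    refine sum_le_sum fun d _ => ?_
    split_ifs with h
    · exact bd_ma T d
    · by_cases h0 : ma T d = 0
      · simp [h0]
      · exact absurd ⟨sqf_of_ma h0, on_ma T d h0⟩ h
  have l2 : D.card ≤ (A ∪ L).powerset.card := by
    refine card_le_card_of_injOn (fun x => pf x.2) (fun x hx => ?_) fun x hx y hy hxy => ?_
    · obtain ⟨-, h2⟩ := mem_sigma.1 (mem_coe.1 hx)
      obtain ⟨h3, -, h5⟩ := mem_filter.1 h2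
      obtain ⟨h6, h7⟩ := mem_filter.1 h3
      refine mem_coe.2 (mem_powerset.2 fun P hP => ?_)
      obtain ⟨p1, p2⟩ := (mem_pf (mem_Mo.1 h6).1.ne_zero).1 hP
      have p3 : P ∈ pf m := (mem_pf m0).2 ⟨p1, p2.trans h7⟩
      by_cases c1 : P.natDegree ≤ a
      · exact mem_union_left _ (mem_filter.2 ⟨p3, c1⟩)
      · by_cases c2 : b < P.natDegree
        · exact mem_union_right _ (mem_filter.2 ⟨p3, c2⟩)
        · exact absurd p2 (h5 P (mem_union_right _ (mem_JJ.2 ⟨p1, by omega, by omega⟩)))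
    · obtain ⟨-, h2⟩ := mem_sigma.1 (mem_coe.1 hx)
      obtain ⟨h3, h4, -⟩ := mem_filter.1 h2
      obtain ⟨-, h2'⟩ := mem_sigma.1 (mem_coe.1 hy)
      obtain ⟨h3', h4', -⟩ := mem_filter.1 h2'
      obtain ⟨a1, a2⟩ := mem_Mo.1 (mem_filter.1 h3).1
      obtain ⟨b1, b2⟩ := mem_Mo.1 (mem_filter.1 h3').1
      have e : x.2 = y.2 := by
        rw [← LF0_pr a1 h4, ← LF0_pr b1 h4']; exact congrArg pr hxy
      obtain ⟨i, d⟩ := x
      obtain ⟨j, e'⟩ := y
      simp only at a2 b2 e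
      subst e
      obtain rfl : i = j := a2.symm.trans b2
      rfl
  have l3 : ((A ∪ L).powerset.card : ℝ) ≤ 2 ^ (m.natDegree / b) * 512 ^ U.card := by
    rw [card_powerset]
    push_cast
    have : (512 : ℝ) ^ U.card = 2 ^ (9 * U.card) := by rw [pow_mul]; norm_num
    rw [this, ← pow_add]
    refine pow_le_pow_right₀ (by norm_num) ((card_union_le _ _).trans (by omega))
  refine l1.trans (((Nat.cast_le.2 l2).trans l3).trans ?_)
  refine mul_le_mul_of_nonneg_left ?_ (by positivity)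
  have nn : ∀ d : k[X], 0 ≤ (if Squarefree d ∧ pf d ⊆ JJ k Z a then (512 : ℝ) ^ (pf d).card
      else 0) := fun d => by split_ifs <;> positivity
  refine le_trans ?_ (single_le_sum (fun u _ => DS_nonneg nn m)
    (mem_range.2 (show dg U < m.natDegree / 4 + 1 by omega)))
  have hmem : pr U ∈ (Mo k (dg U)).filter fun d => d ∣ m :=
    mem_filter.2 ⟨mem_Mo.2 ⟨monic_pr hUp, natDegree_pr hUp⟩,
      (subset_pf_iff m0 hUp).1 (hU.trans (filter_subset _ _))⟩
  refine le_trans (le_of_eq ?_) (single_le_sum (fun d _ => nn d) hmem)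
  have hsub : U ⊆ JJ k Z a := fun P hP => by
    obtain ⟨q1, q2⟩ := mem_filter.1 (hU hP)
    obtain ⟨q3, q4⟩ := (mem_pf m0).1 q1
    exact mem_JJ.2 ⟨q3, Av_Pr.1 hav P q3 q4, q2⟩
  rw [pf_pr hUp, if_pos ⟨squarefree_pr hUp, hsub⟩]

end Pool.Agent.P.MP_e94e4b_nt.RP
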