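import Pool.Agent.P.MP_e94e4b_nt.RP.IfS

/-! Step M2. -/

set_option autoImplicit false
set_option linter.unusedSectionVars false

namespace Pool.Agent.P.MP_e94e4b_nt.RP

open Polynomial Finset
open Pool.Agent.P.MP_8be758_nt Pool.Agent.P.MP_8be758_nt.C2 Pool.Agent.P.MP_8be758_nt.L2
open Pool.Agent.P.MP_e94e4b_nt.LG
open scoped Classical

section
variable {k : Type} [Field k]

theorem M2_prime {d d' : k[X]} (h0 : d ≠ 0) (h : ¬ IsCoprime d d') :
    ∃ P, IsPr P ∧ P ∣ d ∧ P ∣ d' := by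
  by_contra hc
  refine h (isCoprime_of_irreducible_dvd (fun e => h0 e.1) fun z hz h1 h2 => hc ?_)
  have a : Associated (normalize z) z := normalize_associated z
  exact ⟨normalize z, ⟨monic_normalize hz.ne_zero, a.symm.irreducible hz⟩, a.dvd.trans h1,
    a.dvd.trans h2⟩

variable [Finite k]

theorem M2_diff (i j : ℕ) (α α' : k[X] → ℝ) : mn i α * mn j α' - m2 i α j α' =
    (∑ d ∈ Mo k i, ∑ d' ∈ Mo k j, if IsCoprime d d' then 0 else α d * α' d') / qq k ^ (i + j) := by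
  rw [mn, mn, m2, div_mul_div_comm, ← pow_add, ← sub_div, sum_mul_sum, ← sum_sub_distrib]
  refine congrArg (· / _) (sum_congr rfl fun d _ => ?_)
  rw [← sum_sub_distrib]
  refine sum_congr rfl fun d' _ => ?_
  split_ifs <;> simp

theorem M2_cnt (Z i j : ℕ) :
    ∑ d ∈ Mo k i, ∑ d' ∈ Mo k j, ∑ a ∈ Ico Z (min i j + 1), ∑ P ∈ Mo k a,
      ((if P ∣ d then 1 else 0) * (if P ∣ d' then 1 else 0) : ℝ) ≤
      2 / qq k ^ Z * qq k ^ (i + j) := by
  have hq := qq_pos (k := k)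
  have e : ∑ d ∈ Mo k i, ∑ d' ∈ Mo k j, ∑ a ∈ Ico Z (min i j + 1), ∑ P ∈ Mo k a,
      ((if P ∣ d then 1 else 0) * (if P ∣ d' then 1 else 0) : ℝ) =
      ∑ a ∈ Ico Z (min i j + 1), (qq k)⁻¹ ^ a * qq k ^ (i + j) := by
    rw [sum_congr rfl fun d _ => sum_comm, sum_comm]
    refine sum_congr rfl fun a ha => ?_
    have h1 := (mem_Ico.1 ha).2
    rw [sum_congr rfl fun d _ => sum_comm, sum_comm,
      sum_congr rfl (g := fun _ => qq k ^ i / qq k ^ a * (qq k ^ j / qq k ^ a)) fun P hP => ?_]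
    · rw [sum_const, nsmul_eq_mul, card_Mo, pow_add, inv_pow]
      field_simp
    · obtain ⟨p1, rfl⟩ := mem_Mo.1 hP
      rw [← sum_mul_sum, sum_boole, sum_boole, card_Mo_dvd p1.ne_zero (by omega),
        card_Mo_dvd p1.ne_zero (by omega)]
  rw [e, ← sum_mul]
  have h4 : (qq k)⁻¹ ≤ 1 / 2 := by rw [one_div]; exact inv_anti₀ two_pos two_le_qq
  refine mul_le_mul_of_nonneg_right ((geom_sum_Ico_le_of_lt_one (by positivity)
    (by linarith)).trans ?_) (by positivity)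
  rw [div_le_iff₀ (by linarith), inv_pow, div_eq_mul_inv]
  have : 0 < (qq k ^ Z)⁻¹ := by positivity
  nlinarith
end

theorem p_M2 :
    S_M2 := by
  intro k _ _ Z i j α α'
  have hq := pow_pos (qq_pos (k := k)) (i + j)
  refine ⟨fun h1 h2 h3 => ?_, fun h1 h2 => ⟨?_, ?_⟩⟩
  · rw [abs_sub_comm, M2_diff, abs_div, abs_of_pos hq, div_le_iff₀ hq]
    refine le_trans ((abs_sum_le_sum_abs _ _).trans (sum_le_sum fun d hd =>
      (abs_sum_le_sum_abs _ _).trans (sum_le_sum fun d' hd' => ?_))) (M2_cnt Z i j)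
    have n0 : ∀ P : k[X], 0 ≤ ((if P ∣ d then 1 else 0) * (if P ∣ d' then 1 else 0) : ℝ) :=
      fun P => by positivity
    have n1 : ∀ a, 0 ≤ ∑ P ∈ Mo k a, ((if P ∣ d then 1 else 0) * (if P ∣ d' then 1 else 0) : ℝ) :=
      fun a => sum_nonneg fun P _ => n0 P
    by_cases c : IsCoprime d d'
    · rw [if_pos c, abs_zero]; exact sum_nonneg fun a _ => n1 a
    by_cases c0 : α d = 0
    · rw [if_neg c, c0, zero_mul, abs_zero]; exact sum_nonneg fun a _ => n1 a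
    obtain ⟨d1, d2⟩ := mem_Mo.1 hd
    obtain ⟨e1, e2⟩ := mem_Mo.1 hd'
    obtain ⟨P, p1, p2, p3⟩ := M2_prime d1.ne_zero c
    have a1 := Av_Pr.1 (h3 d c0) P p1 p2
    have a2 := natDegree_le_of_dvd p2 d1.ne_zero
    have a3 := natDegree_le_of_dvd p3 e1.ne_zero
    refine le_trans ?_ ((single_le_sum (fun P _ => n0 P) (mem_Mo.2 ⟨p1.1, rfl⟩)).trans
      (single_le_sum (fun a _ => n1 a) (mem_Ico.2 ⟨a1.le, by omega⟩)))
    rw [if_neg c, if_pos p2, if_pos p3, abs_mul]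
    exact mul_le_mul (h1 d) (h2 d') (abs_nonneg _) zero_le_one
  · refine div_nonneg (sum_nonneg fun d _ => sum_nonneg fun d' _ => ?_) hq.le
    split_ifs
    · exact mul_nonneg (h1 d) (h2 d')
    · exact le_rfl
  · rw [← sub_nonneg, M2_diff]
    refine div_nonneg (sum_nonneg fun d _ => sum_nonneg fun d' _ => ?_) hq.le
    split_ifs
    · exact le_rfl
    · exact mul_nonneg (h1 d) (h2 d')

end Pool.Agent.P.MP_e94e4b_nt.RP
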