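import Pool.Agent.P.MP_e94e4b_nt.RP.IfS

/-! Step MA. -/

set_option autoImplicit false
set_option linter.unusedSectionVars false

namespace Pool.Agent.P.MP_e94e4b_nt.RP

open Polynomial Finset
open Pool.Agent.P.MP_8be758_nt Pool.Agent.P.MP_8be758_nt.C2 Pool.Agent.P.MP_8be758_nt.L2
open Pool.Agent.P.MP_e94e4b_nt.LG
open scoped Classical

theorem MA_key (m r w : ℕ → ℝ) (n Y : ℕ) (V E μ0 R W : ℝ) (hY : Y ≤ n) (hV : 0 ≤ V) (hE : 0 ≤ E)
    (hμ : 0 ≤ μ0) (hW : 0 ≤ W) (h1 : ∀ D, |m D| ≤ r D) (h2 : ∑ D ∈ range (n + 1), r D ≤ R)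
    (h3 : ∀ D, Y < D → D ≤ n → |m D| ≤ μ0) (h4 : ∀ D, D ≤ Y → |r (n - D) - V| ≤ E * V)
    (hw : ∀ D, D ≤ n → |w D| ≤ W) :
    |∑ D ∈ range (n + 1), w D * (m D * r (n - D)) - V * ∑ D ∈ range (Y + 1), w D * m D| ≤
      W * ((E * V + μ0) * R) := by
  have r0 : ∀ D, 0 ≤ r D := fun D => (abs_nonneg _).trans (h1 D)
  have e1 : V * ∑ D ∈ range (Y + 1), w D * m D =
      ∑ D ∈ range (n + 1), if D ≤ Y then V * (w D * m D) else 0 := by
    rw [← sum_filter, mul_sum]
    refine sum_congr ?_ fun _ _ => rfl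
    ext D
    simp only [mem_range, mem_filter]
    omega
  have e2 : ∑ D ∈ range (n + 1), r (n - D) = ∑ D ∈ range (n + 1), r D := by
    simpa using sum_range_reflect r (n + 1)
  have hEV : 0 ≤ E * V := mul_nonneg hE hV
  rw [e1, ← sum_sub_distrib]
  refine (abs_sum_le_sum_abs _ _).trans ?_
  have key : ∀ D ∈ range (n + 1),
      |w D * (m D * r (n - D)) - if D ≤ Y then V * (w D * m D) else 0| ≤
        W * (E * V * r D + μ0 * r (n - D)) := by
    intro D hD
    have hD' : D ≤ n := by simpa [Nat.lt_succ_iff] using hD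
    have a1 := mul_nonneg hEV (r0 D)
    have a2 := mul_nonneg hμ (r0 (n - D))
    split_ifs with c
    · have : w D * (m D * r (n - D)) - V * (w D * m D) = w D * ((r (n - D) - V) * m D) := by ring
      rw [this, abs_mul, abs_mul]
      refine mul_le_mul (hw D hD') ?_ (by positivity) hW
      have := mul_le_mul (h4 D c) (h1 D) (abs_nonneg _) hEV
      linarith
    · rw [sub_zero, abs_mul, abs_mul, abs_of_nonneg (r0 _)]
      refine mul_le_mul (hw D hD') ?_ (mul_nonneg (abs_nonneg _) (r0 _)) hW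
      have := mul_le_mul_of_nonneg_right (h3 D (by omega) hD') (r0 (n - D))
      linarith
  refine (sum_le_sum key).trans ?_
  rw [← mul_sum, sum_add_distrib, ← mul_sum, ← mul_sum, e2]
  refine mul_le_mul_of_nonneg_left ?_ hW
  have := mul_le_mul_of_nonneg_left h2 (add_nonneg hEV hμ)
  linarith

theorem p_MA :
    S_MA := by
  intro m r n Y V E μ0 R hY hV hE hμ h1 h2 h3 h4 h5 h6 h7 h8
  have r0 : ∀ D, 0 ≤ r D := fun D => (abs_nonneg _).trans (h1 D)
  have k0 := MA_key m r (fun _ => 1) n Y V E μ0 R 1 hY hV hE hμ zero_le_one h1 h2 h3 h4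
    (fun _ _ => by simp)
  have k1 := MA_key m r (fun D => D) n Y V E μ0 R n hY hV hE hμ (Nat.cast_nonneg n) h1 h2 h3 h4
    (fun D hD => by rw [Nat.abs_cast]; exact_mod_cast hD)
  simp only [one_mul, h5, zero_sub, abs_neg] at k0
  have k2 : |∑ D ∈ range (Y + 1), (D : ℝ) ^ 2 * m D| ≤ n ^ 2 * R := by
    refine (abs_sum_le_sum_abs _ _).trans ?_
    have a : ∀ D ∈ range (Y + 1), |(D : ℝ) ^ 2 * m D| ≤ n ^ 2 * r D := by
      intro D hD
      have hD' : (D : ℝ) ≤ n := by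
        have := mem_range.1 hD
        exact_mod_cast (by omega : D ≤ n)
      rw [abs_mul, abs_of_nonneg (by positivity)]
      exact mul_le_mul (pow_le_pow_left₀ (Nat.cast_nonneg D) hD' 2) (h1 D) (abs_nonneg _)
        (by positivity)
    refine (sum_le_sum a).trans ?_
    rw [← mul_sum]
    refine mul_le_mul_of_nonneg_left (le_trans ?_ h2) (by positivity)
    exact sum_le_sum_of_subset_of_nonneg (range_mono (by omega)) fun D _ _ => r0 D
  have e : ∑ i ∈ range (Y + 1), ∑ j ∈ range (Y + 1), ((i : ℝ) - j) ^ 2 * (m i * m j) =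
      2 * ((∑ D ∈ range (Y + 1), m D) * ∑ D ∈ range (Y + 1), (D : ℝ) ^ 2 * m D) -
        2 * ((∑ D ∈ range (Y + 1), (D : ℝ) * m D) * ∑ D ∈ range (Y + 1), (D : ℝ) * m D) := by
    have c : (∑ D ∈ range (Y + 1), m D) * ∑ D ∈ range (Y + 1), (D : ℝ) ^ 2 * m D =
        (∑ D ∈ range (Y + 1), (D : ℝ) ^ 2 * m D) * ∑ D ∈ range (Y + 1), m D := mul_comm _ _
    rw [two_mul ((∑ D ∈ range (Y + 1), m D) * _)]
    nth_rewrite 2 [c]
    rw [sum_mul_sum, sum_mul_sum, sum_mul_sum, mul_sum, ← sum_add_distrib, ← sum_sub_distrib]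
    refine sum_congr rfl fun i _ => ?_
    rw [mul_sum, ← sum_add_distrib, ← sum_sub_distrib]
    refine sum_congr rfl fun j _ => by ring
  rw [e]
  set A0 := ∑ D ∈ range (Y + 1), m D
  set A1 := ∑ D ∈ range (Y + 1), (D : ℝ) * m D
  set A2 := ∑ D ∈ range (Y + 1), (D : ℝ) ^ 2 * m D
  have b1 : V * A1 ≤ -(3 / 8) := by
    have := (abs_le.1 k1).1
    linarith
  have b2 : |V * A2| ≤ V * n ^ 2 * R := by
    rw [abs_mul, abs_of_nonneg hV, mul_assoc]
    exact mul_le_mul_of_nonneg_left k2 hV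
  have b3 : V * A0 * (V * A2) ≤ 1 / 64 := by
    refine (le_abs_self _).trans ?_
    rw [abs_mul]
    exact (mul_le_mul k0 b2 (abs_nonneg _) ((abs_nonneg _).trans k0)).trans h8
  have b4 : 9 / 64 ≤ V * A1 * (V * A1) := by nlinarith
  have : V ^ 2 * (2 * (A0 * A2) - 2 * (A1 * A1)) =
      2 * (V * A0 * (V * A2)) - 2 * (V * A1 * (V * A1)) := by ring
  rw [this]
  linarith

end Pool.Agent.P.MP_e94e4b_nt.RP
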