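import Pool.Agent.P.MP_e94e4b_nt.RP.IfC
import Pool.Agent.P.MP_e94e4b_nt.RP.IfS

/-! Step MAIN. -/

set_option autoImplicit false
set_option linter.unusedSectionVars false

namespace Pool.Agent.P.MP_e94e4b_nt.RP

open Polynomial Finset
open Pool.Agent.P.MP_8be758_nt Pool.Agent.P.MP_8be758_nt.C2 Pool.Agent.P.MP_8be758_nt.L2
open Pool.Agent.P.MP_e94e4b_nt.LG
open scoped Classical

theorem p_MAIN (hMA : S_MA) (hCV : S_CV) (hMER1 : S_MER1) :
    S_MAIN := by
  intro k _ _ n Z δ E CR N h4 hZ hZn hδ hN hC hE hs r1 mb hr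
  obtain ⟨v0, v1⟩ := hMER1 k Z
  obtain ⟨c1, c2⟩ := hCV k Z n h4 hZn
  have z0 : (0 : ℝ) < Z := Nat.cast_pos.2 hZ
  have zn : (Z : ℝ) < n := Nat.cast_lt.2 hZn
  have N1 : 1 ≤ N := by nlinarith
  have n0 : (0 : ℝ) ≤ n := Nat.cast_nonneg n
  have x1 : n / (Z : ℝ) ≤ N := (div_le_iff₀ z0).2 hN
  have x0 : 0 ≤ n / (Z : ℝ) := by positivity
  generalize VV (pc 1) (Pr k Z) = V at *
  have v2 : V ≤ 1 / Z := (le_div_iff₀ z0).2 (by linarith)
  have CN : 1 ≤ CR * N := one_le_mul_of_one_le_of_one_le hC N1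
  have a1 : n * ((E * V + 2 * E / Z) * (2 * (CR * N))) ≤ 6 * (E * (CR * N) * N) := by
    calc _ ≤ n * ((E * (1 / Z) + 2 * E / Z) * (2 * (CR * N))) := by gcongr
      _ = 6 * (E * (CR * N) * (n / Z)) := by ring
      _ ≤ _ := by gcongr
  have a2 : V * n ≤ N := (mul_le_mul_of_nonneg_right v2 n0).trans (by rwa [one_div_mul_eq_div])
  have a3 : E * (CR * N) * N * (CR * N * N) ≤ CR ^ 3 * E * N ^ 4 := by
    have := mul_le_mul_of_nonneg_left hC (show 0 ≤ CR ^ 2 * E * N ^ 4 by positivity)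
    linarith
  have a4 : E * (CR * N) * N ≤ E * (CR * N) * N * (CR * N * N) :=
    le_mul_of_one_le_right (by positivity) (one_le_mul_of_one_le_of_one_le CN N1)
  refine hMA _ (rho (Pr k Z)) n (n / 4) V E (2 * E / Z) (2 * (CR * N)) (by omega) v0.le hE
    (by positivity) (abs_mm_le _) ?_ mb (fun D hD => hr _ (by omega)) c1 c2 (by linarith) ?_
  · rw [sum_range_succ']
    have := sum_le_card_nsmul (range n) (fun j => rho (Pr k Z) (j + 1)) _
      fun j _ => r1 (j + 1) (by omega)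
    rw [card_range, nsmul_eq_mul, ← mul_div_assoc, mul_comm, mul_div_assoc] at this
    linarith [rho_le_one (Pr k Z) 0, mul_le_mul_of_nonneg_left x1 (show 0 ≤ CR by linarith)]
  · calc _ = n * ((E * V + 2 * E / Z) * (2 * (CR * N))) * (V * n * (2 * (CR * N))) := by ring
      _ ≤ 6 * (E * (CR * N) * N) * (N * (2 * (CR * N))) := by gcongr
      _ ≤ _ := by linarith

end Pool.Agent.P.MP_e94e4b_nt.RP
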