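import Pool.Agent.P.MP_e94e4b_nt.RP.IfW

/-! Step MAP. -/

set_option autoImplicit false
set_option linter.unusedSectionVars false

namespace Pool.Agent.P.MP_e94e4b_nt.RP

open Polynomial Finset
open Pool.Agent.P.MP_8be758_nt Pool.Agent.P.MP_8be758_nt.C2 Pool.Agent.P.MP_8be758_nt.L2
open Pool.Agent.P.MP_e94e4b_nt.LG
open scoped Classical

namespace MAP

variable {k : Type} [Field k] [Finite k] [CharP k 2]

theorem low_ind {d d0 : k[X]} {l j : ℕ} (hd : d ∈ Mo k j) (h0 : d0 ∈ Mo k j) (hl : l ≤ j) :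
    (if d - d0 ∈ low k l then (1 : ℝ) else 0) * qq k ^ (j - l) =
      ∑ g ∈ low k (j - l), psi (res (X ^ j) (g * d0)) * psi (res (X ^ j) (g * d)) := by
  have h1 := mem_Mo.1 hd
  have h2 := mem_Mo.1 h0
  have h3 := sub_mem_low_of_monic h1.1 h2.1 (h1.2.trans h2.2.symm)
  rw [h1.2] at h3
  have h4 := a_ORTH k (X ^ j) (d - d0) (j - l) (pow_ne_zero _ X_ne_zero)
    (by rw [natDegree_X_pow]; omega) (by rw [natDegree_X_pow]; exact h3)
  rw [natDegree_X_pow, show j - (j - l) = l by omega] at h4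
  rw [sum_congr rfl fun g _ => by rw [← psi_add, ← res_add, ← mul_add, add_comm d0,
    ← CharTwo.sub_eq_add], h4]
  split_ifs <;> simp

theorem join {R : k[X]} (hR : R ≠ 0) (j : ℕ) (g g' d : k[X]) :
    psi (res (X ^ j) (g * d)) * psi (res R (g' * d)) =
      psi (res (R * X ^ j) ((g * R + g' * X ^ j) * d)) := by
  rw [← res_mul_mul (X ^ j) (g * d) hR, ← res_mul_mul R (g' * d) (pow_ne_zero j X_ne_zero),
    mul_comm (X ^ j) R, ← psi_add, ← res_add]
  congr 2
  ring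

theorem avg {d0 R : k[X]} {l j : ℕ} {Z : ℝ} (hR : R ≠ 0) (h0 : d0 ∈ Mo k j) (hl : l ≤ j)
    (hZ : ∀ g, |∑ d ∈ Mo k j, mu d * psi (res (R * X ^ j) (g * d))| ≤ Z) (g' : k[X]) :
    |∑ d ∈ Mo k j, mu d * (if d - d0 ∈ low k l then (1 : ℝ) else 0) *
      psi (res R (g' * d))| ≤ Z := by
  have hq := pow_pos (qq_pos (k := k)) (j - l)
  refine le_of_mul_le_mul_right ?_ hq
  have e : (∑ d ∈ Mo k j, mu d * (if d - d0 ∈ low k l then (1 : ℝ) else 0) *
      psi (res R (g' * d))) * qq k ^ (j - l) =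
      ∑ g ∈ low k (j - l), psi (res (X ^ j) (g * d0)) *
        ∑ d ∈ Mo k j, mu d * psi (res (R * X ^ j) ((g * R + g' * X ^ j) * d)) := by
    simp only [mul_sum]
    rw [sum_comm, sum_mul]
    refine sum_congr rfl fun d hd => ?_
    rw [show mu d * (if d - d0 ∈ low k l then (1 : ℝ) else 0) * psi (res R (g' * d)) *
      qq k ^ (j - l) = mu d * psi (res R (g' * d)) *
        ((if d - d0 ∈ low k l then (1 : ℝ) else 0) * qq k ^ (j - l)) by ring,
      low_ind hd h0 hl, mul_sum]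
    refine sum_congr rfl fun g _ => ?_
    rw [← join hR]
    ring
  rw [← abs_of_pos hq, ← abs_mul, abs_of_pos hq, e, ← card_low', mul_comm Z, ← nsmul_eq_mul]
  refine (abs_sum_le_sum_abs _ _).trans (sum_le_card_nsmul _ _ _ fun g _ => ?_)
  rw [abs_mul, abs_psi, one_mul]
  exact hZ _

end MAP

theorem p_MAP :
    S_MAP := by
  obtain ⟨κ5, D0, h1, H⟩ := a_APM
  refine ⟨κ5, D0, h1, ?_⟩
  intro k _ _ _ d0 R l j hR h0 hl hD
  have hq := pow_pos (qq_pos (k := k)) (j / κ5)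
  rw [← le_div_iff₀ hq]
  have hZ : ∀ g, |∑ d ∈ Mo k j, mu d * psi (res (R * X ^ j) (g * d))| ≤
      qq k ^ j / qq k ^ (j / κ5) := fun g => by
    have := H k 0 (R * X ^ j) g j (mul_ne_zero hR (pow_ne_zero _ X_ne_zero)) hD (by simp)
    simp only [res_zero, psi_zero, one_mul] at this
    exact (le_div_iff₀ hq).2 this
  have h2 := AP_avg a_ORTH hR d0 (Mo k j)
    (fun d => mu d * (if d - d0 ∈ low k l then (1 : ℝ) else 0)) (fun d => d)
    (MAP.avg hR h0 hl hZ)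
  refine le_of_eq_of_le ?_ h2
  rw [sum_filter]
  congr 1
  refine sum_congr rfl fun d _ => ?_
  unfold ind
  by_cases a : d - d0 ∈ low k l <;> by_cases b : R ∣ d - d0 <;> simp [a, b]

end Pool.Agent.P.MP_e94e4b_nt.RP
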