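import Pool.Agent.P.MP_e94e4b_nt.RP.IfS

/-! Step MER2. -/

set_option autoImplicit false
set_option linter.unusedSectionVars false

namespace Pool.Agent.P.MP_e94e4b_nt.RP

open Polynomial Finset
open Pool.Agent.P.MP_8be758_nt Pool.Agent.P.MP_8be758_nt.C2 Pool.Agent.P.MP_8be758_nt.L2
open Pool.Agent.P.MP_e94e4b_nt.LG
open scoped Classical

theorem mer2_bern {x i : ℝ} (m : ℕ) (h0 : 0 ≤ x) (h1 : x ≤ 1) (hi : 0 ≤ i) (h : 1 ≤ i * (m * x)) :
    (1 - x) ^ m * (i + 1) ≤ i := by
  have a1 : 1 + (m : ℝ) * x ≤ (1 + x) ^ m := one_add_mul_le_pow (by linarith) m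
  have a2 : (1 - x) ^ m * (1 + x) ^ m ≤ 1 := by
    rw [← mul_pow]
    exact pow_le_one₀ (mul_nonneg (by linarith) (by linarith)) (by nlinarith)
  have a3 : 0 ≤ (1 - x) ^ m := pow_nonneg (by linarith) m
  have a4 := (mul_le_mul_of_nonneg_left a1 a3).trans a2
  nlinarith [mul_le_mul_of_nonneg_left a4 hi, mul_le_mul_of_nonneg_left h a3]

theorem p_MER2 :
    S_MER2 := by
  intro k _ _ a b ha hab
  induction b, hab using Nat.le_induction with
  | base => simp [VV, JJ]
  | succ b hab ih =>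
    have e : JJ k a (b + 1) = JJ k a b ∪ Pd k (b + 1) := by
      ext P
      simp only [mem_union, mem_JJ, mem_Pd]
      constructor
      · rintro ⟨h1, h2, h3⟩
        rcases h3.eq_or_lt with h | h
        · exact Or.inr ⟨h1, h⟩
        · exact Or.inl ⟨h1, h2, by omega⟩
      · rintro (⟨h1, h2, h3⟩ | ⟨h1, h2⟩) <;> exact ⟨h1, by omega, by omega⟩
    have d : Disjoint (JJ k a b) (Pd k (b + 1)) := disjoint_left.2 fun P h1 h2 => by
      have := (mem_JJ.1 h1).2.2
      have := (mem_Pd.1 h2).2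
      omega
    have hq : (1 : ℝ) ≤ qq k ^ (b + 1) := one_le_pow₀ one_le_qq
    have h1 : 1 / qq k ^ (b + 1) ≤ 1 := by rw [div_le_one (by linarith)]; exact hq
    have e2 : VV (pc 1) (JJ k a (b + 1)) =
        VV (pc 1) (JJ k a b) * (1 - 1 / qq k ^ (b + 1)) ^ (Pd k (b + 1)).card := by
      rw [VV, e, prod_union d, ← prod_const]
      exact congrArg _ (prod_congr rfl fun P hP => by rw [pc, (mem_Pd.1 hP).2])
    have g := (a_GAUSS k (b + 1) (by omega)).2 (by omega)
    have h2 := mer2_bern (x := 1 / qq k ^ (b + 1)) (i := (b : ℝ) + 1) ((Pd k (b + 1)).card * 2)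
      (by positivity) h1 (by positivity) (by
        rw [← mul_assoc, mul_one_div, one_le_div (by linarith)]
        push_cast at g ⊢
        linarith)
    rw [e2]
    refine ⟨mul_nonneg ih.1 (pow_nonneg (by linarith) _), le_trans ?_ ih.2⟩
    rw [mul_pow, mul_assoc, ← pow_mul]
    push_cast
    exact mul_le_mul_of_nonneg_left h2 (sq_nonneg _)

end Pool.Agent.P.MP_e94e4b_nt.RP
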