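import Pool.Agent.P.MP_e94e4b_nt.RP.IfS

/-! Step MER3. -/

set_option autoImplicit false
set_option linter.unusedSectionVars false

namespace Pool.Agent.P.MP_e94e4b_nt.RP

open Polynomial Finset
open Pool.Agent.P.MP_8be758_nt Pool.Agent.P.MP_8be758_nt.C2 Pool.Agent.P.MP_8be758_nt.L2
open Pool.Agent.P.MP_e94e4b_nt.LG
open scoped Classical

namespace MER3x

theorem one {k : Type} [Field k] [Finite k] (c b : ℕ) (hb : 1 ≤ b) :
    ∏ P ∈ Pd k (b + 1), (1 + pc (c : ℝ) P) ≤ (((b + 1 : ℕ) : ℝ) / b) ^ c := by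
  have q0 : (0 : ℝ) < qq k ^ (b + 1) := pow_pos qq_pos _
  have b0 : (0 : ℝ) < b := by exact_mod_cast hb
  have b1 : (0 : ℝ) < ((b + 1 : ℕ) : ℝ) := by positivity
  have h1 : ((Pd k (b + 1)).card : ℝ) / qq k ^ (b + 1) ≤ 1 / ((b + 1 : ℕ) : ℝ) := by
    rw [div_le_div_iff₀ q0 b1, one_mul, mul_comm]
    exact (a_GAUSS k (b + 1) (by omega)).1
  have h2 : Real.exp (1 / ((b + 1 : ℕ) : ℝ)) ≤ ((b + 1 : ℕ) : ℝ) / b := by
    have := Real.one_sub_le_exp_neg (1 / ((b + 1 : ℕ) : ℝ))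
    rw [Real.exp_neg, show 1 - 1 / ((b + 1 : ℕ) : ℝ) = (((b + 1 : ℕ) : ℝ) / b)⁻¹ by
      field_simp; push_cast; ring] at this
    exact (inv_le_inv₀ (by positivity) (Real.exp_pos _)).1 this
  rw [prod_congr rfl (g := fun _ => 1 + (c : ℝ) / qq k ^ (b + 1)) fun P hP => by
    rw [pc, (mem_Pd.1 hP).2], prod_const]
  calc (1 + (c : ℝ) / qq k ^ (b + 1)) ^ (Pd k (b + 1)).card
      ≤ Real.exp (c / qq k ^ (b + 1)) ^ (Pd k (b + 1)).card :=
        pow_le_pow_left₀ (by positivity) (by linarith [Real.add_one_le_exp (c / qq k ^ (b + 1))]) _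
    _ = Real.exp ((Pd k (b + 1)).card / qq k ^ (b + 1)) ^ c := by
        rw [← Real.exp_nat_mul, ← Real.exp_nat_mul]; congr 1; ring
    _ ≤ _ := pow_le_pow_left₀ (Real.exp_pos _).le ((Real.exp_le_exp.2 h1).trans h2) _

end MER3x

theorem p_MER3 :
    S_MER3 := by
  intro k _ _ c a b ha hab
  have a0 : (0 : ℝ) < a := by exact_mod_cast ha
  induction b, hab using Nat.le_induction with
  | base => simp [JJ, div_self a0.ne']
  | succ b hab ih =>
    have b0 : (0 : ℝ) < b := by exact_mod_cast ha.trans hab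
    have e : JJ k a (b + 1) = JJ k a b ∪ Pd k (b + 1) := by
      ext P
      rw [mem_union, mem_JJ, mem_JJ, mem_Pd]
      constructor
      · rintro ⟨h1, h2, h3⟩
        rcases h3.eq_or_lt with h | h
        · exact Or.inr ⟨h1, h⟩
        · exact Or.inl ⟨h1, h2, by omega⟩
      · rintro (⟨h1, h2, h3⟩ | ⟨h1, h2⟩) <;> exact ⟨h1, by omega, by omega⟩
    have d : Disjoint (JJ k a b) (Pd k (b + 1)) := disjoint_left.2 fun P h1 h2 => by
      have := (mem_JJ.1 h1).2.2
      have := (mem_Pd.1 h2).2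
      omega
    rw [e, prod_union d]
    refine (mul_le_mul ih (MER3x.one c b (ha.trans hab)) (prod_nonneg fun P _ => ?_)
      (by positivity)).trans_eq ?_
    · have : (0 : ℝ) < qq k := qq_pos
      unfold pc; positivity
    · rw [← mul_pow]; congr 1; field_simp

end Pool.Agent.P.MP_e94e4b_nt.RP
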