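import Pool.Agent.P.MP_e94e4b_nt.RP.IfS

/-! Step MUS. -/

set_option autoImplicit false
set_option linter.unusedSectionVars false

namespace Pool.Agent.P.MP_e94e4b_nt.RP

open Polynomial Finset
open Pool.Agent.P.MP_8be758_nt Pool.Agent.P.MP_8be758_nt.C2 Pool.Agent.P.MP_8be758_nt.L2
open Pool.Agent.P.MP_e94e4b_nt.LG
open scoped Classical

variable {k : Type} [Field k] [Finite k]

theorem MUS_sup {S : Finset k[X]} (hS : ∀ P ∈ S, IsPr P) {D : ℕ} (hD : dg S ≤ D) :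
    ∑ A ∈ (Sc (∅ : Finset k[X]) D).filter (fun A => S ⊆ A), sg A =
      sg S * ∑ B ∈ Sc S (D - dg S), (-1 : ℝ) ^ B.card := by
  rw [mul_sum]
  refine sum_nbij' (fun A => A \ S) (fun B => S ∪ B) ?_ ?_ ?_ ?_ ?_
  · intro A hA
    obtain ⟨h1, h2⟩ := mem_filter.1 hA
    obtain ⟨h3, h4, -⟩ := mem_Sc.1 h1
    have := dg_sdiff h2
    exact mem_Sc.2 ⟨fun P hP => h3 P (mem_sdiff.1 hP).1, by omega, sdiff_disjoint⟩
  · intro B hB
    obtain ⟨h3, h4, h5⟩ := mem_Sc.1 hB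
    refine mem_filter.2 ⟨mem_Sc.2 ⟨fun P hP => (mem_union.1 hP).elim (hS P) (h3 P), ?_,
      disjoint_empty_right _⟩, subset_union_left⟩
    rw [dg_union h5.symm]; omega
  · intro A hA
    exact union_sdiff_of_subset (mem_filter.1 hA).2
  · intro B hB
    exact union_sdiff_cancel_left (mem_Sc.1 hB).2.2.symm
  · intro A hA
    have h := sg_union (S := S) (T := A \ S) disjoint_sdiff
    rw [union_sdiff_of_subset (mem_filter.1 hA).2] at h
    exact h

theorem MUS_id {T : Finset k[X]} {δ D : ℕ} {lam : Finset k[X] → ℝ} (hT : ∀ P ∈ T, IsPr P)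
    (hL : Lv T δ lam) (hD : δ ≤ D) :
    ∑ d ∈ Mo k D, mu d * sw lam d =
      ∑ S ∈ Sle k δ, lam S * (sg S * ∑ B ∈ Sc S (D - dg S), (-1 : ℝ) ^ B.card) := by
  rw [← sum_filter_of_ne (p := Squarefree) fun d _ hd => by
    by_contra hs
    exact hd (by rw [mu_of_not_squarefree hs, zero_mul]), ← a_BIJ k D]
  have e : ∀ A ∈ Sc (∅ : Finset k[X]) D, mu (pr A) * sw lam (pr A) =
      ∑ S ∈ Sle k δ, if S ⊆ A then lam S * sg A else 0 := by
    intro A hA
    have h1 := (mem_Sc.1 hA).1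
    rw [mu_pr h1, sw, pf_pr h1, wt, ← sum_filter, ← sum_mul, mul_comm]
    congr 1
    refine (sum_subset (fun S h => mem_powerset.2 (mem_filter.1 h).2) fun S h2 h3 => ?_).symm
    by_contra h4
    obtain ⟨h5, h6⟩ := hL.1 S h4
    exact h3 (mem_filter.2 ⟨mem_Sle.2 ⟨fun P hP => hT P (h5 hP), h6⟩, mem_powerset.1 h2⟩)
  rw [sum_congr rfl e, sum_comm]
  refine sum_congr rfl fun S hS => ?_
  obtain ⟨h1, h2⟩ := mem_Sle.1 hS
  rw [← sum_filter, ← mul_sum, MUS_sup h1 (h2.trans hD)]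

theorem p_MUS :
    S_MUS := by
  intro k _ _ T δ D lam hT hL hD
  have hq := qq_pos (k := k)
  have hs : (1 : ℝ) ≤ √(qq k) := Real.one_le_sqrt.2 one_le_qq
  have hs0 : (0 : ℝ) < √(qq k) := by linarith
  rw [mn, MUS_id hT hL hD, sum_div]
  refine (abs_sum_le_sum_abs _ _).trans ?_
  have e : ∀ S ∈ Sle k δ,
      |lam S * (sg S * ∑ B ∈ Sc S (D - dg S), (-1 : ℝ) ^ B.card) / qq k ^ D| ≤
        qq k / √(qq k) ^ (D - δ) * (((200 : ℕ) : ℝ) ^ S.card / qq k ^ dg S) := by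
    intro S hS
    obtain ⟨h1, h2⟩ := mem_Sle.1 hS
    have h3 := (a_XAB k S (D - dg S) h1).2.2
    have h4 : qq k ^ D = qq k ^ (D - dg S) * qq k ^ dg S := by
      rw [← pow_add]; congr 1; omega
    have h5 : lam S * (sg S * ∑ B ∈ Sc S (D - dg S), (-1 : ℝ) ^ B.card) / qq k ^ D =
        lam S * sg S * xs (-1) S (D - dg S) / qq k ^ dg S := by
      rw [xs, h4]; field_simp
    have h6 : qq k * 4 ^ S.card / √(qq k) ^ (D - dg S) ≤ qq k * 4 ^ S.card / √(qq k) ^ (D - δ) :=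
      div_le_div_of_nonneg_left (by positivity) (by positivity)
        (pow_le_pow_right₀ hs (by omega))
    have h7 : ((200 : ℕ) : ℝ) ^ S.card = 50 ^ S.card * 4 ^ S.card := by
      rw [← mul_pow]; norm_num
    rw [h5, abs_div, abs_mul, abs_mul, abs_sg, mul_one, abs_of_pos (pow_pos hq _), h7]
    calc |lam S| * |xs (-1) S (D - dg S)| / qq k ^ dg S
        ≤ 50 ^ S.card * (qq k * 4 ^ S.card / √(qq k) ^ (D - δ)) / qq k ^ dg S :=
          div_le_div_of_nonneg_right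
            (mul_le_mul (hL.2 S) (h3.trans h6) (abs_nonneg _) (by positivity)) (by positivity)
      _ = _ := by ring
  refine (sum_le_sum e).trans ?_
  rw [← mul_sum]
  calc qq k / √(qq k) ^ (D - δ) * ∑ S ∈ Sle k δ, ((200 : ℕ) : ℝ) ^ S.card / qq k ^ dg S
      ≤ qq k / √(qq k) ^ (D - δ) * (3 * ((δ : ℝ) + 1)) ^ 200 :=
        mul_le_mul_of_nonneg_left (a_POLY k 200 δ) (by positivity)
    _ = _ := by ring

end Pool.Agent.P.MP_e94e4b_nt.RP
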