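import Pool.Agent.P.MP_e94e4b_nt.RP.IfC

/-! Step NUM. -/

set_option autoImplicit false
set_option linter.unusedSectionVars false

namespace Pool.Agent.P.MP_e94e4b_nt.RP

open Polynomial Finset
open Pool.Agent.P.MP_8be758_nt Pool.Agent.P.MP_8be758_nt.C2 Pool.Agent.P.MP_8be758_nt.L2
open Pool.Agent.P.MP_e94e4b_nt.LG
open scoped Classical

namespace NUMx

lemma ev (A : ℝ) (k : ℕ) : ∀ᶠ t : ℕ in Filter.atTop, A * (10 * t + 3) ^ k ≤ 2 ^ t := by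
  have h := (tendsto_pow_const_div_const_pow_of_one_lt k (r := 2) one_lt_two).const_mul
    (|A| * 13 ^ k)
  rw [mul_zero] at h
  filter_upwards [h.eventually_le_const one_pos, Filter.eventually_ge_atTop 1] with t h1 h2
  have h3 : (1 : ℝ) ≤ t := by exact_mod_cast h2
  rw [← mul_div_assoc, div_le_one (by positivity), mul_assoc, ← mul_pow] at h1
  refine le_trans ?_ h1
  gcongr
  · exact le_abs_self A
  · linarith

lemma mid (B c u T : ℝ) (hB : 0 ≤ B) (hT : 0 < T) (h : 6400 * c * B ^ 2 * u ≤ T) :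
    2 * √(c * u / T) * B ≤ 1 / 40 := by
  rw [← Real.sqrt_sq hB, mul_assoc, ← Real.sqrt_mul' _ (sq_nonneg B)]
  have : √(c * u / T * B ^ 2) ≤ 1 / 80 := by
    refine Real.sqrt_le_iff.2 ⟨by norm_num, ?_⟩
    rw [div_mul_eq_mul_div, div_le_iff₀ hT]
    linarith
  linarith

lemma fin (CR CF T K u ω P : ℝ) (hR : 1 ≤ CR) (hT : 1 ≤ T) (hu : 1 ≤ u) (w0 : 0 ≤ ω)
    (h4 : 460800 * CR ^ 3 * CF ≤ T) (hK : 6000 * CR ^ 2 * (T * 2) ^ 4 ≤ K)
    (m : ω * ((4 * 134 ^ 4 * CR + 134 ^ 3 * P) * u ^ 515) ≤ 1 / 40) : T ≤ K ∧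
    eta CR (CF / T ^ 5) (T * 2) (T * 2 / K) (134 * u) ω (P * u ^ 512) ≤ 1 / 16 := by
  have hR2 : 1 ≤ CR ^ 2 := one_le_pow₀ hR
  have a1 : 360 * CR ^ 3 * (CF / T ^ 5) * (T * 2) ^ 4 ≤ 1 / 80 := by
    rw [show 360 * CR ^ 3 * (CF / T ^ 5) * (T * 2) ^ 4 = 5760 * CR ^ 3 * CF / T by field_simp; ring,
      div_le_iff₀ (by positivity)]
    linarith
  have hN : 1 ≤ T * 2 := by linarith
  have a0 : T ≤ T * 2 := by linarith
  rw [eta]
  generalize T * 2 = N at *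
  have hK0 : 0 < K := lt_of_lt_of_le (by positivity) hK
  have a2 : CR ^ 2 * N ^ 3 * (N / K) ≤ 1 / 6000 := by
    rw [← mul_div_assoc, div_le_iff₀ hK0]
    linarith
  have x0 : 0 ≤ N / K := by positivity
  generalize N / K = x at *
  have a3 := mul_le_mul_of_nonneg_right
    (one_le_mul_of_one_le_of_one_le hR2 (one_le_pow₀ (n := 3) hN)) x0
  have a4 : CR ^ 2 * N ^ 2 * x * x ≤ CR ^ 2 * N ^ 2 * x * N :=
    mul_le_mul_of_nonneg_left (by linarith) (by positivity)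
  have a5 : u ^ 4 ≤ u ^ 515 := pow_le_pow_right₀ hu (by norm_num)
  have a6 := mul_le_mul_of_nonneg_left a5 (by positivity : 0 ≤ 4 * 134 ^ 4 * CR * ω)
  have a7 := le_self_pow₀ (n := 4) hN (by norm_num)
  have a8 := mul_le_mul_of_nonneg_right hR2 (by positivity : 0 ≤ N ^ 4)
  exact ⟨by linarith, by linarith⟩

end NUMx

theorem p_NUM :
    S_NUM := by
  intro CF CR c0 κ5 hF hR
  obtain ⟨P, hP, eP⟩ : ∃ P : ℝ, 0 ≤ P ∧ ∀ t : ℕ, lc0 c0 t = P * (10 * t + 3) ^ 512 :=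
    ⟨2 * 2 ^ (8 * c0) * 700 ^ 512, by positivity, fun t => by rw [lc0, mul_pow, ← mul_assoc]⟩
  obtain ⟨t, h1, h2, h3, h4, h5⟩ := ((Filter.eventually_ge_atTop 1).and
    ((NUMx.ev CF 0).and ((NUMx.ev (3600 * c0 * κ5) 1).and ((NUMx.ev (460800 * CR ^ 3 * CF) 0).and
      (NUMx.ev (6400 * (2804 * c0) * (4 * 134 ^ 4 * CR + 134 ^ 3 * P) ^ 2) 1031))))).exists
  have hT : (1 : ℝ) ≤ 2 ^ t := one_le_pow₀ one_le_two
  obtain ⟨K0, hK⟩ := exists_nat_ge (6000 * CR ^ 2 * (2 ^ t * 2 : ℝ) ^ 4)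
  have m := NUMx.mid ((4 * 134 ^ 4 * CR + 134 ^ 3 * P) * (10 * t + 3) ^ 515) (2804 * c0)
    (10 * t + 3) (2 ^ t) (by positivity) (by positivity) (by
      refine le_of_eq_of_le ?_ h5
      generalize 10 * (t : ℝ) + 3 = u
      generalize 4 * 134 ^ 4 * CR + 134 ^ 3 * P = B
      ring)
  rw [pow_zero, mul_one] at h2 h4
  rw [pow_one] at h3
  have e5 : (2 : ℝ) ^ (5 * t) = (2 ^ t) ^ 5 := by rw [← pow_mul, mul_comm]
  obtain ⟨k1, k2⟩ := NUMx.fin CR CF _ K0 (10 * t + 3) _ P hR hT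
    (le_add_of_nonneg_of_le (by positivity) (by norm_num)) (by positivity) h4 hK m
  refine ⟨t, K0, h1, ?_, by exact_mod_cast k1, by exact_mod_cast h3, ?_⟩
  · rw [e5]
    exact h2.trans (le_self_pow₀ hT (by norm_num))
  · rw [eP, om0, e5, pow_succ (2 : ℝ) t]
    exact k2

end Pool.Agent.P.MP_e94e4b_nt.RP
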