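import Pool.Agent.P.MP_e94e4b_nt.RP.IfC
import Pool.Agent.P.MP_e94e4b_nt.RP.IfS

/-! Step ONE. -/

set_option autoImplicit false
set_option linter.unusedSectionVars false

namespace Pool.Agent.P.MP_e94e4b_nt.RP

open Polynomial Finset
open Pool.Agent.P.MP_8be758_nt Pool.Agent.P.MP_8be758_nt.C2 Pool.Agent.P.MP_8be758_nt.L2
open Pool.Agent.P.MP_e94e4b_nt.LG
open scoped Classical

theorem p_ONE (hFL : S_FL) (hMUR : S_MUR) (hRH2 : S_RH2) (hMER1 : S_MER1) :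
    S_ONE := by
  obtain ⟨C, hC, hFL⟩ := hFL
  refine ⟨C, hC, fun t E hE hE1 ht k _ _ => ?_⟩
  have h5 : (0 : ℝ) < 2 ^ (5 * t) := by positivity
  have E0 : 0 < E := lt_of_lt_of_le (div_pos (by linarith) h5) hE
  have q0 : (0 : ℝ) < qq k := qq_pos
  obtain ⟨n1, hn1⟩ := NEG 201 16 (qq k * 3 ^ 200) E (by norm_num) E0
  refine ⟨n1 + 2 ^ t, fun n hn => ?_⟩
  have hZ : 1 ≤ zz n t := by
    rw [zz, Nat.le_div_iff_mul_le (by positivity)]; omega
  have hZn : zz n t ≤ n := Nat.div_le_self _ _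
  have hδ : 8 * dl n t ≤ n :=
    calc 8 * dl n t = n / 2 ^ t * (8 * (10 * t + 3)) := by rw [dl]; ring
      _ ≤ n / 2 ^ t * 2 ^ t := by gcongr
      _ ≤ n := Nat.div_mul_le_self _ _
  obtain ⟨lam, xi, hS⟩ := hFL k (pc 1) (Pr k (zz n t)) (zz n t) (5 * t) Subset.rfl hZ
    (fun P hP => by
      have h1 : (2 : ℝ) ≤ qq k ^ P.natDegree :=
        two_le_qq.trans (le_self_pow₀ one_le_qq (by have := (isPr_Pr P hP).pos; omega))
      unfold pc
      refine ⟨by positivity, one_div_le_one_div_of_le (by norm_num) h1, ?_⟩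
      gcongr; norm_num)
    ((div_le_one h5).1 (hE.trans hE1))
  have e : (2 * (5 * t) + 3) * zz n t = dl n t := by rw [dl, zz]; ring
  rw [e] at hS
  have hS' := hS.mono hE
  refine ⟨fun D hD => ?_, fun j hj => hRH2 k _ _ j E lam xi isPr_Pr hS' hj⟩
  refine (hMUR k _ _ D E lam xi isPr_Pr hS' (by omega)).trans ?_
  obtain ⟨v0, v1⟩ := hMER1 k (zz n t)
  have z0 : (0 : ℝ) < zz n t := by exact_mod_cast hZ
  have a1 : E * VV (pc 1) (Pr k (zz n t)) ≤ E / zz n t := by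
    rw [le_div_iff₀ z0, mul_assoc]
    exact mul_le_of_le_one_right E0.le (by linarith)
  have s1 : (1 : ℝ) ≤ √(qq k) := Real.one_le_sqrt.2 one_le_qq
  have a2 : (2 : ℝ) ^ (n / 16) ≤ √(qq k) ^ (D - dl n t) :=
    calc (2 : ℝ) ^ (n / 16) ≤ qq k ^ (n / 16) := two_pow_le_qq _
      _ = √(qq k) ^ (2 * (n / 16)) := by rw [pow_mul, Real.sq_sqrt q0.le]
      _ ≤ _ := pow_le_pow_right₀ s1 (by omega)
  have a3 : qq k * (3 * ((dl n t : ℝ) + 1)) ^ 200 / √(qq k) ^ (D - dl n t) ≤ E / zz n t := by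
    rw [div_le_div_iff₀ (by positivity) z0]
    have b1 : (dl n t : ℝ) ≤ n := by exact_mod_cast (by omega : dl n t ≤ n)
    have b2 : (zz n t : ℝ) ≤ n + 1 := by exact_mod_cast (by omega : zz n t ≤ n + 1)
    calc qq k * (3 * ((dl n t : ℝ) + 1)) ^ 200 * zz n t ≤
          qq k * (3 * ((n : ℝ) + 1)) ^ 200 * (n + 1) := by gcongr
      _ = qq k * 3 ^ 200 * ((n : ℝ) + 1) ^ 201 := by rw [mul_pow, pow_succ _ 200]; ring
      _ ≤ E * 2 ^ (n / 16) := hn1 n (by omega)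
      _ ≤ _ := by gcongr
  rw [mul_div_assoc 2, two_mul]
  exact add_le_add a1 a3

end Pool.Agent.P.MP_e94e4b_nt.RP
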