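import Pool.Agent.P.MP_e94e4b_nt.RP.IfW

/-! Step RAM. -/

set_option autoImplicit false
set_option linter.unusedSectionVars false

namespace Pool.Agent.P.MP_e94e4b_nt.RP

open Polynomial Finset
open Pool.Agent.P.MP_8be758_nt Pool.Agent.P.MP_8be758_nt.C2 Pool.Agent.P.MP_8be758_nt.L2
open Pool.Agent.P.MP_e94e4b_nt.LG
open scoped Classical

theorem p_RAM :
    S_RAM := by
  intro k _ _ ε Z a b i hε hb
  obtain ⟨ch, hc⟩ : ∃ ch : k[X] → k[X], ∀ f, ¬ Av (JJ k a b) f → ch f ∈ JJ k a b ∧ ch f ∣ f :=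
    ⟨fun f => Classical.epsilon fun P => P ∈ JJ k a b ∧ P ∣ f, fun f hf =>
      Classical.epsilon_spec (p := fun P => P ∈ JJ k a b ∧ P ∣ f) (by
        by_contra c
        exact hf fun P hP d => c ⟨P, hP, d⟩)⟩
  refine ⟨fun d p => if p = ch (d * p) then aJ ε Z a b (d * p) else 0, fun d p => ?_,
    fun d p e => ?_, fun φ => ?_⟩
  · simp only [aJ]
    split_ifs <;> simp [abs_pow, hε]
  · have := (ite_ne_right_iff.1 (ite_ne_right_iff.1 e).2).1
    exact ⟨this.1, this.2.1⟩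
  have e : ∀ u ∈ Ioc a b, ∑ d ∈ Mo k (i - u), ∑ p ∈ Mo k u,
      (if p = ch (d * p) then aJ ε Z a b (d * p) else 0) * φ (d * p) = ∑ f ∈ Mo k i,
        if ch f ∈ (Mo k u).filter (fun p => p ∣ f) then aJ ε Z a b f * φ f else 0 := fun u hu => by
    rw [sum_comm, ← sum_Mo_dvd fun p d =>
      (if p = ch (d * p) then aJ ε Z a b (d * p) else 0) * φ (d * p),
      Nat.add_sub_cancel' ((mem_Ioc.1 hu).2.trans hb)]
    refine sum_congr rfl fun f _ => ?_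
    refine Eq.trans (sum_congr rfl fun p hp => ?_)
      (sum_ite_eq' _ (ch f) fun _ => aJ ε Z a b f * φ f)
    obtain ⟨p1, s, rfl⟩ := mem_filter.1 hp
    rw [mul_divByMonic_cancel_left _ (mem_Mo.1 p1).1, mul_comm s, ite_mul, zero_mul]
  rw [sum_congr rfl e, sum_comm]
  refine sum_congr rfl fun f _ => ?_
  by_cases c : Av (JJ k a b) f
  · simp [aJ, c]
  obtain ⟨c1, c2⟩ := hc f c
  obtain ⟨c3, c4⟩ := mem_JJ.1 c1
  rw [sum_eq_single_of_mem _ (mem_Ioc.2 c4) fun u _ hu => if_neg fun e =>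
    hu (mem_Mo.1 (mem_filter.1 e).1).2.symm, if_pos (mem_filter.2 ⟨mem_Mo.2 ⟨c3.1, rfl⟩, c2⟩)]

end Pool.Agent.P.MP_e94e4b_nt.RP
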