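import Pool.Agent.P.MP_e94e4b_nt.RP.IfS

/-! Step RH2. -/

set_option autoImplicit false
set_option linter.unusedSectionVars false

namespace Pool.Agent.P.MP_e94e4b_nt.RP

open Polynomial Finset
open Pool.Agent.P.MP_8be758_nt Pool.Agent.P.MP_8be758_nt.C2 Pool.Agent.P.MP_8be758_nt.L2
open Pool.Agent.P.MP_e94e4b_nt.LG
open scoped Classical

theorem p_RH2 (hEQ : S_EQ) :
    S_RH2 := by
  intro k _ _ T δ j E lam xi hT h hj
  have pt : ∀ d ∈ Mo k j, sw lam d - sw xi d ≤ av T d ∧ av T d ≤ sw lam d := by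
    intro d hd
    have h0 : d ≠ 0 := (mem_Mo.1 hd).1.ne_zero
    obtain ⟨p1, p2⟩ := h.pos (pf d)
    unfold sw
    by_cases a : Av T d
    · rw [av_of a, h.one _ ((Av_iff hT h0).1 a)]
      constructor <;> linarith
    · have := h.dom _ fun b => a ((Av_iff hT h0).2 b)
      rw [av_of_not a]
      constructor <;> linarith
  have l1 : mn j (fun d => sw lam d - sw xi d) ≤ rho T j := mn_mono fun d hd => (pt d hd).1
  have l2 : rho T j ≤ mn j (sw lam) := mn_mono fun d hd => (pt d hd).2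
  rw [mn_sub, hEQ k T δ j lam hT h.l1 hj, hEQ k T δ j xi hT h.l2 hj] at l1
  rw [hEQ k T δ j lam hT h.l1 hj] at l2
  have e1 := h.e1
  have e2 := h.e2
  have e4 := h.e4
  rw [abs_le]
  constructor <;> linarith

end Pool.Agent.P.MP_e94e4b_nt.RP
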