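import Pool.Agent.P.MP_e94e4b_nt.RP.IfS

/-! Step RHO. -/

set_option autoImplicit false
set_option linter.unusedSectionVars false

namespace Pool.Agent.P.MP_e94e4b_nt.RP

open Polynomial Finset
open Pool.Agent.P.MP_8be758_nt Pool.Agent.P.MP_8be758_nt.C2 Pool.Agent.P.MP_8be758_nt.L2
open Pool.Agent.P.MP_e94e4b_nt.LG
open scoped Classical

theorem p_RHO (hFL : S_FL) (hRH2 : S_RH2) :
    S_RHO := by
  obtain ⟨C, hC, H⟩ := hFL
  obtain ⟨s, hs⟩ := pow_unbounded_of_one_lt C (one_lt_two : (1 : ℝ) < 2)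
  refine ⟨2 * s + 3, by omega, fun k _ _ T Z j hT hZ hj => ?_⟩
  have hpr : ∀ P ∈ T, IsPr P := fun P hP => isPr_Pr P (hT hP)
  have hp : ∀ P ∈ T, 0 ≤ pc (1 : ℝ) P ∧ pc (1 : ℝ) P ≤ 1 / 2 ∧ pc (1 : ℝ) P ≤ pc 2 P := by
    intro P hP
    have h0 : (0 : ℝ) < qq k ^ P.natDegree := pow_pos qq_pos _
    have h1 : 0 < P.natDegree := (hpr P hP).2.natDegree_pos
    have h2 : (2 : ℝ) ≤ qq k := by
      have : 1 < Nat.card k := Finite.one_lt_card
      unfold qq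
      exact_mod_cast this
    have h3 : (2 : ℝ) ≤ qq k ^ P.natDegree := h2.trans (le_self_pow₀ one_le_qq h1.ne')
    unfold pc
    exact ⟨by positivity, one_div_le_one_div_of_le two_pos h3,
      div_le_div_of_nonneg_right one_le_two h0.le⟩
  obtain ⟨lam, xi, hv⟩ := H k (pc 1) T Z s hT hZ hp hs.le
  have h1 := (abs_le.1 (hRH2 k T _ j _ lam xi hpr hv hj)).2
  have h2 : C / 2 ^ s ≤ 1 := (div_le_one (by positivity)).2 hs.le
  have h3 := mul_le_mul_of_nonneg_right h2 hv.e0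
  linarith

end Pool.Agent.P.MP_e94e4b_nt.RP
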