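import Pool.Agent.P.MP_e94e4b_nt.RP.IfS

/-! Step RZ. -/

set_option autoImplicit false
set_option linter.unusedSectionVars false

namespace Pool.Agent.P.MP_e94e4b_nt.RP

open Polynomial Finset
open Pool.Agent.P.MP_8be758_nt Pool.Agent.P.MP_8be758_nt.C2 Pool.Agent.P.MP_8be758_nt.L2
open Pool.Agent.P.MP_e94e4b_nt.LG
open scoped Classical

theorem p_RZ (hRHO : S_RHO) (hMER1 : S_MER1) :
    S_RZ := by
  obtain ⟨c0, hc, hR⟩ := hRHO
  have hc2 : (2 : ℝ) ≤ c0 := by exact_mod_cast hc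
  refine ⟨2 * c0, by linarith, fun k _ _ Z j hZ hj => ?_⟩
  have hZ0 : (0 : ℝ) < Z := by exact_mod_cast hZ
  rcases le_or_gt j Z with hjZ | hjZ
  · have h0 : rho (Pr k Z) j = 0 := by
      rw [rho, mn, sum_eq_zero, zero_div]
      intro d hd
      obtain ⟨hm, hdeg⟩ := mem_Mo.1 hd
      have hu : ¬ IsUnit d := fun h => by
        have := natDegree_eq_zero_of_isUnit h
        omega
      obtain ⟨P, hP, hPd⟩ := exists_isPr_dvd hu hm.ne_zero
      have hle := natDegree_le_of_dvd hPd hm.ne_zero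
      rw [av, if_neg]
      exact fun h => h P (mem_Pr.2 ⟨hP, by omega⟩) hPd
    rw [h0]
    positivity
  · have hlt : Z < c0 * (Z / c0 + 1) := Nat.lt_mul_div_succ Z (by omega)
    have hlt' : (Z : ℝ) < c0 * (((Z / c0 : ℕ) : ℝ) + 1) := by exact_mod_cast hlt
    rw [le_div_iff₀ hZ0]
    rcases Nat.eq_zero_or_pos (Z / c0) with h0 | h0
    · rw [h0] at hlt'
      have h1 := rho_le_one (Pr k Z) j
      push_cast at hlt'
      nlinarith
    · have hle : c0 * (Z / c0) ≤ Z := Nat.mul_div_le Z c0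
      have h1 := rho_mono (Pr_mono (k := k) (Nat.div_le_self Z c0)) j
      have h2 := hR k (Pr k (Z / c0)) (Z / c0) j Subset.rfl h0 (by omega)
      obtain ⟨h3, h4⟩ := hMER1 k (Z / c0)
      have h5 : rho (Pr k Z) j * Z ≤ 2 * VV (pc 1) (Pr k (Z / c0)) * Z :=
        mul_le_mul_of_nonneg_right (h1.trans h2) hZ0.le
      have h6 : VV (pc 1) (Pr k (Z / c0)) * Z ≤
          VV (pc 1) (Pr k (Z / c0)) * (c0 * (((Z / c0 : ℕ) : ℝ) + 1)) :=
        mul_le_mul_of_nonneg_left hlt'.le h3.le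
      nlinarith

end Pool.Agent.P.MP_e94e4b_nt.RP
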