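import Pool.Agent.P.MP_e94e4b_nt.RP.IfC

/-! Step SUM. -/

set_option autoImplicit false
set_option linter.unusedSectionVars false

namespace Pool.Agent.P.MP_e94e4b_nt.RP

open Polynomial Finset
open Pool.Agent.P.MP_8be758_nt Pool.Agent.P.MP_8be758_nt.C2 Pool.Agent.P.MP_8be758_nt.L2
open Pool.Agent.P.MP_e94e4b_nt.LG
open scoped Classical

theorem p_SUM (hCELL : S_CELL) (hSUM1 : S_SUM1) :
    S_SUM := by
  intro n M g Z δ u C c3 m r Qv Qt E W ω Lc CR N x y h h1 h2 h3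
  have hS := hSUM1 n M g Z δ u C c3 m r Qv Qt E W ω Lc CR N x y h h1 h2 h3
  set D : ℕ → ℕ → ℝ := fun i j => C i j - if i ≤ n / 4 ∧ j ≤ n / 4 then Qt * (m i * m j) else 0
    with eD
  have cut : ∀ f : ℕ → ℝ, ∑ i ∈ range (n / 4 + 1), f i =
      ∑ i ∈ range (n + 1), if i ≤ n / 4 then f i else 0 := fun f => by
    rw [← sum_filter]
    congr 1; ext i; simp only [mem_range, mem_filter]; omega
  have e : ∑ i ∈ range (n + 1), ∑ j ∈ range (n + 1), ((i : ℝ) - j) ^ 2 * C i j -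
      Qt * ∑ i ∈ range (n / 4 + 1), ∑ j ∈ range (n / 4 + 1), ((i : ℝ) - j) ^ 2 * (m i * m j) =
      ∑ i ∈ range (n + 1), ∑ j ∈ range (n + 1), ((i : ℝ) - j) ^ 2 * D i j := by
    rw [cut, mul_sum, ← sum_sub_distrib]
    refine sum_congr rfl fun i _ => ?_
    by_cases hi : i ≤ n / 4
    · rw [if_pos hi, cut, mul_sum, ← sum_sub_distrib]
      refine sum_congr rfl fun j _ => ?_
      by_cases hj : j ≤ n / 4 <;> simp [eD, hi, hj]
      ring
    · simp [eD, hi]
  set B : ℕ → ℕ → ℝ := fun i j =>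
    if i ≤ j then ((i : ℝ) - j) ^ 2 * bb n Z δ u c3 r Qv E W ω CR i j else 0 with eB
  have k : ∀ i ∈ range (n + 1), ∀ j ∈ range (n + 1), i ≤ j →
      |((i : ℝ) - j) ^ 2 * D i j| ≤ B i j := fun i _ j hj hij => by
    rw [abs_mul, abs_sq, eB]
    simp only [if_pos hij, eD, show (i ≤ n / 4 ∧ j ≤ n / 4) ↔ j ≤ n / 4 by omega]
    exact mul_le_mul_of_nonneg_left (hCELL n M g Z δ u C c3 m r Qv Qt E W ω Lc CR h i j hij
      (Nat.lt_succ_iff.1 (mem_range.1 hj))) (sq_nonneg _)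
  have k2 : ∀ i ∈ range (n + 1), ∀ j ∈ range (n + 1),
      |((i : ℝ) - j) ^ 2 * D i j| ≤ B i j + B j i := fun i hi j hj => by
    rcases lt_trichotomy i j with l | l | l
    · simpa [eB, l.not_ge] using k i hi j hj l.le
    · simp [eB, l]
    · have := k j hj i hi l.le
      rw [show ((j : ℝ) - i) ^ 2 * D j i = ((i : ℝ) - j) ^ 2 * D i j by
        simp only [eD, h.sym j i, and_comm, mul_comm (m j)]; ring] at this
      simpa [eB, l.not_ge] using this
  rw [e]
  refine ((abs_sum_le_sum_abs _ _).trans (sum_le_sum fun i hi => (abs_sum_le_sum_abs _ _).trans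
    (sum_le_sum (k2 i hi)))).trans ?_
  simp only [sum_add_distrib]
  rw [sum_comm (f := fun i j => B j i)]
  linarith

end Pool.Agent.P.MP_e94e4b_nt.RP
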