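import Pool.Agent.P.MP_e94e4b_nt.RP.IfC

/-! Step SUM1. -/

set_option autoImplicit false
set_option linter.unusedSectionVars false

namespace Pool.Agent.P.MP_e94e4b_nt.RP

open Polynomial Finset
open Pool.Agent.P.MP_8be758_nt Pool.Agent.P.MP_8be758_nt.C2 Pool.Agent.P.MP_8be758_nt.L2
open Pool.Agent.P.MP_e94e4b_nt.LG
open scoped Classical

theorem SUM1_cnt (n w : ℕ) (p : ℕ → Prop) [DecidablePred p]
    (hp : ∀ i, p i → n < 2 * i + w ∧ 2 * i < n + w) :
    ∑ i ∈ range (n + 1), (if p i then (1 : ℝ) else 0) ≤ w := by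
  rw [sum_boole]
  refine Nat.cast_le.2 ((card_le_card (t := Ico ((n + 2 - w) / 2) ((n + w + 1) / 2))
    fun i hi => ?_).trans ?_)
  · have := hp i (mem_filter.1 hi).2
    rw [mem_Ico]
    omega
  · rw [Nat.card_Ico]
    omega

theorem p_SUM1 :
    S_SUM1 := by
  intro n M g Z δ u C c3 m r Qv Qt E W ω Lc CR N x y H hN hx hy
  have a1 := H.a1
  have a4 := H.a4
  have a5 := H.a5
  have a6 := H.a6
  have a7 := H.a7
  have a8 := H.a8
  have r0 : ∀ D, 0 ≤ r D := fun D => (abs_nonneg _).trans (H.mr D)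
  have Z1 : (1 : ℝ) ≤ Z := by exact_mod_cast H.n1
  have Z0 : (0 : ℝ) < Z := by linarith
  have nZ : (Z : ℝ) ≤ n := by
    have := H.n2
    have := H.n4
    exact_mod_cast (by omega : Z ≤ n)
  have N1 : 1 ≤ N := by
    by_contra h
    nlinarith
  have x0 : 0 ≤ x := by
    by_contra h
    nlinarith [(Nat.cast_nonneg u : (0 : ℝ) ≤ u)]
  have y0 : 0 ≤ y := by
    by_contra h
    nlinarith [(Nat.cast_nonneg δ : (0 : ℝ) ≤ δ)]
  have s0 : ∀ i, 0 ≤ sig n Z r i := fun i => by
    have := r0 i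
    have := r0 (n - i)
    rw [sig]
    positivity
  have b1 : (n : ℝ) / Z ≤ N := (div_le_iff₀ Z0).2 hN
  have s1 : ∑ i ∈ range (n + 1), r i ≤ 2 * (CR * N) := by
    rw [sum_range_succ']
    have h1 := sum_le_card_nsmul (range n) (fun i => r (i + 1)) (CR / Z)
      fun i _ => H.r1 _ (by omega)
    rw [card_range, nsmul_eq_mul] at h1
    have h2 : (n : ℝ) * (CR / Z) ≤ CR * N := by
      rw [show (n : ℝ) * (CR / Z) = CR * (n / Z) by ring]
      gcongr
    nlinarith [H.r0]
  have s2 : ∑ i ∈ range (n + 1), sig n Z r i ≤ 6 * (CR * N) := by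
    have h1 := sum_range_reflect r (n + 1)
    simp only [Nat.add_sub_cancel] at h1
    simp only [sig, sum_add_distrib, h1, sum_const, card_range, nsmul_eq_mul]
    have h2 : ((n + 1 : ℕ) : ℝ) * (1 / Z) = n / Z + 1 / Z := by push_cast; ring
    have h3 : (1 : ℝ) / Z ≤ 1 := (div_le_one Z0).2 Z1
    nlinarith
  obtain ⟨S, hS⟩ : ∃ S, S = ∑ i ∈ range (n + 1), sig n Z r i := ⟨_, rfl⟩
  have S0 : 0 ≤ S := hS ▸ sum_nonneg fun i _ => s0 i
  obtain ⟨p, hp⟩ : ∃ p : ℕ → ℝ, ∀ i,
      p i = if n < 2 * i + 2 * u ∧ 2 * i < n + 2 * u then 1 else 0 := ⟨_, fun _ => rfl⟩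
  obtain ⟨c, hc⟩ : ∃ c : ℕ → ℝ, ∀ i, c i = if Cor n δ i then 1 else 0 := ⟨_, fun _ => rfl⟩
  have p1 : ∑ i ∈ range (n + 1), p i ≤ 2 * (x * Z) := by
    simp only [hp]
    refine (SUM1_cnt n (2 * u) _ fun i h => h).trans ?_
    push_cast
    linarith
  have c1 : ∑ i ∈ range (n + 1), c i ≤ y * Z := by
    simp only [hc]
    refine (SUM1_cnt n (134 * δ) (Cor n δ) fun i h => h).trans ?_
    push_cast
    exact hy
  have p0 : ∀ i, 0 ≤ p i := fun i => by rw [hp]; positivity
  have c0 : ∀ i, 0 ≤ c i := fun i => by rw [hc]; positivity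
  have key : ∀ i ∈ range (n + 1), ∀ j ∈ range (n + 1),
      (if i ≤ j then ((i : ℝ) - j) ^ 2 * bb n Z δ u c3 r Qv E W ω CR i j else 0) ≤
      ((N * Z) ^ 2 * (10 * CR * E * Qv) + (x * Z) ^ 2 * (2 * Qv)) * (sig n Z r i * sig n Z r j) +
        (N * Z) ^ 2 * (2 * Qv * (CR / Z)) * (p i * sig n Z r j) +
        (y * Z) ^ 2 * (4 * Qv * ω * CR / Z ^ 2) * (c i * c j) + (y * Z) ^ 2 * (c i * c3 i j) +
        2 * W * (n : ℝ) ^ 2 := fun i hi j hj => by
    have := s0 i
    have := s0 j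
    have := p0 i
    have := c0 i
    have := c0 j
    have := H.c30 i j
    split_ifs with hij
    swap
    · positivity
    have hi' : (i : ℝ) ≤ j := by exact_mod_cast hij
    have hj' : (j : ℝ) ≤ n := by exact_mod_cast Nat.lt_succ_iff.1 (mem_range.1 hj)
    have sq : ∀ t : ℝ, (j : ℝ) - i ≤ t → ((i : ℝ) - j) ^ 2 ≤ t ^ 2 := fun t h => by nlinarith
    have i0 : (0 : ℝ) ≤ i := Nat.cast_nonneg i
    have D0 := sq_nonneg ((i : ℝ) - j)
    rw [bb]
    generalize ((i : ℝ) - j) ^ 2 = D at sq D0 ⊢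
    have d1 := sq n (by linarith)
    have d2 := sq (N * Z) (by linarith)
    have t1 : D * (10 * CR * E * Qv * (sig n Z r i * sig n Z r j)) ≤
        (N * Z) ^ 2 * (10 * CR * E * Qv * (sig n Z r i * sig n Z r j)) := by gcongr
    have t2 : D * (if j < i + u then 2 * Qv * (sig n Z r i * sig n Z r j) else 0) ≤
        (x * Z) ^ 2 * (2 * Qv * (sig n Z r i * sig n Z r j)) := by
      split_ifs with h
      · have h' : (j : ℝ) ≤ i + u := by exact_mod_cast h.le
        have := sq (x * Z) (by linarith)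
        gcongr
      · rw [mul_zero]; positivity
    have t3 : D * (if n < 2 * i + 2 * u ∧ 2 * i < n + 2 * u then
        2 * Qv * (CR / Z * sig n Z r j) else 0) ≤
        (N * Z) ^ 2 * (2 * Qv * (CR / Z)) * (p i * sig n Z r j) := by
      rw [hp]
      split_ifs with h
      · rw [one_mul, mul_assoc ((N * Z) ^ 2), mul_assoc (2 * Qv)]
        gcongr
      · simp
    have t4 : D * (if Cor n δ i ∧ Cor n δ j then 4 * Qv * ω * CR / Z ^ 2 + c3 i j else 0) ≤
        (y * Z) ^ 2 * (4 * Qv * ω * CR / Z ^ 2) * (c i * c j) + (y * Z) ^ 2 * (c i * c3 i j) := by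
      split_ifs with h
      · have h' : (j : ℝ) ≤ i + 134 * δ := by
          have := h.1.1
          have := h.2.2
          exact_mod_cast (by omega : j ≤ i + 134 * δ)
        have := sq (y * Z) (by linarith)
        rw [hc, hc, if_pos h.1, if_pos h.2, one_mul, mul_one, one_mul, ← mul_add]
        gcongr
      · rw [mul_zero]; positivity
    have t5 : D * (2 * W) ≤ (n : ℝ) ^ 2 * (2 * W) := by gcongr
    linarith
  refine (sum_le_sum fun i hi => sum_le_sum (key i hi)).trans ?_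
  simp only [sum_add_distrib, ← mul_sum, ← sum_mul, ← hS, sum_const, card_range, nsmul_eq_mul]
  have u1 : S * S ≤ 6 * (CR * N) * (6 * (CR * N)) := by rw [← hS] at s2; gcongr
  have u2 : (∑ i ∈ range (n + 1), p i) * S ≤ 2 * (x * Z) * (6 * (CR * N)) := by
    rw [← hS] at s2; gcongr
  have u3 : (∑ i ∈ range (n + 1), c i) * (∑ i ∈ range (n + 1), c i) ≤ y * Z * (y * Z) := by
    have := sum_nonneg fun i (_ : i ∈ range (n + 1)) => c0 i
    gcongr
  have u4 : ∑ i ∈ range (n + 1), c i * ∑ j ∈ range (n + 1), c3 i j ≤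
      y * Z * (Qv * (ω / Z) * Lc) := by
    refine le_trans (sum_le_sum fun i _ => ?_) ((sum_mul _ _ _).symm.trans_le
      (mul_le_mul_of_nonneg_right c1 (by positivity)))
    rw [hc]
    split_ifs with h
    · exact mul_le_mul_of_nonneg_left (H.c31 i h) zero_le_one
    · simp
  refine le_trans (add_le_add (add_le_add (add_le_add (add_le_add
    (mul_le_mul_of_nonneg_left u1 (by positivity)) (mul_le_mul_of_nonneg_left u2 (by positivity)))
    (mul_le_mul_of_nonneg_left u3 (by positivity))) (mul_le_mul_of_nonneg_left u4 (by positivity)))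
    le_rfl) (le_of_eq ?_)
  rw [eta]
  push_cast
  field_simp
  ring

end Pool.Agent.P.MP_e94e4b_nt.RP
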