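import Pool.Agent.P.MP_e94e4b_nt.RP.IfW

/-! Step TA0. -/

set_option autoImplicit false
set_option linter.unusedSectionVars false

namespace Pool.Agent.P.MP_e94e4b_nt.RP

open Polynomial Finset
open Pool.Agent.P.MP_8be758_nt Pool.Agent.P.MP_8be758_nt.C2 Pool.Agent.P.MP_8be758_nt.L2
open Pool.Agent.P.MP_e94e4b_nt.LG
open scoped Classical

theorem TA0_one {ι : Type} (s : Finset ι) (f : ι → ℝ) {Λ : ℝ} (h0 : 0 ≤ Λ)
    (h1 : ∀ x ∈ s, |f x| ≤ Λ) (h2 : ∀ x ∈ s, ∀ z ∈ s, f x ≠ 0 → f z ≠ 0 → x = z) :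
    |∑ x ∈ s, f x| ≤ Λ := by
  by_cases h : ∃ x ∈ s, f x ≠ 0
  · obtain ⟨x, hx, hf⟩ := h
    rw [sum_eq_single_of_mem x hx fun z hz hne => by
      by_contra hz'
      exact hne (h2 z hz x hx hz' hf)]
    exact h1 x hx
  · rw [sum_eq_zero fun x hx => by
      by_contra hf
      exact h ⟨x, hx, hf⟩, abs_zero]
    exact h0

variable {k : Type} [Field k] [Finite k]

theorem TA0_mu {S : Finset k[X]} (hS : ∀ P ∈ S, IsPr P) {e m : k[X]} (he : e.Monic)
    (hm : m ≠ 0) (hc : IsCoprime (pr S) e) :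
    (if pr S ∣ m ∧ e ∣ m then mu (m /ₘ e) else 0) =
      ∑ U ∈ S.powerset, sg S * sg U *
        if e * pr S * pr U ∣ m then mu (m /ₘ (e * pr S)) else 0 := by
  by_cases h : e * pr S ∣ m
  · obtain ⟨d, rfl⟩ := h
    have hd : d ≠ 0 := right_ne_zero_of_mul hm
    have h0 : e * pr S ≠ 0 := left_ne_zero_of_mul hm
    have e1 : e * pr S * d /ₘ e = pr S * d := by
      rw [mul_assoc, mul_divByMonic_cancel_left _ he]
    have e2 : e * pr S * d /ₘ (e * pr S) = d :=
      mul_divByMonic_cancel_left _ (he.mul (monic_pr hS))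
    rw [if_pos ⟨(dvd_mul_left _ _).mul_right _, (dvd_mul_right _ _).mul_right _⟩, e1, e2]
    have e3 : ∀ U ∈ S.powerset, (sg S * sg U *
        if e * pr S * pr U ∣ e * pr S * d then mu d else 0) =
        sg S * mu d * if U ⊆ S ∩ pf d then sg U else 0 := fun U hU => by
      have hU' := mem_powerset.1 hU
      have hp : ∀ P ∈ U, IsPr P := fun P h => hS P (hU' h)
      have : e * pr S * pr U ∣ e * pr S * d ↔ U ⊆ S ∩ pf d := by
        rw [mul_dvd_mul_iff_left h0, subset_inter_iff, subset_pf_iff hd hp]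
        exact ⟨fun h => ⟨hU', h⟩, fun h => h.2⟩
      by_cases hx : U ⊆ S ∩ pf d
      · rw [if_pos hx, if_pos (this.2 hx)]; ring
      · rw [if_neg hx, if_neg (fun h => hx (this.1 h))]; ring
    rw [sum_congr rfl e3, ← mul_sum, ← sum_filter]
    have e4 : S.powerset.filter (fun U => U ⊆ S ∩ pf d) = (S ∩ pf d).powerset := by
      ext U
      simp only [mem_filter, mem_powerset, subset_inter_iff]
      tauto
    rw [e4, sum_sg_powerset]
    by_cases hx : S ∩ pf d = ∅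
    · rw [if_pos hx, mul_one, mu_mul ((coprime_pr_iff hd hS).2 (disjoint_iff_inter_eq_empty.2 hx)),
        mu_pr hS]
    · rw [if_neg hx, mul_zero]
      obtain ⟨P, hP⟩ := nonempty_iff_ne_empty.2 hx
      obtain ⟨h1, h2⟩ := mem_inter.1 hP
      refine mu_of_not_squarefree fun hs => (hS P h1).prime.not_isUnit (hs P ?_)
      exact mul_dvd_mul ((dvd_pr_iff hS (hS P h1)).2 h1) ((mem_pf hd).1 h2).2
  · rw [if_neg fun h' => h (hc.symm.mul_dvd h'.2 h'.1)]
    exact (sum_eq_zero fun U _ => by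
      rw [if_neg fun h' => h ((dvd_mul_right _ _).trans h'), mul_zero]).symm

theorem TA0_card {T : Finset k[X]} (hT : ∀ P ∈ T, IsPr P) {m : k[X]} (hm : m ≠ 0) :
    ((T.powerset.filter fun S => pr S ∣ m).card : ℝ) ≤ nd m := by
  have hp : ∀ S ∈ T.powerset.filter fun S => pr S ∣ m, ∀ P ∈ S, IsPr P := fun S hS P h =>
    hT P (mem_powerset.1 (mem_filter.1 hS).1 h)
  rw [← card_image_of_injOn (f := pr) fun S hS S' hS' h => pr_inj (hp S hS) (hp S' hS') h]
  refine card_le_nd hm fun d hd => ?_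
  obtain ⟨S, hS, rfl⟩ := mem_image.1 hd
  exact ⟨monic_pr (hp S hS), (mem_filter.1 hS).2⟩

theorem p_TA0 :
    S_TA0 := by
  intro k _ _ T Z δ y ρ Λ lam hT hL hΛ
  have hTp : ∀ P ∈ T, IsPr P := fun P h => isPr_Pr P (hT h)
  have h0 : 0 ≤ Λ := (abs_nonneg _).trans (hΛ ∅)
  obtain ⟨I, hI⟩ : ∃ I, I = Mo k y ×ˢ T.powerset ×ˢ T.powerset := ⟨_, rfl⟩
  obtain ⟨w, hw⟩ : ∃ w : k[X] × Finset k[X] × Finset k[X] → ℝ, ∀ x, w x =
      if Av (Pr k Z) x.1 ∧ x.2.2 ⊆ x.2.1 then lam x.2.1 * (sg x.2.1 * sg x.2.2) else 0 :=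
    ⟨_, fun _ => rfl⟩
  have mI : ∀ x ∈ I, x.1 ∈ Mo k y ∧ x.2.1 ⊆ T ∧ x.2.2 ⊆ T := fun x hx => by
    simpa only [hI, mem_product, mem_powerset] using hx
  have w1 : ∀ x, |w x| ≤ Λ := fun x => by
    rw [hw]
    split_ifs
    · rw [abs_mul, abs_mul, abs_sg, abs_sg, mul_one, mul_one]; exact hΛ _
    · rwa [abs_zero]
  have w2 : ∀ x, w x ≠ 0 → Av (Pr k Z) x.1 ∧ x.2.2 ⊆ x.2.1 ∧ dg x.2.1 ≤ δ := fun x h => by
    rw [hw] at h
    split_ifs at h with h'
    · exact ⟨h'.1, h'.2, (hL.1 _ (left_ne_zero_of_mul h)).2⟩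
    · exact absurd rfl h
  refine ⟨fun e t => ∑ x ∈ I, if x.1 * pr x.2.1 = e ∧ pr x.2.2 = t then w x else 0,
    fun e t => TA0_one _ _ h0 (fun x _ => ?_) fun x hx z hz h1 h2 => ?_, fun m hm => ?_⟩
  · split_ifs
    · exact w1 x
    · rwa [abs_zero]
  · obtain ⟨a1, a2, a3⟩ := mI x hx
    obtain ⟨b1, b2, b3⟩ := mI z hz
    obtain ⟨⟨c1, c2⟩, c3⟩ := ite_ne_right_iff.1 h1
    obtain ⟨⟨d1, d2⟩, d3⟩ := ite_ne_right_iff.1 h2
    have pa : ∀ P ∈ x.2.1, IsPr P := fun P h => hTp P (a2 h)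
    have pb : ∀ P ∈ z.2.1, IsPr P := fun P h => hTp P (b2 h)
    have e1 : x.2.1 = z.2.1 := Subset.antisymm
      ((pr_dvd_pr pa pb).1 (((w2 z d3).1.coprime (a2.trans hT) pa).dvd_of_dvd_mul_left
        (by rw [d1, ← c1]; exact dvd_mul_left _ _)))
      ((pr_dvd_pr pb pa).1 (((w2 x c3).1.coprime (b2.trans hT) pb).dvd_of_dvd_mul_left
        (by rw [c1, ← d1]; exact dvd_mul_left _ _)))
    refine Prod.ext (mul_right_cancel₀ (monic_pr pb).ne_zero ?_) (Prod.ext e1
      (pr_inj (fun P h => hTp P (a3 h)) (fun P h => hTp P (b3 h)) (c2.trans d2.symm)))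
    rw [d1, ← c1, e1]
  have m0 := hm.ne_zero
  obtain ⟨g, hg⟩ : ∃ g : k[X] × Finset k[X] × Finset k[X] → ℝ, ∀ x, g x = w x *
      if x.1 * pr x.2.1 * pr x.2.2 ∣ m then mu (m /ₘ (x.1 * pr x.2.1)) else 0 := ⟨_, fun _ => rfl⟩
  have e1 : sw lam m * DM y (av (Pr k Z)) m = ∑ x ∈ I, g x := by
    have a1 : sw lam m = ∑ S ∈ T.powerset, if pr S ∣ m then lam S else 0 := by
      rw [sw, wt_inter (fun S h => (hL.1 S h).1), wt, ← sum_filter]
      refine sum_congr ?_ fun _ _ => rfl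
      ext S
      simp only [mem_filter, mem_powerset, subset_inter_iff]
      exact ⟨fun h => ⟨h.2, (subset_pf_iff m0 fun P hP => hTp P (h.2 hP)).1 h.1⟩,
        fun h => ⟨(subset_pf_iff m0 fun P hP => hTp P (h.1 hP)).2 h.2, h.1⟩⟩
    rw [a1, DM, sum_filter, mul_comm, sum_mul_sum, hI, sum_product]
    refine sum_congr rfl fun e he => ?_
    rw [sum_product]
    refine sum_congr rfl fun S hS => ?_
    have hS' := mem_powerset.1 hS
    have hp : ∀ P ∈ S, IsPr P := fun P h => hTp P (hS' h)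
    by_cases ha : Av (Pr k Z) e
    · have key := TA0_mu hp (mem_Mo.1 he).1 m0 (ha.coprime (hS'.trans hT) hp)
      have a2 : S.powerset = T.powerset.filter (fun U => U ⊆ S) := by
        ext U
        simp only [mem_filter, mem_powerset]
        exact ⟨fun h => ⟨h.trans hS', h⟩, fun h => h.2⟩
      rw [a2, sum_filter] at key
      rw [av_of ha, one_mul]
      trans lam S * if pr S ∣ m ∧ e ∣ m then mu (m /ₘ e) else 0
      · by_cases h1 : e ∣ m <;> by_cases h2 : pr S ∣ m <;> simp [h1, h2, mul_comm]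
      · rw [key, mul_sum]
        refine sum_congr rfl fun U _ => ?_
        rw [hg, hw]
        by_cases h1 : U ⊆ S
        · simp only [ha, h1, and_self, if_true]; ring
        · simp [h1]
    · rw [av_of_not ha, zero_mul, ite_self, zero_mul]
      exact (sum_eq_zero fun U _ => by rw [hg, hw, if_neg fun h => ha h.1, zero_mul]).symm
  have e2 : (∑ a ∈ range (δ + 1), ∑ e ∈ Mo k (y + a), ∑ t ∈ Mle k ρ, if e * t ∣ m then
      (∑ x ∈ I, if x.1 * pr x.2.1 = e ∧ pr x.2.2 = t then w x else 0) * mu (m /ₘ e) else 0) =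
      ∑ x ∈ I, if dg x.2.2 ≤ ρ then g x else 0 := by
    have a1 : ∀ e t : k[X], (if e * t ∣ m then
        (∑ x ∈ I, if x.1 * pr x.2.1 = e ∧ pr x.2.2 = t then w x else 0) * mu (m /ₘ e) else 0) =
        ∑ x ∈ I, if x.1 * pr x.2.1 = e then (if pr x.2.2 = t then g x else 0) else 0 := by
      intro e t
      trans ∑ x ∈ I, (if x.1 * pr x.2.1 = e ∧ pr x.2.2 = t then w x else 0) *
        if e * t ∣ m then mu (m /ₘ e) else 0
      · rw [← sum_mul]; split_ifs <;> simp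
      · refine sum_congr rfl fun x _ => ?_
        by_cases h1 : x.1 * pr x.2.1 = e
        · by_cases h2 : pr x.2.2 = t
          · rw [if_pos ⟨h1, h2⟩, if_pos h1, if_pos h2, hg, h1, h2]
          · simp [h2]
        · simp [h1]
    simp only [a1]
    simp only [sum_comm (t := I)]
    refine sum_congr rfl fun x hx => ?_
    obtain ⟨a2, a3, a4⟩ := mI x hx
    by_cases h : w x = 0
    · simp [hg, h]
    have pa : ∀ P ∈ x.2.1, IsPr P := fun P h => hTp P (a3 h)
    have pb : ∀ P ∈ x.2.2, IsPr P := fun P h => hTp P (a4 h)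
    obtain ⟨a5, a6⟩ := mem_Mo.1 a2
    have a7 : ∀ a, x.1 * pr x.2.1 ∈ Mo k (y + a) ↔ dg x.2.1 = a := fun a => by
      rw [mem_Mo, a5.natDegree_mul (monic_pr pa), a6, natDegree_pr pa]
      exact ⟨fun h => by omega, fun h => ⟨a5.mul (monic_pr pa), by omega⟩⟩
    have a8 : pr x.2.2 ∈ Mle k ρ ↔ dg x.2.2 ≤ ρ := by
      rw [Mle, mem_filter, mem_low, degree_eq_natDegree (monic_pr pb).ne_zero, natDegree_pr pb,
        Nat.cast_lt, Nat.lt_succ_iff]
      exact ⟨fun h => h.1, fun h => ⟨h, monic_pr pb⟩⟩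
    simp only [sum_ite_irrel, sum_const_zero, sum_ite_eq, a7, a8, mem_range,
      Nat.lt_succ_of_le (w2 x h).2.2, if_true]
  rw [e1, e2, ← sum_sub_distrib]
  have g1 : ∀ x ∈ I, (g x - if dg x.2.2 ≤ ρ then g x else 0) ≠ 0 →
      ρ < dg x.2.2 ∧ w x ≠ 0 ∧ x.1 * pr x.2.1 * pr x.2.2 ∣ m := fun x _ h => by
    split_ifs at h with h'
    · exact absurd (sub_self _) h
    · rw [sub_zero, hg] at h
      exact ⟨not_le.1 h', left_ne_zero_of_mul h, (ite_ne_right_iff.1 (right_ne_zero_of_mul h)).1⟩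
  split_ifs with ht
  · rw [← sum_filter_ne_zero]
    refine (abs_sum_le_sum_abs _ _).trans ((sum_le_card_nsmul _ _ Λ fun x _ => ?_).trans ?_)
    · have : |g x| ≤ Λ := by
        rw [hg, abs_mul]
        refine (mul_le_of_le_one_right (abs_nonneg _) ?_).trans (w1 x)
        split_ifs
        · exact abs_mu_le _
        · simp
      split_ifs
      · rwa [sub_self, abs_zero]
      · rwa [sub_zero]
    · rw [nsmul_eq_mul, mul_comm]
      refine mul_le_mul_of_nonneg_left ?_ h0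
      have c1 : (((Mo k y).filter fun e => e ∣ m).card : ℝ) ≤ nd m :=
        card_le_nd m0 fun d hd => ⟨(mem_Mo.1 (mem_filter.1 hd).1).1, (mem_filter.1 hd).2⟩
      have c2 := TA0_card hTp m0
      calc _ ≤ (((((Mo k y).filter fun e => e ∣ m) ×ˢ (T.powerset.filter fun S => pr S ∣ m) ×ˢ
            (T.powerset.filter fun S => pr S ∣ m)).card : ℕ) : ℝ) := by
            refine Nat.cast_le.2 (card_le_card fun x hx => ?_)
            obtain ⟨h1, h2⟩ := mem_filter.1 hx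
            obtain ⟨a2, a3, a4⟩ := mI x h1
            have h3 := (g1 x h1 h2).2.2
            simp only [mem_product, mem_filter, mem_powerset]
            exact ⟨⟨a2, ((dvd_mul_right _ _).mul_right _).trans h3⟩,
              ⟨a3, ((dvd_mul_left _ _).mul_right _).trans h3⟩, a4, (dvd_mul_left _ _).trans h3⟩
        _ ≤ nd m * (nd m * nd m) := by
            rw [card_product, card_product, Nat.cast_mul, Nat.cast_mul]
            have := (Nat.cast_nonneg _).trans c1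
            gcongr
        _ = _ := by ring
  · rw [sum_eq_zero fun x hx => ?_, abs_zero]
    by_contra h
    obtain ⟨h1, h2, h3⟩ := g1 x hx h
    obtain ⟨-, a3, a4⟩ := mI x hx
    have pa : ∀ P ∈ x.2.1, IsPr P := fun P h => hTp P (a3 h)
    have pb : ∀ P ∈ x.2.2, IsPr P := fun P h => hTp P (a4 h)
    refine ht ⟨pr x.2.2, monic_pr pb, by rwa [natDegree_pr pb], dvd_trans ?_ h3⟩
    rw [sq]
    exact mul_dvd_mul (((pr_dvd_pr pb pa).2 (w2 x h2).2.1).mul_left _) dvd_rfl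

end Pool.Agent.P.MP_e94e4b_nt.RP
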