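import Pool.Agent.P.MP_e94e4b_nt.RP.IfT

/-! Step TCONC. -/

set_option autoImplicit false
set_option linter.unusedSectionVars false

namespace Pool.Agent.P.MP_e94e4b_nt.RP

open Polynomial Finset
open Pool.Agent.P.MP_8be758_nt Pool.Agent.P.MP_8be758_nt.C2 Pool.Agent.P.MP_8be758_nt.L2
open Pool.Agent.P.MP_e94e4b_nt.LG
open scoped Classical

theorem TCONC_cs {k : Type} [Field k] [Finite k] (h : k[X]) (n β y : ℕ)
    (t : k[X] → k[X] → k[X] → ℝ) :
    ST h n β y (fun b e x => |t b e x|) ^ 2 ≤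
      ST h n β y (fun _ _ _ => 1) * ST h n β y (fun b e x => t b e x ^ 2) := by
  unfold ST
  refine sum_sq_le_sum_mul_sum_of_sq_le_mul _ (fun _ _ => by positivity)
    (fun _ _ => by positivity) fun b _ => ?_
  refine sum_sq_le_sum_mul_sum_of_sq_le_mul _ (fun _ _ => by positivity)
    (fun _ _ => by positivity) fun e _ => ?_
  exact sum_sq_le_sum_mul_sum_of_sq_le_mul _ (fun _ _ => zero_le_one)
    (fun _ _ => sq_nonneg _) fun x _ => by rw [sq_abs, one_mul]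

theorem TCONC_sq {ι κ : Type} [DecidableEq κ] (A : Finset ι) (S : Finset κ) (g : ι → κ → ℝ) :
    ∑ x ∈ A, (∑ B ∈ S, g x B) ^ 2 ≤ ∑ x ∈ A, ∑ B ∈ S, g x B ^ 2 +
      ∑ B ∈ S, ∑ B' ∈ S.erase B, |∑ x ∈ A, g x B * g x B'| := by
  have e : ∀ x, (∑ B ∈ S, g x B) ^ 2 =
      ∑ B ∈ S, g x B ^ 2 + ∑ B ∈ S, ∑ B' ∈ S.erase B, g x B * g x B' := fun x => by
    rw [sq, sum_mul_sum, ← sum_add_distrib]
    exact sum_congr rfl fun B hB => by rw [← add_sum_erase S _ hB, sq]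
  simp only [e, sum_add_distrib]
  refine add_le_add le_rfl ?_
  rw [sum_comm]
  refine sum_le_sum fun B _ => ?_
  rw [sum_comm]
  exact sum_le_sum fun B' _ => le_abs_self _

theorem p_TCONC (hTOFF : S_TOFF) :
    S_TCONC := by
  intro k _ _ _ h n M β y ρ D s s0 σ L H a r p K Z P hZ
  have hO := hTOFF k h n M β y ρ D s s0 σ L H a r p K Z P hZ
  have t6 := P.t6; have t8 := P.t8; have t13 := P.t13; have t15 := P.t15; have t20 := P.t20
  have q0 : (0 : ℝ) < qq k := qq_pos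
  have h1 : ST h n β y (fun _ _ _ => 1) ≤ 1 * qq k ^ n := ST_le P zero_le_one fun _ _ _ _ _ _ => le_rfl
  have h2 : ST h n β y (fun b e x => ∑ B ∈ BB D e, G0 a r s0 (VB h b e x B) ^ 2) ≤
      (qq k ^ D * 4 ^ K) * qq k ^ n := by
    refine ST_le P (by positivity) fun b hb e he x hx => ?_
    refine (sum_le_card_nsmul _ _ ((4 : ℝ) ^ K) fun B hB => ?_).trans ?_
    · have := G0_le (r := r) (s0 := s0) (by omega) (by omega) P.t17
        (VB_low P (mem_Bf.1 hb).1 he hx (mem_BB.1 hB).1)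
      rw [← sq_abs, show (4 : ℝ) ^ K = (2 ^ K) ^ 2 by rw [← pow_mul, mul_comm, pow_mul]; norm_num]
      gcongr
    · rw [nsmul_eq_mul]
      gcongr
      exact le_trans (by exact_mod_cast card_filter_le _ _) (card_Pd_le D)
  have h3 : ST h n β y (fun b e x => (∑ B ∈ BB D e, G0 a r s0 (VB h b e x B)) ^ 2) ≤
      ST h n β y (fun b e x => ∑ B ∈ BB D e, G0 a r s0 (VB h b e x B) ^ 2) +
        OF h n β y D a r s0 := by
    unfold ST OF
    rw [← sum_add_distrib]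
    refine sum_le_sum fun b _ => ?_
    rw [← sum_add_distrib]
    exact sum_le_sum fun e _ => TCONC_sq _ _ _
  have h4 := TCONC_cs h n β y fun b e x => ∑ B ∈ BB D e, G0 a r s0 (VB h b e x B)
  have h5 : 0 ≤ ST h n β y (fun b e x => (∑ B ∈ BB D e, G0 a r s0 (VB h b e x B)) ^ 2) := by
    unfold ST; positivity
  have h6 : TS2 h n β y D a r s0 ^ 2 ≤
      qq k ^ n * (qq k ^ D * 4 ^ K * qq k ^ n + OF h n β y D a r s0) :=
    h4.trans (mul_le_mul (by linarith) (by linarith) h5 (by positivity))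
  have h7 : qq k ^ D * 4 ^ K * qq k ^ n * qq k ^ H ≤ 4 ^ K * Z ^ 2 * qq k ^ (n + 2 * D + 1) := by
    have z1 : 1 ≤ Z ^ 2 := one_le_pow₀ hZ.one_le
    calc _ = 4 ^ K * 1 * qq k ^ (D + n + H) := by ring
      _ ≤ _ := mul_le_mul (by gcongr) (pow_le_pow_right₀ one_le_qq (by omega)) (by positivity)
          (by positivity)
  calc _ ≤ qq k ^ n * (qq k ^ D * 4 ^ K * qq k ^ n + OF h n β y D a r s0) * qq k ^ H := by gcongr
    _ = qq k ^ n * (qq k ^ D * 4 ^ K * qq k ^ n * qq k ^ H + OF h n β y D a r s0 * qq k ^ H) := by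
      ring
    _ ≤ qq k ^ n * (4 ^ K * Z ^ 2 * qq k ^ (n + 2 * D + 1) +
        4 ^ K * Z ^ 2 * qq k ^ (n + 2 * D + 1)) := by gcongr
    _ = _ := by ring

end Pool.Agent.P.MP_e94e4b_nt.RP
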