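import Pool.Agent.P.MP_e94e4b_nt.RP.IfT

/-! Step TDEC. -/

set_option autoImplicit false
set_option linter.unusedSectionVars false

namespace Pool.Agent.P.MP_e94e4b_nt.RP

open Polynomial Finset
open Pool.Agent.P.MP_8be758_nt Pool.Agent.P.MP_8be758_nt.C2 Pool.Agent.P.MP_8be758_nt.L2
open Pool.Agent.P.MP_e94e4b_nt.LG
open scoped Classical

theorem TDEC_0 {k : Type} [Field k] [Finite k] [CharP k 2] {U V Bt : k[X]} {L : ℕ} (hU : U.Monic) (hB : Bt ≠ 0) (hV0 : V ≠ 0)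
    (hd : V.natDegree < U.natDegree)
    (hL : U.natDegree + Bt.natDegree + 2 * L ≤ 2 * V.natDegree + 2) (hL0 : 1 ≤ L) :
    ∃ (κ : ℝ) (N : k[X] → k[X]) (χ : k[X] → ℝ), |κ| = 1 ∧
      (∀ M z y, M ∣ N (z + M * y) - N z) ∧ IsCh χ ∧ ∀ z ∈ low k L,
        mu (eo (U + Bt * z ^ 2) V) = κ * (DEC2_a V (U + Bt * z ^ 2) (N z) * χ z) := by
  have h2 : (2 : k[X]) = 0 := CharTwo.two_eq_zero
  obtain ⟨U0, a0, eU⟩ := exists_sq_add U
  obtain ⟨V0, b, eV⟩ := exists_sq_add V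
  obtain ⟨B0, B1, eB⟩ := exists_sq_add Bt
  set Om := a0 * B0 + B1 * U0 with hOm
  set W := Bt ^ 3 * V ^ 2 with hW
  set A : k[X] → k[X] := fun z => X * (Bt * z ^ 2 * Om ^ 2 * B1 ^ 4 +
    Bt ^ 2 * z ^ 4 * B1 ^ 6) with hA
  set H : k[X] → k[X] := fun z => X * (a0 + B1 * z) ^ 2 * b ^ 2 +
    (a0 + B1 * z) ^ 3 * (U0 + B0 * z) + X * b ^ 3 * V0 with hH
  set κ : ℝ := psi ((((U.natDegree + 1) / 2 + U.natDegree * (V.natDegree + 1) : ℕ) : k) +
    res W (X * (Om ^ 4 * B1 ^ 2 + U * Om ^ 2 * B1 ^ 4 + U ^ 2 * B1 ^ 6)) +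
      res (U * W) (X * Om ^ 6)) with hκ
  have hO : 2 * Om.natDegree + 1 ≤ U.natDegree + Bt.natDegree := by
    have e1 : U * Bt = (U0 * B0 + X * a0 * B1) ^ 2 + X * Om ^ 2 := by
      rw [eU, eB, hOm]
      linear_combination (-(X * U0 * B0 * a0 * B1) - X * a0 * B0 * B1 * U0) * h2
    have e2 : (U * Bt).natDegree = U.natDegree + Bt.natDegree := natDegree_mul hU.ne_zero hB
    have e3 := natDegree_derivative_lt (p := U * Bt) (by omega)
    rw [e2, e1, derivative_sq_add, natDegree_pow] at e3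
    omega
  refine ⟨κ, H, fun x => psi (res W (A x)), abs_psi _,
    fun M x y => ?_, ⟨fun x y => ?_, fun x => psi_eq _⟩, fun z hx => ?_⟩
  · rw [← AdjoinRoot.mk_eq_mk]
    simp only [hH, map_add, map_mul, map_pow, AdjoinRoot.mk_self, zero_mul, add_zero]
  · have h1 : A (x + y) = A x + A y := by
      simp only [hA]
      rw [show 4 = 2 * 2 from rfl, pow_mul (x + y), CharTwo.add_sq x, CharTwo.add_sq (x ^ 2)]
      ring
    show psi _ = psi _ * psi _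
    rw [h1, res_add, psi_add]
  set Ux := U + Bt * z ^ 2 with hUx
  have eUx : Ux = (U0 + B0 * z) ^ 2 + X * (a0 + B1 * z) ^ 2 := by
    rw [hUx, eU, eB]
    linear_combination (-(U0 * B0 * z) - X * a0 * B1 * z) * h2
  have a1 := natDegree_mul_le (p := Bt) (q := z ^ 2)
  have a2 := natDegree_le_of_mem_low hx
  rw [natDegree_pow] at a1
  have hlt : (Bt * z ^ 2).natDegree < U.natDegree := by omega
  have hm : Ux.Monic := hU.add_of_left (degree_lt_degree hlt)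
  have hdx : Ux.natDegree = U.natDegree := natDegree_add_eq_left_of_natDegree_lt hlt
  show mu _ = κ * (DEC2_a V Ux (H z) * psi (res W (A z)))
  by_cases hco : IsCoprime Ux V
  · obtain ⟨w, w', hw⟩ := hco
    have hw2 : V ∣ w * Ux - 1 := ⟨-w', by linear_combination hw⟩
    have f1 : mu (eo Ux V) =
        psi ((((Ux.natDegree + 1) / 2 + Ux.natDegree * (V.natDegree + 1) : ℕ) : k) +
          res (Ux * V ^ 2) (X * (a0 + B1 * z) ^ 6) + res V (w * H z)) :=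
      p_FORM p_PF p_INFY k Ux V _ _ V0 b w eUx eV hm hV0 (hdx ▸ hd) hw2
    have f4 := DEC2_inf (V := V) (Om := Om) (B1 := B1) (a := a0 + B1 * z) hm.ne_zero hB (by
      rw [eUx, eB, hOm]
      linear_combination (-(a0 * B0 * B1 * U0) - B1 ^ 2 * U0 ^ 2 - B1 ^ 2 * U0 * B0 * z +
        a0 * B1 * z * B0 ^ 2) * h2)
    have f5 : X * (Om ^ 4 * B1 ^ 2 + Ux * Om ^ 2 * B1 ^ 4 + Ux ^ 2 * B1 ^ 6) =
        X * (Om ^ 4 * B1 ^ 2 + U * Om ^ 2 * B1 ^ 4 + U ^ 2 * B1 ^ 6) + A z := by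
      simp only [hA]
      rw [hUx]
      linear_combination (X * U * Bt * z ^ 2 * B1 ^ 6) * h2
    have f6 := DEC2_eq hw2 (H z)
    have f7 := P1_const (U := U) (E := Bt * z ^ 2) (W := W) (Cn := X * Om ^ 6) hU.ne_zero hm.ne_zero
      (mul_ne_zero (pow_ne_zero _ hB) (pow_ne_zero _ hV0)) (by
        have := natDegree_mul_le_of_le natDegree_X_le (natDegree_pow_le (p := Om) (n := 6))
        rw [hdx, hW, natDegree_mul (pow_ne_zero _ hB) (pow_ne_zero _ hV0), natDegree_pow,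
          natDegree_pow]
        omega)
    rw [f5, res_add] at f4
    rw [f1, f4, hdx, f6, hκ, f7, add_zero]
    simp only [psi_add]
    ring
  · rw [mu_eo_eq_zero hco, DEC2_a, dif_neg fun ⟨w, w', hw⟩ => hco ⟨w, -w', by
      linear_combination hw⟩]
    simp

theorem p_TDEC :
    S_TDEC := by
  intro k _ _ _ U V Bt P L L1 j hU hB hV hd hP s1 n1 n2 n3
  obtain ⟨κ, N, χ, l1, l2, l3, l4⟩ := TDEC_0 hU hB hV hd n2 n3
  exact ⟨_, χ, PF_smul l1.le j _ (P1_split (Uf := fun z => U + Bt * z ^ 2)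
    (fun M z y => ⟨Bt * y * (2 * z + M * y), by ring⟩) j V N (P1_fac j V hV s1 n1) hP l2), l3,
    fun z hz => by rw [l4 z hz, mul_assoc]⟩

end Pool.Agent.P.MP_e94e4b_nt.RP
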