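import Pool.Agent.P.MP_e94e4b_nt.RP.IfT

/-! Step TERR. -/

set_option autoImplicit false
set_option linter.unusedSectionVars false

namespace Pool.Agent.P.MP_e94e4b_nt.RP

open Polynomial Finset
open Pool.Agent.P.MP_8be758_nt Pool.Agent.P.MP_8be758_nt.C2 Pool.Agent.P.MP_8be758_nt.L2
open Pool.Agent.P.MP_e94e4b_nt.LG
open scoped Classical

theorem p_TERR (hTFIB : S_TFIB) (hTKB : S_TKB) :
    S_TERR := by
  intro k _ _ _ h n M β y ρ D s s0 σ L H a r p K P
  have t1 := P.t1; have t2 := P.t2; have t3 := P.t3; have t4 := P.t4; have t5 := P.t5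
  have t6 := P.t6; have t10 := P.t10
  have q0 : (0 : ℝ) < qq k := qq_pos
  refine ⟨?_, ?_, ?_⟩
  · have h1 : ∑ V ∈ low k s, (if V.natDegree < s0 then (1 : ℝ) else 0) ≤ qq k ^ s0 := by
      rw [sum_boole, ← card_low']
      exact_mod_cast card_le_card fun V hV => mem_low_of_natDegree_lt (mem_filter.1 hV).2
    have h2 : TS3 h n β y D s0 ≤ qq k ^ β * (qq k ^ σ * qq k ^ s0) := by
      refine (sum_le_card_nsmul _ _ (qq k ^ σ * qq k ^ s0) fun b hb => ?_).trans ?_
      · refine le_trans (le_of_eq ?_) ((hTFIB k h b (fun V => if V.natDegree < s0 then 1 else 0)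
          n M β y ρ D s s0 σ L H a r p K P hb fun V => by positivity).trans
          (mul_le_mul_of_nonneg_left h1 (by positivity)))
        refine sum_congr rfl fun e _ => ?_
        rw [sum_comm]
        exact sum_congr rfl fun x _ => (sum_boole _ _).symm
      · rw [nsmul_eq_mul]
        exact mul_le_mul_of_nonneg_right (card_Bf h β) (by positivity)
    refine (mul_le_mul_of_nonneg_right h2 (by positivity)).trans ?_
    rw [← pow_add, ← pow_add, ← pow_add]
    exact qq_pow_mono (by omega)
  · refine ST_le P (by positivity) fun b hb e he x hx => ?_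
    obtain ⟨b0, b1⟩ := mem_Mo.1 (mem_Bf.1 hb).1
    obtain ⟨d0, d1⟩ := dd_spec P (mem_Bf.1 hb).1 he hx
    have h1 := card_Pd_dvd (d0.mul b0).ne_zero D
    rw [d0.natDegree_mul b0] at h1
    exact_mod_cast h1.trans (by omega)
  · have h1 : ∀ b ∈ Bf h β, ∀ e ∈ Mo k y, (∑ x ∈ Ae h (n - β) b e,
        (((Pd k D).filter (fun B => kb a (b * B) (dd h x b e))).card : ℝ)) * qq k ^ H ≤
        qq k ^ D * (s * qq k ^ (n - β - y)) := fun b hb e he => by
      simp only [← sum_boole]
      rw [sum_comm, sum_mul]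
      refine (sum_le_card_nsmul _ _ (s * qq k ^ (n - β - y)) fun B hB => ?_).trans ?_
      · rw [sum_boole]
        exact hTKB k h e B b n M β y ρ D s s0 σ L H a r p K P he hB hb
      · rw [nsmul_eq_mul]
        exact mul_le_mul_of_nonneg_right (card_Pd_le D) (by positivity)
    rw [TS5, ST, sum_mul]
    refine (sum_le_card_nsmul _ _ (qq k ^ y * (qq k ^ D * (s * qq k ^ (n - β - y))))
      fun b hb => ?_).trans ?_
    · rw [sum_mul]
      exact (sum_le_card_nsmul _ _ _ (h1 b hb)).trans_eq (by rw [nsmul_eq_mul, card_Mo])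
    · rw [nsmul_eq_mul]
      refine (mul_le_mul_of_nonneg_right (card_Bf h β) (by positivity)).trans_eq ?_
      rw [show n + D = β + y + D + (n - β - y) by omega]
      ring

end Pool.Agent.P.MP_e94e4b_nt.RP
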