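import Pool.Agent.P.MP_e94e4b_nt.RP.IfT

/-! Step TFIB. -/

set_option autoImplicit false
set_option linter.unusedSectionVars false

namespace Pool.Agent.P.MP_e94e4b_nt.RP

open Polynomial Finset
open Pool.Agent.P.MP_8be758_nt Pool.Agent.P.MP_8be758_nt.C2 Pool.Agent.P.MP_8be758_nt.L2
open Pool.Agent.P.MP_e94e4b_nt.LG
open scoped Classical

namespace TFIB

variable {k : Type} [Field k] [Finite k] [CharP k 2]

theorem der_eq (f : k[X]) : derivative f = expand k 2 (odp f) := by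
  conv_lhs => rw [← eo_evp_odp f]
  exact derivative_eo _ _

theorem dvd_of_odp {b f g : k[X]} (hb : Squarefree b) (h : odp (f * b) = odp (g * b)) :
    b ∣ f - g := by
  have hs : b.Separable := PerfectField.separable_iff_squarefree.2 hb
  have h1 : derivative (f * b) = derivative (g * b) := by rw [der_eq, der_eq, h]
  rw [derivative_mul, derivative_mul] at h1
  refine IsCoprime.dvd_of_dvd_mul_right hs ⟨derivative g - derivative f, ?_⟩
  linear_combination h1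

theorem same {h b e e' x x' B B' : k[X]} {β y D m : ℕ} (hb : b ∈ Bf h β) (hy : y + D ≤ β)
    (he : e ∈ Mo k y) (he' : e' ∈ Mo k y) (hB : B ∈ BB D e) (hB' : B' ∈ BB D e')
    (hx : x ∈ Ae h m b e) (hx' : x' ∈ Ae h m b e')
    (hV : VB h b e x B = VB h b e' x' B') : e = e' ∧ B = B' := by
  obtain ⟨b1, b2, b3⟩ := mem_Bf.1 hb
  obtain ⟨e1, e2⟩ := mem_Mo.1 he
  obtain ⟨e1', e2'⟩ := mem_Mo.1 he'
  obtain ⟨B1, B2⟩ := mem_BB.1 hB
  obtain ⟨B1', -⟩ := mem_BB.1 hB'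
  obtain ⟨P1, P2⟩ := mem_Pd.1 B1
  obtain ⟨P1', P2'⟩ := mem_Pd.1 B1'
  have m1 := mul_dd e1 (mem_Ae.1 hx).2
  have m2 := mul_dd e1' (mem_Ae.1 hx').2
  obtain ⟨c, hc⟩ : b ∣ dd h x b e * B - dd h x' b e' * B' := dvd_of_odp b2 (by
    unfold VB at hV
    rw [mul_assoc, mul_assoc, mul_comm B, mul_comm B']
    exact hV)
  have h1 : b ∣ e' * B - e * B' := b3.dvd_of_dvd_mul_left
    ⟨e * e' * c - e' * B * x + e * B' * x', by
      linear_combination e * e' * hc - e' * B * m1 + e * B' * m2⟩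
  have n1 : (e' * B).natDegree = y + D := by rw [e1'.natDegree_mul P1.1, e2', P2]
  have n2 : (e * B').natDegree = y + D := by rw [e1.natDegree_mul P1'.1, e2, P2']
  have h2 := sub_mem_low_of_monic (e1'.mul P1.1) (e1.mul P1'.1) (n1.trans n2.symm)
  rw [n1] at h2
  have h3 : e' * B = e * B' :=
    sub_eq_zero.1 (eq_zero_of_mem_low h2 h1 (by rw [(mem_Mo.1 b1).2]; exact hy))
  have h4 : B = B' := P1.eq_of_dvd P1'
    ((P1.prime.dvd_or_dvd (h3 ▸ dvd_mul_left B e')).resolve_left B2)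
  subst h4
  exact ⟨(mul_right_cancel₀ P1.ne_zero h3).symm, rfl⟩

theorem shift {h b e x x' B : k[X]} {β y D m σ : ℕ} (hb : b ∈ Bf h β) (hm : m = y + D + 2 * σ)
    (he : e ∈ Mo k y) (hB : B ∈ BB D e) (hx : x ∈ Ae h m b e) (hx' : x' ∈ Ae h m b e)
    (hV : VB h b e x B = VB h b e x' B) : ∃ t ∈ low k σ, x' = x + e * (B * t ^ 2) := by
  obtain ⟨b1, b2, b3⟩ := mem_Bf.1 hb
  obtain ⟨e1, e2⟩ := mem_Mo.1 he
  obtain ⟨P1, P2⟩ := mem_Pd.1 (mem_BB.1 hB).1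
  obtain ⟨a1, a2⟩ := mem_Ae.1 hx
  obtain ⟨a1', a2'⟩ := mem_Ae.1 hx'
  obtain ⟨u, hu⟩ : e ∣ x' - x := (cop_dd e1 a2 b3).1.symm.dvd_of_dvd_mul_right (by
    rw [show (x' - x) * b = x' * b + h - (x * b + h) by ring]
    exact dvd_sub a2' a2)
  have hx2 : x' = x + e * u := by rw [← hu]; ring
  have h0 : odp (u * B) = 0 := by
    unfold VB at hV
    rw [hx2, dd_shift e1 a2, add_mul, odp_add,
      show b * u * (b * B) = u * B * b ^ 2 by ring, odp_mul_sq] at hV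
    exact (mul_eq_zero.1 (left_eq_add.1 hV)).resolve_right (fr_ne_zero (mem_Mo.1 b1).1.ne_zero)
  obtain ⟨z, hz⟩ := exists_sq_of_odp h0
  obtain ⟨t, rfl⟩ : B ∣ z := P1.prime.dvd_of_dvd_pow (hz ▸ dvd_mul_left B u)
  have hu2 : u = B * t ^ 2 := mul_right_cancel₀ P1.ne_zero (by rw [hz]; ring)
  refine ⟨t, ?_, by rw [hx2, hu2]⟩
  by_cases t0 : t = 0
  · rw [t0]; exact zero_mem_low _
  have h1 := mem_Mo.1 a1'
  have h2 := mem_Mo.1 a1
  have h3 := sub_mem_low_of_monic h1.1 h2.1 (h1.2.trans h2.2.symm)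
  rw [h1.2, hu, hu2] at h3
  have h4 := natDegree_lt_of_mem_low h3
    (mul_ne_zero e1.ne_zero (mul_ne_zero P1.ne_zero (pow_ne_zero _ t0)))
  rw [natDegree_mul e1.ne_zero (mul_ne_zero P1.ne_zero (pow_ne_zero _ t0)),
    natDegree_mul P1.ne_zero (pow_ne_zero _ t0), natDegree_pow] at h4
  exact mem_low_of_natDegree_lt (by omega)

/-- the triples -/
noncomputable def Tr (h b : k[X]) (m y D : ℕ) : Finset (k[X] × k[X] × k[X]) :=
  (Mo k y).biUnion fun e => ((BB D e) ×ˢ (Ae h m b e)).image fun w => (e, w)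

theorem mem_Tr {h b : k[X]} {m y D : ℕ} {w : k[X] × k[X] × k[X]} :
    w ∈ Tr h b m y D ↔ w.1 ∈ Mo k y ∧ w.2.1 ∈ BB D w.1 ∧ w.2.2 ∈ Ae h m b w.1 := by
  obtain ⟨e, B, x⟩ := w
  simp only [Tr, mem_biUnion, mem_image, mem_product, Prod.mk.injEq]
  constructor
  · rintro ⟨e', h1, w, h2, rfl, rfl⟩
    exact ⟨h1, h2⟩
  · rintro ⟨h1, h2⟩
    exact ⟨e, h1, (B, x), h2, rfl, rfl⟩

theorem sum_Tr (h b : k[X]) (m y D : ℕ) (f : k[X] → k[X] → k[X] → ℝ) :
    ∑ w ∈ Tr h b m y D, f w.1 w.2.1 w.2.2 =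
      ∑ e ∈ Mo k y, ∑ B ∈ BB D e, ∑ x ∈ Ae h m b e, f e B x := by
  rw [Tr, sum_biUnion]
  · refine sum_congr rfl fun e _ => ?_
    rw [sum_image fun _ _ _ _ hh => (Prod.mk.inj hh).2, sum_product]
  · intro e _ e' _ hne
    refine disjoint_left.2 fun w h1 h2 => hne ?_
    obtain ⟨_, -, rfl⟩ := mem_image.1 h1
    obtain ⟨_, -, h3⟩ := mem_image.1 h2
    exact (Prod.mk.inj h3).1.symm

theorem fib {h b : k[X]} {β y D m σ : ℕ} (hb : b ∈ Bf h β) (hy : y + D ≤ β)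
    (hm : m = y + D + 2 * σ) (V : k[X]) :
    (((Tr h b m y D).filter (fun w => VB h b w.1 w.2.2 w.2.1 = V)).card : ℝ) ≤ qq k ^ σ := by
  rcases ((Tr h b m y D).filter (fun w => VB h b w.1 w.2.2 w.2.1 = V)).eq_empty_or_nonempty with
    h0 | ⟨⟨e, B, x⟩, h0⟩
  · rw [h0, card_empty, Nat.cast_zero]; exact (pow_pos qq_pos _).le
  rw [← card_low', Nat.cast_le]
  refine le_trans (card_le_card fun w hw => ?_)
    (card_image_le (s := low k σ) (f := fun t => (e, B, x + e * (B * t ^ 2))))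
  obtain ⟨e', B', x'⟩ := w
  obtain ⟨a1, a2⟩ := mem_filter.1 h0
  obtain ⟨c1, c2⟩ := mem_filter.1 hw
  obtain ⟨a3, a4, a5⟩ := mem_Tr.1 a1
  obtain ⟨c3, c4, c5⟩ := mem_Tr.1 c1
  have hV := a2.trans c2.symm
  obtain ⟨h1, h2⟩ := same hb hy a3 c3 a4 c4 a5 c5 hV
  dsimp only at h1 h2
  subst h1 h2
  obtain ⟨t, t1, t2⟩ := shift hb hm a3 a4 a5 c5 hV
  exact mem_image.2 ⟨t, t1, by dsimp only at t2; rw [t2]⟩

end TFIB

theorem p_TFIB :
    S_TFIB := by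
  intro k _ _ _ h b φ n M β y ρ D s s0 σ L H a r p K P hb hφ
  have t1 := P.t1; have t2 := P.t2; have t3 := P.t3; have t5 := P.t5; have t10 := P.t10
  rw [← TFIB.sum_Tr h b (n - β) y D (fun e B x => φ (VB h b e x B)),
    ← sum_fiberwise_of_maps_to (t := low k s) (g := fun w => VB h b w.1 w.2.2 w.2.1)
      (fun w hw => by
        obtain ⟨a, c, d⟩ := TFIB.mem_Tr.1 hw
        exact VB_low P (mem_Bf.1 hb).1 a d (mem_BB.1 c).1), mul_sum]
  refine sum_le_sum fun V _ => ?_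
  rw [sum_congr rfl (g := fun _ => φ V) fun w hw => by rw [(mem_filter.1 hw).2], sum_const,
    nsmul_eq_mul]
  exact mul_le_mul_of_nonneg_right (TFIB.fib hb t3 (by omega) V) (hφ V)

end Pool.Agent.P.MP_e94e4b_nt.RP
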