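import Pool.Agent.P.MP_e94e4b_nt.RP.IfT

/-! Step TKB. -/

set_option autoImplicit false
set_option linter.unusedSectionVars false

namespace Pool.Agent.P.MP_e94e4b_nt.RP

open Polynomial Finset
open Pool.Agent.P.MP_8be758_nt Pool.Agent.P.MP_8be758_nt.C2 Pool.Agent.P.MP_8be758_nt.L2
open Pool.Agent.P.MP_e94e4b_nt.LG
open scoped Classical

theorem TKB_kc {k : Type} [Field k] [Finite k] [CharP k 2] (Bt V U : k[X]) {a H : ℕ}
    (h3 : H ≤ a) : ((low k H).filter fun t => V ≠ 0 ∧ ∃ P, IsPr P ∧ P.natDegree = a ∧ P ∣ V ∧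
      ¬ P ∣ Bt ∧ P ∣ kap Bt U V + (Bt * t) ^ 4).card ≤ V.natDegree := by
  have h2 : (2 : k[X]) = 0 := CharTwo.two_eq_zero
  by_cases hV : V = 0
  · simp [hV]
  have hx := fun y (hy : y ∈ (low k H).filter fun t => V ≠ 0 ∧ ∃ P, IsPr P ∧ P.natDegree = a ∧
    P ∣ V ∧ ¬ P ∣ Bt ∧ P ∣ kap Bt U V + (Bt * t) ^ 4) => (mem_filter.1 hy).2.2
  choose! f f1 f2 f3 f5 f4 using hx
  refine (card_le_card_of_injOn f (fun x hx => (mem_pf hV).2 ⟨f1 x hx, f3 x hx⟩)
    fun x hx y hy e => ?_).trans ((card_le_dg fun _ => isPr_of_mem_pf).trans (dg_pf_le hV))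
  have d1 := dvd_add (f4 x hx) (e ▸ f4 y hy)
  rw [show kap Bt U V + (Bt * x) ^ 4 + (kap Bt U V + (Bt * y) ^ 4) = (Bt * (x - y)) ^ 4 by
    linear_combination (kap Bt U V + Bt ^ 4 * (2 * x ^ 3 * y - 3 * x ^ 2 * y ^ 2 + 2 * x * y ^ 3)) *
      h2] at d1
  have p := (f1 x hx).prime
  exact sub_eq_zero.1 (eq_zero_of_mem_low (sub_mem_low (mem_filter.1 hx).1 (mem_filter.1 hy).1)
    ((p.dvd_or_dvd (p.dvd_of_dvd_pow d1)).resolve_left (f5 x hx)) ((f2 x hx).symm ▸ h3))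

theorem p_TKB :
    S_TKB := by
  intro k _ _ _ h e B b n M β y ρ D s s0 σ L H a r p K P he hB hb
  obtain ⟨b0, -, b2⟩ := mem_Bf.1 hb
  obtain ⟨e0, e1⟩ := mem_Mo.1 he
  have t2 := P.t2; have t5 := P.t5; have t11 := P.t11; have t13 := P.t13; have t15 := P.t15
  have h1 := sum_avg (Ae h (n - β) b e) (low k H)
    (fun t => e * (B * expand k 2 (0 ^ 2 + X * t ^ 2))) (fun t ht g hg => add_mem_Ae hg (by
      have := natDegree_le_of_mem_low ht
      have := natDegree_mul_le_of_le natDegree_X_le (natDegree_pow_le (p := t) (n := 2))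
      have := (mem_Pd.1 hB).2
      refine mem_low_of_natDegree_lt (natDegree_mul_le.trans_lt
        ((Nat.add_le_add_left natDegree_mul_le _).trans_lt ?_))
      rw [natDegree_expand, zero_pow two_ne_zero, zero_add]
      omega)) fun g => if kb a (b * B) (dd h g b e) then 1 else 0
  rw [sum_boole, card_low', sum_congr rfl fun g _ => sum_boole
    (fun t => kb a (b * B) (dd h (g + e * (B * expand k 2 (0 ^ 2 + X * t ^ 2))) b e)) _] at h1
  rw [mul_comm, h1, mul_comm (s : ℝ)]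
  refine (sum_le_card_nsmul _ _ (s : ℝ) fun x hx => ?_).trans ?_
  · simp only [kb, dd_shift e0 (mem_Ae.1 hx).2, ← mul_assoc b B, P1_eo, evp_eo, odp_eo, P1_kap]
    have := natDegree_le_of_mem_low (VB_low P b0 he hx hB)
    exact_mod_cast (TKB_kc _ _ _ (by omega)).trans (this.trans (Nat.sub_le _ _))
  · rw [nsmul_eq_mul]
    exact mul_le_mul_of_nonneg_right (card_Ae b2 he) (Nat.cast_nonneg _)

end Pool.Agent.P.MP_e94e4b_nt.RP
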