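import Pool.Agent.P.MP_e94e4b_nt.RP.IfT

/-! Step TLN0. -/

set_option autoImplicit false
set_option linter.unusedSectionVars false

namespace Pool.Agent.P.MP_e94e4b_nt.RP

open Polynomial Finset
open Pool.Agent.P.MP_8be758_nt Pool.Agent.P.MP_8be758_nt.C2 Pool.Agent.P.MP_8be758_nt.L2
open Pool.Agent.P.MP_e94e4b_nt.LG
open scoped Classical

namespace TLN0x

variable {k : Type} [Field k] [CharP k 2]

theorem line (d C w z : k[X]) :
    (d + C * (w * z) ^ 4) * C =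
      eo (evp (d * C) + fr C * (fr w * fr z) ^ 2) (odp (d * C)) := by
  rw [← P1_eo, map_pow, ← fr_mul, expand_fr]
  ring

theorem kb_line (a : ℕ) (d C w z : k[X]) : kb a C (d + C * (w * z) ^ 4) ↔ kb a C d := by
  have h := P1_kap (fr C) (evp (d * C)) (odp (d * C)) 0 (fr w * fr z)
  simp only [ne_eq, OfNat.ofNat_ne_zero, not_false_eq_true, zero_pow, mul_zero, add_zero] at h
  unfold kb
  rw [line, odp_eo, evp_eo, h]

theorem kap_sq (B c U V : k[X]) : kap (B * c ^ 2) U V = c ^ 4 * kap B U V := by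
  have h2 : (2 : k[X]) = 0 := two_zero
  have h : derivative (U * (B * c ^ 2)) = derivative (U * B) * c ^ 2 := by
    rw [← mul_assoc, derivative_mul (f := U * B), sq c, derivative_mul (f := c)]
    linear_combination (U * B * c * derivative c) * h2
  rw [kap, kap, h]
  ring

/-- the weight of the line -/
noncomputable def gg [Finite k] (a r s0 : ℕ) (C d : k[X]) : ℝ :=
  if kb a C d then 0 else G1 a r s0 (odp (d * C))

theorem FW_line [Finite k] (a r s0 : ℕ) (d C w z : k[X]) :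
    FW a r s0 C (d + C * (w * z) ^ 4) = gg a r s0 C d *
      mu (eo (evp (d * C) + fr C * fr w ^ 2 * fr z ^ 2) (odp (d * C))) := by
  unfold FW gg
  rw [kb_line, line, odp_eo, mul_pow, ← mul_assoc]
  split_ifs
  · rw [zero_mul]
  · rw [mul_comm]

theorem gg_ne [Finite k] {a r s0 : ℕ} {C d : k[X]} (h : gg a r s0 C d ≠ 0) :
    ¬ kb a C d ∧ s0 ≤ (odp (d * C)).natDegree ∧ ∃ T ∈ WW k a r, pr T ∣ odp (d * C) := by
  unfold gg G1 at h
  split_ifs at h with h1 h2
  · exact absurd rfl h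
  · refine ⟨h1, h2, ?_⟩
    unfold GW at h
    obtain ⟨T, hT⟩ := card_ne_zero.1 (Nat.cast_ne_zero.1 h)
    exact ⟨T, mem_filter.1 hT⟩
  · exact absurd rfl h

theorem gg_le [Finite k] {a r s0 s K : ℕ} {C d : k[X]} (ha : 1 ≤ a) (h0 : 1 ≤ s0)
    (hs : s ≤ K * a) (hV : odp (d * C) ∈ low k s) : |gg a r s0 C d| ≤ 2 ^ K := by
  have h := G1_le (r := r) ha h0 hs hV
  unfold gg
  split_ifs
  · simp
  · rw [abs_of_nonneg h.1]; exact h.2

end TLN0x

open TLN0x in
theorem p_TLN0 (hTCORE : S_TCORE) :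
    S_TLN0 := by
  intro k _ _ _ d1 C1 d2 C2 w Om c s s0 L H a r K η hd1 hC1 hd2 hC2 c1 c2 e1 e2 hw hwa hOm hP
    n1 n2 n3 n4 n5 n6 n7 n8 n9 η0 η1 hη
  have q0 : (0 : ℝ) < qq k := qq_pos
  have g1 : (d1 * C1).natDegree = 2 * s := by rw [hd1.natDegree_mul hC1]; omega
  have g2 : (d2 * C2).natDegree = 2 * s := by rw [hd2.natDegree_mul hC2]; omega
  obtain ⟨u1, u1'⟩ := monic_evp (hd1.mul hC1) g1
  obtain ⟨u2, u2'⟩ := monic_evp (hd2.mul hC2) g2
  have v1 := odp_mem_low_of_natDegree g1.le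
  have v2 := odp_mem_low_of_natDegree g2.le
  have hs : ∑ z ∈ low k (L + H), FW a r s0 C1 (d1 + C1 * (w * z) ^ 4) *
      FW a r s0 C2 (d2 + C2 * (w * z) ^ 4) = gg a r s0 C1 d1 * gg a r s0 C2 d2 *
      ∑ z ∈ low k (L + H), mu (eo (evp (d1 * C1) + fr C1 * fr w ^ 2 * z ^ 2) (odp (d1 * C1))) *
        mu (eo (evp (d2 * C2) + fr C2 * fr w ^ 2 * z ^ 2) (odp (d2 * C2))) := by
    rw [← sum_fr (L + H) fun z =>
      mu (eo (evp (d1 * C1) + fr C1 * fr w ^ 2 * z ^ 2) (odp (d1 * C1))) *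
        mu (eo (evp (d2 * C2) + fr C2 * fr w ^ 2 * z ^ 2) (odp (d2 * C2))), mul_sum]
    refine sum_congr rfl fun z _ => ?_
    rw [FW_line, FW_line]
    ring
  rw [hs]
  by_cases z1 : gg a r s0 C1 d1 = 0
  · rw [z1, zero_mul, zero_mul, abs_zero]; positivity
  by_cases z2 : gg a r s0 C2 d2 = 0
  · rw [z2, mul_zero, zero_mul, abs_zero]; positivity
  obtain ⟨k1, l1, T1, t1, p1⟩ := gg_ne z1
  obtain ⟨-, l2, T2, t2, p2⟩ := gg_ne z2
  have V1 : odp (d1 * C1) ≠ 0 := fun h => by rw [h, natDegree_zero] at l1; omega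
  have V2 : odp (d2 * C2) ≠ 0 := fun h => by rw [h, natDegree_zero] at l2; omega
  have m1 := natDegree_lt_of_mem_low v1 V1
  have m2 := natDegree_lt_of_mem_low v2 V2
  have w0 : fr w ≠ 0 := fr_ne_zero hw
  have f1 : fr C1 ≠ 0 := fr_ne_zero hC1.ne_zero
  have f2 : fr C2 ≠ 0 := fr_ne_zero hC2.ne_zero
  have b1 : (fr C1 * fr w ^ 2).natDegree = c + 2 * w.natDegree := by
    rw [natDegree_mul f1 (pow_ne_zero _ w0), natDegree_pow, natDegree_fr, natDegree_fr, c1]
  have b2 : (fr C2 * fr w ^ 2).natDegree = c + 2 * w.natDegree := by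
    rw [natDegree_mul f2 (pow_ne_zero _ w0), natDegree_pow, natDegree_fr, natDegree_fr, c2]
  have key := hTCORE k (evp (d1 * C1)) (odp (d1 * C1)) (fr C1 * fr w ^ 2) (evp (d2 * C2))
    (odp (d2 * C2)) (fr C2 * fr w ^ 2) Om T1 T2 L H a K η u1 u2
    (mul_ne_zero f1 (pow_ne_zero _ w0)) (mul_ne_zero f2 (pow_ne_zero _ w0)) V1 V2 (by omega)
    (by omega) (mem_WW.1 t1).1 (mem_WW.1 t2).1 p1 p2 (by rw [dg_WW t1]; omega)
    (by rw [dg_WW t2]; omega) hOm hP (by rw [dg_WW t1]; omega) ?_ n4 n5 n6 (by omega) (by omega)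
    (by omega) (by omega) η0 η1 hη
  · have a1 := gg_le (r := r) (a := a) (by omega) n3 n9 v1
    have a2 := gg_le (r := r) (a := a) (by omega) n3 n9 v2
    rw [abs_mul, abs_mul]
    calc _ ≤ 2 ^ K * 2 ^ K * (2 * η * qq k ^ (L + H)) :=
          mul_le_mul (mul_le_mul a1 a2 (abs_nonneg _) (by positivity)) key (abs_nonneg _)
            (by positivity)
      _ = _ := by rw [← mul_pow]; norm_num; ring
  · intro P hT
    obtain ⟨P1, P2⟩ := (mem_WW.1 t1).1 P hT
    have hV : P ∣ odp (d1 * C1) := (dvd_prod_of_mem (fun Q => Q) hT).trans p1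
    by_cases hC : P ∣ fr C1
    · refine Or.inl ⟨P1.prime.dvd_of_dvd_pow (n := 2) ?_, hC.mul_right _⟩
      have h1 : P ∣ fr (d1 * C1) := by rw [fr_mul]; exact hC.mul_left _
      rw [fr_eq] at h1
      exact (dvd_add_left ((dvd_pow hV two_ne_zero).mul_left X)).1 h1
    · have hw' : ¬ P ∣ fr w := fun h => by
        have := natDegree_le_of_dvd h w0
        rw [natDegree_fr] at this
        omega
      refine Or.inr ⟨fun h => (P1.prime.dvd_or_dvd h).elim hC fun h =>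
        hw' (P1.prime.dvd_of_dvd_pow h), fun h => ?_⟩
      rw [kap_sq] at h
      exact (P1.prime.dvd_or_dvd h).elim (fun h => hw' (P1.prime.dvd_of_dvd_pow h)) fun h =>
        k1 ⟨V1, P, P1, P2, hV, hC, h⟩

end Pool.Agent.P.MP_e94e4b_nt.RP
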