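import Pool.Agent.P.MP_e94e4b_nt.RP.IfT

/-! Step TOM. -/

set_option autoImplicit false
set_option linter.unusedSectionVars false

namespace Pool.Agent.P.MP_e94e4b_nt.RP

open Polynomial Finset
open Pool.Agent.P.MP_8be758_nt Pool.Agent.P.MP_8be758_nt.C2 Pool.Agent.P.MP_8be758_nt.L2
open Pool.Agent.P.MP_e94e4b_nt.LG
open scoped Classical

theorem p_TOM :
    S_TOM := by
  intro k _ _ _
  refine ⟨fun h x b1 b2 e c B he h1 h2 hc => ?_, fun m D hm => ?_⟩
  · have e1 := mul_dd he h1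
    have e2 := mul_dd he h2
    have t : (2 : k[X]) = 0 := two_zero
    have key : b2 * dd h x b1 e + b1 * dd h x b2 e = h * c := by
      apply mul_left_cancel₀ he.ne_zero
      linear_combination b2 * e1 + b1 * e2 + h * hc + x * b1 * b2 * t
    rw [VB, VB, mul_comm (fr b2), mul_comm (fr b1), ← odp_mul_sq, ← odp_mul_sq, ← odp_add]
    apply congrArg
    linear_combination b1 * b2 * B * key
  · refine card_le_one.2 fun B1 hB1 B2 hB2 => ?_
    by_contra hne
    obtain ⟨p1, z1⟩ := mem_filter.1 hB1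
    obtain ⟨p2, z2⟩ := mem_filter.1 hB2
    obtain ⟨y1, hy1⟩ := exists_sq_of_odp z1
    obtain ⟨y2, hy2⟩ := exists_sq_of_odp z2
    have h0 : B1 * B2 * m ^ 2 = (y1 * y2) ^ 2 := by
      rw [mul_pow, ← hy1, ← hy2]; ring
    have h1 := odp_mul_sq (B1 * B2) m
    rw [h0, odp_sq] at h1
    exact mul_ne_zero (odp_mul_ne_zero (mem_Pd.1 p1).1 (mem_Pd.1 p2).1 hne) (fr_ne_zero hm) h1.symm

end Pool.Agent.P.MP_e94e4b_nt.RP
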