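import Pool.Agent.P.MP_e94e4b_nt.RP.IfT

/-! Step TPICK. -/

set_option autoImplicit false
set_option linter.unusedSectionVars false

namespace Pool.Agent.P.MP_e94e4b_nt.RP

open Polynomial Finset
open Pool.Agent.P.MP_8be758_nt Pool.Agent.P.MP_8be758_nt.C2 Pool.Agent.P.MP_8be758_nt.L2
open Pool.Agent.P.MP_e94e4b_nt.LG
open scoped Classical

theorem TPICK_pow {k : Type} [Field k] {S : Finset k[X]} (hS : ∀ P ∈ S, IsPr P) {Q c : k[X]}
    (hQ : IsPr Q) (h : Q ∉ S) (hc : c ≠ 0) {e : ℕ} (hd : Q ^ e ∣ pr S * c) :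
    e * Q.natDegree ≤ c.natDegree := by
  have := (hQ.2.coprime_iff_not_dvd.2 (mt (dvd_pr_iff hS hQ).1 h)).pow_left (m := e)
  simpa using natDegree_le_of_dvd (this.dvd_of_dvd_mul_left hd) hc

theorem p_TPICK :
    S_TPICK := by
  intro k _ V1 V2 Om T L a h0 hT ⟨c, hc⟩ hL
  have hP : ∀ P ∈ T, IsPr P := fun P h => (hT P h).1
  have c0 : c ≠ 0 := fun e => h0 (by rw [hc, e, mul_zero])
  have hd : c.natDegree + a ≤ L := by
    rw [hc, natDegree_mul (monic_pr hP).ne_zero c0, natDegree_pr hP] at hL; omega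
  have er : ∀ P ∈ T, V1 = pr (T.erase P) * c * P := fun P h => by
    rw [hc, pr, pr, ← mul_prod_erase T _ h]; ring
  have he : ∀ P, ∀ Q ∈ T.erase P, IsPr Q := fun P Q h => hP Q (mem_of_mem_erase h)
  refine ⟨fun Q e hQ h => ?_, fun o0 ho hlt => ?_⟩
  · by_cases m : Q ∈ T
    · rcases e with _ | e
      · simp
      rw [er Q m, pow_succ, mul_dvd_mul_iff_right hQ.ne_zero] at h
      have := TPICK_pow (he Q) hQ (notMem_erase Q T) c0 h
      rw [(hT Q m).2] at this ⊢
      rw [Nat.succ_mul]; omega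
    · have := TPICK_pow hP hQ m c0 (hc ▸ h); omega
  · by_contra hn
    have sub := filter_subset (fun P => P ∣ c) T
    have a1 := natDegree_le_of_dvd ((pr_dvd_iff (fun P h => hP P (sub h)) c).2
      fun P h => (mem_filter.1 h).2) c0
    have a2 := natDegree_le_of_dvd ((pr_dvd_iff (S := T \ T.filter (fun P => P ∣ c))
      (fun P h => hP P (sdiff_subset h)) Om).2 fun P h => by
        obtain ⟨m, m'⟩ := mem_sdiff.1 h
        refine ho P (hP P m) (er P m ▸ dvd_mul_left _ _) (by_contra fun e => hn ⟨P, m, _, er P m,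
          fun d => ?_, e⟩)
        exact ((hP P m).prime.dvd_or_dvd d).elim
          (fun d => notMem_erase P T ((dvd_pr_iff (he P) (hP P m)).1 d))
          fun d => m' (mem_filter.2 ⟨m, d⟩)) o0
    rw [natDegree_pr fun P h => hP P (sub h)] at a1
    rw [natDegree_pr fun P h => hP P (sdiff_subset h)] at a2
    have := dg_sdiff sub
    omega

end Pool.Agent.P.MP_e94e4b_nt.RP
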