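import Pool.Agent.P.MP_e94e4b_nt.RP.IfT

/-! Step TSH. -/

set_option autoImplicit false
set_option linter.unusedSectionVars false

namespace Pool.Agent.P.MP_e94e4b_nt.RP

open Polynomial Finset
open Pool.Agent.P.MP_8be758_nt Pool.Agent.P.MP_8be758_nt.C2 Pool.Agent.P.MP_8be758_nt.L2
open Pool.Agent.P.MP_e94e4b_nt.LG
open scoped Classical

theorem TSH_cut {k : Type} [Field k] {V W : k[X]} {s0 : ℕ} (h : W.natDegree < s0) :
    s0 ≤ (V + W).natDegree ↔ s0 ≤ V.natDegree := by
  constructor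
  · intro h1
    rcases le_max_iff.1 (h1.trans (natDegree_add_le V W)) with h2 | h2
    · exact h2
    · omega
  · intro h1
    rw [natDegree_add_eq_left_of_natDegree_lt (by omega)]
    exact h1

theorem TSH_sum {k : Type} [Field k] [Finite k] {Δ : k[X]} {σ s0 : ℕ} (a r : ℕ)
    (hΔ : Δ.natDegree + σ < s0) (V : k[X]) :
    ∑ t ∈ low k σ, G0 a r s0 (V + Δ * t) = A0 a r s0 σ Δ V := by
  have h : ∀ t ∈ low k σ, (s0 ≤ (V + Δ * t).natDegree ↔ s0 ≤ V.natDegree) := fun t ht => by
    refine TSH_cut ?_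
    have h1 := natDegree_le_of_mem_low ht
    have h2 : (Δ * t).natDegree ≤ Δ.natDegree + t.natDegree := natDegree_mul_le
    omega
  unfold A0 AA G0
  split_ifs with hV
  · exact sum_congr rfl fun t ht => if_pos ((h t ht).2 hV)
  · exact sum_eq_zero fun t ht => if_neg fun e => hV ((h t ht).1 e)

theorem p_TSH :
    S_TSH := by
  intro k _ _ _ h e B B' b u n M β y ρ D s s0 σ L H a r p K P he hB hB' hb hu
  obtain ⟨e0, e1⟩ := mem_Mo.1 he
  obtain ⟨b0, b1⟩ := mem_Mo.1 hb
  obtain ⟨u0, u1⟩ := mem_Mo.1 hu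
  obtain ⟨p1, d1⟩ := mem_Pd.1 hB
  obtain ⟨p2, d2⟩ := mem_Pd.1 hB'
  have t2 := P.t2; have t5 := P.t5; have t6 := P.t6; have t9 := P.t9
  have t13 := P.t13; have t15 := P.t15; have t20 := P.t20
  have dD : (odp (B * B')).natDegree ≤ D - 1 :=
    natDegree_le_of_mem_low (odp_mem_low_of_natDegree (natDegree_mul_le.trans (by omega)))
  have dΔ : (fr (b * u) * odp (B * B')).natDegree + a < s0 := by
    have h1 : (fr (b * u) * odp (B * B')).natDegree ≤ _ := natDegree_mul_le
    have h2 : (b * u).natDegree ≤ _ := natDegree_mul_le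
    rw [natDegree_fr] at h1
    omega
  have hv : ∀ t ∈ low k a, ∀ x ∈ Ae h (n - β) b e,
      x + e * (B' * (u * t) ^ 2) ∈ Ae h (n - β) b e := fun t ht x hx => by
    refine add_mem_Ae hx (mem_low_of_natDegree_lt ?_)
    have h0 := natDegree_le_of_mem_low ht
    have h1 : (e * (B' * (u * t) ^ 2)).natDegree ≤ _ := natDegree_mul_le
    have h2 : (B' * (u * t) ^ 2).natDegree ≤ _ := natDegree_mul_le
    have h3 : ((u * t) ^ 2).natDegree ≤ _ := natDegree_pow_le
    have h4 : (u * t).natDegree ≤ _ := natDegree_mul_le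
    omega
  have av := sum_avg (Ae h (n - β) b e) (low k a) (fun t => e * (B' * (u * t) ^ 2)) hv
    (fun x => G0 a r s0 (VB h b e x B) * G0 a r s0 (VB h b e x B'))
  have e' : ∀ x ∈ Ae h (n - β) b e,
      ∑ t ∈ low k a, G0 a r s0 (VB h b e (x + e * (B' * (u * t) ^ 2)) B) *
        G0 a r s0 (VB h b e (x + e * (B' * (u * t) ^ 2)) B') =
      A0 a r s0 a (fr (b * u) * odp (B * B')) (VB h b e x B) * G0 a r s0 (VB h b e x B') := by
    intro x hx
    rw [← TSH_sum a r dΔ, ← sum_fr a (fun t => G0 a r s0 (VB h b e x B +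
      fr (b * u) * odp (B * B') * t)), sum_mul]
    refine sum_congr rfl fun t _ => ?_
    have e2 : (dd h x b e + b * (B' * (u * t) ^ 2)) * (b * B) =
        dd h x b e * (b * B) + B * B' * (b * u * t) ^ 2 := by ring
    have e3 : (dd h x b e + b * (B' * (u * t) ^ 2)) * (b * B') =
        dd h x b e * (b * B') + (b * B' * (u * t)) ^ 2 := by ring
    unfold VB
    rw [dd_shift e0 (mem_Ae.1 hx).2, e2, e3, odp_add, odp_add, odp_sq, add_zero, odp_mul_sq,
      fr_mul (b * u) t, ← mul_assoc (odp (B * B')), mul_comm (odp (B * B'))]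
  rw [card_low', sum_congr rfl e'] at av
  have hq : (0 : ℝ) < qq k ^ a := pow_pos qq_pos _
  rw [← abs_of_pos hq, ← abs_mul, mul_comm, av, mul_sum]
  refine (abs_sum_le_sum_abs _ _).trans (sum_le_sum fun x hx => ?_)
  rw [abs_mul, mul_comm]
  exact mul_le_mul_of_nonneg_right
    (G0_le (by omega) (by omega) P.t17 (VB_low P hb he hx hB')) (abs_nonneg _)

end Pool.Agent.P.MP_e94e4b_nt.RP
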