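import Pool.Agent.P.MP_e94e4b_nt.RP.IfT

/-! Step TVAR. -/

set_option autoImplicit false
set_option linter.unusedSectionVars false

namespace Pool.Agent.P.MP_e94e4b_nt.RP

open Polynomial Finset
open Pool.Agent.P.MP_8be758_nt Pool.Agent.P.MP_8be758_nt.C2 Pool.Agent.P.MP_8be758_nt.L2
open Pool.Agent.P.MP_e94e4b_nt.LG
open scoped Classical

namespace TVARx

variable {k : Type} [Field k] [Finite k] [CharP k 2]

theorem deg_iff {s0 : ℕ} (h0 : 1 ≤ s0) {V W : k[X]} (hW : W ∈ low k s0) :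
    s0 ≤ (V + W).natDegree ↔ s0 ≤ V.natDegree := by
  have key : ∀ U : k[X], s0 ≤ (U + W).natDegree → s0 ≤ U.natDegree := fun U h => by
    by_contra h'
    have := natDegree_le_of_mem_low (add_mem_low (mem_low_of_natDegree_lt (not_le.1 h')) hW)
    omega
  refine ⟨key V, fun h => key _ ?_⟩
  rwa [add_assoc, add_self', add_zero]

theorem A0_eq {a r s0 σ : ℕ} (h0 : 1 ≤ s0) {Δ : k[X]} (h : ∀ t ∈ low k σ, Δ * t ∈ low k s0)
    (V : k[X]) : A0 a r s0 σ Δ V = ∑ t ∈ low k σ, G0 a r s0 (V + Δ * t) := by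
  unfold A0 AA G0
  split_ifs with hV
  · exact sum_congr rfl fun t ht => by rw [if_pos ((deg_iff h0 (h t ht)).2 hV)]
  · exact (sum_eq_zero fun t ht => by rw [if_neg fun e => hV ((deg_iff h0 (h t ht)).1 e)]).symm

theorem sq_eq {a s : ℕ} (G : k[X] → ℝ) {Δ : k[X]} (h : ∀ t ∈ low k a, Δ * t ∈ low k s) :
    ∑ V ∈ low k s, (∑ t ∈ low k a, G (V + Δ * t)) ^ 2 =
      qq k ^ a * ∑ V ∈ low k s, G V * ∑ t ∈ low k a, G (V + Δ * t) := by
  have e1 : ∀ u ∈ low k a, ∑ V ∈ low k s, G (V + Δ * u) * ∑ t ∈ low k a, G (V + Δ * t) =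
      ∑ V ∈ low k s, G V * ∑ t ∈ low k a, G (V + Δ * t) := fun u hu => by
    rw [← sum_shift' (low k s) (Δ * u) (fun g hg => add_mem_low hg (h u hu))
      (fun V => G V * ∑ t ∈ low k a, G (V + Δ * t))]
    refine sum_congr rfl fun V _ => ?_
    rw [← sum_shift' (low k a) u (fun g hg => add_mem_low hg hu) (fun t => G (V + Δ * t))]
    congr 1
    exact sum_congr rfl fun t _ => by congr 1; ring
  simp only [sq]
  rw [sum_congr rfl fun V _ => sum_mul (low k a) (fun u => G (V + Δ * u)) _, sum_comm,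
    sum_congr rfl e1, sum_const, nsmul_eq_mul, card_low']

end TVARx

theorem p_TVAR :
    S_TVAR := by
  intro k _ _ _ a r j s0 s K h1 h2 h3 h4 h5
  have h0 : 1 ≤ s0 := by omega
  have q0 : (0 : ℝ) < qq k := qq_pos
  have m1 : ∀ t ∈ low k a, ∀ Δ ∈ low k j, t * Δ ∈ low k s0 := fun t ht Δ hΔ =>
    mul_mem_low hΔ (by have := natDegree_le_of_mem_low ht; omega)
  have m2 : ∀ Δ ∈ low k j, ∀ t ∈ low k a, Δ * t ∈ low k s0 := fun Δ hΔ t ht =>
    mul_comm t Δ ▸ m1 t ht Δ hΔ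
  have e1 : ∀ Δ ∈ low k j, ∑ V ∈ low k s, A0 a r s0 a Δ V ^ 2 =
      qq k ^ a * ∑ V ∈ low k s, G0 a r s0 V * ∑ t ∈ low k a, G0 a r s0 (V + Δ * t) :=
    fun Δ hΔ => by
      simp only [TVARx.A0_eq h0 (m2 Δ hΔ)]
      exact TVARx.sq_eq _ fun t ht => low_mono h2 (m2 Δ hΔ t ht)
  have e2 : ∀ V : k[X], ∑ Δ ∈ low k j, ∑ t ∈ low k a, G0 a r s0 (V + Δ * t) =
      qq k ^ j * G0 a r s0 V := fun V => by
    rw [sum_comm, sum_eq_single_of_mem 0 (zero_mem_low a) fun t ht t0 => ?_]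
    · simp only [mul_zero, add_zero, sum_const, nsmul_eq_mul, card_low']
    · simp only [mul_comm _ t]
      rw [← TVARx.A0_eq h0 (m1 t ht), A0, a_AZ k t V a r j t0 (natDegree_lt_of_mem_low ht t0) h3,
        ite_self]
  rw [sum_congr rfl e1, ← mul_sum, sum_comm]
  simp only [← mul_sum, e2]
  have e3 : ∀ V ∈ low k s, G0 a r s0 V * (qq k ^ j * G0 a r s0 V) ≤ qq k ^ j * 4 ^ K :=
    fun V hV => by
      have k1 := G0_le (r := r) h4 h0 h5 hV
      have k2 : G0 a r s0 V ^ 2 ≤ (2 ^ K) ^ 2 := sq_le_sq' (abs_le.1 k1).1 (abs_le.1 k1).2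
      rw [← pow_mul, mul_comm K 2, pow_mul, show (2 : ℝ) ^ 2 = 4 by norm_num] at k2
      calc _ = qq k ^ j * G0 a r s0 V ^ 2 := by ring
        _ ≤ _ := mul_le_mul_of_nonneg_left k2 (by positivity)
  refine (mul_le_mul_of_nonneg_left (sum_le_card_nsmul _ _ _ e3) (by positivity)).trans_eq ?_
  rw [nsmul_eq_mul, card_low']
  ring

end Pool.Agent.P.MP_e94e4b_nt.RP
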