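import Pool.Agent.P.MP_e94e4b_nt.RP.IfC
import Pool.Agent.P.MP_e94e4b_nt.RP.IfS

/-! Step TWO. -/

set_option autoImplicit false
set_option linter.unusedSectionVars false

namespace Pool.Agent.P.MP_e94e4b_nt.RP

open Polynomial Finset
open Pool.Agent.P.MP_8be758_nt Pool.Agent.P.MP_8be758_nt.C2 Pool.Agent.P.MP_8be758_nt.L2
open Pool.Agent.P.MP_e94e4b_nt.LG
open scoped Classical

theorem p_TWO (hFL : S_FL) (hADM : S_ADM) :
    S_TWO := by
  obtain ⟨C, hC1, hC⟩ := hFL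
  refine ⟨C, hC1, fun t Z E hE hE1 hZ k _ _ _ h hh => ?_⟩
  have hp : (0 : ℝ) < 2 ^ (5 * t) := by positivity
  have hle : C ≤ 2 ^ (5 * t) := by
    have := hE.trans hE1
    rwa [div_le_one hp] at this
  obtain ⟨lam, xi, hs⟩ := hC k (pc 2) (T2 h Z) Z (5 * t) (T2_sub h Z) hZ
    (fun P hP => ⟨((hADM k h Z hh).1 P hP).2.1, ((hADM k h Z hh).1 P hP).2.2, le_rfl⟩) hle
  refine ⟨lam, xi, ?_⟩
  have e : (10 * t + 3) * Z = (2 * (5 * t) + 3) * Z := by ring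
  rw [e]
  exact hs.mono hE

end Pool.Agent.P.MP_e94e4b_nt.RP
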