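import Pool.Agent.P.MP_e94e4b_nt.RP.IfS

/-! Step U0. -/

set_option autoImplicit false
set_option linter.unusedSectionVars false

namespace Pool.Agent.P.MP_e94e4b_nt.RP

open Polynomial Finset
open Pool.Agent.P.MP_8be758_nt Pool.Agent.P.MP_8be758_nt.C2 Pool.Agent.P.MP_8be758_nt.L2
open Pool.Agent.P.MP_e94e4b_nt.LG
open scoped Classical

theorem U0_sum {k : Type} [Field k] [Finite k] {f : k[X]} (f0 : f ≠ 0) (w : ℕ → ℝ) :
    ∑ D ∈ range (f.natDegree + 1), w D * DS D mu f =
      ∑ d ∈ (pf f).powerset, w (dg d) * sg d := by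
  have hle := dg_pf_le f0
  rw [← sum_fiberwise_of_maps_to (s := (pf f).powerset) (g := dg)
    (t := range (f.natDegree + 1)) (fun d hd => mem_range.2 (by
      have := dg_mono (mem_powerset.1 hd); omega))]
  refine sum_congr rfl fun D _ => ?_
  have e1 : DS D mu f = ∑ M ∈ (Mo k D).filter Squarefree, if M ∣ f then mu M else 0 := by
    rw [DS, sum_filter, sum_filter]
    refine sum_congr rfl fun M _ => ?_
    by_cases h : Squarefree M
    · rw [if_pos h]
    · simp [h, mu]
  have e2 : (pf f).powerset.filter (fun d => dg d = D) =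
      (Sc (∅ : Finset k[X]) D).filter fun S => pr S ∣ f := by
    ext S
    rw [mem_filter, mem_filter, mem_powerset, mem_Sc]
    constructor
    · rintro ⟨h1, h2⟩
      have h : ∀ P ∈ S, IsPr P := fun P hP => isPr_of_mem_pf (h1 hP)
      exact ⟨⟨h, h2, disjoint_empty_right _⟩, (subset_pf_iff f0 h).1 h1⟩
    · rintro ⟨⟨h, h2, -⟩, h1⟩
      exact ⟨(subset_pf_iff f0 h).2 h1, h2⟩
  rw [e1, ← a_BIJ k D, ← sum_filter, e2, mul_sum]
  refine sum_congr rfl fun S hS => ?_
  obtain ⟨h, h2, -⟩ := mem_Sc.1 (mem_filter.1 hS).1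
  rw [mu_pr h, h2]

theorem p_U0 :
    S_U0 := by
  intro k _ _ f hf hd
  have f0 := hf.ne_zero
  have hne : pf f ≠ ∅ := by
    obtain ⟨P, h1, h2⟩ := exists_isPr_dvd (f := f)
      (fun h => by have := natDegree_eq_zero_of_isUnit h; omega) f0
    exact ne_empty_of_mem ((mem_pf f0).2 ⟨h1, h2⟩)
  constructor
  · have h := U0_sum f0 fun _ => 1
    simp only [one_mul] at h
    rw [h, sum_sg_powerset, if_neg hne]
  · rw [U0_sum f0 fun D => (D : ℝ), ← ID0_sum hne 0, ← sum_neg_distrib]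
    exact sum_congr rfl fun d _ => by ring

end Pool.Agent.P.MP_e94e4b_nt.RP
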