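import Pool.Agent.P.MP_e94e4b_nt.RP.IfW

/-! Step XP1. -/

set_option autoImplicit false
set_option linter.unusedSectionVars false

namespace Pool.Agent.P.MP_e94e4b_nt.RP

open Polynomial Finset
open Pool.Agent.P.MP_8be758_nt Pool.Agent.P.MP_8be758_nt.C2 Pool.Agent.P.MP_8be758_nt.L2
open Pool.Agent.P.MP_e94e4b_nt.LG
open scoped Classical

lemma xp1_pairs {ι : Type} [DecidableEq ι] (T : Finset ι) (f : Finset ι → ℝ) :
    ∑ S ∈ T.powerset, ∑ S' ∈ T.powerset, (if Disjoint S S' then f (S ∪ S') else 0) =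
      ∑ U ∈ T.powerset, 2 ^ U.card * f U := by
  have h1 : ∀ S ∈ T.powerset, ∑ S' ∈ T.powerset, (if Disjoint S S' then f (S ∪ S') else 0) =
      ∑ U ∈ T.powerset, if S ⊆ U then f U else 0 := by
    intro S hS
    rw [← sum_filter, ← sum_filter]
    refine sum_nbij' (fun S' => S ∪ S') (fun U => U \ S) ?_ ?_ ?_ ?_ ?_
    · intro S' h
      simp only [mem_filter, mem_powerset] at h hS ⊢
      exact ⟨union_subset hS h.1, subset_union_left⟩
    · intro U h
      simp only [mem_filter, mem_powerset] at h hS ⊢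
      exact ⟨sdiff_subset.trans h.1, disjoint_sdiff⟩
    · intro S' h
      simp only [mem_filter, mem_powerset] at h
      exact union_sdiff_cancel_left h.2
    · intro U h
      simp only [mem_filter, mem_powerset] at h
      exact union_sdiff_of_subset h.2
    · intro S' _
      rfl
  rw [sum_congr rfl h1, sum_comm]
  refine sum_congr rfl fun U hU => ?_
  rw [← sum_filter, sum_const, nsmul_eq_mul]
  have : T.powerset.filter (fun S => S ⊆ U) = U.powerset := by
    ext S
    simp only [mem_filter, mem_powerset] at hU ⊢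
    exact ⟨fun h => h.2, fun h => ⟨h.trans hU, h⟩⟩
  rw [this, card_powerset]
  push_cast
  rfl

lemma xp1_cop {k : Type} [Field k] [Finite k] {h d : k[X]} {Z : ℕ} (h0 : h ≠ 0)
    (hZ : h.natDegree ≤ Z) (hd : Av (Pr k Z) d) : IsCoprime d h := by
  refine isCoprime_of_irreducible_dvd (fun h' => h0 h'.2) fun z hz h1 h2 => ?_
  have hz0 : z ≠ 0 := hz.ne_zero
  have ha : Associated (normalize z) z := normalize_associated z
  have hp : IsPr (normalize z) := ⟨monic_normalize hz0, ha.symm.irreducible hz⟩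
  have := Av_Pr.1 hd _ hp (ha.dvd.trans h1)
  have := natDegree_le_of_dvd (ha.dvd.trans h2) h0
  omega

lemma xp1_deg {k : Type} [Field k] {S : Finset k[X]} (hS : ∀ P ∈ S, IsPr P) :
    (pr S).Monic ∧ (pr S).natDegree = dg S :=
  ⟨monic_prod_of_monic _ _ fun P hP => (hS P hP).1,
    natDegree_prod_of_monic _ _ fun P hP => (hS P hP).1⟩

lemma xp1_ex {k : Type} [Field k] [Finite k] {h d d' : k[X]} {M Z i j : ℕ} {S S' : Finset k[X]}
    (h0 : h ≠ 0) (hZ : h.natDegree ≤ Z) (hS : S ⊆ T2 h Z) (hS' : S' ⊆ T2 h Z)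
    (hdis : Disjoint S S') (hd : d ∈ Mo k i) (hd' : d' ∈ Mo k j) (ha : Av (Pr k Z) d)
    (ha' : Av (Pr k Z) d') :
    ex h M (d * pr S) (d' * pr S') =
      if IsCoprime d d' then QQ h M / qq k ^ (i + j) / qq k ^ dg (S ∪ S') else 0 := by
  have pS : ∀ P ∈ S, IsPr P := fun P hP => isPr_T2 P (hS hP)
  have pS' : ∀ P ∈ S', IsPr P := fun P hP => isPr_T2 P (hS' hP)
  have avh : Av (T2 h Z) h := fun P hP => ((mem_T2 h0).1 hP).2.2
  have c1 : IsCoprime (pr S) d' := ha'.coprime (hS.trans (T2_sub h Z)) pS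
  have c2 : IsCoprime (pr S') d := ha.coprime (hS'.trans (T2_sub h Z)) pS'
  have c3 : IsCoprime (pr S) (pr S') := by
    refine IsCoprime.prod_left fun P hP => IsCoprime.prod_right fun P' hP' => ?_
    refine (pS P hP).2.coprime_iff_not_dvd.2 fun hdv => ?_
    have : P = P' := eq_of_monic_of_associated (pS P hP).1 (pS' P' hP').1
      ((pS P hP).2.associated_of_dvd (pS' P' hP').2 hdv)
    exact disjoint_left.1 hdis hP (this ▸ hP')
  have c4 : IsCoprime (d * pr S * (d' * pr S')) h :=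
    ((xp1_cop h0 hZ ha).mul_left (avh.coprime hS pS)).mul_left
      ((xp1_cop h0 hZ ha').mul_left (avh.coprime hS' pS'))
  have c5 : IsCoprime (d * pr S) (d' * pr S') ↔ IsCoprime d d' :=
    ⟨fun h => h.of_mul_left_left.of_mul_right_left,
      fun h => (h.mul_right c2.symm).mul_left (c1.mul_right c3)⟩
  have e1 : (d * pr S).natDegree = i + dg S := by
    rw [(mem_Mo.1 hd).1.natDegree_mul (xp1_deg pS).1, (mem_Mo.1 hd).2, (xp1_deg pS).2]
  have e2 : (d' * pr S').natDegree = j + dg S' := by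
    rw [(mem_Mo.1 hd').1.natDegree_mul (xp1_deg pS').1, (mem_Mo.1 hd').2, (xp1_deg pS').2]
  have e3 : dg (S ∪ S') = dg S + dg S' := sum_union hdis
  unfold ex
  rw [e1, e2, e3, div_div, ← pow_add]
  by_cases hc : IsCoprime d d'
  · rw [if_pos ⟨c5.2 hc, c4⟩, if_pos hc]
    congr 2
    ring
  · rw [if_neg fun h => hc (c5.1 h.1), if_neg hc]

theorem p_XP1 :
    S_XP1 := by
  intro k _ _ h M Z i j lam α α' h0 hZ hα hα'
  have key : ∀ S ∈ (T2 h Z).powerset, ∀ S' ∈ (T2 h Z).powerset,
      (if Disjoint S S' then lam (S ∪ S') else 0) * ∑ d ∈ Mo k i, ∑ d' ∈ Mo k j,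
        α d * α' d' * ex h M (d * pr S) (d' * pr S') =
      if Disjoint S S' then
        (fun U => QQ h M * (lam U / qq k ^ dg U) * m2 i α j α') (S ∪ S') else 0 := by
    intro S hS S' hS'
    by_cases hdis : Disjoint S S'
    · rw [if_pos hdis, if_pos hdis]
      have : ∑ d ∈ Mo k i, ∑ d' ∈ Mo k j, α d * α' d' * ex h M (d * pr S) (d' * pr S') =
          (∑ d ∈ Mo k i, ∑ d' ∈ Mo k j, if IsCoprime d d' then α d * α' d' else 0) *
            (QQ h M / qq k ^ (i + j) / qq k ^ dg (S ∪ S')) := by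
        rw [sum_mul]
        refine sum_congr rfl fun d hd => ?_
        rw [sum_mul]
        refine sum_congr rfl fun d' hd' => ?_
        by_cases a1 : α d = 0
        · simp [a1]
        by_cases a2 : α' d' = 0
        · simp [a2]
        rw [xp1_ex h0 hZ (mem_powerset.1 hS) (mem_powerset.1 hS') hdis hd hd' (hα d a1)
          (hα' d' a2)]
        split_ifs <;> simp
      rw [this, m2]
      ring
    · rw [if_neg hdis, if_neg hdis, zero_mul]
  rw [sum_congr rfl fun S hS => sum_congr rfl fun S' hS' => key S hS S' hS']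
  have hp := xp1_pairs (T2 h Z) fun U => QQ h M * (lam U / qq k ^ dg U) * m2 i α j α'
  refine hp.trans ?_
  rw [EE, mul_sum, sum_mul]
  refine sum_congr rfl fun U _ => ?_
  simp only [pc, prod_div_distrib, prod_const, prod_pow_eq_pow_sum, dg]
  ring

end Pool.Agent.P.MP_e94e4b_nt.RP
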