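import Pool.Agent.P.MP_e94e4b_nt.RP.If0

/-! The steps of the dispersion estimate, as statements. -/

namespace Pool.Agent.P.MP_e94e4b_nt.RP

open Polynomial Finset
open Pool.Agent.P.MP_8be758_nt Pool.Agent.P.MP_8be758_nt.C2 Pool.Agent.P.MP_8be758_nt.L2
open Pool.Agent.P.MP_e94e4b_nt.LG
open scoped Classical

/-- the phase of the remainder term -/
noncomputable def ph {k : Type} [Field k] (F h A C t : k[X]) : ℝ :=
  psi (res (A * C * h) (t * (F + h))) * DEC2_a h (A * C) t * DEC2_a A C t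

theorem K_inv {k : Type} [Field k] {L U : k[X]} : (∃ w, L ∣ w * U - 1) ↔ IsCoprime L U :=
  ⟨fun ⟨w, c, e⟩ => ⟨-c, w, by linear_combination e⟩,
    fun ⟨a, b, e⟩ => ⟨b, -a, by linear_combination e⟩⟩

theorem K_zero {k : Type} [Field k] {L U : k[X]} (h : ¬ IsCoprime L U) (A : k[X]) :
    DEC2_a L U A = 0 :=
  dif_neg fun c => h (K_inv.1 c)

-- deps:
-- imports: Pool.Agent.P.MP_e94e4b_nt.W.Loc
def S_KW : Prop :=
  ∀ (k : Type) [Field k] [Finite k] [CharP k 2] (S : Finset k[X]) (A u b : k[X]) (l : ℕ),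
    (∀ P ∈ S, IsPr P) → IsCoprime (pr S) b → l ≤ dg S →
    (∑ x ∈ low k l, DEC2_a (pr S) (u + b * x) A) ^ 2 ≤
      256 ^ S.card * qq k ^ (dg S + dg (S.filter (fun P => P ∣ A)))

-- deps:
def S_KPH : Prop :=
  ∀ (k : Type) [Field k] [Finite k] [CharP k 2] (F h A C : k[X]) (M : ℕ), F.Monic → h ≠ 0 →
    M ≤ F.natDegree → A.Monic → C.Monic →
    rm F h M A C * qq k ^ (A.natDegree + C.natDegree + h.natDegree - M) =
      ∑ t ∈ (low k (A.natDegree + C.natDegree + h.natDegree - M)).erase 0, ph F h A C t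

-- deps: KW
def S_KG : Prop :=
  ∀ (k : Type) [Field k] [Finite k] [CharP k 2] (S : Finset k[X]) (h A E : k[X]) (Φ : k[X] → ℝ)
    (c L : ℕ), (∀ P ∈ S, IsPr P) → IsCoprime (pr S) h → L ≤ dg S → h.natDegree + L ≤ c →
    (∀ C, |Φ C| ≤ 1) → (∀ C ∈ Mo k c, ∀ x ∈ low k L, Φ (C + h * x) = Φ C) →
    (∑ C ∈ Mo k c, Φ C * DEC2_a (pr S) (E * C) A) ^ 2 * qq k ^ (2 * L) ≤
      qq k ^ (2 * c) * (256 ^ S.card * qq k ^ (dg S + dg (S.filter (fun P => P ∣ A))))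

-- deps:
def S_KC : Prop :=
  ∀ (k : Type) [Field k] [Finite k] [CharP k 2] (F h A t : k[X]) (M c L : ℕ), h ≠ 0 → A ≠ 0 →
    h.natDegree ≤ F.natDegree → t ∈ low k (A.natDegree + c + h.natDegree - M) →
    h.natDegree + L + F.natDegree ≤ c + M → M ≤ F.natDegree → ∀ C ∈ Mo k c, ∀ x ∈ low k L,
      psi (res (A * (C + h * x) * h) (t * (F + h))) * DEC2_a h (A * (C + h * x)) t =
        psi (res (A * C * h) (t * (F + h))) * DEC2_a h (A * C) t

-- deps: KG KC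
def S_KP : Prop :=
  ∀ (k : Type) [Field k] [Finite k] [CharP k 2] (F h t d p1 p2 : k[X]) (M D j c l w : ℕ),
    h ≠ 0 → h.natDegree < M → M ≤ F.natDegree → d ∈ Mo k D → p1 ∈ Mo k j → p2 ∈ Mo k j →
    Squarefree (d * p1) → Squarefree (d * p2) → l = D + j + c + h.natDegree - M → t ≠ 0 →
    t ∈ low k l → (∀ g : k[X], g.Monic → g ∣ p1 → g ∣ p2 → 2 * g.natDegree ≤ j) →
    5 * l + w ≤ j → 1 ≤ j →
    D + 2 * j + min D j + 5 * l + 2 * (F.natDegree - M) + 2 * h.natDegree + w ≤ 2 * c →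
    (∑ C ∈ Mo k c, ph F h (d * p1) C t * ph F h (d * p2) C t) ^ 2 * qq k ^ (4 * l + w) ≤
      qq k ^ (2 * c) * 256 ^ (pf (d * p1) ∪ pf (d * p2)).card

-- deps:
def S_KB : Prop :=
  ∀ (k : Type) [Field k] [Finite k] (j : ℕ),
    (((Mo k j ×ˢ Mo k j).filter (fun p => ¬ ∀ g : k[X], g.Monic → g ∣ p.1 → g ∣ p.2 →
      2 * g.natDegree ≤ j)).card : ℝ) * qq k ^ (j / 2) ≤ ((j : ℝ) + 1) * qq k ^ (2 * j)

-- deps: KPH KG KC
def S_KR : Prop :=
  ∀ (k : Type) [Field k] [Finite k] [CharP k 2] (F h A E : k[X]) (M c L : ℕ), F.Monic → h ≠ 0 →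
    h.natDegree < M → M ≤ F.natDegree → A.Monic → Squarefree A → E.Monic → L ≤ A.natDegree →
    h.natDegree + L + F.natDegree ≤ c + M →
    (∑ C ∈ Mo k c, rm F h M A (E * C)) ^ 2 * qq k ^ (2 * L) ≤
      qq k ^ (2 * c) * (256 ^ (pf A).card *
        qq k ^ (A.natDegree + (A.natDegree + E.natDegree + c + h.natDegree - M)))

-- redeps: K CW KPH KP KB

end Pool.Agent.P.MP_e94e4b_nt.RP
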