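import Pool.Agent.P.MP_e94e4b_nt.RP.DefsT

/-! Basic facts for the bilinear estimate with two conductors. -/

namespace Pool.Agent.P.MP_e94e4b_nt.RP

open Polynomial Finset
open Pool.Agent.P.MP_8be758_nt Pool.Agent.P.MP_8be758_nt.C2 Pool.Agent.P.MP_8be758_nt.L2
open Pool.Agent.P.MP_e94e4b_nt.LG
open scoped Classical

variable {k : Type} [Field k]

theorem mul_dd {h x b e : k[X]} (he : e.Monic) (hd : e ∣ x * b + h) :
    e * dd h x b e = x * b + h := by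
  obtain ⟨c, hc⟩ := hd
  rw [dd, hc, mul_divByMonic_cancel_left _ he]

theorem dd_shift {h x b e : k[X]} (he : e.Monic) (hd : e ∣ x * b + h) (u : k[X]) :
    dd h (x + e * u) b e = dd h x b e + b * u := by
  refine mul_left_cancel₀ he.ne_zero ?_
  rw [mul_dd he (by
    rw [show (x + e * u) * b + h = x * b + h + e * (u * b) by ring]
    exact dvd_add hd (dvd_mul_right _ _)), mul_add, mul_dd he hd]
  ring

theorem cop_dd {h x b e : k[X]} (he : e.Monic) (hd : e ∣ x * b + h) (hb : IsCoprime b h) :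
    IsCoprime b e ∧ IsCoprime b (dd h x b e) := by
  have : IsCoprime b (e * dd h x b e) := by
    rw [mul_dd he hd, add_comm]; exact hb.add_mul_right_right x
  exact ⟨this.of_mul_right_left, this.of_mul_right_right⟩

theorem PF_smul {P : k[X]} {L : ℕ} {c : ℝ} (hc : |c| ≤ 1) :
    ∀ (j : ℕ) (f : k[X] → ℝ), P1_PF P L j f → P1_PF P L j fun z => c * f z
  | 0, _, ⟨e, h1, h2⟩ => ⟨c * e, by
      rw [abs_mul]; exact mul_le_one₀ hc (abs_nonneg _) h1, fun z => by simp only [h2]⟩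
  | _ + 1, _, ⟨V1, a, g, h1, h2, h3, h4, h5, h6⟩ =>
    ⟨V1, fun z => c * a z, g, h1, h2, fun z => by
      rw [abs_mul]; exact mul_le_one₀ hc (abs_nonneg _) (h3 _), fun z y => by simp only [h4], h5,
      fun z => by simp only [h6]; ring⟩

theorem PF_mul {P : k[X]} {L j' : ℕ} {g : k[X] → ℝ} (hg : P1_PF P L j' g) :
    ∀ (j : ℕ) (f : k[X] → ℝ), P1_PF P L j f → P1_PF P L (j' + j) fun z => f z * g z
  | 0, _, ⟨e, h1, h2⟩ => by simpa only [h2, add_zero] using PF_smul h1 j' g hg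
  | j + 1, _, ⟨V1, a, g', h1, h2, h3, h4, h5, h6⟩ =>
    ⟨V1, a, _, h1, h2, h3, h4, PF_mul hg j g' h5, fun z => by simp only [h6]; ring⟩

variable [Finite k]

theorem mem_Mle {n : ℕ} {d : k[X]} : d ∈ Mle k n ↔ d.Monic ∧ d.natDegree ≤ n := by
  rw [Mle, mem_filter]
  exact ⟨fun h => ⟨h.2, by have := natDegree_le_of_mem_low h.1; omega⟩,
    fun h => ⟨mem_low_of_natDegree_lt (by omega), h.1⟩⟩

theorem mem_BB {D : ℕ} {e B : k[X]} : B ∈ BB D e ↔ B ∈ Pd k D ∧ ¬ B ∣ e := mem_filter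

theorem mem_Bf {β : ℕ} {h b : k[X]} :
    b ∈ Bf h β ↔ b ∈ Mo k β ∧ Squarefree b ∧ IsCoprime b h := mem_filter

theorem mem_Ae {m : ℕ} {h b e x : k[X]} : x ∈ Ae h m b e ↔ x ∈ Mo k m ∧ e ∣ x * b + h :=
  mem_filter

theorem mem_Wn {F h f : k[X]} {M : ℕ} :
    f ∈ Wn F h M ↔ f ∈ Mo k F.natDegree ∧ f - F ∈ low k M ∧ h ∣ f - 1 := mem_filter

theorem Wn_cop {F h x b : k[X]} {M : ℕ} (w : x * b ∈ Wn F h M) :
    IsCoprime b h ∧ IsCoprime x h := by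
  obtain ⟨c, hc⟩ := (mem_Wn.1 w).2.2
  exact ⟨⟨x, -c, by linear_combination hc⟩, ⟨b, -c, by linear_combination hc⟩⟩

/-- a set of monic divisors is small -/
theorem Dv.card {n : ℕ} {Z : ℝ} (h : Dv k n Z) {m : k[X]} (h0 : m ≠ 0) (hm : m.natDegree ≤ n)
    {S : Finset k[X]} (hS : ∀ d ∈ S, d.Monic ∧ d ∣ m) : (S.card : ℝ) ≤ Z := by
  refine le_trans ?_ (h m h0 hm)
  unfold nd
  exact_mod_cast card_le_card fun d hd => mem_filter.2
    ⟨mem_Mle.2 ⟨(hS d hd).1, natDegree_le_of_dvd (hS d hd).2 h0⟩, (hS d hd).2⟩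

theorem Dv.one_le {n : ℕ} {Z : ℝ} (h : Dv k n Z) : 1 ≤ Z := by
  simpa using h.card (S := {1}) one_ne_zero (by simp) (by simp)

theorem TI_eq (F h : k[X]) (M β ρ : ℕ) (γ : k[X] → k[X] → k[X] → ℝ) (e a : k[X]) :
    TI F h M β ρ γ e a = IW F h M β ρ γ (fun _ d => mu d) e a := by
  simp only [TI, IW, IR, dd, sum_mul, ite_mul, zero_mul]

theorem add_mem_Mo {m : ℕ} {x v : k[X]} (hx : x ∈ Mo k m) (hv : v ∈ low k m) :
    x + v ∈ Mo k m := by
  obtain ⟨h1, h2⟩ := mem_Mo.1 hx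
  obtain ⟨a, b⟩ := monic_add_low h1 hv h2.ge
  exact mem_Mo.2 ⟨a, b.trans h2⟩

theorem add_mem_Wn {F h f v : k[X]} {M : ℕ} (hf : f ∈ Wn F h M) (hM : M ≤ f.natDegree)
    (hv : v ∈ low k M) (hd : h ∣ v) : f + v ∈ Wn F h M := by
  obtain ⟨h1, h2, h3⟩ := mem_Wn.1 hf
  refine mem_Wn.2 ⟨add_mem_Mo h1 (low_mono ((mem_Mo.1 h1).2 ▸ hM) hv), ?_, ?_⟩
  · rw [add_sub_right_comm]; exact add_mem_low h2 hv
  · rw [add_sub_right_comm]; exact dvd_add h3 hd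

theorem add_mem_Ae {m : ℕ} {h b e x u : k[X]} (hx : x ∈ Ae h m b e) (hu : e * u ∈ low k m) :
    x + e * u ∈ Ae h m b e := by
  obtain ⟨h1, h2⟩ := mem_Ae.1 hx
  refine mem_Ae.2 ⟨add_mem_Mo h1 hu, ?_⟩
  rw [show (x + e * u) * b + h = x * b + h + e * (u * b) by ring]
  exact dvd_add h2 (dvd_mul_right _ _)

theorem card_Ae {m y : ℕ} {h b e : k[X]} (hb : IsCoprime b h) (he : e ∈ Mo k y) :
    ((Ae h m b e).card : ℝ) ≤ qq k ^ (m - y) := by
  obtain ⟨e1, e2⟩ := mem_Mo.1 he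
  rcases (Ae h m b e).eq_empty_or_nonempty with h0 | ⟨x0, h0⟩
  · rw [h0, card_empty, Nat.cast_zero]; exact (pow_pos qq_pos _).le
  obtain ⟨a1, a2⟩ := mem_Ae.1 h0
  have hc := (cop_dd e1 a2 hb).1
  rw [← card_low']
  have key : ∀ x ∈ Ae h m b e, e * ((x - x0) /ₘ e) = x - x0 := fun x hx => by
    obtain ⟨c, hc'⟩ : e ∣ x - x0 := hc.symm.dvd_of_dvd_mul_right (by
      rw [show (x - x0) * b = x * b + h - (x0 * b + h) by ring]
      exact dvd_sub (mem_Ae.1 hx).2 a2)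
    rw [hc', mul_divByMonic_cancel_left _ e1]
  exact_mod_cast card_le_card_of_injOn (fun x => (x - x0) /ₘ e) (fun x hx => by
    have h1 := mem_Mo.1 (mem_Ae.1 hx).1
    have h2 := mem_Mo.1 a1
    have h3 := sub_mem_low_of_monic h1.1 h2.1 (h1.2.trans h2.2.symm)
    rw [h1.2, ← key x hx] at h3
    exact e2 ▸ mem_low_of_mul e1.ne_zero h3) fun x hx x' hx' hh => by
    have := congrArg (e * ·) hh
    simp only [key x hx, key x' hx'] at this
    exact sub_left_injective this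

theorem card_Pd_dvd {f : k[X]} (hf : f ≠ 0) (D : ℕ) :
    ((Pd k D).filter (fun B => B ∣ f)).card ≤ f.natDegree :=
  (card_le_card fun _ hB => (mem_pf hf).2 ⟨(mem_Pd.1 (mem_filter.1 hB).1).1,
    (mem_filter.1 hB).2⟩).trans ((card_le_dg fun _ => isPr_of_mem_pf).trans (dg_pf_le hf))

theorem card_Bf (h : k[X]) (β : ℕ) : ((Bf h β).card : ℝ) ≤ qq k ^ β := by
  rw [← card_Mo]; exact_mod_cast card_filter_le _ _

theorem G1_le {a r s0 s K : ℕ} {V : k[X]} (ha : 1 ≤ a) (h0 : 1 ≤ s0)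
    (hs : s ≤ K * a) (hV : V ∈ low k s) : 0 ≤ G1 a r s0 V ∧ G1 a r s0 V ≤ 2 ^ K := by
  unfold G1
  split_ifs with h
  · refine ⟨GW_nonneg _ _ _, (a_GM k a r).1 V K ha (by rintro rfl; simp at h; omega) ?_⟩
    have := natDegree_le_of_mem_low hV; omega
  · exact ⟨le_rfl, by positivity⟩

theorem G0_le {a r s0 s K : ℕ} {V : k[X]} (ha : 1 ≤ a) (h0 : 1 ≤ s0)
    (hs : s ≤ K * a) (hV : V ∈ low k s) : |G0 a r s0 V| ≤ 2 ^ K := by
  have h1 := G1_le (r := r) ha h0 hs hV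
  have h2 := (a_GM k a r).2.2.1
  have h3 := (a_GM k a r).2.2.2.1 ha
  have h4 : (1 : ℝ) ≤ 2 ^ K := one_le_pow₀ (by norm_num)
  unfold G0
  unfold G1 at h1
  split_ifs at h1 ⊢ with h
  · rw [abs_le]; constructor <;> linarith [h1.1, h1.2]
  · simp

theorem IR_ne {F h e x b : k[X]} {M ρ : ℕ} {c : k[X] → ℝ} (h0 : IR F h M ρ c e x b ≠ 0) :
    x * b ∈ Wn F h M ∧ e ∣ x * b + h ∧ ∃ r, c r ≠ 0 := by
  obtain ⟨r, -, hr⟩ := exists_ne_zero_of_sum_ne_zero h0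
  split_ifs at hr with h1
  · exact ⟨h1.1, (dvd_mul_right e r).trans h1.2, r, hr⟩
  · exact absurd rfl hr

section pt

variable {n M β y ρ D s s0 σ L H a r p K : ℕ} {h b e x : k[X]}

theorem dd_spec (P : Pt n M β y ρ h.natDegree D s s0 σ L H a r p K) (hb : b ∈ Mo k β)
    (he : e ∈ Mo k y) (hx : x ∈ Ae h (n - β) b e) :
    (dd h x b e).Monic ∧ (dd h x b e).natDegree + y = n := by
  obtain ⟨x1, x2⟩ := mem_Ae.1 hx
  obtain ⟨x0, x1⟩ := mem_Mo.1 x1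
  obtain ⟨b0, b1⟩ := mem_Mo.1 hb
  obtain ⟨e0, e1⟩ := mem_Mo.1 he
  have t1 := P.t1; have t10 := P.t10; have t15 := P.t15
  have m1 : (x * b).natDegree = n := by rw [x0.natDegree_mul b0]; omega
  have m2 := monic_add_low (x0.mul b0) (mem_low_of_natDegree_lt (p := h) (L := n) (by omega))
    m1.ge
  have m3 := mul_dd e0 x2
  have m4 : (dd h x b e).Monic := e0.of_mul_monic_left (m3 ▸ m2.1)
  refine ⟨m4, ?_⟩
  have := congrArg natDegree m3
  rw [e0.natDegree_mul m4, m2.2] at this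
  omega

theorem VB_low (P : Pt n M β y ρ h.natDegree D s s0 σ L H a r p K) (hb : b ∈ Mo k β)
    (he : e ∈ Mo k y) (hx : x ∈ Ae h (n - β) b e) {B : k[X]} (hB : B ∈ Pd k D) :
    VB h b e x B ∈ low k s := by
  obtain ⟨d0, d1⟩ := dd_spec P hb he hx
  obtain ⟨b0, b1⟩ := mem_Mo.1 hb
  obtain ⟨B0, B1⟩ := mem_Pd.1 hB
  have t2 := P.t2
  refine odp_mem_low_of_natDegree ?_
  rw [d0.natDegree_mul (b0.mul B0.1), b0.natDegree_mul B0.1]
  omega

theorem FW_le [CharP k 2] (P : Pt n M β y ρ h.natDegree D s s0 σ L H a r p K)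
    (hb : b ∈ Mo k β) (he : e ∈ Mo k y) (hx : x ∈ Ae h (n - β) b e) {B : k[X]}
    (hB : B ∈ Pd k D) : |FW a r s0 (b * B) (dd h x b e)| ≤ 2 ^ K := by
  have t6 := P.t6; have t8 := P.t8; have t13 := P.t13; have t15 := P.t15
  have h1 := G1_le (r := r) (s0 := s0) (by omega) (by omega) P.t17 (VB_low P hb he hx hB)
  unfold VB at h1
  unfold FW
  split_ifs
  · simp
  · rw [abs_mul, abs_of_nonneg h1.1]
    exact (mul_le_of_le_one_left h1.1 (abs_mu_le _)).trans h1.2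

/-- the number of small divisors -/
theorem card_IR {F : k[X]} {Z : ℝ} (P : Pt n M β y ρ h.natDegree D s s0 σ L H a r p K)
    (hZ : Dv k n Z) (hb : b ∈ Mo k β) (he : e ∈ Mo k y) (hx : x ∈ Mo k (n - β)) :
    (((Mle k ρ).filter (fun r => x * b ∈ Wn F h M ∧ e * r ∣ x * b + h)).card : ℝ) ≤ Z := by
  by_cases h0 : e ∣ x * b + h
  · obtain ⟨d0, d1⟩ := dd_spec P hb he (mem_Ae.2 ⟨hx, h0⟩)
    have e0 := (mem_Mo.1 he).1
    refine hZ.card d0.ne_zero (by omega) fun r hr => ?_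
    obtain ⟨r1, -, r2⟩ := mem_filter.1 hr
    rw [← mul_dd e0 h0] at r2
    exact ⟨(mem_Mle.1 r1).1, (mul_dvd_mul_iff_left e0.ne_zero).1 r2⟩
  · rw [filter_eq_empty_iff.2 fun r _ hr => h0 ((dvd_mul_right e r).trans hr.2)]
    simpa using zero_le_one.trans hZ.one_le

theorem IR_le {F : k[X]} {Z : ℝ} {c : k[X] → ℝ}
    (P : Pt n M β y ρ h.natDegree D s s0 σ L H a r p K) (hZ : Dv k n Z) (hb : b ∈ Mo k β)
    (he : e ∈ Mo k y) (hx : x ∈ Mo k (n - β)) (hc : ∀ r, |c r| ≤ 1) :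
    |IR F h M ρ c e x b| ≤ Z := by
  rw [IR, ← sum_filter]
  refine (abs_sum_le_sum_abs _ _).trans ((sum_le_card_nsmul _ _ 1 fun r _ => hc r).trans ?_)
  simpa using card_IR P hZ hb he hx

theorem ST_le (P : Pt n M β y ρ h.natDegree D s s0 σ L H a r p K) {Φ : k[X] → k[X] → k[X] → ℝ}
    {c : ℝ} (hc : 0 ≤ c)
    (hΦ : ∀ b ∈ Bf h β, ∀ e ∈ Mo k y, ∀ x ∈ Ae h (n - β) b e, Φ b e x ≤ c) :
    ST h n β y Φ ≤ c * qq k ^ n := by
  have t1 := P.t1; have t3 := P.t3; have t10 := P.t10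
  have q0 : (0 : ℝ) < qq k := qq_pos
  have h1 : ∀ b ∈ Bf h β, ∑ e ∈ Mo k y, ∑ x ∈ Ae h (n - β) b e, Φ b e x ≤
      qq k ^ y * (qq k ^ (n - β - y) * c) := fun b hb => by
    refine (sum_le_card_nsmul _ _ (qq k ^ (n - β - y) * c) fun e he => ?_).trans
      (by rw [nsmul_eq_mul, card_Mo])
    refine (sum_le_card_nsmul _ _ c (hΦ b hb e he)).trans ?_
    rw [nsmul_eq_mul]
    exact mul_le_mul_of_nonneg_right (card_Ae (mem_Bf.1 hb).2.2 he) hc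
  refine (sum_le_card_nsmul _ _ _ h1).trans ?_
  rw [nsmul_eq_mul]
  refine (mul_le_mul_of_nonneg_right (card_Bf h β) (by positivity)).trans_eq ?_
  rw [show qq k ^ n = qq k ^ β * (qq k ^ y * qq k ^ (n - β - y)) by
    rw [← pow_add, ← pow_add]; congr 1; omega]
  ring

end pt

end Pool.Agent.P.MP_e94e4b_nt.RP
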