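import Pool.Agent.P.MP_e94e4b_nt.RP.If0
import Pool.Agent.P.MP_e94e4b_nt.RP.BasT

/-! The steps of the bilinear estimate with two conductors, as statements. -/

namespace Pool.Agent.P.MP_e94e4b_nt.RP

open Polynomial Finset
open Pool.Agent.P.MP_8be758_nt Pool.Agent.P.MP_8be758_nt.C2 Pool.Agent.P.MP_8be758_nt.L2
open Pool.Agent.P.MP_e94e4b_nt.LG
open scoped Classical

-- deps:
def S_TDEC : Prop :=
  ∀ (k : Type) [Field k] [Finite k] [CharP k 2] (U V Bt P : k[X]) (L L1 j : ℕ), U.Monic →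
    Bt ≠ 0 → V ≠ 0 → V.natDegree < U.natDegree → ¬ P ∣ V →
    (∀ Q e, IsPr Q → Q ^ e ∣ V → e * Q.natDegree ≤ L1) → 2 * V.natDegree ≤ j * L1 →
    U.natDegree + Bt.natDegree + 2 * L ≤ 2 * V.natDegree + 2 → 1 ≤ L →
    ∃ f χ : k[X] → ℝ, P1_PF P L1 j f ∧ IsCh χ ∧
      ∀ z ∈ low k L, mu (eo (U + Bt * z ^ 2) V) = f z * χ z

-- deps:
def S_TPICK : Prop :=
  ∀ (k : Type) [Field k] (V1 V2 Om : k[X]) (T : Finset k[X]) (L a : ℕ), V1 ≠ 0 →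
    (∀ P ∈ T, IsPr P ∧ P.natDegree = a) → pr T ∣ V1 → V1.natDegree + a ≤ dg T + L →
    (∀ Q e, IsPr Q → Q ^ e ∣ V1 → e * Q.natDegree ≤ L) ∧
    (Om ≠ 0 → (∀ P, IsPr P → P ∣ V1 → P ∣ V2 → P ∣ Om) → Om.natDegree + L < dg T + a →
      ∃ P ∈ T, ∃ V', V1 = V' * P ∧ ¬ P ∣ V' ∧ ¬ P ∣ V2)

-- deps: TDEC TPICK
def S_TCORE : Prop :=
  ∀ (k : Type) [Field k] [Finite k] [CharP k 2] (U1 V1 B1 U2 V2 B2 Om : k[X])
    (T1 T2 : Finset k[X]) (L H a J : ℕ) (η : ℝ), U1.Monic → U2.Monic → B1 ≠ 0 → B2 ≠ 0 →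
    V1 ≠ 0 → V2 ≠ 0 → V1.natDegree < U1.natDegree → V2.natDegree < U2.natDegree →
    (∀ P ∈ T1, IsPr P ∧ P.natDegree = a) → (∀ P ∈ T2, IsPr P ∧ P.natDegree = a) →
    pr T1 ∣ V1 → pr T2 ∣ V2 → V1.natDegree + a ≤ dg T1 + L → V2.natDegree + a ≤ dg T2 + L →
    Om ≠ 0 → (∀ P, IsPr P → P ∣ V1 → P ∣ V2 → P ∣ Om) → Om.natDegree + L < dg T1 + a →
    (∀ P ∈ T1, (P ∣ U1 ∧ P ∣ B1) ∨ (¬ P ∣ B1 ∧ ¬ P ∣ kap B1 U1 V1)) →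
    1 ≤ H → 2 * H ≤ a → a ≤ L →
    U1.natDegree + B1.natDegree + 2 * (L + H) ≤ 2 * V1.natDegree + 2 →
    U2.natDegree + B2.natDegree + 2 * (L + H) ≤ 2 * V2.natDegree + 2 →
    2 * V1.natDegree ≤ J * L → 2 * V2.natDegree ≤ J * L → 0 ≤ η → η ≤ 1 →
    16 * 4 ^ (2 * J) ≤ η ^ 2 ^ (2 * J) * qq k ^ H →
    |∑ z ∈ low k (L + H), mu (eo (U1 + B1 * z ^ 2) V1) * mu (eo (U2 + B2 * z ^ 2) V2)| ≤
      2 * η * qq k ^ (L + H)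

-- deps: TCORE
def S_TLN0 : Prop :=
  ∀ (k : Type) [Field k] [Finite k] [CharP k 2] (d1 C1 d2 C2 w Om : k[X])
    (c s s0 L H a r K : ℕ) (η : ℝ), d1.Monic → C1.Monic → d2.Monic → C2.Monic →
    C1.natDegree = c → C2.natDegree = c → d1.natDegree + c = 2 * s → d2.natDegree + c = 2 * s →
    w ≠ 0 → w.natDegree < a → Om ≠ 0 →
    (∀ P, IsPr P → P ∣ odp (d1 * C1) → P ∣ odp (d2 * C2) → P ∣ Om) →
    Om.natDegree + L < r * a + a → s + a ≤ r * a + L → 1 ≤ s0 → 1 ≤ H → 2 * H ≤ a → a ≤ L →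
    s + c + 2 * (w.natDegree + L + H) ≤ 2 * s0 + 2 → 2 * s ≤ K * L → s ≤ K * a → 0 ≤ η →
    η ≤ 1 → 16 * 4 ^ (2 * K) ≤ η ^ 2 ^ (2 * K) * qq k ^ H →
    |∑ z ∈ low k (L + H), FW a r s0 C1 (d1 + C1 * (w * z) ^ 4) *
      FW a r s0 C2 (d2 + C2 * (w * z) ^ 4)| ≤ 2 * η * 4 ^ K * qq k ^ (L + H)

-- deps:
def S_TOM : Prop :=
  ∀ (k : Type) [Field k] [Finite k] [CharP k 2],
    (∀ (h x b1 b2 e c B : k[X]), e.Monic → e ∣ x * b1 + h → e ∣ x * b2 + h → b1 + b2 = e * c →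
      fr b2 * VB h b1 e x B + fr b1 * VB h b2 e x B = odp (b1 * b2 * h * c * B)) ∧
    ∀ (m : k[X]) (D : ℕ), m ≠ 0 → ((Pd k D).filter (fun B => odp (m * B) = 0)).card ≤ 1

-- deps: TLN0 TOM
def S_TLN1 : Prop :=
  ∀ (k : Type) [Field k] [Finite k] [CharP k 2] (F h e B b1 b2 c : k[X]) (c1 c2 : k[X] → ℝ)
    (n M β y ρ D s s0 σ L H a r p K : ℕ) (η Z : ℝ),
    Pt n M β y ρ h.natDegree D s s0 σ L H a r p K → h ≠ 0 → Dv k n Z → e ∈ Mo k y →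
    B ∈ Pd k D → b1 ∈ Mo k β → b2 ∈ Mo k β → IsCoprime b1 h → b1 + b2 = e * c →
    odp (b1 * b2 * h * c * B) ≠ 0 → (∀ r, |c1 r| ≤ 1) → (∀ r, |c2 r| ≤ 1) → 0 ≤ η → η ≤ 1 →
    16 * 4 ^ (2 * K) ≤ η ^ 2 ^ (2 * K) * qq k ^ H →
    |∑ x ∈ Mo k (n - β), IR F h M ρ c1 e x b1 * FW a r s0 (b1 * B) (dd h x b1 e) *
      (IR F h M ρ c2 e x b2 * FW a r s0 (b2 * B) (dd h x b2 e))| ≤
      2 * η * 4 ^ K * Z ^ 2 * qq k ^ (n - β - y)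

-- deps: TLN1 TOM
def S_TCS : Prop :=
  ∀ (k : Type) [Field k] [Finite k] [CharP k 2] (F h : k[X]) (γ : k[X] → k[X] → k[X] → ℝ)
    (n M β y ρ D s s0 σ L H a r p K : ℕ) (η Z : ℝ),
    Pt n M β y ρ h.natDegree D s s0 σ L H a r p K → h ≠ 0 → Dv k n Z → Cf γ → 0 ≤ η → η ≤ 1 →
    16 * 4 ^ (2 * K) ≤ η ^ 2 ^ (2 * K) * qq k ^ H →
    TS1 F h n M β y ρ D a r s0 γ ^ 2 ≤
      4 ^ K * Z ^ 2 * qq k ^ (2 * n + 2 * D + 1) * (2 * η + 2 / qq k ^ D)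

-- deps:
def S_TKB : Prop :=
  ∀ (k : Type) [Field k] [Finite k] [CharP k 2] (h e B b : k[X])
    (n M β y ρ D s s0 σ L H a r p K : ℕ),
    Pt n M β y ρ h.natDegree D s s0 σ L H a r p K → e ∈ Mo k y → B ∈ Pd k D → b ∈ Bf h β →
    (((Ae h (n - β) b e).filter (fun x => kb a (b * B) (dd h x b e))).card : ℝ) * qq k ^ H ≤
      s * qq k ^ (n - β - y)

-- deps:
def S_TFIB : Prop :=
  ∀ (k : Type) [Field k] [Finite k] [CharP k 2] (h b : k[X]) (φ : k[X] → ℝ)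
    (n M β y ρ D s s0 σ L H a r p K : ℕ),
    Pt n M β y ρ h.natDegree D s s0 σ L H a r p K → b ∈ Bf h β → (∀ V, 0 ≤ φ V) →
    ∑ e ∈ Mo k y, ∑ B ∈ BB D e, ∑ x ∈ Ae h (n - β) b e, φ (VB h b e x B) ≤
      qq k ^ σ * ∑ V ∈ low k s, φ V

-- deps: TFIB TKB
def S_TERR : Prop :=
  ∀ (k : Type) [Field k] [Finite k] [CharP k 2] (h : k[X]) (n M β y ρ D s s0 σ L H a r p K : ℕ),
    Pt n M β y ρ h.natDegree D s s0 σ L H a r p K →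
    TS3 h n β y D s0 * qq k ^ H ≤ qq k ^ (n + D + 1) ∧ TS4 h n β y D ≤ 2 * n * qq k ^ n ∧
      TS5 h n β y D a * qq k ^ H ≤ s * qq k ^ (n + D)

-- deps:
def S_TVAR : Prop :=
  ∀ (k : Type) [Field k] [Finite k] [CharP k 2] (a r j s0 s K : ℕ), j + a = s0 → s0 ≤ s →
    r * a ≤ j → 1 ≤ a → s ≤ K * a →
    ∑ Δ ∈ low k j, ∑ V ∈ low k s, A0 a r s0 a Δ V ^ 2 ≤ 4 ^ K * qq k ^ (a + j + s)

-- deps:
def S_TSH : Prop :=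
  ∀ (k : Type) [Field k] [Finite k] [CharP k 2] (h e B B' b u : k[X])
    (n M β y ρ D s s0 σ L H a r p K : ℕ),
    Pt n M β y ρ h.natDegree D s s0 σ L H a r p K → e ∈ Mo k y → B ∈ Pd k D → B' ∈ Pd k D →
    b ∈ Mo k β → u ∈ Mo k p →
    |∑ x ∈ Ae h (n - β) b e, G0 a r s0 (VB h b e x B) * G0 a r s0 (VB h b e x B')| * qq k ^ a ≤
      2 ^ K * ∑ x ∈ Ae h (n - β) b e, |A0 a r s0 a (fr (b * u) * odp (B * B')) (VB h b e x B)|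

-- deps: TSH TFIB TVAR
def S_TOFF : Prop :=
  ∀ (k : Type) [Field k] [Finite k] [CharP k 2] (h : k[X]) (n M β y ρ D s s0 σ L H a r p K : ℕ)
    (Z : ℝ), Pt n M β y ρ h.natDegree D s s0 σ L H a r p K → Dv k n Z →
    OF h n β y D a r s0 * qq k ^ H ≤ 4 ^ K * Z ^ 2 * qq k ^ (n + 2 * D + 1)

-- deps: TOFF
def S_TCONC : Prop :=
  ∀ (k : Type) [Field k] [Finite k] [CharP k 2] (h : k[X]) (n M β y ρ D s s0 σ L H a r p K : ℕ)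
    (Z : ℝ), Pt n M β y ρ h.natDegree D s s0 σ L H a r p K → Dv k n Z →
    TS2 h n β y D a r s0 ^ 2 * qq k ^ H ≤ 2 * 4 ^ K * Z ^ 2 * qq k ^ (2 * n + 2 * D + 1)

-- deps:
def S_TK0 : Prop :=
  ∀ (k : Type) [Field k] [Finite k] [CharP k 2] (F h : k[X]) (γ : k[X] → k[X] → k[X] → ℝ)
    (n M β y ρ D s s0 σ L H a r p K : ℕ) (Z : ℝ),
    Pt n M β y ρ h.natDegree D s s0 σ L H a r p K → Dv k n Z → Cf γ →
    (((Pd k D).card : ℝ) - n) * Gb k a r * TT F h n M β y ρ γ ≤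
      TS1 F h n M β y ρ D a r s0 γ + Z * (TS2 h n β y D a r s0 + TS3 h n β y D s0 +
        2 ^ K * (TS4 h n β y D + TS5 h n β y D a))

-- deps: TK0 TCS TERR TCONC
def S_TGEN : Prop :=
  ∀ (k : Type) [Field k] [Finite k] [CharP k 2] (F h : k[X]) (γ : k[X] → k[X] → k[X] → ℝ)
    (n M β y ρ D s s0 σ L H a r p K : ℕ) (η Z : ℝ),
    Pt n M β y ρ h.natDegree D s s0 σ L H a r p K → h ≠ 0 → Dv k n Z → Cf γ → 0 ≤ η → η ≤ 1 →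
    16 * 4 ^ (2 * K) ≤ η ^ 2 ^ (2 * K) * qq k ^ H →
    (((Pd k D).card : ℝ) - n) * Gb k a r * TT F h n M β y ρ γ ≤
      2 ^ K * Z ^ 2 * qq k ^ (n + D + 1) *
        (√(2 * η + 2 / qq k ^ H) + √(2 / qq k ^ H) + (3 * n + 1) / qq k ^ H)

-- deps:
def S_TPAR : Prop :=
  ∀ K0 dh : ℕ, 1 ≤ K0 → ∃ n0 : ℕ, ∀ n M β y ρ : ℕ, n0 ≤ n → M ≤ n → n ≤ M + n / (1000 * K0) →
    y + n / K0 ≤ β → 2 * β + 128 * ρ + n / K0 ≤ n →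
    ∃ D s s0 σ L a r p : ℕ, Pt n M β y ρ dh D s s0 σ L (n / (1000 * K0)) a r p (100 * K0)

-- redeps: T DIV TGEN TPAR

end Pool.Agent.P.MP_e94e4b_nt.RP
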