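import Pool.Agent.P.MP_e94e4b_nt.RP.IfC

/-! From the class in the window to the pairs at a square. -/

namespace Pool.Agent.P.MP_e94e4b_nt.RP

open Polynomial Finset
open Pool.Agent.P.MP_8be758_nt Pool.Agent.P.MP_8be758_nt.C2 Pool.Agent.P.MP_8be758_nt.L2
open Pool.Agent.P.MP_e94e4b_nt.LG
open scoped Classical

theorem adm_sq {k : Type} [Field k] [Finite k] [CharP k 2] {g : k[X]} (h0 : g ≠ 0)
    (hg : Nat.card k = 2 → X * (X + 1) ∣ g) : Adm (g ^ 2) := by
  refine ⟨pow_ne_zero _ h0, fun P hP h => ?_⟩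
  have h1 := hP.pos
  have h2 := two_le_qq (k := k)
  have h3 : P.natDegree = 1 := by
    by_contra h4
    have := (qq_pow_mono (k := k) (show 2 ≤ P.natDegree by omega)).trans h
    nlinarith
  rw [h3, pow_one] at h
  have h5 : Nat.card k = 2 := by
    have : (Nat.card k : ℝ) = 2 := le_antisymm h h2
    exact_mod_cast this
  refine Dvd.dvd.trans ?_ ((hg h5).trans (dvd_pow_self g two_ne_zero))
  have e := hP.1.eq_X_add_C h3
  have c := pow_card' (P.coeff 0)
  rw [h5] at c
  generalize P.coeff 0 = a at e c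
  have h6 : (2 : k) = 0 := CharTwo.two_eq_zero
  rw [e, show X + C a = X - C (-a) by simp, dvd_iff_isRoot, IsRoot.def]
  simp only [eval_mul, eval_add, eval_X, eval_one]
  linear_combination c

theorem last (hFIN : S_FIN) : ∃ K : ℕ, 1 ≤ K ∧
    ∀ (k : Type) [Field k] [Finite k] [CharP k 2] (g : k[X]), g ≠ 0 →
      (Nat.card k = 2 → X * (X + 1) ∣ g) → ∃ n0 : ℕ, ∀ N : k[X], N.Monic → n0 ≤ N.natDegree →
        Nat.card k ^ (2 * N.natDegree - N.natDegree / K) ≤
          512 * Nat.card k ^ (2 * g.natDegree) * N.natDegree ^ 2 *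
            Set.ncard {x : k[X] | x.degree < (2 * N.natDegree - N.natDegree / K : ℕ) ∧
              Irreducible (N ^ 2 + x) ∧ Irreducible ((N + g) ^ 2 - x)} := by
  obtain ⟨K, hK, H⟩ := hFIN
  refine ⟨K, hK, fun k _ _ _ g g0 hg => ?_⟩
  obtain ⟨n0, H⟩ := H k (g ^ 2) (adm_sq g0 hg)
  refine ⟨n0, fun N hN hn => ?_⟩
  have hd : (N ^ 2).natDegree = 2 * N.natDegree := hN.natDegree_pow 2
  have a1 : N.natDegree / K ≤ 2 * N.natDegree / K := Nat.div_le_div_right (by omega)
  have a2 : N.natDegree / K ≤ N.natDegree := Nat.div_le_self _ _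
  have key := H (N ^ 2) (2 * N.natDegree - N.natDegree / K) (hN.pow 2) (by omega)
    (hd ▸ Nat.sub_le _ _) (by
      rw [hd]
      generalize N.natDegree / K = a at *
      omega)
  generalize 2 * N.natDegree - N.natDegree / K = m at key ⊢
  have h2 : (2 : k[X]) = 0 := CharTwo.two_eq_zero
  have hf : {x : k[X] | x.degree < (m : ℕ) ∧ Irreducible (N ^ 2 + x) ∧
      Irreducible ((N + g) ^ 2 - x)} = ((low k m).filter fun x => Irreducible (N ^ 2 + x) ∧
        Irreducible ((N + g) ^ 2 - x) : Finset k[X]) := by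
    ext x; simp [mem_low]
  have hc : PI2 (N ^ 2) (g ^ 2) m ≤ (((low k m).filter fun x => Irreducible (N ^ 2 + x) ∧
      Irreducible ((N + g) ^ 2 - x)).card : ℝ) := by
    unfold PI2
    refine Nat.cast_le.2 (card_le_card_of_injOn (fun f => f - N ^ 2) (fun f hf => ?_)
      fun _ _ _ _ e => sub_left_injective e)
    obtain ⟨b1, b2, b3⟩ := mem_filter.1 (mem_coe.1 hf)
    refine mem_coe.2 (mem_filter.2 ⟨(mem_Wn.1 b1).2.1, by simpa using b2, ?_⟩)
    rwa [show (N + g) ^ 2 - (f - N ^ 2) = f + g ^ 2 by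
      linear_combination (N ^ 2 + N * g - f) * h2]
  rw [hf, Set.ncard_coe_finset]
  rw [QQ, natDegree_pow, hd, div_le_iff₀ (pow_pos qq_pos _)] at key
  have hq : (0 : ℝ) ≤ qq k ^ (2 * g.natDegree) := (pow_pos qq_pos _).le
  have : qq k ^ m ≤ 512 * qq k ^ (2 * g.natDegree) * (N.natDegree : ℝ) ^ 2 *
      (((low k m).filter fun x => Irreducible (N ^ 2 + x) ∧
        Irreducible ((N + g) ^ 2 - x)).card : ℝ) := by
    refine key.trans ?_
    push_cast
    calc _ = 512 * qq k ^ (2 * g.natDegree) * (N.natDegree : ℝ) ^ 2 *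
          PI2 (N ^ 2) (g ^ 2) m := by ring
      _ ≤ _ := by gcongr
  unfold qq at this
  exact_mod_cast this

end Pool.Agent.P.MP_e94e4b_nt.RP
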