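import Pool.Agent.P.MP_e94e4b_nt.RP.IfW

/-! Step AX. -/

set_option autoImplicit false
set_option linter.unusedSectionVars false

namespace Pool.Agent.P.MP_e94e4b_nt.RP

open Polynomial Finset
open Pool.Agent.P.MP_8be758_nt Pool.Agent.P.MP_8be758_nt.C2 Pool.Agent.P.MP_8be758_nt.L2
open Pool.Agent.P.MP_e94e4b_nt.LG
open scoped Classical

theorem AX_num {w l x A B A' B' : ℝ} (h : |w - l| ≤ x) (hA : |A| ≤ A') (hB : |B| ≤ B') :
    |w * (A * B) - l * (A * B)| ≤ x * (A' * B') := by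
  rw [← sub_mul, abs_mul, abs_mul]
  exact mul_le_mul h (mul_le_mul hA hB (abs_nonneg _) ((abs_nonneg _).trans hA))
    (by positivity) ((abs_nonneg _).trans h)

theorem p_AX (hWB : S_WB) (hPW : S_PW) (hDSB : S_DSB) (hUB : S_UB) :
    S_AX := by
  intro k _ _ _ F h M Z δ i j β E lam xi C hi hj
  have U := fun a ha => (hUB k F h M Z δ a (F.natDegree - j) E lam xi _ _ C (av_nonneg _)
    (av_nonneg _) (on_av _) (on_av _) ha).2
  have key : ∀ f ∈ Wn F h M, (f.Monic ∧ f.natDegree = F.natDegree) ∧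
      |DM (F.natDegree - j) (av (Pr k Z)) (f + h)| ≤ DS (F.natDegree - j) (av (Pr k Z)) (f + h) ∧
      ∀ A : ℝ, av (Pr k Z) (f * (f + h)) * (A * DS j mu (f + h)) =
        av (Pr k Z) (f * (f + h)) * (A * DM (F.natDegree - j) (av (Pr k Z)) (f + h)) := by
    intro f hf
    obtain ⟨f1, m1, -⟩ := hWB k F h f M C.mon C.adm.1 C.hM C.le hf
    obtain ⟨m1, m2⟩ := mem_Mo.1 m1
    refine ⟨mem_Mo.1 f1, (hDSB k _ _ _ 0 mu m1 (by omega)).1, fun A => ?_⟩
    by_cases ha : Av (Pr k Z) (f * (f + h))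
    · rw [((hDSB k _ _ j 0 mu m1 (by omega)).2.2 (ha.of_dvd (dvd_mul_left _ _))).2.1, m2]
    · rw [av_of_not ha, zero_mul, zero_mul]
  refine ⟨fun ha => le_trans ?_ (U i ha), fun hβ ha => le_trans ?_ (U β ha)⟩ <;>
    rw [CC, BS, BS, ← sum_sub_distrib] <;>
    refine (abs_sum_le_sum_abs _ _).trans (sum_le_sum fun f hf => ?_) <;>
    obtain ⟨⟨f1, f2⟩, k1, k2⟩ := key f hf <;>
    obtain ⟨p1, -, p3, p4⟩ := hPW k F h f M Z δ E lam xi C hf <;>
    obtain ⟨-, -, d3⟩ := hDSB k f (Pr k Z) i β mu f1 (by omega) <;>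
    rw [k2]
  · have e : ∀ B : ℝ, av (Pr k Z) (f * (f + h)) * (DS i mu f * B) =
        av (Pr k Z) (f * (f + h)) * (DS i (ma (Pr k Z)) f * B) := fun B => by
      by_cases ha : Av (Pr k Z) (f * (f + h))
      · rw [(d3 (ha.of_dvd (dvd_mul_right _ _))).1]; rfl
      · rw [av_of_not ha, zero_mul, zero_mul]
    rw [e]
    exact AX_num p3 ((abs_DS_le _ _ _).trans (DS_mono (abs_ma_le _) _)) k1
  · by_cases ha : Av (Pr k Z) f
    · rw [av_of ha, one_mul, ← p4 ha, mul_left_comm (DS i mu f)]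
      exact AX_num p3 ((d3 ha).2.2 (f2 ▸ hβ)) k1
    · rw [p1, av_of_not ha]
      simp only [zero_mul, sub_self, abs_zero]
      exact mul_nonneg ((abs_nonneg _).trans p3)
        (mul_nonneg (DS_nonneg (av_nonneg _) _) (DS_nonneg (av_nonneg _) _))

end Pool.Agent.P.MP_e94e4b_nt.RP
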