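import Pool.Agent.P.MP_e94e4b_nt.RP.IfC
import Pool.Agent.P.MP_e94e4b_nt.RP.IfW

/-! Step CA. -/

set_option autoImplicit false
set_option linter.unusedSectionVars false

namespace Pool.Agent.P.MP_e94e4b_nt.RP

open Polynomial Finset
open Pool.Agent.P.MP_8be758_nt Pool.Agent.P.MP_8be758_nt.C2 Pool.Agent.P.MP_8be758_nt.L2
open Pool.Agent.P.MP_e94e4b_nt.LG
open scoped Classical

theorem p_CA (hAX : S_AX) (hAS : S_AS) (hLAMB : S_LAMB) :
    S_CA := by
  obtain ⟨κ5, D0, k1, hS⟩ := hAS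
  refine ⟨κ5, k1, fun t ht => ⟨2 ^ t, Nat.one_le_two_pow, fun k _ _ _ h => ?_⟩⟩
  obtain ⟨n1, hL⟩ := hLAMB (2 ^ t) Nat.one_le_two_pow k
  refine ⟨n1 + 2 * D0 + 2 ^ t, fun F M u E lam xi C hn hu hM i j hi hj hj' => ?_⟩
  have q0 : (0 : ℝ) < qq k := qq_pos
  have z1 : 1 ≤ F.natDegree / 2 ^ t := (Nat.le_div_iff_mul_le (by positivity)).2 (by omega)
  have z2 : 3 * (F.natDegree / 2 ^ t) ≤ dl F.natDegree t := Nat.mul_le_mul_right _ (by omega)
  have z3 : 2 * (150 * dl F.natDegree t * κ5) ≤ F.natDegree :=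
    calc _ = 300 * κ5 * (10 * t + 3) * (F.natDegree / 2 ^ t) := by unfold dl; ring
      _ ≤ 2 ^ t * (F.natDegree / 2 ^ t) := Nat.mul_le_mul_right _ ht
      _ ≤ _ := Nat.mul_div_le _ _
  have z4 : 150 * dl F.natDegree t ≤ j / κ5 := (Nat.le_div_iff_mul_le k1).2 (by omega)
  have z5 : j / κ5 ≤ j := Nat.div_le_self _ _
  have hu' : u ≤ F.natDegree / 2 ^ t := hu
  have h1 := (hAX k F h M _ _ i j i E lam xi C (by omega) hj').1 (by omega)
  have h2 := hS k F h M _ _ i (F.natDegree - j) j _ lam C.mon C.adm.1 C.hM C.le C.sv.l1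
    (hL F.natDegree (by omega) _ _ lam isPr_T2 C.sv.l1 (by omega)).1 (by omega) (by omega)
    (by omega)
  generalize ∑ f ∈ Wn F h M, sw lam (f * (f + h)) * (DS i (ma (Pr k (zz F.natDegree t))) f *
    DM (F.natDegree - j) (av (Pr k (zz F.natDegree t))) (f + h)) = S at h1 h2
  have h3 : |S| ≤ qq k ^ M / qq k ^ (F.natDegree / 2 ^ t) := by
    rw [le_div_iff₀ (by positivity)]
    refine le_of_mul_le_mul_right ?_ (pow_pos q0 (j / κ5))
    rw [mul_right_comm]
    refine (mul_le_mul_of_nonneg_right h2 (by positivity)).trans ?_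
    rw [← pow_add, ← pow_add, ← pow_add]
    exact qq_pow_mono (by omega)
  have h4 := abs_add_le (CC F h M (zz F.natDegree t) i j - S) S
  rw [sub_add_cancel] at h4
  linarith

end Pool.Agent.P.MP_e94e4b_nt.RP
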