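import Pool.Agent.P.MP_e94e4b_nt.RP.IfW
import Pool.Agent.P.MP_e94e4b_nt.RP.IfS

/-! Step CG. -/

set_option autoImplicit false
set_option linter.unusedSectionVars false

namespace Pool.Agent.P.MP_e94e4b_nt.RP

open Polynomial Finset
open Pool.Agent.P.MP_8be758_nt Pool.Agent.P.MP_8be758_nt.C2 Pool.Agent.P.MP_8be758_nt.L2
open Pool.Agent.P.MP_e94e4b_nt.LG
open scoped Classical

theorem p_CG (hPW : S_PW) (hXP : S_XP) (hM2 : S_M2) (hADM : S_ADM) :
    S_CG := by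
  intro k _ _ _ F h M Z δ i j E lam xi α α' c b b' o o'
  have h1 : |BS F h M (av (Pr k Z)) i α j α' - BS F h M (sw lam) i α j α'| ≤
      BS F h M (sw xi) i (fun d => |α d|) j fun d => |α' d| := by
    rw [BS, BS, ← sum_sub_distrib]
    refine (abs_sum_le_sum_abs _ _).trans (sum_le_sum fun f hf => ?_)
    have := (hPW k F h f M Z δ E lam xi c hf).2.2.1
    rw [← sub_mul, abs_mul, abs_mul]
    exact mul_le_mul this (mul_le_mul (abs_DS_le _ _ _) (abs_DS_le _ _ _) (abs_nonneg _)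
      (DS_nonneg (fun _ => abs_nonneg _) _)) (by positivity) ((abs_nonneg _).trans this)
  rw [(hXP k F h M Z δ i j xi _ _ c.mon c.adm.1 c.hZ c.hM c.le c.sv.l2 o.abs o'.abs).1,
    (hXP k F h M Z δ i j lam _ _ c.mon c.adm.1 c.hZ c.hM c.le c.sv.l1 o o').1] at h1
  have h2 := (hM2 k Z i j α α').1 b b' o
  obtain ⟨h3, h4⟩ := (hM2 k Z i j (fun d => |α d|) fun d => |α' d|).2 (fun _ => abs_nonneg _)
    fun _ => abs_nonneg _
  have h5 := h4.trans (mul_le_mul (mn_mono fun d _ => abs_le_av b o d)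
    (mn_mono fun d _ => abs_le_av b' o' d) (mn_nonneg fun _ => abs_nonneg _) (rho_nonneg _ i))
  have hQ := (QQ_pos h M).le
  have v1 := (hADM k h Z c.adm).2.2
  have v0 := c.sv.e0
  have e0 := v0.trans c.sv.e1
  have e2 : EE (pc 2) (T2 h Z) lam ≤ 2 := c.sv.e2.trans (by nlinarith [c.E1])
  have h6 : QQ h M * EE (pc 2) (T2 h Z) xi * m2 i (fun d => |α d|) j (fun d => |α' d|) ≤
      QQ h M * (E * VV (pc 2) (T2 h Z)) * (rho (Pr k Z) i * rho (Pr k Z) j) :=
    mul_le_mul (mul_le_mul_of_nonneg_left c.sv.e4 hQ) h5 h3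
      (mul_nonneg hQ (mul_nonneg c.E0 v0))
  have h7 : |QQ h M * EE (pc 2) (T2 h Z) lam * (m2 i α j α' - mn i α * mn j α')| ≤
      QQ h M * 2 * (2 / qq k ^ Z) := by
    rw [abs_mul, abs_of_nonneg (mul_nonneg hQ e0)]
    exact mul_le_mul (mul_le_mul_of_nonneg_left e2 hQ) h2 (abs_nonneg _) (by positivity)
  rw [show QQ h M * 2 * (2 / qq k ^ Z) = 4 * QQ h M / qq k ^ Z by ring] at h7
  have h8 := le_abs_self (RM F h M (T2 h Z) xi i (fun d => |α d|) j fun d => |α' d|)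
  have h9 := abs_le.1 (le_refl |RM F h M (T2 h Z) lam i α j α'|)
  rw [abs_le] at h1 h7 ⊢
  constructor <;> linarith [h1.1, h1.2, h7.1, h7.2, h9.1, h9.2]

end Pool.Agent.P.MP_e94e4b_nt.RP
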