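import Pool.Agent.P.MP_e94e4b_nt.RP.IfC
import Pool.Agent.P.MP_e94e4b_nt.RP.If0
import Pool.Agent.P.MP_e94e4b_nt.RP.IfW

/-! Step CT1. -/

set_option autoImplicit false
set_option linter.unusedSectionVars false

namespace Pool.Agent.P.MP_e94e4b_nt.RP

open Polynomial Finset
open Pool.Agent.P.MP_8be758_nt Pool.Agent.P.MP_8be758_nt.C2 Pool.Agent.P.MP_8be758_nt.L2
open Pool.Agent.P.MP_e94e4b_nt.LG
open scoped Classical

theorem CT1_half (k : Type) [Field k] [Finite k] (a b c d : ℕ) (h : a + d + 1 ≤ c + b) :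
    qq k ^ a / qq k ^ b ≤ qq k ^ c / qq k ^ d / 2 := by
  have q0 : (0 : ℝ) < qq k := qq_pos
  rw [div_div, div_le_div_iff₀ (by positivity) (by positivity), ← pow_add]
  calc qq k ^ a * (qq k ^ d * 2) ≤ qq k ^ a * (qq k ^ d * qq k) := by gcongr; exact two_le_qq
    _ = qq k ^ (a + d + 1) := by ring
    _ ≤ _ := qq_pow_mono h

theorem p_CT1 (hT : S_T) (hTW : S_TW) (hTA1 : S_TA1) (hAX : S_AX) (hDSB : S_DSB) (hDIV : S_DIV) (hLAMB : S_LAMB) :
    S_CT1 := by
  intro t K0 hK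
  have h2t : 1 ≤ 2 ^ t := Nat.one_le_two_pow
  obtain ⟨κT, hκT, hT⟩ := hT K0 (by omega)
  obtain ⟨κ, hκe⟩ : ∃ κ, κ = 8 * κT * 2 ^ t := ⟨_, rfl⟩
  have hκ : 1 ≤ κ := by rw [hκe]; exact Nat.mul_pos (by omega) h2t
  refine ⟨κ, hκ, fun k _ _ _ h => ?_⟩
  by_cases hh : h = 0
  · exact ⟨0, fun F M E lam xi hc => absurd hh hc.adm.1⟩
  obtain ⟨n1, hn1⟩ := hT k h hh
  obtain ⟨n2, hn2⟩ := hDIV κ hκ k
  obtain ⟨n3, hn3⟩ := hLAMB κ hκ k
  refine ⟨n1 + n2 + n3 + κ, fun F M E lam xi hc hn hM i j β hi hj hβ h1 h2 => ?_⟩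
  have q0 : (0 : ℝ) < qq k := qq_pos
  have hw0 : 1 ≤ F.natDegree / κ := by rw [Nat.le_div_iff_mul_le (by omega)]; omega
  have hw : F.natDegree / κ * (8 * κT * 2 ^ t) ≤ F.natDegree := hκe ▸ Nat.div_mul_le_self _ _
  have hw1 : 8 * (F.natDegree / κ) ≤ F.natDegree / κT := by
    rw [Nat.le_div_iff_mul_le (by omega)]
    refine le_trans ?_ hw
    calc 8 * (F.natDegree / κ) * κT = F.natDegree / κ * (8 * κT * 1) := by ring
      _ ≤ _ := by gcongr
  have hw2 : 8 * (F.natDegree / κ) ≤ zz F.natDegree t := by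
    rw [zz, Nat.le_div_iff_mul_le (by omega)]
    refine le_trans ?_ hw
    calc 8 * (F.natDegree / κ) * 2 ^ t = F.natDegree / κ * (8 * 1 * 2 ^ t) := by ring
      _ ≤ _ := by gcongr
  have hZ : zz F.natDegree t ≤ dl F.natDegree t := Nat.le_mul_of_pos_left _ (by omega)
  have hu : F.natDegree / K0 ≤ zz F.natDegree t := Nat.div_le_div_left hK h2t
  have hg := hc.hZ
  have hy : F.natDegree - j ≤ β := le_trans (Nat.le_add_right _ _) h2
  have hA := (hAX k F h M _ _ i j β E lam xi hc hi hj).2 hβ (by omega)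
  have hB := hn1 F M β (F.natDegree - j) (dl F.natDegree t) hc.mon (by omega) hc.le (by omega) h2
    (by omega)
  obtain ⟨l1, l2⟩ := hn3 F.natDegree (by omega) _ _ lam isPr_T2 hc.sv.l1 (by omega)
  have hτ : ∀ m ∈ Mo k F.natDegree, nd m ≤ qq k ^ (F.natDegree / κ) := fun m hm =>
    hn2 F.natDegree (by omega) m (mem_Mo.1 hm).1.ne_zero (by have := (mem_Mo.1 hm).2; omega)
  have hW := hTW k F h M (zz F.natDegree t) i β
    (fun m => sw lam m * DM (F.natDegree - j) (av (Pr k (zz F.natDegree t))) m) _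
    (qq k ^ (F.natDegree / κ) * qq k ^ (F.natDegree / κ)) _ hc.mon hh hc.hM hc.le hi hβ
    (fun c c1 c2 => hTA1 k F h M _ _ β _ _ _ lam c hc.mon hh hc.hM hc.le hc.sv.l1
      (by positivity) l1 hB c1 c2)
    (fun m hm => by
      obtain ⟨m1, m2⟩ := mem_Mo.1 hm
      rw [abs_mul]
      refine mul_le_mul (l2 m hm) ?_ (abs_nonneg _) (by positivity)
      exact (hDSB k m _ _ 0 mu m1 (by omega)).1.trans ((le_abs_self _).trans
        ((DS_le_nd (bd_av _) m1.ne_zero).trans (hτ m hm)))) hτ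
  have e1 := CT1_half k (F.natDegree / κ + F.natDegree) (F.natDegree / κT) M (F.natDegree / κ)
    (by omega)
  have e2 := CT1_half k (3 * (F.natDegree / κ) + (F.natDegree + 1)) (zz F.natDegree t) M
    (F.natDegree / κ) (by omega)
  have e3 : qq k ^ (F.natDegree / κ) * (qq k ^ F.natDegree / qq k ^ (F.natDegree / κT)) +
      qq k ^ (F.natDegree / κ) * (qq k ^ (F.natDegree / κ) * qq k ^ (F.natDegree / κ)) *
        (qq k ^ (F.natDegree + 1) / qq k ^ zz F.natDegree t) ≤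
      qq k ^ M / qq k ^ (F.natDegree / κ) := by
    refine le_trans (le_of_eq ?_) ((add_le_add e1 e2).trans_eq (add_halves _))
    ring
  have h3 := hW.trans e3
  rw [abs_le] at hA h3 ⊢
  constructor <;> linarith [hA.1, hA.2, h3.1, h3.2]

end Pool.Agent.P.MP_e94e4b_nt.RP
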