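import Pool.Agent.P.MP_e94e4b_nt.RP.If0

/-! Step CW. -/

set_option autoImplicit false
set_option linter.unusedSectionVars false

namespace Pool.Agent.P.MP_e94e4b_nt.RP

open Polynomial Finset
open Pool.Agent.P.MP_8be758_nt Pool.Agent.P.MP_8be758_nt.C2 Pool.Agent.P.MP_8be758_nt.L2
open Pool.Agent.P.MP_e94e4b_nt.LG
open scoped Classical

theorem p_CW :
    S_CW := by
  intro c κ hκ k _ _
  refine ⟨κ * (2 * c * (Pr k (16 * c * κ)).card), fun n hn S hS hd => ?_⟩
  set t := 16 * c * κ with ht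
  have h1 : (S.filter fun P => P.natDegree ≤ t).card ≤ (Pr k t).card :=
    card_le_card fun P hP => mem_Pr.2 ⟨hS P (mem_filter.1 hP).1, (mem_filter.1 hP).2⟩
  have h2 : (S.filter fun P => ¬ P.natDegree ≤ t).card * t ≤ 4 * n := by
    refine le_trans ?_ ((dg_mono (filter_subset (fun P => ¬ P.natDegree ≤ t) S)).trans hd)
    exact card_nsmul_le_sum _ natDegree t fun P hP => (not_le.1 (mem_filter.1 hP).2).le
  have h3 := card_filter_add_card_filter_not (s := S) fun P => P.natDegree ≤ t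
  have h4 : 2 * c * (Pr k t).card ≤ n / κ := (Nat.le_div_iff_mul_le hκ).2 (by rwa [mul_comm])
  have h5 : 4 * (c * (S.filter fun P => ¬ P.natDegree ≤ t).card) ≤ n / κ :=
    (Nat.le_div_iff_mul_le hκ).2 (by
      generalize (S.filter fun P => ¬ P.natDegree ≤ t).card = w at h2
      rw [ht] at h2; nlinarith)
  have h6 : c * S.card ≤ n / κ := by
    have := Nat.mul_le_mul_left c h1
    rw [← h3, mul_add]
    rw [mul_assoc] at h4
    omega
  calc (c : ℝ) ^ S.card ≤ (2 ^ c) ^ S.card :=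
        pow_le_pow_left₀ (by positivity) (by exact_mod_cast Nat.lt_two_pow_self.le) _
    _ ≤ 2 ^ (n / κ) := by rw [← pow_mul]; exact pow_le_pow_right₀ one_le_two h6
    _ ≤ _ := two_pow_le_qq _

end Pool.Agent.P.MP_e94e4b_nt.RP
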