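import Pool.Agent.P.MP_e94e4b_nt.RP.IfC
import Pool.Agent.P.MP_e94e4b_nt.RP.IfW

/-! Step CX. -/

set_option autoImplicit false
set_option linter.unusedSectionVars false

namespace Pool.Agent.P.MP_e94e4b_nt.RP

open Polynomial Finset
open Pool.Agent.P.MP_8be758_nt Pool.Agent.P.MP_8be758_nt.C2 Pool.Agent.P.MP_8be758_nt.L2
open Pool.Agent.P.MP_e94e4b_nt.LG
open scoped Classical

theorem p_CX (hCG : S_CG) (hXP : S_XP) (hCZ0 : S_CZ0) :
    S_CX := by
  intro t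
  refine ⟨2 ^ (t + 1), Nat.one_le_two_pow, fun k _ _ _ h => ⟨4 * 2 ^ t, ?_⟩⟩
  intro F M δ E lam xi C hn i j hij
  have hZ : 4 ≤ zz F.natDegree t := (Nat.le_div_iff_mul_le (by positivity)).2 hn
  have hd : F.natDegree / 2 ^ (t + 1) = zz F.natDegree t / 2 := by
    rw [zz, Nat.div_div_eq_div_mul, pow_succ]
  rw [hd]
  generalize zz F.natDegree t = Z at *
  have h1 := hCG k F h M Z δ i j E lam xi (ma (Pr k Z)) (ma (Pr k Z)) C (bd_ma _) (bd_ma _)
    (on_ma _) (on_ma _)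
  rw [(hXP k F h M Z δ i j lam _ _ C.mon C.adm.1 C.hZ C.hM C.le C.sv.l1 (on_ma _) (on_ma _)).2 hij,
    (hXP k F h M Z δ i j xi _ _ C.mon C.adm.1 C.hZ C.hM C.le C.sv.l2 (on_ma _).abs
      (on_ma _).abs).2 hij, abs_zero, add_zero, add_zero] at h1
  rw [(hCZ0 k F h M Z δ i j 0 0 E lam xi C).1]
  refine h1.trans (add_le_add le_rfl ?_)
  have q0 : (0 : ℝ) < qq k := qq_pos
  have q1 : 4 * qq k ^ (Z / 2) ≤ qq k ^ Z := by
    have a : (2 : ℝ) ^ 2 ≤ qq k ^ 2 := pow_le_pow_left₀ (by norm_num) two_le_qq 2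
    have b : qq k ^ (2 + Z / 2) ≤ qq k ^ Z := pow_le_pow_right₀ one_le_qq (by omega)
    rw [pow_add] at b
    exact (mul_le_mul_of_nonneg_right (by linarith) (by positivity)).trans b
  rw [div_le_div_iff₀ (by positivity) (by positivity)]
  have a := QQ_le h M
  have b := (QQ_pos h M).le
  calc 4 * QQ h M * qq k ^ (Z / 2) = QQ h M * (4 * qq k ^ (Z / 2)) := by ring
    _ ≤ qq k ^ M * qq k ^ Z := mul_le_mul a q1 (by positivity) (by positivity)

end Pool.Agent.P.MP_e94e4b_nt.RP
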