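import Pool.Agent.P.MP_e94e4b_nt.RP.IfC
import Pool.Agent.P.MP_e94e4b_nt.RP.IfW
import Pool.Agent.P.MP_e94e4b_nt.RP.If0

/-! Step CZ1. -/

set_option autoImplicit false
set_option linter.unusedSectionVars false

namespace Pool.Agent.P.MP_e94e4b_nt.RP

open Polynomial Finset
open Pool.Agent.P.MP_8be758_nt Pool.Agent.P.MP_8be758_nt.C2 Pool.Agent.P.MP_8be758_nt.L2
open Pool.Agent.P.MP_e94e4b_nt.LG
open scoped Classical

theorem CZ1_err {q Q X X' N : ℝ} {w Z M : ℕ} (hq : 1 ≤ q) (hQ : Q ≤ q ^ M) (N1 : 1 ≤ N)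
    (hN : 6 * N ≤ q ^ w) (hw : 3 * w ≤ Z) (hX : X ≤ N * q ^ w * (q ^ M / q ^ Z))
    (hX' : X' ≤ N * q ^ w * (q ^ M / q ^ Z)) : 4 * Q / q ^ Z + X + X' ≤ q ^ M / q ^ w := by
  have h0 : 0 < q := by linarith
  have h1 : 1 ≤ N * q ^ w := one_le_mul_of_one_le_of_one_le N1 (one_le_pow₀ hq)
  have h2 : Q / q ^ Z ≤ N * q ^ w * (q ^ M / q ^ Z) :=
    (div_le_div_of_nonneg_right hQ (by positivity)).trans (le_mul_of_one_le_left (by positivity) h1)
  have h3 : q ^ w * q ^ w * (q ^ M / q ^ Z) ≤ q ^ M / q ^ w := by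
    rw [← mul_div_assoc, div_le_div_iff₀ (by positivity) (by positivity)]
    simp only [← pow_add]
    exact pow_le_pow_right₀ hq (by omega)
  have h4 := mul_le_mul_of_nonneg_right hN (show 0 ≤ q ^ w * (q ^ M / q ^ Z) by positivity)
  rw [mul_div_assoc]
  linarith

theorem p_CZ1 (hCG : S_CG) (hCZ0 : S_CZ0) (hRK2 : S_RK2) (hK : S_K) (hLAMB : S_LAMB) :
    S_CZ1 := by
  intro t c0 hc ht
  refine ⟨2 ^ t * 4, by have := Nat.two_pow_pos t; omega, fun k _ _ _ h => ?_⟩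
  by_cases hh : h = 0
  · exact ⟨0, fun _ _ _ _ _ _ _ c => absurd hh c.adm.1⟩
  obtain ⟨n1, h1⟩ := hK (2 ^ t) (Nat.two_pow_pos t) k h hh
  obtain ⟨n2, h2⟩ := hLAMB (2 ^ t * 4) (by have := Nat.two_pow_pos t; omega) k
  obtain ⟨n3, h3⟩ := NEG 3 (2 ^ t * 4) 6 1 (by have := Nat.two_pow_pos t; omega) one_pos
  refine ⟨n1 + n2 + n3, fun F M u E lam xi α' c hn hu hM b1 b2 i j a1 a2 => ?_⟩
  have z0 : 7200 * dl F.natDegree t ≤ F.natDegree := by
    refine le_trans ?_ (Nat.mul_div_le F.natDegree (2 ^ t))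
    rw [dl, ← mul_assoc]
    exact Nat.mul_le_mul_right _ (le_trans (Nat.mul_le_mul_right _ (by omega)) ht)
  have z1 : 3 * zz F.natDegree t ≤ dl F.natDegree t := Nat.mul_le_mul_right _ (by omega)
  have z2 : 3 * (F.natDegree / (2 ^ t * 4)) ≤ zz F.natDegree t := by
    rw [← Nat.div_div_eq_div_mul, zz]; omega
  have z3 : dl F.natDegree t ≤ F.natDegree := by omega
  have z4 : F.natDegree / (4 * c0) ≤ F.natDegree / 8 := Nat.div_le_div_left (by omega) (by omega)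
  obtain ⟨a1, a3⟩ := a1
  obtain ⟨a2, a4⟩ := a2
  have le := c.le
  generalize F.natDegree / (4 * c0) = J at *
  have kb : ∀ v a a', 700 * dl F.natDegree t < v → v ≤ J → a + a' ≤ dl F.natDegree t →
      KB F h M (i - v + a) v (j + a') (qq k ^ M / qq k ^ zz F.natDegree t) := fun v a a' s1 s2 s =>
    h1 F M _ v (j + a') _ c.mon (by omega) c.hM c.le le_rfl (by omega) (by omega) (by omega)
  have q0 := qq_pos (k := k)
  have N : (J : ℝ) * ((dl F.natDegree t : ℝ) + 1) ^ 2 ≤ ((F.natDegree : ℝ) + 1) ^ 3 := by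
    rw [pow_succ' _ 2]
    exact mul_le_mul (by exact_mod_cast (show J ≤ F.natDegree + 1 by omega))
      (pow_le_pow_left₀ (by positivity) (by exact_mod_cast Nat.succ_le_succ z3) 2) (by positivity)
      (by positivity)
  have hJ : J ≤ i := by omega
  have rk : ∀ lam, Lv (T2 h (zz F.natDegree t)) (dl F.natDegree t) lam → ∀ (ε : ℝ) (α' : k[X] → ℝ),
      |ε| = 1 → Bd α' → On (Pr k (zz F.natDegree t)) α' →
      |RM F h M (T2 h (zz F.natDegree t)) lam i
        (aJ ε (zz F.natDegree t) (700 * dl F.natDegree t) J) j α'| ≤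
      ((F.natDegree : ℝ) + 1) ^ 3 * qq k ^ (F.natDegree / (2 ^ t * 4)) *
        (qq k ^ M / qq k ^ zz F.natDegree t) := fun lam l ε α' b1 b2 b3 => by
    refine (hRK2 k F h M _ _ i j _ J ε _ _ lam α' l
      (h2 _ (le_trans (by omega) hn) _ _ lam isPr_T2 l z3).1 (by positivity) b1 hJ b2 b3 kb).trans ?_
    rw [← mul_assoc, ← mul_assoc]
    exact mul_le_mul_of_nonneg_right (mul_le_mul_of_nonneg_right N (by positivity)) (by positivity)
  refine (hCG k F h M _ _ i j E lam xi _ _ c (fun d => ?_) b1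
    (fun d e => (ite_ne_right_iff.1 e).1.1) b2).trans ?_
  · rw [aJ]; split_ifs <;> simp
  rw [add_assoc, add_assoc, ← add_assoc (_ / _), (hCZ0 k F h M _ _ i j _ J E lam xi c).2.2.2]
  exact add_le_add_right (CZ1_err one_le_qq (QQ_le h M) (one_le_pow₀ (by simp))
    ((h3 F.natDegree (by omega)).trans (by rw [one_mul]; exact two_pow_le_qq _)) z2
    (rk lam c.sv.l1 (-1) _ (by simp) b1 b2) (rk xi c.sv.l2 1 _ (by simp) b1.abs b2.abs)) _

end Pool.Agent.P.MP_e94e4b_nt.RP
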