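import Pool.Agent.P.MP_e94e4b_nt.RP.IfC
import Pool.Agent.P.MP_e94e4b_nt.RP.IfW
import Pool.Agent.P.MP_e94e4b_nt.RP.IfS

/-! Step INP. -/

set_option autoImplicit false
set_option linter.unusedSectionVars false

namespace Pool.Agent.P.MP_e94e4b_nt.RP

open Polynomial Finset
open Pool.Agent.P.MP_8be758_nt Pool.Agent.P.MP_8be758_nt.C2 Pool.Agent.P.MP_8be758_nt.L2
open Pool.Agent.P.MP_e94e4b_nt.LG
open scoped Classical

theorem p_INP (hONE : S_ONE) (hTWO : S_TWO) (hSYM : S_SYM) (hRZ : S_RZ) (hCX : S_CX) (hCK : S_CK) (hCA : S_CA) (hCT1 : S_CT1) (hCT2 : S_CT2) (hCP : S_CP) (hCZ : S_CZ) :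
    S_INP := by
  obtain ⟨C1, c1, hONE⟩ := hONE
  obtain ⟨C2, c2, hTWO⟩ := hTWO
  obtain ⟨CR, cR, hRZ⟩ := hRZ
  obtain ⟨κ5, k5, hCA⟩ := hCA
  obtain ⟨c0, c02, hCZ⟩ := hCZ
  refine ⟨C1 + C2, CR, c0, κ5, by linarith, cR, c02, k5, fun t K0 ht hF hK hc => ?_⟩
  have g0 : 1 * 1 ≤ c0 * κ5 := Nat.mul_le_mul (by omega) k5
  have g1 : 3600 * c0 * (10 * t + 3) ≤ 2 ^ t := by
    refine le_trans (Nat.mul_le_mul_right _ ?_) hc
    exact Nat.le_mul_of_pos_right _ k5
  have g2 : 300 * κ5 * (10 * t + 3) ≤ 2 ^ t := by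
    refine le_trans (Nat.mul_le_mul_right _ (Nat.mul_le_mul_right _ ?_)) hc
    omega
  have g3 : 400 * (10 * t + 3) ≤ 2 ^ t := by
    refine le_trans (Nat.mul_le_mul_right _ ?_) g1
    omega
  obtain ⟨κX, kX, hCX⟩ := hCX t
  obtain ⟨κK, kK, hCK⟩ := hCK t ht
  obtain ⟨κA, kA, hCA⟩ := hCA t g2
  obtain ⟨κ1, k1, hCT1⟩ := hCT1 t K0 hK
  obtain ⟨κ2, k2, hCT2⟩ := hCT2 t K0 hK
  obtain ⟨κZ, kZ, hCZ⟩ := hCZ t g1
  have p2 : 0 < 2 ^ t := Nat.pos_of_ne_zero (by positivity)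
  have p5 : (0 : ℝ) < 2 ^ (5 * t) := by positivity
  obtain ⟨E, hE⟩ : ∃ E : ℝ, E = (C1 + C2) / 2 ^ (5 * t) := ⟨_, rfl⟩
  have E0 : 0 ≤ E := by rw [hE]; exact div_nonneg (by linarith) p5.le
  have E1 : E ≤ 1 := by rw [hE]; exact (div_le_one p5).2 hF
  have E2 : C1 / 2 ^ (5 * t) ≤ E := by rw [hE]; gcongr; linarith
  have E3 : C2 / 2 ^ (5 * t) ≤ E := by rw [hE]; gcongr; linarith
  rw [← hE]
  obtain ⟨κ, hκ⟩ : ∃ κ, κ = κX + κK + κA + κ1 + κ2 + κZ + K0 * 2 := ⟨_, rfl⟩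
  refine ⟨κ, by omega, fun k _ _ _ h hh => ?_⟩
  obtain ⟨nO, hONE⟩ := hONE t E E2 E1 (by omega) k
  obtain ⟨nX, hCX⟩ := hCX k h
  obtain ⟨nK, hCK⟩ := hCK k h
  obtain ⟨nA, hCA⟩ := hCA k h
  obtain ⟨n1, hCT1⟩ := hCT1 k h
  obtain ⟨n2, hCT2⟩ := hCT2 k h
  obtain ⟨nZ, hCZ⟩ := hCZ k h
  refine ⟨nO + nX + nK + nA + n1 + n2 + nZ + (h.natDegree + 1) * 2 ^ t +
    (2 * h.natDegree + 2) * K0, fun F M hm hn hM hw => ?_⟩
  have z1 : h.natDegree + 1 ≤ zz F.natDegree t := (Nat.le_div_iff_mul_le p2).2 (by omega)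
  have u1 : 2 * h.natDegree + 2 ≤ F.natDegree / K0 :=
    (Nat.le_div_iff_mul_le (by omega)).2 (by omega)
  have u2 : F.natDegree / K0 ≤ zz F.natDegree t := Nat.div_le_div_left hK p2
  have dv : ∀ j, 1 ≤ j → j ≤ κ → F.natDegree / κ ≤ F.natDegree / j := fun j a b =>
    Nat.div_le_div_left b a
  have u3 : F.natDegree / κ ≤ F.natDegree / K0 / 2 := by
    rw [Nat.div_div_eq_div_mul]; exact dv _ (by omega) (by omega)
  have u4 : F.natDegree + h.natDegree ≤ M + F.natDegree / K0 := by omega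
  have d1 : zz F.natDegree t ≤ dl F.natDegree t := Nat.le_mul_of_pos_left _ (by omega)
  have d2 : 400 * dl F.natDegree t ≤ F.natDegree := by
    rw [dl, ← mul_assoc]
    exact (Nat.mul_le_mul_right _ g3).trans (Nat.mul_div_le _ _)
  have m1 : h.natDegree < M := by omega
  obtain ⟨lam, xi, hs⟩ := hTWO t (zz F.natDegree t) E E3 E1 (by omega) k h hh
  have ctx : Ctx F h M (zz F.natDegree t) (dl F.natDegree t) E lam xi :=
    ⟨hm, hh, by omega, m1, hM, hs, E0, E1⟩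
  have q0 : (0 : ℝ) < qq k := qq_pos
  have W : ∀ j, 1 ≤ j → j ≤ κ →
      qq k ^ M / qq k ^ (F.natDegree / j) ≤ qq k ^ M / qq k ^ (F.natDegree / κ) := fun j a b =>
    div_le_div_of_nonneg_left (by positivity) (by positivity)
      (pow_le_pow_right₀ one_le_qq (dv j a b))
  obtain ⟨o1, o2⟩ := hONE F.natDegree (by omega)
  have r1 : ∀ j, 1 ≤ j → rho (Pr k (zz F.natDegree t)) j ≤ CR / zz F.natDegree t :=
    fun j hj => hRZ k _ j (by omega) hj
  obtain ⟨c3, z0, z2, z3⟩ := hCZ F M _ E CR lam xi ctx (by omega) u2 u4 r1 fun D a _ => o1 D a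
  have Q0 := (QQ_pos h M).le
  have v0 := hs.e0
  refine ⟨EE (pc 2) (T2 h (zz F.natDegree t)) lam, c3, hs.e1, ?_, o2⟩
  refine
    { a1 := mul_nonneg Q0 v0
      a2 := mul_nonneg Q0 (v0.trans hs.e1)
      a3 := ?_
      a4 := E0
      a5 := by positivity
      a6 := by unfold om0; positivity
      a7 := by unfold lc0; positivity
      a8 := cR
      n1 := by omega
      n2 := d1
      n3 := u2
      n4 := d2
      n5 := u4
      sym := fun i j => hSYM k F h M i j _ _ _ hm hh.1 m1 hM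
      mr := abs_mm_le _
      r0 := rho_le_one _ _
      r1 := r1
      mb := fun D a _ => o1 D a
      cX := fun i j a => (hCX F M _ E lam xi ctx (by omega) i j a).trans
        (add_le_add le_rfl (W _ kX (by omega)))
      cK := fun i j a b c d => (hCK F M _ E lam xi ctx (by omega) u2 u4 i j a b c d).trans
        (add_le_add le_rfl (W _ kK (by omega)))
      cA := fun i j a b c => (hCA F M _ E lam xi ctx (by omega) u2 u4 i j a b c).trans
        (add_le_add le_rfl (W _ kA (by omega)))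
      cT1 := fun i j β a b c d e => (hCT1 F M E lam xi ctx (by omega)
        (hw.trans (Nat.add_le_add_left (dv _ k1 (by omega)) _)) i j β a b c d e).trans
        (add_le_add le_rfl (W _ k1 (by omega)))
      cT2 := fun i j β a b c d e => (hCT2 F M E lam xi ctx (by omega)
        (hw.trans (Nat.add_le_add_left (dv _ k2 (by omega)) _)) i j β a b c d e).trans
        (add_le_add le_rfl (W _ k2 (by omega)))
      cP := fun i j β β' a b c d e => hCP k F h M _ _ i j β β' E lam xi ctx a b c d e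
      cZ := fun i j a b => (z2 i j a b).trans (by linarith [W _ kZ (by omega)])
      c30 := z0
      c31 := z3 }
  have := hs.e2
  have h2 : EE (pc 2) (T2 h (zz F.natDegree t)) lam ≤ 2 * VV (pc 2) (T2 h (zz F.natDegree t)) :=
    this.trans (mul_le_mul_of_nonneg_right (by linarith) v0)
  calc _ ≤ QQ h M * (2 * VV (pc 2) (T2 h (zz F.natDegree t))) := mul_le_mul_of_nonneg_left h2 Q0
    _ = _ := by ring

end Pool.Agent.P.MP_e94e4b_nt.RP
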