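import Pool.Agent.P.MP_e94e4b_nt.RP.IfK

/-! Step K. -/

set_option autoImplicit false
set_option linter.unusedSectionVars false

namespace Pool.Agent.P.MP_e94e4b_nt.RP

open Polynomial Finset
open Pool.Agent.P.MP_8be758_nt Pool.Agent.P.MP_8be758_nt.C2 Pool.Agent.P.MP_8be758_nt.L2
open Pool.Agent.P.MP_e94e4b_nt.LG
open scoped Classical

theorem p_K (hCW : S_CW) (hKPH : S_KPH) (hKP : S_KP) (hKB : S_KB) :
    S_K := by
  intro κ hκ k _ _ _ h hh
  have hq := qq_pos (k := k)
  obtain ⟨n1, h1⟩ := hCW 256 κ hκ k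
  obtain ⟨n2, h2⟩ := NEG 1 κ 2 1 hκ one_pos
  refine ⟨n1 + n2, fun F M D j c v hF hn hM hMn hv hD a1 a2 β b1 b2 => ?_⟩
  obtain ⟨l, hl⟩ : ∃ l, l = D + j + c + h.natDegree - M := ⟨_, rfl⟩
  rw [← hl] at a1 a2
  have v1 : 2 * ((F.natDegree : ℝ) + 1) ≤ qq k ^ v := by
    have := h2 F.natDegree (by omega)
    rw [pow_one, one_mul] at this
    exact this.trans ((two_pow_le_qq _).trans (qq_pow_mono hv))
  have v2 : (2 : ℝ) ≤ qq k ^ v := by linarith [Nat.cast_nonneg (α := ℝ) F.natDegree]
  have v3 : (j : ℝ) + 1 ≤ qq k ^ v := by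
    have : (j : ℝ) ≤ 2 * F.natDegree := by exact_mod_cast (Nat.le_add_left j D).trans hD
    linarith
  have v0 : 1 ≤ v := Nat.pos_of_ne_zero fun e => by rw [e, pow_zero] at v2; linarith
  have ab : ∀ A C t : k[X], |ph F h A C t| ≤ 1 := fun A C t => by
    rw [ph, abs_mul, abs_mul, abs_psi, one_mul]
    exact mul_le_one₀ (DEC2_abs _ _ _) (abs_nonneg _) (DEC2_abs _ _ _)
  have one : ∀ t ∈ (low k l).erase 0, ∑ d ∈ Mo k D, ∑ C ∈ Mo k c,
      |∑ p ∈ Mo k j, β d p * ph F h (d * p) C t| ≤ qq k ^ M / qq k ^ v := fun t ht => by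
    have pair : ∀ d ∈ Mo k D, ∀ p ∈ Mo k j ×ˢ Mo k j, β d p.1 * β d p.2 *
        ∑ C ∈ Mo k c, ph F h (d * p.1) C t * ph F h (d * p.2) C t ≤
        qq k ^ c * (1 / qq k ^ (2 * l + 3 * v) + if ¬ ∀ g : k[X], g.Monic → g ∣ p.1 → g ∣ p.2 →
          2 * g.natDegree ≤ j then 1 else 0) := fun d hd p hp => by
      by_cases z : β d p.1 * β d p.2 = 0
      · rw [z, zero_mul]; positivity
      refine (le_abs_self _).trans ?_
      rw [abs_mul, abs_mul]
      refine (mul_le_of_le_one_left (abs_nonneg _)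
        (mul_le_one₀ (b1 _ _) (abs_nonneg _) (b1 _ _))).trans ?_
      split_ifs with g
      · obtain ⟨p1, p2⟩ := mem_product.1 hp
        have key := hKP k F h t d p.1 p.2 M D j c l (8 * v) hh hM hMn hd p1 p2
          (b2 _ _ (left_ne_zero_of_mul z)) (b2 _ _ (right_ne_zero_of_mul z)) hl
          (ne_of_mem_erase ht) (mem_of_mem_erase ht) g a1 (by omega) a2
        rw [mem_Mo] at hd p1 p2
        have d1 := dg_pf_le (hd.1.mul p1.1).ne_zero
        have d2 := dg_pf_le (hd.1.mul p2.1).ne_zero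
        rw [hd.1.natDegree_mul p1.1] at d1
        rw [hd.1.natDegree_mul p2.1] at d2
        have := h1 F.natDegree (by omega) (pf (d * p.1) ∪ pf (d * p.2))
          (fun P hP => (mem_union.1 hP).elim isPr_of_mem_pf isPr_of_mem_pf)
          ((dg_union_le _ _).trans (by omega))
        have k2 := key.trans (mul_le_mul_of_nonneg_left (this.trans
          (qq_pow_mono (hv.trans (show v ≤ 2 * v by omega)))) (by positivity))
        refine abs_le_of_sq_le_sq' ?_ (by positivity) |> abs_le.2
        rw [add_zero, mul_one_div, div_pow, le_div_iff₀ (by positivity), ← pow_mul, ← pow_mul,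
          mul_comm c]
        refine le_of_mul_le_mul_right (le_of_eq_of_le ?_ k2) (by positivity)
        rw [mul_assoc, ← pow_add]
        congr 2
        ring
      · refine (abs_sum_le_sum_abs _ _).trans ((sum_le_card_nsmul _ _ 1 fun C _ => ?_).trans ?_)
        · rw [abs_mul]; exact mul_le_one₀ (ab _ _ _) (abs_nonneg _) (ab _ _ _)
        · rw [nsmul_eq_mul, card_Mo]
          exact mul_le_mul_of_nonneg_left (le_add_of_nonneg_left (by positivity)) (by positivity)
    have sq : ∀ d ∈ Mo k D, ∑ C ∈ Mo k c, |∑ p ∈ Mo k j, β d p * ph F h (d * p) C t| ^ 2 ≤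
        qq k ^ c * (qq k ^ (2 * j) / qq k ^ (2 * l + 2 * v)) := fun d hd => by
      have := sum_le_sum (pair d hd)
      rw [← mul_sum, sum_add_distrib, sum_boole, sum_const, card_product, nsmul_eq_mul,
        Nat.cast_mul, card_Mo, ← pow_add, ← two_mul] at this
      refine le_trans (le_of_eq ?_) (this.trans (mul_le_mul_of_nonneg_left ?_ (by positivity)))
      · simp only [sq_abs, mul_sum]
        rw [sum_comm]
        refine sum_congr rfl fun C _ => ?_
        rw [pow_two, sum_mul_sum, sum_product]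
        exact sum_congr rfl fun _ _ => sum_congr rfl fun _ _ => by ring
      · have b := (le_div_iff₀ (by positivity)).2 ((mul_le_mul_of_nonneg_left
          (qq_pow_mono (show v + (2 * l + 3 * v) ≤ j / 2 by omega)) (Nat.cast_nonneg _)).trans
          ((hKB k j).trans (mul_le_mul_of_nonneg_right v3 (by positivity))))
        rw [pow_add, mul_div_mul_left _ _ (by positivity)] at b
        refine (add_le_add_right b _).trans ?_
        rw [mul_one_div, ← two_mul, show 2 * l + 3 * v = v + (2 * l + 2 * v) by ring, pow_add,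
          ← mul_div_assoc, ← div_div, mul_div_right_comm]
        exact div_le_div_of_nonneg_right (mul_le_of_le_one_left (by positivity)
          ((div_le_one (by positivity)).2 v2)) (by positivity)
    rw [← sum_product']
    refine abs_le_of_sq_le_sq' (sq_sum_le_card_mul_sum_sq.trans ?_) (by positivity) |>.2
    rw [sum_product, card_product, Nat.cast_mul, card_Mo, card_Mo]
    refine (mul_le_mul_of_nonneg_left (sum_le_card_nsmul _ _ _ sq) (by positivity)).trans ?_
    rw [nsmul_eq_mul, card_Mo, div_pow, ← mul_div_assoc, ← mul_div_assoc, ← mul_div_assoc,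
      div_le_div_iff₀ (by positivity) (by positivity)]
    simp only [← pow_add, ← pow_mul]
    exact qq_pow_mono (by omega)
  have c2 : (((low k l).erase 0).card : ℝ) ≤ qq k ^ l := by
    rw [← card_low']; exact_mod_cast card_erase_le
  refine le_of_mul_le_mul_left (le_trans ?_ ((sum_le_card_nsmul _ _ _ one).trans
    (by rw [nsmul_eq_mul]; exact mul_le_mul_of_nonneg_right c2 (by positivity)))) (pow_pos hq l)
  rw [sum_comm (s := (low k l).erase 0), mul_sum]
  refine sum_le_sum fun d hd => ?_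
  rw [sum_comm (s := (low k l).erase 0), mul_sum]
  refine sum_le_sum fun C hC => le_trans (le_of_eq ?_) (abs_sum_le_sum_abs _ _)
  rw [sum_comm (s := (low k l).erase 0), ← abs_of_pos (pow_pos hq l), ← abs_mul, mul_sum]
  refine congrArg _ (sum_congr rfl fun p hp => ?_)
  rw [mem_Mo] at hd hC hp
  have := hKPH k F h (d * p) C M hF hh hMn (hd.1.mul hp.1) hC.1
  rw [hd.1.natDegree_mul hp.1, hd.2, hp.2, hC.2, ← hl] at this
  rw [← mul_sum, ← this]
  ring

end Pool.Agent.P.MP_e94e4b_nt.RP
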