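import Pool.Agent.P.MP_e94e4b_nt.RP.IfK

/-! Step KPH. -/

set_option autoImplicit false
set_option linter.unusedSectionVars false

namespace Pool.Agent.P.MP_e94e4b_nt.RP

open Polynomial Finset
open Pool.Agent.P.MP_8be758_nt Pool.Agent.P.MP_8be758_nt.C2 Pool.Agent.P.MP_8be758_nt.L2
open Pool.Agent.P.MP_e94e4b_nt.LG
open scoped Classical

theorem p_KPH :
    S_KPH := by
  intro k _ _ _ F h A C M hF hh hM hA hC
  have hq := qq_pos (k := k)
  have h2 : (2 : k[X]) = 0 := CharTwo.two_eq_zero
  by_cases c : IsCoprime A C ∧ IsCoprime (A * C) h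
  swap
  · have e : cnt F h M A C = 0 := by
      rw [cnt, Nat.cast_eq_zero, card_eq_zero, filter_eq_empty_iff]
      rintro f hf ⟨⟨a, ha⟩, b, hb⟩
      obtain ⟨s, hs⟩ := (mem_filter.1 hf).2.2
      exact c ⟨⟨a * (1 + s), -(s * b), by linear_combination hs - (1 + s) * ha + s * hb⟩,
        IsCoprime.mul_left ⟨a, -s, by linear_combination hs - ha⟩
          ⟨b, -(s + 1), by linear_combination hs - hb⟩⟩
    rw [rm, e, ex, if_neg c, sub_zero, zero_mul, sum_eq_zero fun t _ => ?_]
    rcases not_and_or.1 c with c | c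
    · rw [ph, K_zero c, mul_zero]
    · rw [ph, K_zero fun e => c e.symm, mul_zero, zero_mul]
  obtain ⟨w, u, hw⟩ := K_inv.2 c.1
  obtain ⟨v, z, hv⟩ := K_inv.2 c.2.symm
  have hAC := mul_ne_zero hA.ne_zero hC.ne_zero
  have hQ := mul_ne_zero hAC hh
  have dQ : (A * C * h).natDegree = A.natDegree + C.natDegree + h.natDegree := by
    rw [natDegree_mul hAC hh, natDegree_mul hA.ne_zero hC.ne_zero]
  have e : cnt F h M A C = ((low k M).filter fun x =>
      A * C * h ∣ F + h + h * C * w + A * C * v + x).card := by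
    rw [cnt, Wn, filter_filter, Nat.cast_inj]
    refine card_nbij' (fun f => f - F) (fun x => F + x) (fun f hf => ?_) (fun x hx => ?_)
      (fun f _ => by simp) fun x _ => by simp
    · obtain ⟨_, ⟨f1, s, hs⟩, ⟨a, ha⟩, b, hb⟩ := mem_filter.1 (mem_coe.1 hf)
      refine mem_coe.2 (mem_filter.2 ⟨f1, c.2.mul_dvd (c.1.mul_dvd
        ⟨a + h * u + C * v, by linear_combination ha + h * hw + h * h2⟩
        ⟨b + h * w + A * v, by linear_combination hb⟩)
        ⟨s + 1 + C * w + z, by linear_combination hs + hv + h2⟩⟩)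
    · obtain ⟨x1, s, hs⟩ := mem_filter.1 (mem_coe.1 hx)
      exact mem_coe.2 (mem_filter.2 ⟨mem_Mo.2 (monic_add_low hF x1 hM), ⟨by simpa using x1,
        A * C * s - 1 - C * w - z, by linear_combination hs - hv - h2⟩,
        ⟨C * h * s - h * u - C * v, by linear_combination hs - h * hw - h * h2⟩,
        A * h * s - h * w - A * v, by linear_combination hs⟩)
  have p : ∀ t, ph F h A C t = psi (res (A * C * h) (t * (F + h + h * C * w + A * C * v))) := by
    intro t
    rw [ph, DEC2_eq ⟨z, hv⟩, DEC2_eq ⟨u, hw⟩, ← psi_add, ← psi_add, ← res_mul_mul h _ hAC,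
      ← res_mul_mul A _ (mul_ne_zero hC.ne_zero hh), mul_comm h (A * C), ← mul_assoc A,
      ← res_add, ← res_add]
    congr 2
    ring
  rw [rm, e, ex, if_pos c, QQ, div_div, ← pow_add, add_comm h.natDegree, ← dQ]
  rcases le_total M (A * C * h).natDegree with l | l
  · have := AP_cnt a_ORTH hQ (F + h + h * C * w + A * C * v) l
    rw [← add_sum_erase _ _ (zero_mem_low _), zero_mul, res_zero, psi_zero] at this
    rw [sub_mul, this, sum_congr rfl fun t _ => p t, div_mul_eq_mul_div, ← pow_add,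
      Nat.add_sub_cancel' l, div_self (by positivity), add_sub_cancel_left]
  · rw [card_low_class hQ _ l, pow_sub₀ _ hq.ne' l, div_eq_mul_inv, sub_self, zero_mul,
      Nat.sub_eq_zero_of_le l]
    exact (sum_eq_zero fun t ht => absurd (mem_low_zero.1 (mem_of_mem_erase ht))
      (ne_of_mem_erase ht)).symm

end Pool.Agent.P.MP_e94e4b_nt.RP
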