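import Pool.Agent.P.MP_e94e4b_nt.RP.IfS

/-! Step MUR. -/

set_option autoImplicit false
set_option linter.unusedSectionVars false

namespace Pool.Agent.P.MP_e94e4b_nt.RP

open Polynomial Finset
open Pool.Agent.P.MP_8be758_nt Pool.Agent.P.MP_8be758_nt.C2 Pool.Agent.P.MP_8be758_nt.L2
open Pool.Agent.P.MP_e94e4b_nt.LG
open scoped Classical

theorem p_MUR (hEQ : S_EQ) (hMUS : S_MUS) :
    S_MUR := by
  intro k _ _ T δ D E lam xi hT hS hD
  have hpt : ∀ d ∈ Mo k D, |ma T d - mu d * sw lam d| ≤ sw xi d := by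
    intro d hd
    have h0 : d ≠ 0 := (mem_Mo.1 hd).1.ne_zero
    have h1 : |av T d - sw lam d| ≤ sw xi d := by
      by_cases h : Av T d
      · rw [av_of h, sw, hS.one _ ((Av_iff hT h0).1 h), sub_self, abs_zero]
        exact (hS.pos _).2
      · rw [av_of_not h, zero_sub, abs_neg, sw, abs_of_nonneg (hS.pos _).1]
        exact hS.dom _ fun h' => h ((Av_iff hT h0).2 h')
    rw [ma, ← mul_sub, abs_mul]
    exact (mul_le_of_le_one_left (abs_nonneg _) (abs_mu_le _)).trans h1
  have h2 : |mn D fun d => ma T d - mu d * sw lam d| ≤ E * VV (pc 1) T :=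
    ((abs_mn_le D _).trans (mn_mono hpt)).trans ((hEQ k T δ D xi hT hS.l2 hD).trans_le hS.e4)
  have h3 := hMUS k T δ D lam hT hS.l1 hD
  rw [mn_sub] at h2
  have h4 : mm T D = (mn D (ma T) - mn D fun d => mu d * sw lam d) +
      mn D fun d => mu d * sw lam d := by rw [mm]; ring
  rw [h4]
  exact (abs_add_le _ _).trans (add_le_add h2 h3)

end Pool.Agent.P.MP_e94e4b_nt.RP
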