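import Pool.Agent.P.MP_e94e4b_nt.RP.IfS

/-! Step RJ. -/

set_option autoImplicit false
set_option linter.unusedSectionVars false

namespace Pool.Agent.P.MP_e94e4b_nt.RP

open Polynomial Finset
open Pool.Agent.P.MP_8be758_nt Pool.Agent.P.MP_8be758_nt.C2 Pool.Agent.P.MP_8be758_nt.L2
open Pool.Agent.P.MP_e94e4b_nt.LG
open scoped Classical

theorem p_RJ (hRHO : S_RHO) (hMER1 : S_MER1) (hMER2 : S_MER2) :
    S_RJ := by
  obtain ⟨c0, hc0, hR⟩ := hRHO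
  refine ⟨c0, hc0, ?_⟩
  intro k _ _ Z a b j hZ hZa hab hj
  have hsub : Pr k Z ∪ JJ k a b ⊆ Pr k b := by
    intro P hP
    rcases mem_union.1 hP with h | h
    · rw [mem_Pr] at h ⊢
      exact ⟨h.1, h.2.trans (hZa.trans hab)⟩
    · exact (mem_sdiff.1 h).1
  have hdis : Disjoint (Pr k Z) (JJ k a b) := by
    rw [Finset.disjoint_left]
    intro P h1 h2
    apply (mem_sdiff.1 h2).2
    rw [mem_Pr] at h1 ⊢
    exact ⟨h1.1, h1.2.trans hZa⟩
  have h1 := hR k _ b j hsub (by omega) hj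
  have hV : VV (pc 1) (Pr k Z ∪ JJ k a b) = VV (pc 1) (Pr k Z) * VV (pc 1) (JJ k a b) := by
    unfold VV
    exact prod_union hdis
  obtain ⟨m1, m2⟩ := hMER1 k Z
  obtain ⟨n1, n2⟩ := hMER2 k a b (by omega) hab
  have hb : (0 : ℝ) < (b : ℝ) + 1 := by positivity
  have hZ0 : (0 : ℝ) < (Z : ℝ) := by
    have : 0 < Z := by omega
    exact_mod_cast this
  have hs : VV (pc 1) (JJ k a b) ≤ √(((a : ℝ) + 1) / ((b : ℝ) + 1)) := by
    apply Real.le_sqrt_of_sq_le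
    rw [le_div_iff₀ hb]
    exact n2
  have hz : VV (pc 1) (Pr k Z) ≤ 1 / Z := by
    rw [le_div_iff₀ hZ0]
    nlinarith
  rw [hV] at h1
  have h3 : VV (pc 1) (Pr k Z) * VV (pc 1) (JJ k a b)
      ≤ (1 / Z) * √(((a : ℝ) + 1) / ((b : ℝ) + 1)) :=
    mul_le_mul hz hs n1 (by positivity)
  calc _ ≤ _ := h1
    _ ≤ 2 * ((1 / Z) * √(((a : ℝ) + 1) / ((b : ℝ) + 1))) := by linarith
    _ = _ := by ring

end Pool.Agent.P.MP_e94e4b_nt.RP
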