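import Pool.Agent.P.MP_e94e4b_nt.RP.IfW

/-! Step RK1. -/

set_option autoImplicit false
set_option linter.unusedSectionVars false

namespace Pool.Agent.P.MP_e94e4b_nt.RP

open Polynomial Finset
open Pool.Agent.P.MP_8be758_nt Pool.Agent.P.MP_8be758_nt.C2 Pool.Agent.P.MP_8be758_nt.L2
open Pool.Agent.P.MP_e94e4b_nt.LG
open scoped Classical

theorem p_RK1 (hRK0 : S_RK0) :
    S_RK1 := by
  intro k _ _ F h M Z δ i j Λ B lam α α' hl hΛ hB a1 a2 a3 a4 a5 hK
  have e : Mo k 0 = {1} := by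
    ext f; rw [mem_Mo, mem_singleton]
    exact ⟨fun a => a.1.natDegree_eq_zero.1 a.2, fun a => by rw [a]; exact ⟨monic_one, natDegree_one⟩⟩
  have := hRK0 k F h M Z δ 0 i j Λ B lam (fun d p => if d = 1 then α p else 0) α' hl hΛ hB
    (fun d p => by split_ifs; exacts [a1 p, by simp]) (fun d p e => by
      obtain ⟨rfl, e'⟩ := ite_ne_right_iff.1 e
      rw [one_mul]; exact ⟨a2 p e', a3 p e'⟩) a4 a5 fun a a' c => by
      rw [zero_add]; exact hK a a' c
  simpa only [RM, e, sum_singleton, if_true, one_mul] using this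

end Pool.Agent.P.MP_e94e4b_nt.RP
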