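import Pool.Agent.P.MP_e94e4b_nt.RP.IfW

/-! Step RK2. -/

set_option autoImplicit false
set_option linter.unusedSectionVars false

namespace Pool.Agent.P.MP_e94e4b_nt.RP

open Polynomial Finset
open Pool.Agent.P.MP_8be758_nt Pool.Agent.P.MP_8be758_nt.C2 Pool.Agent.P.MP_8be758_nt.L2
open Pool.Agent.P.MP_e94e4b_nt.LG
open scoped Classical

theorem p_RK2 (hRK0 : S_RK0) (hRAM : S_RAM) :
    S_RK2 := by
  intro k _ _ F h M Z δ i j J0 J1 ε Λ B lam α' hl hΛ hB hε hJ a1 a2 hK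
  obtain ⟨c, c1, c2, c3⟩ := hRAM k ε Z J0 J1 i hε hJ
  have L0 : 0 ≤ Λ := (abs_nonneg _).trans (hΛ ∅)
  have e : RM F h M (T2 h Z) lam i (aJ ε Z J0 J1) j α' = ∑ u ∈ Ioc J0 J1,
      ∑ S ∈ (T2 h Z).powerset, ∑ S' ∈ (T2 h Z).powerset,
      (if Disjoint S S' then lam (S ∪ S') else 0) * ∑ d ∈ Mo k (i - u), ∑ p ∈ Mo k u,
        ∑ d' ∈ Mo k j, c d p * α' d' * rm F h M (d * p * pr S) (d' * pr S') := by
    rw [RM, sum_comm (s := Ioc J0 J1)]
    refine sum_congr rfl fun S _ => ?_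
    rw [sum_comm (s := Ioc J0 J1)]
    refine sum_congr rfl fun S' _ => ?_
    rw [← mul_sum]
    congr 1
    have := c3 fun d => ∑ d' ∈ Mo k j, α' d' * rm F h M (d * pr S) (d' * pr S')
    simpa only [mul_sum, mul_assoc] using this
  rw [e]
  refine (abs_sum_le_sum_abs _ _).trans ((sum_le_card_nsmul _ _ _ fun u hu =>
    hRK0 k F h M Z δ (i - u) u j Λ B lam c α' hl hΛ hB c1 c2 a1 a2 fun a a' =>
      hK u a a' (mem_Ioc.1 hu).1 (mem_Ioc.1 hu).2).trans ?_)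
  rw [nsmul_eq_mul, Nat.card_Ioc]
  exact mul_le_mul_of_nonneg_right (by exact_mod_cast Nat.sub_le _ _) (by positivity)

end Pool.Agent.P.MP_e94e4b_nt.RP
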