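import Pool.Agent.P.MP_e94e4b_nt.RP.IfW

/-! Step SWX. -/

set_option autoImplicit false
set_option linter.unusedSectionVars false

namespace Pool.Agent.P.MP_e94e4b_nt.RP

open Polynomial Finset
open Pool.Agent.P.MP_8be758_nt Pool.Agent.P.MP_8be758_nt.C2 Pool.Agent.P.MP_8be758_nt.L2
open Pool.Agent.P.MP_e94e4b_nt.LG
open scoped Classical

theorem p_SWX :
    S_SWX := by
  intro k _ _ T lam f m hT hl hf hm hc
  have hd : Disjoint (pf f) (pf m) := disjoint_left.2 fun P h1 h2 => by
    have a := (mem_pf hf).1 h1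
    have b := (mem_pf hm).1 h2
    exact a.1.2.not_isUnit (hc.isUnit_of_dvd' a.2 b.2)
  have hu : pf (f * m) = pf f ∪ pf m := by
    ext P
    rw [mem_union, mem_pf (mul_ne_zero hf hm), mem_pf hf, mem_pf hm]
    exact ⟨fun h => (h.1.prime.dvd_or_dvd h.2).imp (fun x => ⟨h.1, x⟩) (fun x => ⟨h.1, x⟩),
      fun h => h.elim (fun x => ⟨x.1, x.2.mul_right _⟩) (fun x => ⟨x.1, x.2.mul_left _⟩)⟩
  rw [sw, wt_inter hl, hu, ← sum_product', ← sum_filter, wt]
  symm
  refine sum_nbij' (fun x => x.1 ∪ x.2) (fun U => (U ∩ pf f, U ∩ pf m)) ?_ ?_ ?_ ?_ ?_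
  · rintro ⟨S, S'⟩ hx
    simp only [mem_filter, mem_product, mem_powerset] at hx ⊢
    obtain ⟨⟨h1, h2⟩, -, h4, h5⟩ := hx
    have a := (subset_pf_iff hf fun P hP => hT P (h1 hP)).2 h4
    have b := (subset_pf_iff hm fun P hP => hT P (h2 hP)).2 h5
    exact subset_inter (union_subset_union a b) (union_subset h1 h2)
  · intro U hU
    simp only [mem_filter, mem_product, mem_powerset] at hU ⊢
    have hUT : U ⊆ T := hU.trans inter_subset_right
    refine ⟨⟨inter_subset_left.trans hUT, inter_subset_left.trans hUT⟩,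
      hd.mono inter_subset_right inter_subset_right, ?_, ?_⟩
    · exact (subset_pf_iff hf fun P hP => hT P (hUT (inter_subset_left hP))).1 inter_subset_right
    · exact (subset_pf_iff hm fun P hP => hT P (hUT (inter_subset_left hP))).1 inter_subset_right
  · rintro ⟨S, S'⟩ hx
    simp only [mem_filter, mem_product, mem_powerset] at hx
    obtain ⟨⟨h1, h2⟩, -, h4, h5⟩ := hx
    have a := (subset_pf_iff hf fun P hP => hT P (h1 hP)).2 h4
    have b := (subset_pf_iff hm fun P hP => hT P (h2 hP)).2 h5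
    refine Prod.ext ?_ ?_
    · ext P
      simp only [mem_inter, mem_union]
      exact ⟨fun h => h.1.elim id fun x => absurd (b x) (disjoint_left.1 hd h.2),
        fun h => ⟨Or.inl h, a h⟩⟩
    · ext P
      simp only [mem_inter, mem_union]
      exact ⟨fun h => h.1.elim (fun x => absurd h.2 (disjoint_left.1 hd (a x))) id,
        fun h => ⟨Or.inr h, b h⟩⟩
  · intro U hU
    simp only [mem_powerset] at hU
    have := hU.trans inter_subset_left
    simp only
    rw [← inter_union_distrib_left, inter_eq_left.2 this]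
  · rintro ⟨S, S'⟩ _
    rfl

end Pool.Agent.P.MP_e94e4b_nt.RP
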