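import Pool.Agent.P.MP_e94e4b_nt.RP.IfW

/-! Step SYM. -/

set_option autoImplicit false
set_option linter.unusedSectionVars false

namespace Pool.Agent.P.MP_e94e4b_nt.RP

open Polynomial Finset
open Pool.Agent.P.MP_8be758_nt Pool.Agent.P.MP_8be758_nt.C2 Pool.Agent.P.MP_8be758_nt.L2
open Pool.Agent.P.MP_e94e4b_nt.LG
open scoped Classical

theorem p_SYM (hWB : S_WB) :
    S_SYM := by
  intro k _ _ _ F h M i j w α α' hF h0 hM hle
  unfold BS
  refine sum_nbij' (fun f => f + h) (fun f => f + h) ?_ ?_ ?_ ?_ ?_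
  · intro f hf
    exact (hWB k F h f M hF h0 hM hle hf).2.2.1
  · intro f hf
    exact (hWB k F h f M hF h0 hM hle hf).2.2.1
  · intro f hf
    exact (hWB k F h f M hF h0 hM hle hf).2.2.2.1
  · intro f hf
    exact (hWB k F h f M hF h0 hM hle hf).2.2.2.1
  · intro f hf
    have e := (hWB k F h f M hF h0 hM hle hf).2.2.2.1
    simp only [e]
    rw [mul_comm (f + h) f, mul_comm (DS i α f)]

end Pool.Agent.P.MP_e94e4b_nt.RP
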