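import Pool.Agent.P.MP_e94e4b_nt.RP.IfW

/-! Step TA2. -/

set_option autoImplicit false
set_option linter.unusedSectionVars false

namespace Pool.Agent.P.MP_e94e4b_nt.RP

open Polynomial Finset
open Pool.Agent.P.MP_8be758_nt Pool.Agent.P.MP_8be758_nt.C2 Pool.Agent.P.MP_8be758_nt.L2
open Pool.Agent.P.MP_e94e4b_nt.LG
open scoped Classical

theorem p_TA2 (hWB : S_WB) (hTA0 : S_TA0) :
    S_TA2 := by
  intro k _ _ _ F h M Z δ β y ρ Λ B τ lam c hF h0 h1 h2 hL hΛ hl hT hτ hc hs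
  obtain ⟨γ, g1, g2⟩ := hTA0 k _ Z δ y ρ Λ lam (T2_sub h Z) hL hl
  have W := fun f => hWB k F h f M hF h0 h1 h2
  have τ0 : 0 ≤ τ := (Nat.cast_nonneg _).trans (hτ F (mem_Mo.2 ⟨hF, rfl⟩))
  obtain ⟨p, hp⟩ : ∃ p : k[X] → Prop, p = fun f => f ∈ Wn F h M ∧
    ∃ t : k[X], t.Monic ∧ ρ < t.natDegree ∧ t ^ 2 ∣ f + h := ⟨_, rfl⟩
  have c0 : 0 ≤ Λ * τ ^ 3 := by positivity
  have k1 : ∀ a : k[X], |∑ b ∈ Mo k β, if a * b ∈ Wn F h M then
      c b * (sw lam (a * b + h) * DM y (av (Pr k Z)) (a * b + h)) else 0| ≤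
      Λ * ∑ j ∈ range (δ + 1), ∑ e ∈ Mo k (y + j),
        |TI F h M β ρ (fun e b t => c b * γ e t / Λ) e a| +
        ∑ b ∈ Mo k β, if p (a * b) then Λ * τ ^ 3 else 0 := fun a => by
    have e1 : Λ * ∑ j ∈ range (δ + 1), ∑ e ∈ Mo k (y + j),
        TI F h M β ρ (fun e b t => c b * γ e t / Λ) e a = ∑ b ∈ Mo k β,
        if a * b ∈ Wn F h M then c b * ∑ j ∈ range (δ + 1), ∑ e ∈ Mo k (y + j), ∑ t ∈ Mle k ρ,
          if e * t ∣ a * b + h then γ e t * mu ((a * b + h) /ₘ e) else 0 else 0 := by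
      simp only [TI, sum_comm (t := Mo k β), mul_sum]
      refine sum_congr rfl fun b _ => ?_
      split_ifs with w
      · refine sum_congr rfl fun j _ => sum_congr rfl fun e _ => sum_congr rfl fun t _ => ?_
        simp only [w, true_and]
        split_ifs
        · field_simp
        · simp
      · simp [w]
    rw [← sub_le_iff_le_add']
    refine le_trans (sub_le_sub_left (a := |Λ * ∑ j ∈ range (δ + 1), ∑ e ∈ Mo k (y + j),
      TI F h M β ρ (fun e b t => c b * γ e t / Λ) e a|) ?_ _) ?_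
    · rw [abs_mul, abs_of_pos hΛ]
      exact mul_le_mul_of_nonneg_left ((abs_sum_le_sum_abs _ _).trans
        (sum_le_sum fun j _ => abs_sum_le_sum_abs _ _)) hΛ.le
    rw [e1]
    refine (abs_sub_abs_le_abs_sub _ _).trans ?_
    rw [← sum_sub_distrib]
    refine (abs_sum_le_sum_abs _ _).trans (sum_le_sum fun b _ => ?_)
    by_cases w : a * b ∈ Wn F h M
    · have m := (W _ w).2.1
      rw [if_pos w, if_pos w, ← mul_sub, abs_mul]
      refine (mul_le_of_le_one_left (abs_nonneg _) (hc b)).trans ((g2 _ (mem_Mo.1 m).1).trans ?_)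
      simp only [hp, w, true_and]
      split_ifs
      · exact mul_le_mul_of_nonneg_left (pow_le_pow_left₀ (Nat.cast_nonneg _) (hτ _ m) 3) hΛ.le
      · rfl
    · simp [hp, w]
  have k2 : ∑ a ∈ Mo k (F.natDegree - β), ∑ j ∈ range (δ + 1), ∑ e ∈ Mo k (y + j),
      |TI F h M β ρ (fun e b t => c b * γ e t / Λ) e a| ≤ (δ + 1) * B := by
    rw [sum_comm]
    refine (sum_le_card_nsmul _ _ B fun j hj => ?_).trans (by simp)
    rw [sum_comm]
    refine hT j (Nat.lt_succ_iff.1 (mem_range.1 hj)) _ (fun e b t => ?_)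
      fun e b t n => hs b (left_ne_zero_of_mul (div_ne_zero_iff.1 n).1)
    rw [abs_div, abs_mul, abs_of_pos hΛ, div_le_one hΛ]
    exact (mul_le_of_le_one_left (abs_nonneg _) (hc b)).trans (g1 e t)
  have k3 : (((Mo k (F.natDegree - β + β)).filter p).card : ℝ) ≤
      qq k ^ (F.natDegree + 1) / qq k ^ ρ := by
    rw [le_div_iff₀ (pow_pos qq_pos _), qq]
    refine mod_cast le_trans (Nat.mul_le_mul_right _ (card_le_card_of_injOn (· + h)
      (fun f hf => ?_) fun _ _ _ _ e => add_right_cancel e)) (a_TB2 k ρ (F.natDegree + 1))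
    have w := (mem_filter.1 hf).2
    rw [hp] at w
    obtain ⟨m1, m2⟩ := mem_Mo.1 (W _ w.1).2.1
    exact mem_filter.2 ⟨mem_low_of_natDegree_lt (m2.trans_lt (Nat.lt_succ_self _)),
      m1.ne_zero, w.2⟩
  have k4 : ∑ a ∈ Mo k (F.natDegree - β), ∑ b ∈ Mo k β, (if p (a * b) then Λ * τ ^ 3 else 0) ≤
      ∑ f ∈ Mo k (F.natDegree - β + β), if p f then Λ * τ ^ 4 else 0 := by
    rw [← sum_Mo_dvd]
    refine sum_le_sum fun f hf => ?_
    rw [sum_congr rfl (g := fun _ => if p f then Λ * τ ^ 3 else 0) fun d hd => by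
      obtain ⟨d1, u, rfl⟩ := mem_filter.1 hd
      rw [mul_divByMonic_cancel_left _ (mem_Mo.1 d1).1]]
    split_ifs with w
    · rw [sum_const, nsmul_eq_mul, pow_succ τ 3, ← mul_assoc Λ, mul_comm]
      rw [hp] at w
      exact mul_le_mul_of_nonneg_left ((card_le_nd (mem_Mo.1 hf).1.ne_zero fun d hd =>
        ⟨(mem_Mo.1 (mem_filter.1 hd).1).1, (mem_filter.1 hd).2⟩).trans (hτ _ (W _ w.1).1)) c0
    · simp
  rw [← sum_filter, sum_const, nsmul_eq_mul] at k4
  refine (sum_le_sum fun a _ => k1 a).trans ?_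
  rw [sum_add_distrib, ← mul_sum, mul_add]
  refine add_le_add (mul_le_mul_of_nonneg_left k2 hΛ.le) (k4.trans ?_)
  rw [mul_comm, ← mul_assoc]
  exact mul_le_mul_of_nonneg_left k3 (by positivity)

end Pool.Agent.P.MP_e94e4b_nt.RP
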