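import Pool.Agent.P.MP_e94e4b_nt.RP.IfT

/-! Step TCORE. -/

set_option autoImplicit false
set_option linter.unusedSectionVars false

namespace Pool.Agent.P.MP_e94e4b_nt.RP

open Polynomial Finset
open Pool.Agent.P.MP_8be758_nt Pool.Agent.P.MP_8be758_nt.C2 Pool.Agent.P.MP_8be758_nt.L2
open Pool.Agent.P.MP_e94e4b_nt.LG
open scoped Classical

theorem p_TCORE (hTDEC : S_TDEC) (hTPICK : S_TPICK) :
    S_TCORE := by
  intro k _ _ _ U1 V1 B1 U2 V2 B2 Om T1 T2 L H a J η u1 u2 b1 b2 v1 v2 d1 d2 t1 t2 w1 w2 g1 g2 o1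
    o2 o3 hk hH n1 n2 n3 n4 n5 n6 h0 h1 hη
  obtain ⟨s1, hp⟩ := hTPICK k V1 V2 Om T1 L a v1 t1 w1 g1
  obtain ⟨P, hT, V, e, p1, p4⟩ := hp o1 o2 o3
  obtain ⟨hP, dP⟩ := t1 P hT
  have s2 := (hTPICK k V2 V1 Om T2 L a v2 t2 w2 g2).1
  rcases hk P hT with ⟨c1, c2⟩ | ⟨p2, p3⟩
  · rw [sum_eq_zero fun z _ => by
      rw [mu_eo_eq_zero fun h => hP.2.not_isUnit (h.isUnit_of_dvd'
        (dvd_add c1 (c2.mul_right _)) (e ▸ dvd_mul_left _ _)), zero_mul], abs_zero]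
    have := qq_pos (k := k)
    positivity
  obtain ⟨κ, N, ξ, c0, u, b, k1, k2, k3, k4, k5, k6⟩ :=
    P1_dec (L := L + H) u1 b1 e d1 hP p1 p2 p3 n3 (by omega)
  obtain ⟨f, ξ', f2, l3, l4⟩ := hTDEC k U2 V2 B2 P (L + H) L J u2 b2 v2 d2 p4 s2 n6 n4 (by omega)
  have v0 : V ≠ 0 := fun h => p1 (by simp [h])
  have dV : V.natDegree ≤ V1.natDegree := by
    rw [e, natDegree_mul v0 hP.ne_zero]; omega
  have f1 := P1_split (P := P) (Uf := fun z => U1 + B1 * z ^ 2)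
    (fun M z y => ⟨B1 * y * (2 * z + M * y), by ring⟩) J V N
    (P1_fac J V v0 (fun Q j q h => s1 Q j q (h.trans (e ▸ dvd_mul_right _ _))) (by omega)) p1 k2
  have := P1_vdc (u := u) (J := 2 * J) (H := H) hP k4 k5 (by omega) (by omega) (J + J) _ {0}
    (fun z => ξ z * ξ' z) η (PF_mul f2 J _ f1) (singleton_nonempty _) (by simp)
    (by simp [two_mul]) ⟨fun x y => by simp only [k3.1, l3.1]; ring, fun x => by
      rcases k3.2 x with h | h <;> rcases l3.2 x with h' | h' <;> simp [h, h']⟩ h0 h1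
    (by rwa [← two_mul])
  rw [← one_mul |_|, ← k1, ← abs_mul, mul_sum] at this
  refine le_of_eq_of_le (congrArg _ (sum_congr rfl fun z hz => ?_)) this
  rw [k6 _ hz, l4 _ hz, prod_singleton, add_zero]
  ring

end Pool.Agent.P.MP_e94e4b_nt.RP
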