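import Pool.Agent.P.MP_e94e4b_nt.RP.IfT

/-! Step TLN1. -/

set_option autoImplicit false
set_option linter.unusedSectionVars false

namespace Pool.Agent.P.MP_e94e4b_nt.RP

open Polynomial Finset
open Pool.Agent.P.MP_8be758_nt Pool.Agent.P.MP_8be758_nt.C2 Pool.Agent.P.MP_8be758_nt.L2
open Pool.Agent.P.MP_e94e4b_nt.LG
open scoped Classical

namespace TLN1x

variable {k : Type} [Field k] [Finite k] [CharP k 2]

theorem avg {A : Finset k[X]} {Φ : k[X] → ℝ} {v : k[X] → k[X]} {N : ℕ} {c : ℝ}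
    (h1 : ∀ z ∈ low k N, ∀ x ∈ A, x + v z ∈ A)
    (h2 : ∀ x ∈ A, |∑ z ∈ low k N, Φ (x + v z)| ≤ c * qq k ^ N) : |∑ x ∈ A, Φ x| ≤ A.card * c := by
  have q0 : (0 : ℝ) < qq k ^ N := pow_pos qq_pos _
  have h3 := sum_avg A (low k N) v h1 Φ
  rw [card_low'] at h3
  refine le_of_mul_le_mul_left ?_ q0
  rw [← abs_of_pos q0, ← abs_mul, h3, abs_of_pos q0]
  refine (abs_sum_le_sum_abs _ _).trans ((sum_le_card_nsmul _ _ _ h2).trans_eq ?_)
  rw [nsmul_eq_mul]
  ring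

theorem shift_low {e B w z : k[X]} {N j : ℕ} (hz : z ∈ low k N)
    (h : e.natDegree + B.natDegree + 4 * (w.natDegree + N) ≤ j) (hN : 1 ≤ N) :
    e * (B * (w * z) ^ 4) ∈ low k j := by
  have h1 := natDegree_le_of_mem_low hz
  have h2 := natDegree_mul_le (p := e) (q := B * (w * z) ^ 4)
  have h3 := natDegree_mul_le (p := B) (q := (w * z) ^ 4)
  have h4 := natDegree_pow_le (p := w * z) (n := 4)
  have h5 := natDegree_mul_le (p := w) (q := z)
  exact mem_low_of_natDegree_lt (by omega)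

end TLN1x

open TLN1x in
theorem p_TLN1 (hTLN0 : S_TLN0) (hTOM : S_TOM) :
    S_TLN1 := by
  intro k _ _ _ F h e B b1 b2 c c1 c2 n M β y ρ D s s0 σ L H a r p K η Z P h0 hZ he hB hb1 hb2 hc
    hbc hOm hc1 hc2 η0 η1 hη
  obtain ⟨e0, e1⟩ := mem_Mo.1 he
  obtain ⟨B0, B1⟩ := mem_Pd.1 hB
  obtain ⟨u0, u1⟩ := mem_Mo.1 hb1
  obtain ⟨v0, v1⟩ := mem_Mo.1 hb2
  obtain ⟨t1, t2, t3, t4, t5, t6, t7, t8, t9, t10, t11, t12, t13, t14, t15, t16, t17, -⟩ := id P
  have t20 := P.t20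
  have c0 : c ≠ 0 := by
    rintro rfl
    refine hOm ?_
    ext j
    simp [coeff_odp]
  have cd : y + c.natDegree < β := by
    have a1 := sub_mem_low_of_monic u0 v0 (u1.trans v1.symm)
    rw [CharTwo.sub_eq_add, hbc, u1] at a1
    have := natDegree_lt_of_mem_low a1 (mul_ne_zero e0.ne_zero c0)
    rwa [natDegree_mul e0.ne_zero c0, e1] at this
  have od : (odp (b1 * b2 * h * c * B)).natDegree < β + D + h.natDegree := by
    refine natDegree_lt_of_mem_low (odp_mem_low_of_natDegree ?_) hOm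
    have a1 := natDegree_mul_le (p := b1 * b2 * h * c) (q := B)
    have a2 := natDegree_mul_le (p := b1 * b2 * h) (q := c)
    have a3 := natDegree_mul_le (p := b1 * b2) (q := h)
    have a4 := natDegree_mul_le (p := b1) (q := b2)
    omega
  let Q : k[X] → k[X] → k[X] → Prop := fun b r x => x * b ∈ Wn F h M ∧ e * r ∣ x * b + h
  let Φ : k[X] → ℝ := fun x =>
    FW a r s0 (b1 * B) (dd h x b1 e) * FW a r s0 (b2 * B) (dd h x b2 e)
  have key : ∀ r1 ∈ Mle k ρ, ∀ r2 ∈ Mle k ρ,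
      |∑ x ∈ (Mo k (n - β)).filter (fun x => Q b1 r1 x ∧ Q b2 r2 x), Φ x| ≤
        ((Mo k (n - β)).filter (fun x => Q b1 r1 x ∧ Q b2 r2 x)).card * (2 * η * 4 ^ K) := by
    intro r1 hr1 r2 hr2
    obtain ⟨a1, a2⟩ := mem_Mle.1 hr1
    obtain ⟨a3, a4⟩ := mem_Mle.1 hr2
    have w0 : r1 * r2 * h ≠ 0 := mul_ne_zero (a1.mul a3).ne_zero h0
    have w1 : (r1 * r2 * h).natDegree ≤ 2 * ρ + h.natDegree := by
      have a5 := natDegree_mul_le (p := r1 * r2) (q := h)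
      have a6 := natDegree_mul_le (p := r1) (q := r2)
      omega
    refine avg (v := fun z => e * (B * (r1 * r2 * h * z) ^ 4)) (N := L + H) (fun z hz x hx => ?_)
      fun x hx => ?_
    · obtain ⟨x1, x2, x3⟩ := mem_filter.1 hx
      obtain ⟨x4, x5⟩ := mem_Mo.1 x1
      have sh : ∀ b r', b ∈ Mo k β → r' ∣ r1 * r2 → Q b r' x →
          Q b r' (x + e * (B * (r1 * r2 * h * z) ^ 4)) := by
        intro b r' hb hr' hq
        obtain ⟨b0, b3⟩ := mem_Mo.1 hb
        have d1 : r1 * r2 * h ∣ B * (r1 * r2 * h * z) ^ 4 :=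
          ((dvd_mul_right _ z).trans (dvd_pow_self _ (by norm_num))).mul_left B
        refine ⟨?_, ?_⟩
        · rw [add_mul]
          refine add_mem_Wn hq.1 (by rw [x4.natDegree_mul b0]; omega) ?_
            ((((dvd_mul_left h _).trans d1).mul_left e).mul_right b)
          rw [mul_right_comm]
          refine shift_low hz ?_ (by omega)
          rw [e0.natDegree_mul b0]
          omega
        · rw [add_mul, add_right_comm]
          exact dvd_add hq.2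
            ((mul_dvd_mul_left e ((hr'.trans (dvd_mul_right _ h)).trans d1)).mul_right b)
      exact mem_filter.2 ⟨add_mem_Mo x1 (shift_low hz (by omega) (by omega)),
        sh b1 r1 hb1 (dvd_mul_right _ _) x2, sh b2 r2 hb2 (dvd_mul_left _ _) x3⟩
    · obtain ⟨x1, x2, x3⟩ := mem_filter.1 hx
      have f1 := (dvd_mul_right e r1).trans x2.2
      have f2 := (dvd_mul_right e r2).trans x3.2
      obtain ⟨g1, g2⟩ := dd_spec P hb1 he (mem_Ae.2 ⟨x1, f1⟩)
      obtain ⟨g3, g4⟩ := dd_spec P hb2 he (mem_Ae.2 ⟨x1, f2⟩)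
      simp only [Φ, dd_shift e0 f1, dd_shift e0 f2, ← mul_assoc b1, ← mul_assoc b2]
      refine hTLN0 k _ _ _ _ _ (odp (b1 * b2 * h * c * B)) (β + D) s s0 L H a r K η g1 (u0.mul B0.1)
        g3 (v0.mul B0.1) (by rw [u0.natDegree_mul B0.1, u1, B1])
        (by rw [v0.natDegree_mul B0.1, v1, B1]) (by omega) (by omega) w0 (by omega) hOm
        (fun p' _ p1 p2 => ?_) (by omega) t7 (by omega) t15 t13 t14 (by omega) t16 t17 η0 η1 hη
      rw [← (hTOM k).1 h x b1 b2 e c B e0 f1 f2 hbc]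
      exact dvd_add (Dvd.dvd.mul_left p1 _) (Dvd.dvd.mul_left p2 _)
  have Z0 : 0 ≤ Z := zero_le_one.trans hZ.one_le
  have cnt : ∑ r1 ∈ Mle k ρ, ∑ r2 ∈ Mle k ρ,
      (((Mo k (n - β)).filter (fun x => Q b1 r1 x ∧ Q b2 r2 x)).card : ℝ) ≤
        Z ^ 2 * qq k ^ (n - β - y) := by
    have a1 : ∑ r1 ∈ Mle k ρ, ∑ r2 ∈ Mle k ρ,
        (((Mo k (n - β)).filter (fun x => Q b1 r1 x ∧ Q b2 r2 x)).card : ℝ) =
        ∑ x ∈ Mo k (n - β), (((Mle k ρ).filter (fun r => Q b1 r x)).card : ℝ) *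
          ((Mle k ρ).filter (fun r => Q b2 r x)).card := by
      simp only [natCast_card_filter, sum_mul_sum]
      rw [sum_comm (s := Mo k (n - β))]
      refine sum_congr rfl fun r1 _ => ?_
      rw [sum_comm (s := Mo k (n - β))]
      refine sum_congr rfl fun r2 _ => sum_congr rfl fun x _ => ?_
      by_cases q1 : Q b1 r1 x <;> by_cases q2 : Q b2 r2 x <;> simp [q1, q2]
    rw [a1, ← sum_filter_of_ne (p := fun x => e ∣ x * b1 + h) fun x _ hx => ?_]
    · refine (sum_le_card_nsmul _ _ (Z ^ 2) fun x hx => ?_).trans ?_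
      · rw [sq]
        exact mul_le_mul (card_IR P hZ hb1 he (mem_filter.1 hx).1)
          (card_IR P hZ hb2 he (mem_filter.1 hx).1) (Nat.cast_nonneg _) Z0
      · rw [nsmul_eq_mul, mul_comm]
        exact mul_le_mul_of_nonneg_left (card_Ae hc he) (sq_nonneg _)
    · obtain ⟨r1, hr⟩ := card_ne_zero.1 (Nat.cast_ne_zero.1 (left_ne_zero_of_mul hx))
      exact (dvd_mul_right e r1).trans (mem_filter.1 hr).2.2
  have ex : ∑ x ∈ Mo k (n - β), IR F h M ρ c1 e x b1 * FW a r s0 (b1 * B) (dd h x b1 e) *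
      (IR F h M ρ c2 e x b2 * FW a r s0 (b2 * B) (dd h x b2 e)) =
      ∑ r1 ∈ Mle k ρ, ∑ r2 ∈ Mle k ρ, c1 r1 * c2 r2 *
        ∑ x ∈ (Mo k (n - β)).filter (fun x => Q b1 r1 x ∧ Q b2 r2 x), Φ x := by
    simp only [IR, sum_filter, mul_sum (Mo k (n - β)), sum_mul]
    rw [sum_comm (s := Mo k (n - β))]
    refine sum_congr rfl fun r1 _ => ?_
    simp only [mul_sum (Mle k ρ)]
    rw [sum_comm (s := Mo k (n - β))]
    refine sum_congr rfl fun r2 _ => sum_congr rfl fun x _ => ?_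
    by_cases q1 : Q b1 r1 x <;> by_cases q2 : Q b2 r2 x
    · rw [if_pos q1, if_pos q2, if_pos ⟨q1, q2⟩]; simp only [Φ]; ring
    · rw [if_neg q2, if_neg fun k : _ ∧ _ => q2 k.2]; simp
    · rw [if_neg q1, if_neg fun k : _ ∧ Q b2 r2 x => q1 k.1]; simp
    · rw [if_neg q1, if_neg fun k : _ ∧ Q b2 r2 x => q1 k.1]; simp
  have p0 : 0 ≤ 2 * η * 4 ^ K := by positivity
  rw [ex, mul_assoc (2 * η * 4 ^ K), mul_comm (2 * η * 4 ^ K)]
  refine le_trans ?_ (mul_le_mul_of_nonneg_right cnt p0)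
  simp only [sum_mul]
  refine (abs_sum_le_sum_abs _ _).trans (sum_le_sum fun r1 hr1 =>
    (abs_sum_le_sum_abs _ _).trans (sum_le_sum fun r2 hr2 => ?_))
  rw [abs_mul, abs_mul]
  exact (mul_le_of_le_one_left (abs_nonneg _)
    (mul_le_one₀ (hc1 r1) (abs_nonneg _) (hc2 r2))).trans (key r1 hr1 r2 hr2)

end Pool.Agent.P.MP_e94e4b_nt.RP
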