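import Pool.Agent.P.MP_e94e4b_nt.RP.IfT

/-! Step TOFF. -/

set_option autoImplicit false
set_option linter.unusedSectionVars false

namespace Pool.Agent.P.MP_e94e4b_nt.RP

open Polynomial Finset
open Pool.Agent.P.MP_8be758_nt Pool.Agent.P.MP_8be758_nt.C2 Pool.Agent.P.MP_8be758_nt.L2
open Pool.Agent.P.MP_e94e4b_nt.LG
open scoped Classical

variable {k : Type} [Field k] [Finite k] [CharP k 2]

theorem toff_inj {D : ℕ} {B : k[X]} (hB : B ∈ Pd k D) {S : Finset k[X]}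
    (hS : S ⊆ (Pd k D).erase B) (F : k[X] → ℝ) (hF : ∀ δ, 0 ≤ F δ) :
    ∑ B' ∈ S, F (odp (B * B')) ≤ ∑ δ ∈ (low k D).erase 0, F δ := by
  obtain ⟨b1, b2⟩ := mem_Pd.1 hB
  have hm : ∀ B' ∈ S, IsPr B' ∧ B'.natDegree = D := fun B' h =>
    mem_Pd.1 (mem_erase.1 (hS h)).2
  rw [← sum_image (f := F) (g := fun B' => odp (B * B'))]
  · refine sum_le_sum_of_subset_of_nonneg (fun δ hδ => ?_) fun δ _ _ => hF δ
    obtain ⟨B', h, rfl⟩ := mem_image.1 hδ
    refine mem_erase.2 ⟨odp_mul_ne_zero b1 (hm B' h).1 (mem_erase.1 (hS h)).1.symm,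
      odp_mem_low_of_natDegree ?_⟩
    rw [b1.1.natDegree_mul (hm B' h).1.1, b2, (hm B' h).2]
    omega
  · intro B1 h1 B2 h2 e
    have e0 : odp (B * (B1 - B2)) = 0 := by
      have e' : odp (B * B1) = odp (B * B2) := e
      rw [CharTwo.sub_eq_add, mul_add, odp_add, e', CharTwo.add_self_eq_zero]
    obtain ⟨y, hy⟩ := exists_sq_of_odp e0
    obtain ⟨t, rfl⟩ : B ∣ y := b1.prime.dvd_of_dvd_pow (hy ▸ dvd_mul_right B _)
    have hl := sub_mem_low_of_monic (hm B1 h1).1.1 (hm B2 h2).1.1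
      ((hm B1 h1).2.trans (hm B2 h2).2.symm)
    refine sub_eq_zero.1 (eq_zero_of_mem_low (P := B) hl ⟨t ^ 2, mul_left_cancel₀ b1.ne_zero ?_⟩
      (by rw [b2, (hm B1 h1).2]))
    rw [hy]; ring

theorem toff_fib {n β D p : ℕ} {Z : ℝ} (hZ : Dv k n Z) (hn : β + D + p ≤ n) (h : k[X])
    (ψ : k[X] → ℝ) (hψ : ∀ Δ, 0 ≤ ψ Δ) :
    ∑ u ∈ Mo k p, ∑ b ∈ Bf h β, ∑ δ ∈ (low k D).erase 0, ψ (fr (b * u) * δ) ≤
      Z ^ 2 * ∑ Δ ∈ low k (β + D + p), ψ Δ := by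
  have hmap : ∀ t ∈ Mo k p ×ˢ (Bf h β ×ˢ (low k D).erase 0),
      fr (t.2.1 * t.1) * t.2.2 ∈ low k (β + D + p) := by
    rintro ⟨u, b, δ⟩ ht
    simp only [mem_product, mem_erase, mem_Mo, mem_Bf] at ht
    refine mul_mem_low ht.2.2.2 ?_
    rw [natDegree_fr, ht.2.1.1.1.natDegree_mul ht.1.1, ht.2.1.1.2, ht.1.2]
    omega
  have e : ∑ u ∈ Mo k p, ∑ b ∈ Bf h β, ∑ δ ∈ (low k D).erase 0, ψ (fr (b * u) * δ) =
      ∑ t ∈ Mo k p ×ˢ (Bf h β ×ˢ (low k D).erase 0), ψ (fr (t.2.1 * t.1) * t.2.2) := by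
    simp only [sum_product]
  rw [e, ← sum_fiberwise_of_maps_to hmap, mul_sum]
  refine sum_le_sum fun Δ hΔ => ?_
  rw [sum_congr rfl (g := fun _ => ψ Δ) fun t ht => by rw [(mem_filter.1 ht).2], sum_const,
    nsmul_eq_mul]
  refine mul_le_mul_of_nonneg_right ?_ (hψ Δ)
  have hfr : ∀ {b u : k[X]}, b.Monic → u.Monic → fr (b * u) ≠ 0 := fun hb hu =>
    (monic_fr (hb.mul hu)).ne_zero
  by_cases h0 : Δ = 0
  · rw [filter_false_of_mem, card_empty, Nat.cast_zero]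
    · positivity
    · rintro ⟨u, b, δ⟩ ht
      simp only [mem_product, mem_erase, mem_Mo, mem_Bf] at ht
      rw [h0]
      exact mul_ne_zero (hfr ht.2.1.1.1 ht.1.1) ht.2.2.1
  have hd := natDegree_lt_of_mem_low hΔ h0
  have hS := hZ.card h0 (by omega) (S := (Mle k n).filter (fun d => d ∣ Δ))
    fun d hd => ⟨(mem_Mle.1 (mem_filter.1 hd).1).1, (mem_filter.1 hd).2⟩
  refine le_trans ?_ (pow_le_pow_left₀ (Nat.cast_nonneg _) hS 2)
  rw [sq, ← Nat.cast_mul, Nat.cast_le, ← card_product]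
  refine card_le_card_of_injOn (fun t => (fr t.1, fr t.2.1)) ?_ ?_
  · rintro ⟨u, b, δ⟩ ht
    simp only [coe_filter, mem_product, mem_erase, mem_Mo, mem_Bf, Set.mem_ofPred_eq] at ht
    obtain ⟨⟨⟨u1, u2⟩, ⟨⟨b1, b2⟩, -⟩, -⟩, e⟩ := ht
    simp only [coe_product, coe_filter, Set.mem_prod, Set.mem_ofPred_eq, mem_Mle, natDegree_fr]
    rw [fr_mul] at e
    exact ⟨⟨⟨monic_fr u1, by omega⟩, fr b * δ, by rw [← e]; ring⟩,
      ⟨monic_fr b1, by omega⟩, fr u * δ, by rw [← e]; ring⟩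
  · rintro ⟨u, b, δ⟩ ht ⟨u', b', δ'⟩ ht' e
    simp only [coe_filter, mem_product, mem_erase, mem_Mo, mem_Bf, Set.mem_ofPred_eq] at ht ht'
    obtain ⟨e1, e2⟩ := Prod.mk.inj e
    obtain rfl := fr_inj e1
    obtain rfl := fr_inj e2
    obtain rfl : δ = δ' :=
      mul_left_cancel₀ (hfr ht.1.2.1.1.1 ht.1.1.1) (ht.2.trans ht'.2.symm)
    rfl

theorem p_TOFF (hTSH : S_TSH) (hTFIB : S_TFIB) (hTVAR : S_TVAR) :
    S_TOFF := by
  intro k _ _ _ h n M β y ρ D s s0 σ L H a r p K Z P hZ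
  have t2 := P.t2; have t4 := P.t4; have t5 := P.t5; have t6 := P.t6; have t8 := P.t8
  have t9 := P.t9; have t13 := P.t13; have t15 := P.t15
  have hq : (0 : ℝ) < qq k := qq_pos
  set ψ : k[X] → ℝ := fun Δ => ∑ V ∈ low k s, |A0 a r s0 a Δ V| with hψ
  have ψ0 : ∀ Δ, 0 ≤ ψ Δ := fun Δ => sum_nonneg fun _ _ => abs_nonneg _
  have s1 : ∀ u ∈ Mo k p, OF h n β y D a r s0 * qq k ^ a ≤ 2 ^ K * qq k ^ σ *
      ∑ b ∈ Bf h β, ∑ δ ∈ (low k D).erase 0, ψ (fr (b * u) * δ) := by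
    intro u hu
    rw [OF, sum_mul, mul_sum]
    refine sum_le_sum fun b hb => ?_
    calc _ ≤ ∑ e ∈ Mo k y, ∑ B ∈ BB D e, ∑ δ ∈ (low k D).erase 0, 2 ^ K *
          ∑ x ∈ Ae h (n - β) b e, |A0 a r s0 a (fr (b * u) * δ) (VB h b e x B)| := by
          rw [sum_mul]
          refine sum_le_sum fun e he => ?_
          rw [sum_mul]
          refine sum_le_sum fun B hB => ?_
          rw [sum_mul]
          refine (sum_le_sum fun B' hB' => hTSH k h e B B' b u n M β y ρ D s s0 σ L H a r p K P he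
            (mem_BB.1 hB).1 (mem_BB.1 (mem_erase.1 hB').2).1 (mem_Bf.1 hb).1 hu).trans ?_
          exact toff_inj (mem_BB.1 hB).1 (erase_subset_erase _ (filter_subset _ _))
            (fun δ => 2 ^ K *
              ∑ x ∈ Ae h (n - β) b e, |A0 a r s0 a (fr (b * u) * δ) (VB h b e x B)|)
            fun δ => by positivity
      _ = ∑ δ ∈ (low k D).erase 0, 2 ^ K * ∑ e ∈ Mo k y, ∑ B ∈ BB D e,
          ∑ x ∈ Ae h (n - β) b e, |A0 a r s0 a (fr (b * u) * δ) (VB h b e x B)| := by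
          rw [sum_congr rfl fun e _ => sum_comm, sum_comm]
          simp only [mul_sum]
      _ ≤ _ := by
          rw [mul_sum]
          refine sum_le_sum fun δ _ => ?_
          rw [mul_assoc]
          exact mul_le_mul_of_nonneg_left (hTFIB k h b
            (fun V => |A0 a r s0 a (fr (b * u) * δ) V|) n M β y ρ D s s0 σ L H a r p K P hb
            fun _ => abs_nonneg _) (by positivity)
  have s2 := sum_le_sum s1
  rw [sum_const, nsmul_eq_mul, card_Mo, ← mul_sum] at s2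
  have s3 := s2.trans (mul_le_mul_of_nonneg_left (toff_fib hZ (by omega) h ψ ψ0) (by positivity))
  set Ψ := ∑ Δ ∈ low k (β + D + p), ψ Δ with hΨ
  have s4 : Ψ ^ 2 ≤ qq k ^ (β + D + p + s) * (4 ^ K * qq k ^ (a + (β + D + p) + s)) := by
    have h1 := sq_sum_le_card_mul_sum_sq (s := low k (β + D + p) ×ˢ low k s)
      (f := fun t => |A0 a r s0 a t.1 t.2|)
    simp only [sum_product, sq_abs, card_product, Nat.cast_mul, card_low', ← pow_add] at h1
    exact h1.trans (mul_le_mul_of_nonneg_left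
      (hTVAR k a r (β + D + p) s0 s K (by omega) (by omega) (by omega) (by omega) P.t17)
      (by positivity))
  have s5 : Ψ * qq k ^ H ≤ 2 ^ K * qq k ^ (a + (β + D + p) + s) := by
    refine abs_le_of_sq_le_sq' ?_ (by positivity) |>.2
    have h2 : qq k ^ (2 * H) ≤ qq k ^ a := pow_le_pow_right₀ one_le_qq t13
    have h4 : (4 : ℝ) ^ K = (2 ^ K) ^ 2 := by rw [← pow_mul, mul_comm, pow_mul]; norm_num
    calc (Ψ * qq k ^ H) ^ 2 = Ψ ^ 2 * qq k ^ (2 * H) := by ring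
      _ ≤ qq k ^ (β + D + p + s) * (4 ^ K * qq k ^ (a + (β + D + p) + s)) * qq k ^ a :=
          mul_le_mul s4 h2 (by positivity) (by positivity)
      _ = _ := by rw [h4]; ring
  have h5 : qq k ^ (σ + β + D + s) ≤ qq k ^ (n + 2 * D + 1) :=
    pow_le_pow_right₀ one_le_qq (by omega)
  refine le_of_mul_le_mul_left ?_ (pow_pos hq (p + a))
  calc qq k ^ (p + a) * (OF h n β y D a r s0 * qq k ^ H)
      = qq k ^ p * (OF h n β y D a r s0 * qq k ^ a) * qq k ^ H := by ring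
    _ ≤ 2 ^ K * qq k ^ σ * (Z ^ 2 * Ψ) * qq k ^ H :=
        mul_le_mul_of_nonneg_right s3 (by positivity)
    _ = 2 ^ K * qq k ^ σ * Z ^ 2 * (Ψ * qq k ^ H) := by ring
    _ ≤ 2 ^ K * qq k ^ σ * Z ^ 2 * (2 ^ K * qq k ^ (a + (β + D + p) + s)) :=
        mul_le_mul_of_nonneg_left s5 (by positivity)
    _ = qq k ^ (p + a) * (4 ^ K * Z ^ 2 * qq k ^ (σ + β + D + s)) := by
        rw [show (4 : ℝ) = 2 * 2 by norm_num, mul_pow]; ring
    _ ≤ _ := by gcongr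

end Pool.Agent.P.MP_e94e4b_nt.RP
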