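import Pool.Agent.P.MP_e94e4b_nt.RP.IfW

/-! Step TW. -/

set_option autoImplicit false
set_option linter.unusedSectionVars false

namespace Pool.Agent.P.MP_e94e4b_nt.RP

open Polynomial Finset
open Pool.Agent.P.MP_8be758_nt Pool.Agent.P.MP_8be758_nt.C2 Pool.Agent.P.MP_8be758_nt.L2
open Pool.Agent.P.MP_e94e4b_nt.LG
open scoped Classical

namespace TWx

variable {k : Type} [Field k] [Finite k] {F h : k[X]} {M i j : ℕ}

theorem pairs (e : i + j = F.natDegree) (α α' Ψ : k[X] → ℝ) :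
    ∑ a ∈ Mo k i, ∑ b ∈ Mo k j, (if a * b ∈ Wn F h M then α a * (α' b * Ψ (a * b + h)) else 0) =
      ∑ f ∈ Wn F h M, DS i (fun d => α d * α' (f /ₘ d)) f * Ψ (f + h) := by
  rw [← sum_Mo_dvd, e, ← sum_subset (s₁ := Wn F h M) (filter_subset _ _) fun f _ hf =>
    sum_eq_zero fun d hd => if_neg (by
      obtain ⟨d1, c, rfl⟩ := mem_filter.1 hd
      rwa [mul_divByMonic_cancel_left _ (mem_Mo.1 d1).1])]
  refine sum_congr rfl fun f hf => ?_
  rw [DS, sum_mul]
  refine sum_congr rfl fun d hd => ?_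
  obtain ⟨d1, c, rfl⟩ := mem_filter.1 hd
  rw [mul_divByMonic_cancel_left _ (mem_Mo.1 d1).1, if_pos hf, mul_assoc]

theorem bil {A B : Finset k[X]} {α : k[X] → ℝ} (hα : Bd α) (W : k[X] → k[X] → Prop)
    [∀ a b, Decidable (W a b)] (G : k[X] → k[X] → ℝ) :
    |∑ a ∈ A, ∑ b ∈ B, if W a b then α a * G a b else 0| ≤
      ∑ a ∈ A, |∑ b ∈ B, if W a b then G a b else 0| := by
  refine (abs_sum_le_sum_abs _ _).trans (sum_le_sum fun a _ => ?_)
  simp only [← mul_ite_zero]
  rw [← mul_sum, abs_mul]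
  exact mul_le_of_le_one_left (abs_nonneg _) (hα a)

theorem bad {Z : ℕ} {b : k[X]} (h0 : b ≠ 0) (h1 : ¬ Squarefree b) (h2 : Av (Pr k Z) b) :
    ∃ P : k[X], P.Monic ∧ Z < P.natDegree ∧ P ^ 2 ∣ b := by
  rw [squarefree_iff_irreducible_sq_not_dvd_of_ne_zero h0] at h1
  push Not at h1
  obtain ⟨x, x1, x2⟩ := h1
  have a := associated_normalize x
  have m : (normalize x).Monic := monic_normalize x1.ne_zero
  have d : normalize x ^ 2 ∣ b := by
    rw [sq]; exact (a.mul_mul a).symm.dvd.trans x2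
  exact ⟨_, m, Av_Pr.1 h2 _ ⟨m, a.irreducible x1⟩ ((dvd_pow_self _ two_ne_zero).trans d), d⟩

end TWx

theorem p_TW (hWB : S_WB) :
    S_TW := by
  intro k _ _ _ F h M Z i β Ψ B0 B1 τ F1 h0 hM hn hi hβ hB hΨ hτ
  have q0 : (0 : ℝ) < qq k := qq_pos
  have FM : F ∈ Mo k F.natDegree := mem_Mo.2 ⟨F1, rfl⟩
  have b0 : 0 ≤ B1 := (abs_nonneg _).trans (hΨ F FM)
  have t0 : 0 ≤ τ := le_trans (Nat.cast_nonneg _) (hτ F FM)
  have ei : i + (F.natDegree - i) = F.natDegree := by omega
  have e1 : ∑ f ∈ Wn F h M, av (Pr k Z) f * DS i mu f * Ψ (f + h) =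
      ∑ f ∈ Wn F h M, DS i (fun d => ma (Pr k Z) d * av (Pr k Z) (f /ₘ d)) f * Ψ (f + h) := by
    refine sum_congr rfl fun f _ => ?_
    rw [DS, DS, mul_sum]
    congr 1
    refine sum_congr rfl fun d hd => ?_
    obtain ⟨d1, c, rfl⟩ := mem_filter.1 hd
    rw [mul_divByMonic_cancel_left _ (mem_Mo.1 d1).1, av_mul isPr_Pr, ma]
    ring
  rw [e1]
  rcases hβ with rfl | rfl
  · rw [← TWx.pairs ei, sum_comm]
    refine le_add_of_le_of_nonneg (le_trans (le_of_eq ?_) ((TWx.bil (bd_av (Pr k Z))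
      (fun a b => a * b ∈ Wn F h M) (fun a b => ma (Pr k Z) b * Ψ (a * b + h))).trans
      (hB _ (bd_ma (Pr k Z)) fun b => sqf_of_ma))) (by positivity)
    congr 1
    refine sum_congr rfl fun a _ => sum_congr rfl fun b _ => ?_
    rw [mul_comm b a, mul_left_comm]
  · set c1 : k[X] → ℝ := fun b => if Squarefree b then av (Pr k Z) b else 0 with hc1
    set c2 : k[X] → ℝ := fun b => if Squarefree b then 0 else av (Pr k Z) b with hc2
    have bd1 : Bd c1 := fun b => by
      simp only [hc1]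
      split_ifs
      · exact bd_av _ b
      · simp
    have bd2 : Bd c2 := fun b => by
      simp only [hc2]
      split_ifs
      · simp
      · exact bd_av _ b
    have e2 : ∀ f, DS i (fun d => ma (Pr k Z) d * av (Pr k Z) (f /ₘ d)) f * Ψ (f + h) =
        DS i (fun d => ma (Pr k Z) d * c1 (f /ₘ d)) f * Ψ (f + h) +
        DS i (fun d => ma (Pr k Z) d * c2 (f /ₘ d)) f * Ψ (f + h) := fun f => by
      rw [← add_mul, DS, DS, DS, ← sum_add_distrib]
      congr 1
      refine sum_congr rfl fun d _ => ?_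
      simp only [hc1, hc2]
      split_ifs <;> ring
    simp only [e2]
    rw [sum_add_distrib]
    refine (abs_add_le _ _).trans (add_le_add ?_ ?_)
    · have := hB c1 bd1 fun b hb => by
        by_contra hn
        exact hb (if_neg hn)
      rw [show F.natDegree - (F.natDegree - i) = i by omega] at this
      rw [← TWx.pairs ei]
      exact (TWx.bil (bd_ma (Pr k Z)) (fun a b => a * b ∈ Wn F h M)
        (fun a b => c1 b * Ψ (a * b + h))).trans this
    · have tb := a_TB2 k Z (F.natDegree + 1)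
      set S := (low k (F.natDegree + 1)).filter (fun V => V ≠ 0 ∧ ∃ P : k[X], P.Monic ∧
        Z < P.natDegree ∧ P ^ 2 ∣ V) with hS
      have tb' : (S.card : ℝ) ≤ qq k ^ (F.natDegree + 1) / qq k ^ Z := by
        rw [le_div_iff₀ (by positivity)]
        unfold qq
        exact_mod_cast tb
      rw [← sum_subset (s₁ := Wn F h M ∩ S) inter_subset_left fun f hf hn => by
        obtain ⟨f1, f2⟩ := mem_Mo.1 (mem_Wn.1 hf).1
        rw [DS, sum_eq_zero fun d hd => ?_, zero_mul]
        by_contra hd0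
        obtain ⟨d1, c, rfl⟩ := mem_filter.1 hd
        rw [mul_divByMonic_cancel_left _ (mem_Mo.1 d1).1] at hd0
        have h2 := right_ne_zero_of_mul hd0
        simp only [hc2] at h2
        split_ifs at h2 with h3
        · exact h2 rfl
        obtain ⟨P, p1, p2, p3⟩ := TWx.bad (right_ne_zero_of_mul f1.ne_zero) h3 (on_av _ c h2)
        exact hn (mem_inter.2 ⟨hf, mem_filter.2 ⟨mem_low_of_natDegree_lt (by omega), f1.ne_zero,
          P, p1, p2, p3.mul_left d⟩⟩)]
      refine (abs_sum_le_sum_abs _ _).trans ((sum_le_card_nsmul _ _ (τ * B1) fun f hf => ?_).trans ?_)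
      · have w := hWB k F h f M F1 h0 hM hn (mem_inter.1 hf).1
        rw [abs_mul]
        refine mul_le_mul ((DS_le_nd (fun d => ?_) (mem_Mo.1 w.1).1.ne_zero).trans (hτ f w.1))
          (hΨ _ w.2.1) (abs_nonneg _) t0
        rw [abs_mul]
        exact mul_le_one₀ (bd_ma _ d) (abs_nonneg _) (bd2 _)
      · rw [nsmul_eq_mul, mul_comm]
        refine mul_le_mul_of_nonneg_left (le_trans ?_ tb') (by positivity)
        exact_mod_cast card_le_card inter_subset_right

end Pool.Agent.P.MP_e94e4b_nt.RP
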