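import Pool.Agent.P.MP_e94e4b_nt.RP.IfW
import Pool.Agent.P.MP_e94e4b_nt.RP.IfS

/-! Step UB. -/

set_option autoImplicit false
set_option linter.unusedSectionVars false

namespace Pool.Agent.P.MP_e94e4b_nt.RP

open Polynomial Finset
open Pool.Agent.P.MP_8be758_nt Pool.Agent.P.MP_8be758_nt.C2 Pool.Agent.P.MP_8be758_nt.L2
open Pool.Agent.P.MP_e94e4b_nt.LG
open scoped Classical

theorem p_UB (hXP : S_XP) (hM2 : S_M2) :
    S_UB := by
  intro k _ _ _ F h M Z δ i j E lam xi α α' c h1 h2 o1 o2 hle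
  obtain ⟨m0, m1⟩ := (hM2 k Z i j α α').2 h1 h2
  have hQ := (QQ_pos h M).le
  have key : ∀ (w : Finset k[X] → ℝ) (B : ℝ), Lv (T2 h Z) δ w → 0 ≤ B →
      EE (pc 2) (T2 h Z) w ≤ B * VV (pc 2) (T2 h Z) →
      BS F h M (sw w) i α j α' ≤ B * (QQ h M * VV (pc 2) (T2 h Z)) * (mn i α * mn j α') := by
    intro w B hw hB hE
    obtain ⟨x1, x2⟩ := hXP k F h M Z δ i j w α α' c.mon c.adm.1 c.hZ c.hM c.le hw o1 o2
    rw [x1, x2 hle, add_zero]
    calc QQ h M * EE (pc 2) (T2 h Z) w * m2 i α j α'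
        ≤ QQ h M * (B * VV (pc 2) (T2 h Z)) * m2 i α j α' :=
          mul_le_mul_of_nonneg_right (mul_le_mul_of_nonneg_left hE hQ) m0
      _ ≤ QQ h M * (B * VV (pc 2) (T2 h Z)) * (mn i α * mn j α') :=
          mul_le_mul_of_nonneg_left m1 (mul_nonneg hQ (mul_nonneg hB c.sv.e0))
      _ = _ := by ring
  exact ⟨key lam 2 c.sv.l1 (by norm_num) (c.sv.e2.trans
      (mul_le_mul_of_nonneg_right (by linarith [c.E1]) c.sv.e0)),
    key xi E c.sv.l2 c.E0 c.sv.e4⟩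

end Pool.Agent.P.MP_e94e4b_nt.RP
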