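import Pool.Agent.P.MP_e94e4b_nt.RP.IfW

/-! Step XP0. -/

set_option autoImplicit false
set_option linter.unusedSectionVars false

namespace Pool.Agent.P.MP_e94e4b_nt.RP

open Polynomial Finset
open Pool.Agent.P.MP_8be758_nt Pool.Agent.P.MP_8be758_nt.C2 Pool.Agent.P.MP_8be758_nt.L2
open Pool.Agent.P.MP_e94e4b_nt.LG
open scoped Classical

theorem p_XP0 (hWB : S_WB) (hSWX : S_SWX) :
    S_XP0 := by
  intro k _ _ _ F h M Z i j lam α α' hF h0 hM hn hl hα hα'
  have key : ∀ f ∈ Wn F h M, sw lam (f * (f + h)) * (DS i α f * DS j α' (f + h)) =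
      ∑ S ∈ (T2 h Z).powerset, ∑ S' ∈ (T2 h Z).powerset,
        (if Disjoint S S' then lam (S ∪ S') else 0) * ∑ d ∈ Mo k i, ∑ d' ∈ Mo k j,
          α d * α' d' * if d * pr S ∣ f ∧ d' * pr S' ∣ f + h then 1 else 0 := by
    intro f hf
    obtain ⟨w1, w2, -, -, -, -, w7, -, -⟩ := hWB k F h f M hF h0 hM hn hf
    rw [hSWX k (T2 h Z) lam f (f + h) isPr_T2 hl (mem_Mo.1 w1).1.ne_zero
      (mem_Mo.1 w2).1.ne_zero w7, sum_mul]
    refine sum_congr rfl fun S hS => ?_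
    rw [sum_mul]
    refine sum_congr rfl fun S' hS' => ?_
    have c : ∀ {U : Finset k[X]} {d g : k[X]}, U ∈ (T2 h Z).powerset → Av (Pr k Z) d →
        (d * pr U ∣ g ↔ d ∣ g ∧ pr U ∣ g) := fun {U d g} hU hd =>
      ⟨fun e => ⟨(dvd_mul_right _ _).trans e, (dvd_mul_left _ _).trans e⟩, fun e =>
        (hd.coprime ((mem_powerset.1 hU).trans (T2_sub h Z))
          fun P hP => isPr_T2 P (mem_powerset.1 hU hP)).symm.mul_dvd e.1 e.2⟩
    rw [DS, DS, sum_filter, sum_filter, sum_mul_sum]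
    simp only [mul_sum]
    refine sum_congr rfl fun d _ => sum_congr rfl fun d' _ => ?_
    by_cases a1 : α d = 0
    · simp [a1]
    by_cases a2 : α' d' = 0
    · simp [a2]
    rw [c hS (hα d a1), c hS' (hα' d' a2)]
    by_cases b1 : Disjoint S S' <;> by_cases b2 : pr S ∣ f <;> by_cases b3 : pr S' ∣ f + h <;>
      by_cases b4 : d ∣ f <;> by_cases b5 : d' ∣ f + h <;> simp [b1, b2, b3, b4, b5]
  rw [BS, sum_congr rfl key, sum_comm]
  refine sum_congr rfl fun S _ => ?_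
  rw [sum_comm]
  refine sum_congr rfl fun S' _ => ?_
  rw [← mul_sum, sum_comm]
  congr 1
  refine sum_congr rfl fun d _ => ?_
  rw [sum_comm]
  refine sum_congr rfl fun d' _ => ?_
  rw [← mul_sum, sum_boole, cnt]

end Pool.Agent.P.MP_e94e4b_nt.RP
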