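import Pool.Agent.P.MP_e94e4b_nt.RP.TADM
import Pool.Agent.P.MP_e94e4b_nt.RP.TAS
import Pool.Agent.P.MP_e94e4b_nt.RP.TAX
import Pool.Agent.P.MP_e94e4b_nt.RP.TCA
import Pool.Agent.P.MP_e94e4b_nt.RP.TCELL
import Pool.Agent.P.MP_e94e4b_nt.RP.TCG
import Pool.Agent.P.MP_e94e4b_nt.RP.TCK
import Pool.Agent.P.MP_e94e4b_nt.RP.TCNT
import Pool.Agent.P.MP_e94e4b_nt.RP.TCP
import Pool.Agent.P.MP_e94e4b_nt.RP.TCT1
import Pool.Agent.P.MP_e94e4b_nt.RP.TCT2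
import Pool.Agent.P.MP_e94e4b_nt.RP.TCV
import Pool.Agent.P.MP_e94e4b_nt.RP.TCVX
import Pool.Agent.P.MP_e94e4b_nt.RP.TCW
import Pool.Agent.P.MP_e94e4b_nt.RP.TCX
import Pool.Agent.P.MP_e94e4b_nt.RP.TCZ
import Pool.Agent.P.MP_e94e4b_nt.RP.TCZ0
import Pool.Agent.P.MP_e94e4b_nt.RP.TCZ1
import Pool.Agent.P.MP_e94e4b_nt.RP.TDIV
import Pool.Agent.P.MP_e94e4b_nt.RP.TDSB
import Pool.Agent.P.MP_e94e4b_nt.RP.TEND
import Pool.Agent.P.MP_e94e4b_nt.RP.TEQ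
import Pool.Agent.P.MP_e94e4b_nt.RP.TEXP
import Pool.Agent.P.MP_e94e4b_nt.RP.TFIN
import Pool.Agent.P.MP_e94e4b_nt.RP.TFL
import Pool.Agent.P.MP_e94e4b_nt.RP.TFLA
import Pool.Agent.P.MP_e94e4b_nt.RP.TFLB
import Pool.Agent.P.MP_e94e4b_nt.RP.TFLC
import Pool.Agent.P.MP_e94e4b_nt.RP.TIDT
import Pool.Agent.P.MP_e94e4b_nt.RP.TINP
import Pool.Agent.P.MP_e94e4b_nt.RP.TK
import Pool.Agent.P.MP_e94e4b_nt.RP.TKB
import Pool.Agent.P.MP_e94e4b_nt.RP.TKC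
import Pool.Agent.P.MP_e94e4b_nt.RP.TKG
import Pool.Agent.P.MP_e94e4b_nt.RP.TKP
import Pool.Agent.P.MP_e94e4b_nt.RP.TKPH
import Pool.Agent.P.MP_e94e4b_nt.RP.TKW
import Pool.Agent.P.MP_e94e4b_nt.RP.TLAMB
import Pool.Agent.P.MP_e94e4b_nt.RP.TLAND
import Pool.Agent.P.MP_e94e4b_nt.RP.TLEFT
import Pool.Agent.P.MP_e94e4b_nt.RP.TLF0
import Pool.Agent.P.MP_e94e4b_nt.RP.TM2
import Pool.Agent.P.MP_e94e4b_nt.RP.TMA
import Pool.Agent.P.MP_e94e4b_nt.RP.TMAIN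
import Pool.Agent.P.MP_e94e4b_nt.RP.TMAP
import Pool.Agent.P.MP_e94e4b_nt.RP.TMAW
import Pool.Agent.P.MP_e94e4b_nt.RP.TMER1
import Pool.Agent.P.MP_e94e4b_nt.RP.TMER2
import Pool.Agent.P.MP_e94e4b_nt.RP.TMER3
import Pool.Agent.P.MP_e94e4b_nt.RP.TMUR
import Pool.Agent.P.MP_e94e4b_nt.RP.TMUS
import Pool.Agent.P.MP_e94e4b_nt.RP.TNUM
import Pool.Agent.P.MP_e94e4b_nt.RP.TONE
import Pool.Agent.P.MP_e94e4b_nt.RP.TPW
import Pool.Agent.P.MP_e94e4b_nt.RP.TRAM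
import Pool.Agent.P.MP_e94e4b_nt.RP.TRAN
import Pool.Agent.P.MP_e94e4b_nt.RP.TRH2
import Pool.Agent.P.MP_e94e4b_nt.RP.TRHO
import Pool.Agent.P.MP_e94e4b_nt.RP.TRJ
import Pool.Agent.P.MP_e94e4b_nt.RP.TRK0
import Pool.Agent.P.MP_e94e4b_nt.RP.TRK1
import Pool.Agent.P.MP_e94e4b_nt.RP.TRK2
import Pool.Agent.P.MP_e94e4b_nt.RP.TRZ
import Pool.Agent.P.MP_e94e4b_nt.RP.TSING
import Pool.Agent.P.MP_e94e4b_nt.RP.TSUM
import Pool.Agent.P.MP_e94e4b_nt.RP.TSUM1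
import Pool.Agent.P.MP_e94e4b_nt.RP.TSWX
import Pool.Agent.P.MP_e94e4b_nt.RP.TSYM
import Pool.Agent.P.MP_e94e4b_nt.RP.TT
import Pool.Agent.P.MP_e94e4b_nt.RP.TTA0
import Pool.Agent.P.MP_e94e4b_nt.RP.TTA1
import Pool.Agent.P.MP_e94e4b_nt.RP.TTA2
import Pool.Agent.P.MP_e94e4b_nt.RP.TTCONC
import Pool.Agent.P.MP_e94e4b_nt.RP.TTCORE
import Pool.Agent.P.MP_e94e4b_nt.RP.TTCS
import Pool.Agent.P.MP_e94e4b_nt.RP.TTDEC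
import Pool.Agent.P.MP_e94e4b_nt.RP.TTERR
import Pool.Agent.P.MP_e94e4b_nt.RP.TTFIB
import Pool.Agent.P.MP_e94e4b_nt.RP.TTGEN
import Pool.Agent.P.MP_e94e4b_nt.RP.TTK0
import Pool.Agent.P.MP_e94e4b_nt.RP.TTKB
import Pool.Agent.P.MP_e94e4b_nt.RP.TTLN0
import Pool.Agent.P.MP_e94e4b_nt.RP.TTLN1
import Pool.Agent.P.MP_e94e4b_nt.RP.TTOFF
import Pool.Agent.P.MP_e94e4b_nt.RP.TTOM
import Pool.Agent.P.MP_e94e4b_nt.RP.TTPAR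
import Pool.Agent.P.MP_e94e4b_nt.RP.TTPICK
import Pool.Agent.P.MP_e94e4b_nt.RP.TTSH
import Pool.Agent.P.MP_e94e4b_nt.RP.TTVAR
import Pool.Agent.P.MP_e94e4b_nt.RP.TTW
import Pool.Agent.P.MP_e94e4b_nt.RP.TTWO
import Pool.Agent.P.MP_e94e4b_nt.RP.TU0
import Pool.Agent.P.MP_e94e4b_nt.RP.TUB
import Pool.Agent.P.MP_e94e4b_nt.RP.TWB
import Pool.Agent.P.MP_e94e4b_nt.RP.TXP
import Pool.Agent.P.MP_e94e4b_nt.RP.TXP0
import Pool.Agent.P.MP_e94e4b_nt.RP.TXP1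
import Pool.Agent.P.MP_e94e4b_nt.RP.Last

/-! The steps put together. -/

namespace Pool.Agent.P.MP_e94e4b_nt.RP

theorem t_NUM : S_NUM := p_NUM

theorem t_EXP : S_EXP := p_EXP

theorem t_FLA : S_FLA := p_FLA

theorem t_FLB : S_FLB := p_FLB

theorem t_RAN : S_RAN := p_RAN

theorem t_FLC : S_FLC := p_FLC t_RAN

theorem t_FL : S_FL := p_FL t_EXP t_FLA t_FLB t_FLC

theorem t_EQ : S_EQ := p_EQ

theorem t_MUS : S_MUS := p_MUS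

theorem t_MUR : S_MUR := p_MUR t_EQ t_MUS

theorem t_RH2 : S_RH2 := p_RH2 t_EQ

theorem t_MER1 : S_MER1 := p_MER1

theorem t_ONE : S_ONE := p_ONE t_FL t_MUR t_RH2 t_MER1

theorem t_ADM : S_ADM := p_ADM

theorem t_TWO : S_TWO := p_TWO t_FL t_ADM

theorem t_WB : S_WB := p_WB

theorem t_SYM : S_SYM := p_SYM t_WB

theorem t_RHO : S_RHO := p_RHO t_FL t_RH2

theorem t_RZ : S_RZ := p_RZ t_RHO t_MER1

theorem t_PW : S_PW := p_PW t_WB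

theorem t_SWX : S_SWX := p_SWX

theorem t_XP0 : S_XP0 := p_XP0 t_WB t_SWX

theorem t_XP1 : S_XP1 := p_XP1

theorem t_CNT : S_CNT := p_CNT t_WB

theorem t_XP : S_XP := p_XP t_XP0 t_XP1 t_CNT

theorem t_M2 : S_M2 := p_M2

theorem t_CG : S_CG := p_CG t_PW t_XP t_M2 t_ADM

theorem t_CZ0 : S_CZ0 := p_CZ0 t_WB t_PW t_SYM

theorem t_CX : S_CX := p_CX t_CG t_XP t_CZ0

theorem t_RK0 : S_RK0 := p_RK0

theorem t_RK1 : S_RK1 := p_RK1 t_RK0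

theorem t_CW : S_CW := p_CW

theorem t_KPH : S_KPH := p_KPH

theorem t_KW : S_KW := p_KW

theorem t_KG : S_KG := p_KG t_KW

theorem t_KC : S_KC := p_KC

theorem t_KP : S_KP := p_KP t_KG t_KC

theorem t_KB : S_KB := p_KB

theorem t_K : S_K := p_K t_CW t_KPH t_KP t_KB

theorem t_LAMB : S_LAMB := p_LAMB t_CW

theorem t_CK : S_CK := p_CK t_CG t_CZ0 t_RK1 t_K t_LAMB

theorem t_DSB : S_DSB := p_DSB

theorem t_UB : S_UB := p_UB t_XP t_M2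

theorem t_AX : S_AX := p_AX t_WB t_PW t_DSB t_UB

theorem t_MAP : S_MAP := p_MAP

theorem t_MAW : S_MAW := p_MAW t_MAP t_WB

theorem t_AS : S_AS := p_AS t_MAW t_WB t_SWX

theorem t_CA : S_CA := p_CA t_AX t_AS t_LAMB

theorem t_DIV : S_DIV := p_DIV

theorem t_TK0 : S_TK0 := p_TK0

theorem t_TDEC : S_TDEC := p_TDEC

theorem t_TPICK : S_TPICK := p_TPICK

theorem t_TCORE : S_TCORE := p_TCORE t_TDEC t_TPICK

theorem t_TLN0 : S_TLN0 := p_TLN0 t_TCORE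

theorem t_TOM : S_TOM := p_TOM

theorem t_TLN1 : S_TLN1 := p_TLN1 t_TLN0 t_TOM

theorem t_TCS : S_TCS := p_TCS t_TLN1 t_TOM

theorem t_TFIB : S_TFIB := p_TFIB

theorem t_TKB : S_TKB := p_TKB

theorem t_TERR : S_TERR := p_TERR t_TFIB t_TKB

theorem t_TSH : S_TSH := p_TSH

theorem t_TVAR : S_TVAR := p_TVAR

theorem t_TOFF : S_TOFF := p_TOFF t_TSH t_TFIB t_TVAR

theorem t_TCONC : S_TCONC := p_TCONC t_TOFF

theorem t_TGEN : S_TGEN := p_TGEN t_TK0 t_TCS t_TERR t_TCONC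

theorem t_TPAR : S_TPAR := p_TPAR

theorem t_T : S_T := p_T t_DIV t_TGEN t_TPAR

theorem t_TW : S_TW := p_TW t_WB

theorem t_TA1 : S_TA1 := p_TA1 t_WB

theorem t_CT1 : S_CT1 := p_CT1 t_T t_TW t_TA1 t_AX t_DSB t_DIV t_LAMB

theorem t_TA0 : S_TA0 := p_TA0

theorem t_TA2 : S_TA2 := p_TA2 t_WB t_TA0

theorem t_CT2 : S_CT2 := p_CT2 t_T t_TW t_TA2 t_AX t_DSB t_DIV t_LAMB

theorem t_CP : S_CP := p_CP t_WB t_PW t_DSB t_UB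

theorem t_RAM : S_RAM := p_RAM

theorem t_RK2 : S_RK2 := p_RK2 t_RK0 t_RAM

theorem t_CZ1 : S_CZ1 := p_CZ1 t_CG t_CZ0 t_RK2 t_K t_LAMB

theorem t_LAND : S_LAND := p_LAND

theorem t_LF0 : S_LF0 := p_LF0 t_LAND

theorem t_MER3 : S_MER3 := p_MER3

theorem t_LEFT : S_LEFT := p_LEFT t_WB t_PW t_UB t_LF0 t_MER3

theorem t_MER2 : S_MER2 := p_MER2

theorem t_RJ : S_RJ := p_RJ t_RHO t_MER1 t_MER2

theorem t_CZ : S_CZ := p_CZ t_CZ0 t_CZ1 t_LEFT t_RJ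

theorem t_INP : S_INP := p_INP t_ONE t_TWO t_SYM t_RZ t_CX t_CK t_CA t_CT1 t_CT2 t_CP t_CZ

theorem t_CELL : S_CELL := p_CELL

theorem t_SUM1 : S_SUM1 := p_SUM1

theorem t_SUM : S_SUM := p_SUM t_CELL t_SUM1

theorem t_MA : S_MA := p_MA

theorem t_U0 : S_U0 := p_U0

theorem t_CVX : S_CVX := p_CVX

theorem t_CV : S_CV := p_CV t_U0 t_CVX

theorem t_MAIN : S_MAIN := p_MAIN t_MA t_CV t_MER1

theorem t_IDT : S_IDT := p_IDT t_WB t_U0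

theorem t_SING : S_SING := p_SING t_ADM

theorem t_END : S_END := p_END

theorem t_FIN : S_FIN := p_FIN t_NUM t_INP t_SUM t_MAIN t_IDT t_SING t_MER1 t_END

end Pool.Agent.P.MP_e94e4b_nt.RP
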