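import Pool.Agent.P.MP_e94e4b_nt.LG.APAll
import Pool.Agent.P.MP_8be758_nt.C2.TTB2
import Pool.Agent.P.MP_8be758_nt.L2.TXAB
import Pool.Agent.P.MP_8be758_nt.L2.TPOLY

/-! Definitions for the project on pairs of primes in a window in characteristic two. -/

namespace Pool.Agent.P.MP_e94e4b_nt.RP

open Polynomial Finset
open Pool.Agent.P.MP_8be758_nt Pool.Agent.P.MP_8be758_nt.C2 Pool.Agent.P.MP_8be758_nt.L2
open Pool.Agent.P.MP_e94e4b_nt.LG
open scoped Classical

variable {k : Type} [Field k]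

/-- the monic polynomials of degree at most `n` -/
noncomputable def Mle (k : Type) [Field k] [Finite k] (n : ℕ) : Finset k[X] :=
  (low k (n + 1)).filter Monic

/-- the number of monic divisors -/
noncomputable def nd [Finite k] (m : k[X]) : ℝ :=
  (((Mle k m.natDegree).filter (fun d => d ∣ m)).card : ℝ)

/-- the window, cut down to the class of `1` modulo `h` -/
noncomputable def Wn [Finite k] (F h : k[X]) (M : ℕ) : Finset k[X] :=
  (Mo k F.natDegree).filter (fun f => f - F ∈ low k M ∧ h ∣ f - 1)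

/-- the size of the window -/
noncomputable def QQ (h : k[X]) (M : ℕ) : ℝ := qq k ^ M / qq k ^ h.natDegree

/-- no member of `T` divides `f` -/
def Av (T : Finset k[X]) (f : k[X]) : Prop := ∀ P ∈ T, ¬ P ∣ f

/-- its indicator -/
noncomputable def av (T : Finset k[X]) (f : k[X]) : ℝ := if Av T f then 1 else 0

/-- the mean over the monic polynomials of degree `j` -/
noncomputable def mn [Finite k] (j : ℕ) (α : k[X] → ℝ) : ℝ := (∑ d ∈ Mo k j, α d) / qq k ^ j

/-- the share of the polynomials that avoid `T` -/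
noncomputable def rho [Finite k] (T : Finset k[X]) (j : ℕ) : ℝ := mn j (av T)

/-- the Moebius function on the polynomials that avoid `T` -/
noncomputable def ma (T : Finset k[X]) (d : k[X]) : ℝ := mu d * av T d

/-- its mean -/
noncomputable def mm [Finite k] (T : Finset k[X]) (j : ℕ) : ℝ := mn j (ma T)

/-- the mean over coprime pairs -/
noncomputable def m2 [Finite k] (i : ℕ) (α : k[X] → ℝ) (j : ℕ) (α' : k[X] → ℝ) : ℝ :=
  (∑ d ∈ Mo k i, ∑ d' ∈ Mo k j, if IsCoprime d d' then α d * α' d' else 0) / qq k ^ (i + j)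

/-- a sum over the divisors of degree `j` -/
noncomputable def DS [Finite k] (j : ℕ) (α : k[X] → ℝ) (f : k[X]) : ℝ :=
  ∑ d ∈ (Mo k j).filter (fun d => d ∣ f), α d

/-- the same with the Moebius function of the cofactor -/
noncomputable def DM [Finite k] (j : ℕ) (α : k[X] → ℝ) (f : k[X]) : ℝ :=
  ∑ e ∈ (Mo k j).filter (fun e => e ∣ f), α e * mu (f /ₘ e)

/-- the weighted double divisor sum over the window -/
noncomputable def BS [Finite k] (F h : k[X]) (M : ℕ) (w : k[X] → ℝ) (i : ℕ) (α : k[X] → ℝ)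
    (j : ℕ) (α' : k[X] → ℝ) : ℝ :=
  ∑ f ∈ Wn F h M, w (f * (f + h)) * (DS i α f * DS j α' (f + h))

/-- a cell -/
noncomputable def CC [Finite k] (F h : k[X]) (M Z i j : ℕ) : ℝ :=
  BS F h M (av (Pr k Z)) i mu j mu

/-- the sieve weight of a polynomial -/
noncomputable def sw [Finite k] (lam : Finset k[X] → ℝ) (g : k[X]) : ℝ := wt lam (pf g)

/-- the density `c / |P|` -/
noncomputable def pc (c : ℝ) (P : k[X]) : ℝ := c / qq k ^ P.natDegree

/-- the mean value of a weight -/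
noncomputable def EE (p : k[X] → ℝ) (T : Finset k[X]) (lam : Finset k[X] → ℝ) : ℝ :=
  ∑ S ∈ T.powerset, lam S * ∏ P ∈ S, p P

/-- the sifted density -/
noncomputable def VV (p : k[X] → ℝ) (T : Finset k[X]) : ℝ := ∏ P ∈ T, (1 - p P)

/-- a system of weights supported on subsets of `T` of degree at most `δ` -/
def Lv (T : Finset k[X]) (δ : ℕ) (lam : Finset k[X] → ℝ) : Prop :=
  (∀ S, lam S ≠ 0 → S ⊆ T ∧ dg S ≤ δ) ∧ ∀ S, |lam S| ≤ 50 ^ S.card

/-- the weights of the fundamental lemma -/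
structure Sv (p : k[X] → ℝ) (T : Finset k[X]) (δ : ℕ) (E : ℝ) (lam xi : Finset k[X] → ℝ) :
    Prop where
  l1 : Lv T δ lam
  l2 : Lv T δ xi
  one : ∀ A, Disjoint A T → wt lam A = 1
  pos : ∀ A, 0 ≤ wt lam A ∧ 0 ≤ wt xi A
  dom : ∀ A, ¬ Disjoint A T → wt lam A ≤ wt xi A
  e0 : 0 ≤ VV p T
  e1 : VV p T ≤ EE p T lam
  e2 : EE p T lam ≤ (1 + E) * VV p T
  e3 : 0 ≤ EE p T xi
  e4 : EE p T xi ≤ E * VV p T

/-- the primes of the sieve -/
noncomputable def T2 [Finite k] (h : k[X]) (Z : ℕ) : Finset k[X] := Pr k Z \ pf h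

/-- the primes with degree in `(a, b]` -/
noncomputable def JJ (k : Type) [Field k] [Finite k] (a b : ℕ) : Finset k[X] := Pr k b \ Pr k a

/-- the number of `f` in the window with `A ∣ f` and `C ∣ f + h` -/
noncomputable def cnt [Finite k] (F h : k[X]) (M : ℕ) (A C : k[X]) : ℝ :=
  (((Wn F h M).filter (fun f => A ∣ f ∧ C ∣ f + h)).card : ℝ)

/-- the expected number -/
noncomputable def ex (h : k[X]) (M : ℕ) (A C : k[X]) : ℝ :=
  if IsCoprime A C ∧ IsCoprime (A * C) h then QQ h M / qq k ^ (A.natDegree + C.natDegree) else 0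

/-- the remainder -/
noncomputable def rm [Finite k] (F h : k[X]) (M : ℕ) (A C : k[X]) : ℝ :=
  cnt F h M A C - ex h M A C

/-- the total remainder -/
noncomputable def RM [Finite k] (F h : k[X]) (M : ℕ) (T : Finset k[X]) (lam : Finset k[X] → ℝ)
    (i : ℕ) (α : k[X] → ℝ) (j : ℕ) (α' : k[X] → ℝ) : ℝ :=
  ∑ S ∈ T.powerset, ∑ S' ∈ T.powerset, (if Disjoint S S' then lam (S ∪ S') else 0) *
    ∑ d ∈ Mo k i, ∑ d' ∈ Mo k j, α d * α' d' * rm F h M (d * pr S) (d' * pr S')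

/-- the function lives on polynomials that avoid `T` -/
def On (T : Finset k[X]) (α : k[X] → ℝ) : Prop := ∀ d, α d ≠ 0 → Av T d

/-- a bounded function -/
def Bd (α : k[X] → ℝ) : Prop := ∀ d, |α d| ≤ 1

/-- the inner sum of the bilinear estimate -/
noncomputable def TI [Finite k] (F h : k[X]) (M β ρ : ℕ) (γ : k[X] → k[X] → k[X] → ℝ)
    (e a : k[X]) : ℝ :=
  ∑ b ∈ Mo k β, ∑ r ∈ Mle k ρ,
    if a * b ∈ Wn F h M ∧ e * r ∣ a * b + h then γ e b r * mu ((a * b + h) /ₘ e) else 0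

/-- a bound for the bilinear sum -/
def TB [Finite k] (F h : k[X]) (M β y ρ : ℕ) (B : ℝ) : Prop :=
  ∀ γ : k[X] → k[X] → k[X] → ℝ, (∀ e b r, |γ e b r| ≤ 1) →
    (∀ e b r, γ e b r ≠ 0 → Squarefree b) →
    ∑ e ∈ Mo k y, ∑ a ∈ Mo k (F.natDegree - β), |TI F h M β ρ γ e a| ≤ B

/-- a bound for the sum of remainders -/
def KB [Finite k] (F h : k[X]) (M D j c : ℕ) (B : ℝ) : Prop :=
  ∀ β : k[X] → k[X] → ℝ, (∀ d p, |β d p| ≤ 1) → (∀ d p, β d p ≠ 0 → Squarefree (d * p)) →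
    ∑ d ∈ Mo k D, ∑ C ∈ Mo k c, |∑ p ∈ Mo k j, β d p * rm F h M (d * p) C| ≤ B

/-- rough squarefree polynomials with a prime factor of degree in `(a, b]`, with a sign -/
noncomputable def aJ [Finite k] (ε : ℝ) (Z a b : ℕ) (d : k[X]) : ℝ :=
  if Av (Pr k Z) d ∧ Squarefree d ∧ ¬ Av (JJ k a b) d then ε ^ (pf d).card else 0

/-- every prime of norm two divides `h` -/
def Adm (h : k[X]) : Prop :=
  h ≠ 0 ∧ ∀ P : k[X], IsPr P → qq k ^ P.natDegree ≤ 2 → P ∣ h

/-- the standing hypotheses -/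
structure Ctx [Finite k] (F h : k[X]) (M Z δ : ℕ) (E : ℝ) (lam xi : Finset k[X] → ℝ) : Prop where
  mon : F.Monic
  adm : Adm h
  hZ : h.natDegree ≤ Z
  hM : h.natDegree < M
  le : M ≤ F.natDegree
  sv : Sv (pc 2) (T2 h Z) δ E lam xi
  E0 : 0 ≤ E
  E1 : E ≤ 1

/-- the number of pairs -/
noncomputable def PI2 [Finite k] (F h : k[X]) (M : ℕ) : ℝ :=
  (((Wn F h M).filter (fun f => Irreducible f ∧ Irreducible (f + h))).card : ℝ)

theorem a_TB2 : C2.S_TB2 := C2.p_TB2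

theorem a_COMP : C2.S_COMP := C2.p_COMP

theorem a_SPLIT : C2.S_SPLIT := C2.p_SPLIT C2.p_LOC

theorem a_GAUSS : L2.S_GAUSS := L2.p_GAUSS

theorem a_BIJ : L2.S_BIJ := L2.p_BIJ

theorem a_ORTH : L2.S_ORTH := L2.p_ORTH

theorem a_XAB : L2.S_XAB := L2.p_XAB (L2.p_BASE L2.p_BIJ) L2.p_REC L2.p_SEQ

theorem a_POLY : L2.S_POLY := L2.p_POLY L2.p_GAUSS

theorem a_ID0 : S_ID0 := p_ID0 L2.p_BIJ

theorem a_APM : S_APM := p_APM a_GEN p_LIN a_AZ

end Pool.Agent.P.MP_e94e4b_nt.RP
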