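import Pool.Agent.P.MP_e94e4b_nt.RP.Defs

/-! Definitions for the sum over the cells. -/

namespace Pool.Agent.P.MP_e94e4b_nt.RP

open Polynomial Finset
open Pool.Agent.P.MP_8be758_nt Pool.Agent.P.MP_8be758_nt.C2 Pool.Agent.P.MP_8be758_nt.L2
open Pool.Agent.P.MP_e94e4b_nt.LG
open scoped Classical

/-- the sifting limit -/
def zz (n t : ℕ) : ℕ := n / 2 ^ t

/-- the level of the sieve -/
def dl (n t : ℕ) : ℕ := (10 * t + 3) * (n / 2 ^ t)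

/-- the degrees near the middle -/
def Cor (n δ i : ℕ) : Prop := n < 2 * i + 134 * δ ∧ 2 * i < n + 134 * δ

/-- the majorant of the densities -/
noncomputable def sig (n Z : ℕ) (r : ℕ → ℝ) (i : ℕ) : ℝ := r i + r (n - i) + 1 / Z

/-- the bound for one cell -/
noncomputable def bb (n Z δ u : ℕ) (c3 : ℕ → ℕ → ℝ) (r : ℕ → ℝ) (Qv E W ω CR : ℝ)
    (i j : ℕ) : ℝ :=
  10 * CR * E * Qv * (sig n Z r i * sig n Z r j) +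
    (if j < i + u then 2 * Qv * (sig n Z r i * sig n Z r j) else 0) +
    (if n < 2 * i + 2 * u ∧ 2 * i < n + 2 * u then 2 * Qv * (CR / Z * sig n Z r j) else 0) +
    (if Cor n δ i ∧ Cor n δ j then 4 * Qv * ω * CR / Z ^ 2 + c3 i j else 0) + 2 * W

/-- the total relative error -/
noncomputable def eta (CR E N x y ω Lc : ℝ) : ℝ :=
  360 * CR ^ 3 * E * N ^ 4 + 72 * CR ^ 2 * N ^ 2 * x ^ 2 + 24 * CR ^ 2 * N ^ 3 * x +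
    4 * y ^ 4 * ω * CR + y ^ 3 * ω * Lc

/-- the saving in the middle -/
noncomputable def om0 (c0 t : ℕ) : ℝ := 2 * √(2804 * c0 * (10 * t + 3) / 2 ^ t)

/-- the loss in the middle -/
noncomputable def lc0 (c0 t : ℕ) : ℝ := 2 * 2 ^ (8 * c0) * (700 * (10 * t + 3)) ^ 512

/-- what is known about the cells -/
structure Cells (n M g Z δ u : ℕ) (C c3 : ℕ → ℕ → ℝ) (m r : ℕ → ℝ)
    (Qv Qt E W ω Lc CR : ℝ) : Prop where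
  a1 : 0 ≤ Qv
  a2 : 0 ≤ Qt
  a3 : Qt ≤ 2 * Qv
  a4 : 0 ≤ E
  a5 : 0 ≤ W
  a6 : 0 ≤ ω
  a7 : 0 ≤ Lc
  a8 : 1 ≤ CR
  n1 : 1 ≤ Z
  n2 : Z ≤ δ
  n3 : u ≤ Z
  n4 : 400 * δ ≤ n
  n5 : n + g ≤ M + u
  sym : ∀ i j, C i j = C j i
  mr : ∀ D, |m D| ≤ r D
  r0 : r 0 ≤ 1
  r1 : ∀ j, 1 ≤ j → r j ≤ CR / Z
  mb : ∀ D, n / 4 < D → D ≤ n → |m D| ≤ 2 * E / Z
  cX : ∀ i j, i + j + δ + g ≤ M → |C i j - Qt * (m i * m j)| ≤ E * Qv * (r i * r j) + W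
  cK : ∀ i j, 65 * δ < i → i + 9 * δ ≤ j → j ≤ n → i + j ≤ n + u →
    |C i j - Qt * (m i * m j)| ≤ E * Qv * (r i * r j) + W
  cA : ∀ i j, i ≤ 65 * δ → n ≤ 2 * j → j ≤ n → |C i j| ≤ E * Qv * (r i * r (n - j)) + W
  cT1 : ∀ i j β, i ≤ n → j ≤ n → (β = i ∨ β = n - i) → 2 * β + 130 * δ ≤ n →
    n - j + u ≤ β → |C i j| ≤ E * Qv * (r β * r (n - j)) + W
  cT2 : ∀ i j β, i ≤ n → j ≤ n → (β = i ∨ β = n - i) → 2 * β + 2 * u ≤ n →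
    n - j + δ + u ≤ β → |C i j| ≤ E * Qv * (r β * r (n - j)) + W
  cP : ∀ i j β β', i ≤ n → j ≤ n → (β = i ∨ β = n - i) → (β' = j ∨ β' = n - j) →
    β + β' + δ + g ≤ M → |C i j| ≤ 2 * Qv * (r β * r β')
  cZ : ∀ i j, Cor n δ i → Cor n δ j → |C i j| ≤ 2 * E * Qv * (r i * r j) +
    4 * Qv * ((2 * E + ω) / Z * (CR / Z)) + 2 * W + c3 i j
  c30 : ∀ i j, 0 ≤ c3 i j
  c31 : ∀ i, Cor n δ i → ∑ j ∈ range (n + 1), c3 i j ≤ Qv * (ω / Z) * Lc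

end Pool.Agent.P.MP_e94e4b_nt.RP
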