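import Pool.Agent.P.MP_e94e4b_nt.RP.Defs

/-! Definitions for the fundamental lemma. -/

namespace Pool.Agent.P.MP_e94e4b_nt.RP

open Polynomial Finset
open Pool.Agent.P.MP_8be758_nt Pool.Agent.P.MP_8be758_nt.C2 Pool.Agent.P.MP_8be758_nt.L2
open Pool.Agent.P.MP_e94e4b_nt.LG
open scoped Classical

variable {k : Type} [Field k]

/-- the odds -/
noncomputable def hh (p : k[X] → ℝ) (P : k[X]) : ℝ := p P / (1 - p P)

/-- the normalising sum -/
noncomputable def GR (p : k[X] → ℝ) (T : Finset k[X]) (R : ℕ) : ℝ :=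
  ∑ S ∈ T.powerset.filter (fun S => dg S ≤ R), ∏ P ∈ S, hh p P

/-- the linear form that is squared -/
noncomputable def FA (p : k[X] → ℝ) (T : Finset k[X]) (R : ℕ) (A : Finset k[X]) : ℝ :=
  ∑ S ∈ T.powerset.filter (fun S => dg S ≤ R), ∏ P ∈ S, (if P ∈ A then -1 else hh p P)

/-- the probability of a subset -/
noncomputable def PA (p : k[X] → ℝ) (T A : Finset k[X]) : ℝ :=
  (∏ P ∈ A, p P) * ∏ P ∈ T \ A, (1 - p P)

/-- the boundary sum -/
noncomputable def XR (p : k[X] → ℝ) (T : Finset k[X]) (R : ℕ) : ℝ :=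
  ∑ P ∈ T, p P * ∑ S ∈ (T.erase P).powerset.filter
    (fun S => dg S ≤ R ∧ R < dg S + P.natDegree), ∏ Q ∈ S, hh p Q

end Pool.Agent.P.MP_e94e4b_nt.RP
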