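import Pool.Agent.P.MP_e94e4b_nt.RP.Defs

/-! Definitions for the bilinear estimate with two conductors. -/

namespace Pool.Agent.P.MP_e94e4b_nt.RP

open Polynomial Finset
open Pool.Agent.P.MP_8be758_nt Pool.Agent.P.MP_8be758_nt.C2 Pool.Agent.P.MP_8be758_nt.L2
open Pool.Agent.P.MP_e94e4b_nt.LG
open scoped Classical

variable {k : Type} [Field k]

/-- every nonzero polynomial of degree at most `n` has at most `Z` monic divisors -/
def Dv (k : Type) [Field k] [Finite k] (n : ℕ) (Z : ℝ) : Prop :=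
  ∀ m : k[X], m ≠ 0 → m.natDegree ≤ n → nd m ≤ Z

/-- the cofactor of `e` in `a b + h` -/
noncomputable def dd (h a b e : k[X]) : k[X] := (a * b + h) /ₘ e

/-- the sum over the small divisors -/
noncomputable def IR [Finite k] (F h : k[X]) (M ρ : ℕ) (c : k[X] → ℝ) (e a b : k[X]) : ℝ :=
  ∑ r ∈ Mle k ρ, if a * b ∈ Wn F h M ∧ e * r ∣ a * b + h then c r else 0

/-- the inner sum with the factor `φ b d` -/
noncomputable def IW [Finite k] (F h : k[X]) (M β ρ : ℕ) (γ : k[X] → k[X] → k[X] → ℝ)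
    (φ : k[X] → k[X] → ℝ) (e a : k[X]) : ℝ :=
  ∑ b ∈ Mo k β, IR F h M ρ (γ e b) e a b * φ b (dd h a b e)

/-- the bilinear sum -/
noncomputable def TT [Finite k] (F h : k[X]) (n M β y ρ : ℕ) (γ : k[X] → k[X] → k[X] → ℝ) : ℝ :=
  ∑ e ∈ Mo k y, ∑ a ∈ Mo k (n - β), |TI F h M β ρ γ e a|

/-- admissible coefficients -/
def Cf (γ : k[X] → k[X] → k[X] → ℝ) : Prop :=
  (∀ e b r, |γ e b r| ≤ 1) ∧ ∀ e b r, γ e b r ≠ 0 → Squarefree b

/-- the degenerate case of the local sum -/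
def kb [CharP k 2] (a : ℕ) (C d : k[X]) : Prop :=
  odp (d * C) ≠ 0 ∧ ∃ P, IsPr P ∧ P.natDegree = a ∧ P ∣ odp (d * C) ∧ ¬ P ∣ fr C ∧
    P ∣ kap (fr C) (evp (d * C)) (odp (d * C))

/-- the weighted Moebius function -/
noncomputable def FW [Finite k] [CharP k 2] (a r s0 : ℕ) (C d : k[X]) : ℝ :=
  if kb a C d then 0 else mu (d * C) * G1 a r s0 (odp (d * C))

/-- the directions prime to `e` -/
noncomputable def BB [Finite k] (D : ℕ) (e : k[X]) : Finset k[X] :=
  (Pd k D).filter (fun B => ¬ B ∣ e)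

/-- the admissible `b` -/
noncomputable def Bf [Finite k] (h : k[X]) (β : ℕ) : Finset k[X] :=
  (Mo k β).filter (fun b => Squarefree b ∧ IsCoprime b h)

/-- the solutions `a` of the congruence -/
noncomputable def Ae [Finite k] (h : k[X]) (m : ℕ) (b e : k[X]) : Finset k[X] :=
  (Mo k m).filter (fun a => e ∣ a * b + h)

/-- the sum over all triples -/
noncomputable def ST [Finite k] (h : k[X]) (n β y : ℕ) (Φ : k[X] → k[X] → k[X] → ℝ) : ℝ :=
  ∑ b ∈ Bf h β, ∑ e ∈ Mo k y, ∑ a ∈ Ae h (n - β) b e, Φ b e a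

/-- the conductor -/
noncomputable def VB (h b e a B : k[X]) : k[X] := odp (dd h a b e * (b * B))

/-- the weighted bilinear sum -/
noncomputable def TS1 [Finite k] [CharP k 2] (F h : k[X]) (n M β y ρ D a r s0 : ℕ)
    (γ : k[X] → k[X] → k[X] → ℝ) : ℝ :=
  ∑ e ∈ Mo k y, ∑ B ∈ Pd k D, ∑ x ∈ Mo k (n - β),
    |IW F h M β ρ γ (fun b d => mu b * FW a r s0 (b * B) d) e x|

/-- the deviation of the weight from its mean -/
noncomputable def TS2 [Finite k] (h : k[X]) (n β y D a r s0 : ℕ) : ℝ :=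
  ST h n β y (fun b e x => |∑ B ∈ BB D e, G0 a r s0 (VB h b e x B)|)

/-- the number of conductors of small degree -/
noncomputable def TS3 [Finite k] (h : k[X]) (n β y D s0 : ℕ) : ℝ :=
  ST h n β y (fun b e x => (((BB D e).filter (fun B => (VB h b e x B).natDegree < s0)).card : ℝ))

/-- the number of directions that are not coprime -/
noncomputable def TS4 [Finite k] (h : k[X]) (n β y D : ℕ) : ℝ :=
  ST h n β y (fun b e x => (((Pd k D).filter (fun B => B ∣ dd h x b e * b)).card : ℝ))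

/-- the number of degenerate directions -/
noncomputable def TS5 [Finite k] [CharP k 2] (h : k[X]) (n β y D a : ℕ) : ℝ :=
  ST h n β y (fun b e x => (((Pd k D).filter (fun B => kb a (b * B) (dd h x b e))).card : ℝ))

/-- the off-diagonal part of the second moment -/
noncomputable def OF [Finite k] (h : k[X]) (n β y D a r s0 : ℕ) : ℝ :=
  ∑ b ∈ Bf h β, ∑ e ∈ Mo k y, ∑ B ∈ BB D e, ∑ B' ∈ (BB D e).erase B,
    |∑ x ∈ Ae h (n - β) b e, G0 a r s0 (VB h b e x B) * G0 a r s0 (VB h b e x B')|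

/-- the numerical parameters -/
structure Pt (n M β y ρ dh D s s0 σ L H a r p K : ℕ) : Prop where
  t1 : M ≤ n
  t2 : n + β + D = 2 * s + y
  t3 : y + D ≤ β
  t4 : β ≤ y + D + 1
  t5 : s = β + D + σ
  t6 : s0 + H = s
  t7 : s + a ≤ r * a + L
  t8 : r * a + a + H ≤ s
  t9 : p + a + H = σ
  t10 : 2 * β + 4 * (2 * ρ + dh + L + H) ≤ M
  t11 : 2 * (2 * ρ + dh + L + 2 * H) ≤ σ
  t12 : 2 * ρ + dh < a
  t13 : 2 * H ≤ a
  t14 : a ≤ L
  t15 : 1 ≤ H
  t16 : 2 * s ≤ K * L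
  t17 : s ≤ K * a
  t18 : 1 ≤ r
  t19 : r ≤ K
  t20 : H ≤ D

end Pool.Agent.P.MP_e94e4b_nt.RP
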