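import Pool.Agent.P.MP_e94e4b_nt.RP.IfW
import Pool.Agent.P.MP_e94e4b_nt.RP.DefsC

/-! The cells and their sum, as statements. -/

namespace Pool.Agent.P.MP_e94e4b_nt.RP

open Polynomial Finset
open Pool.Agent.P.MP_8be758_nt Pool.Agent.P.MP_8be758_nt.C2 Pool.Agent.P.MP_8be758_nt.L2
open Pool.Agent.P.MP_e94e4b_nt.LG
open scoped Classical

-- deps: CW
def S_LAMB : Prop :=
  ∀ κ : ℕ, 1 ≤ κ → ∀ (k : Type) [Field k] [Finite k], ∃ n0 : ℕ, ∀ n, n0 ≤ n →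
    ∀ (T : Finset k[X]) (δ : ℕ) (lam : Finset k[X] → ℝ), (∀ P ∈ T, IsPr P) → Lv T δ lam →
      δ ≤ n → (∀ S, |lam S| ≤ qq k ^ (n / κ)) ∧ ∀ m ∈ Mo k n, |sw lam m| ≤ qq k ^ (n / κ)

-- deps: CG XP CZ0
def S_CX : Prop :=
  ∀ t : ℕ, ∃ κ : ℕ, 1 ≤ κ ∧ ∀ (k : Type) [Field k] [Finite k] [CharP k 2] (h : k[X]),
    ∃ n0 : ℕ, ∀ (F : k[X]) (M δ : ℕ) (E : ℝ) (lam xi : Finset k[X] → ℝ),
      Ctx F h M (zz F.natDegree t) δ E lam xi → n0 ≤ F.natDegree →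
      ∀ i j, i + j + δ + h.natDegree ≤ M →
        |CC F h M (zz F.natDegree t) i j - QQ h M * EE (pc 2) (T2 h (zz F.natDegree t)) lam *
            (mm (Pr k (zz F.natDegree t)) i * mm (Pr k (zz F.natDegree t)) j)| ≤
          E * (QQ h M * VV (pc 2) (T2 h (zz F.natDegree t))) *
            (rho (Pr k (zz F.natDegree t)) i * rho (Pr k (zz F.natDegree t)) j) +
          qq k ^ M / qq k ^ (F.natDegree / κ)

-- deps: CG CZ0 RK1 K LAMB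
def S_CK : Prop :=
  ∀ t : ℕ, 1 ≤ t → ∃ κ : ℕ, 1 ≤ κ ∧ ∀ (k : Type) [Field k] [Finite k] [CharP k 2] (h : k[X]),
    ∃ n0 : ℕ, ∀ (F : k[X]) (M u : ℕ) (E : ℝ) (lam xi : Finset k[X] → ℝ),
      Ctx F h M (zz F.natDegree t) (dl F.natDegree t) E lam xi → n0 ≤ F.natDegree →
      u ≤ zz F.natDegree t → F.natDegree + h.natDegree ≤ M + u →
      ∀ i j, 65 * dl F.natDegree t < i → i + 9 * dl F.natDegree t ≤ j → j ≤ F.natDegree →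
        i + j ≤ F.natDegree + u →
        |CC F h M (zz F.natDegree t) i j - QQ h M * EE (pc 2) (T2 h (zz F.natDegree t)) lam *
            (mm (Pr k (zz F.natDegree t)) i * mm (Pr k (zz F.natDegree t)) j)| ≤
          E * (QQ h M * VV (pc 2) (T2 h (zz F.natDegree t))) *
            (rho (Pr k (zz F.natDegree t)) i * rho (Pr k (zz F.natDegree t)) j) +
          qq k ^ M / qq k ^ (F.natDegree / κ)

-- deps: AX AS LAMB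
def S_CA : Prop :=
  ∃ κ5 : ℕ, 1 ≤ κ5 ∧ ∀ t : ℕ, 300 * κ5 * (10 * t + 3) ≤ 2 ^ t → ∃ κ : ℕ, 1 ≤ κ ∧
    ∀ (k : Type) [Field k] [Finite k] [CharP k 2] (h : k[X]),
    ∃ n0 : ℕ, ∀ (F : k[X]) (M u : ℕ) (E : ℝ) (lam xi : Finset k[X] → ℝ),
      Ctx F h M (zz F.natDegree t) (dl F.natDegree t) E lam xi → n0 ≤ F.natDegree →
      u ≤ zz F.natDegree t → F.natDegree + h.natDegree ≤ M + u →
      ∀ i j, i ≤ 65 * dl F.natDegree t → F.natDegree ≤ 2 * j → j ≤ F.natDegree →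
        |CC F h M (zz F.natDegree t) i j| ≤
          E * (QQ h M * VV (pc 2) (T2 h (zz F.natDegree t))) *
            (rho (Pr k (zz F.natDegree t)) i * rho (Pr k (zz F.natDegree t)) (F.natDegree - j)) +
          qq k ^ M / qq k ^ (F.natDegree / κ)

-- deps: T TW TA1 AX DSB DIV LAMB
def S_CT1 : Prop :=
  ∀ t K0 : ℕ, 2 ^ t ≤ K0 → ∃ κ : ℕ, 1 ≤ κ ∧
    ∀ (k : Type) [Field k] [Finite k] [CharP k 2] (h : k[X]),
    ∃ n0 : ℕ, ∀ (F : k[X]) (M : ℕ) (E : ℝ) (lam xi : Finset k[X] → ℝ),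
      Ctx F h M (zz F.natDegree t) (dl F.natDegree t) E lam xi → n0 ≤ F.natDegree →
      F.natDegree ≤ M + F.natDegree / κ →
      ∀ i j β, i ≤ F.natDegree → j ≤ F.natDegree → (β = i ∨ β = F.natDegree - i) →
        2 * β + 130 * dl F.natDegree t ≤ F.natDegree →
        F.natDegree - j + F.natDegree / K0 ≤ β →
        |CC F h M (zz F.natDegree t) i j| ≤
          E * (QQ h M * VV (pc 2) (T2 h (zz F.natDegree t))) *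
            (rho (Pr k (zz F.natDegree t)) β * rho (Pr k (zz F.natDegree t)) (F.natDegree - j)) +
          qq k ^ M / qq k ^ (F.natDegree / κ)

-- deps: T TW TA2 AX DSB DIV LAMB
def S_CT2 : Prop :=
  ∀ t K0 : ℕ, 2 ^ t ≤ K0 → ∃ κ : ℕ, 1 ≤ κ ∧
    ∀ (k : Type) [Field k] [Finite k] [CharP k 2] (h : k[X]),
    ∃ n0 : ℕ, ∀ (F : k[X]) (M : ℕ) (E : ℝ) (lam xi : Finset k[X] → ℝ),
      Ctx F h M (zz F.natDegree t) (dl F.natDegree t) E lam xi → n0 ≤ F.natDegree →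
      F.natDegree ≤ M + F.natDegree / κ →
      ∀ i j β, i ≤ F.natDegree → j ≤ F.natDegree → (β = i ∨ β = F.natDegree - i) →
        2 * β + 2 * (F.natDegree / K0) ≤ F.natDegree →
        F.natDegree - j + dl F.natDegree t + F.natDegree / K0 ≤ β →
        |CC F h M (zz F.natDegree t) i j| ≤
          E * (QQ h M * VV (pc 2) (T2 h (zz F.natDegree t))) *
            (rho (Pr k (zz F.natDegree t)) β * rho (Pr k (zz F.natDegree t)) (F.natDegree - j)) +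
          qq k ^ M / qq k ^ (F.natDegree / κ)

-- deps: CG CZ0 RK2 K LAMB
def S_CZ1 : Prop :=
  ∀ t c0 : ℕ, 2 ≤ c0 → 3600 * c0 * (10 * t + 3) ≤ 2 ^ t → ∃ κ : ℕ, 1 ≤ κ ∧
    ∀ (k : Type) [Field k] [Finite k] [CharP k 2] (h : k[X]),
    ∃ n0 : ℕ, ∀ (F : k[X]) (M u : ℕ) (E : ℝ) (lam xi : Finset k[X] → ℝ) (α' : k[X] → ℝ),
      Ctx F h M (zz F.natDegree t) (dl F.natDegree t) E lam xi → n0 ≤ F.natDegree →
      u ≤ zz F.natDegree t → F.natDegree + h.natDegree ≤ M + u → Bd α' →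
      On (Pr k (zz F.natDegree t)) α' →
      ∀ i j, Cor F.natDegree (dl F.natDegree t) i → Cor F.natDegree (dl F.natDegree t) j →
        |BS F h M (av (Pr k (zz F.natDegree t))) i
            (aJ (-1) (zz F.natDegree t) (700 * dl F.natDegree t) (F.natDegree / (4 * c0))) j α' -
          QQ h M * EE (pc 2) (T2 h (zz F.natDegree t)) lam *
            (mn i (aJ (-1) (zz F.natDegree t) (700 * dl F.natDegree t)
              (F.natDegree / (4 * c0)) : k[X] → ℝ) * mn j α')| ≤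
          E * (QQ h M * VV (pc 2) (T2 h (zz F.natDegree t))) *
            (rho (Pr k (zz F.natDegree t)) i * rho (Pr k (zz F.natDegree t)) j) +
          qq k ^ M / qq k ^ (F.natDegree / κ)

-- deps: CZ0 CZ1 LEFT RJ
def S_CZ : Prop :=
  ∃ c0 : ℕ, 2 ≤ c0 ∧ ∀ t : ℕ, 3600 * c0 * (10 * t + 3) ≤ 2 ^ t → ∃ κ : ℕ, 1 ≤ κ ∧
    ∀ (k : Type) [Field k] [Finite k] [CharP k 2] (h : k[X]),
    ∃ n0 : ℕ, ∀ (F : k[X]) (M u : ℕ) (E CR : ℝ) (lam xi : Finset k[X] → ℝ),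
      Ctx F h M (zz F.natDegree t) (dl F.natDegree t) E lam xi → n0 ≤ F.natDegree →
      u ≤ zz F.natDegree t → F.natDegree + h.natDegree ≤ M + u →
      (∀ j, 1 ≤ j → rho (Pr k (zz F.natDegree t)) j ≤ CR / zz F.natDegree t) →
      (∀ D, F.natDegree / 4 < D → D ≤ F.natDegree →
        |mm (Pr k (zz F.natDegree t)) D| ≤ 2 * E / zz F.natDegree t) →
      ∃ c3 : ℕ → ℕ → ℝ, (∀ i j, 0 ≤ c3 i j) ∧
        (∀ i j, Cor F.natDegree (dl F.natDegree t) i → Cor F.natDegree (dl F.natDegree t) j →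
          |CC F h M (zz F.natDegree t) i j| ≤
            2 * E * (QQ h M * VV (pc 2) (T2 h (zz F.natDegree t))) *
              (rho (Pr k (zz F.natDegree t)) i * rho (Pr k (zz F.natDegree t)) j) +
            4 * (QQ h M * VV (pc 2) (T2 h (zz F.natDegree t))) *
              ((2 * E + om0 c0 t) / zz F.natDegree t * (CR / zz F.natDegree t)) +
            2 * (qq k ^ M / qq k ^ (F.natDegree / κ)) + c3 i j) ∧
        ∀ i, Cor F.natDegree (dl F.natDegree t) i → ∑ j ∈ range (F.natDegree + 1), c3 i j ≤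
          QQ h M * VV (pc 2) (T2 h (zz F.natDegree t)) * (om0 c0 t / zz F.natDegree t) * lc0 c0 t

-- deps: FL MUR RH2 MER1
def S_ONE : Prop :=
  ∃ C0 : ℝ, 1 ≤ C0 ∧ ∀ (t : ℕ) (E : ℝ), C0 / 2 ^ (5 * t) ≤ E → E ≤ 1 →
    8 * (10 * t + 3) ≤ 2 ^ t → ∀ (k : Type) [Field k] [Finite k], ∃ n0 : ℕ, ∀ n, n0 ≤ n →
      (∀ D, n / 4 < D → |mm (Pr k (zz n t)) D| ≤ 2 * E / zz n t) ∧
      ∀ j, dl n t ≤ j → |rho (Pr k (zz n t)) j - VV (pc 1) (Pr k (zz n t))| ≤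
        E * VV (pc 1) (Pr k (zz n t))

-- deps: FL ADM
def S_TWO : Prop :=
  ∃ C0 : ℝ, 1 ≤ C0 ∧ ∀ (t Z : ℕ) (E : ℝ), C0 / 2 ^ (5 * t) ≤ E → E ≤ 1 → 1 ≤ Z →
    ∀ (k : Type) [Field k] [Finite k] [CharP k 2] (h : k[X]), Adm h →
      ∃ lam xi, Sv (pc 2) (T2 h Z) ((10 * t + 3) * Z) E lam xi

-- deps: ONE TWO SYM RZ CX CK CA CT1 CT2 CP CZ
def S_INP : Prop :=
  ∃ (CF CR : ℝ) (c0 κ5 : ℕ), 1 ≤ CF ∧ 1 ≤ CR ∧ 2 ≤ c0 ∧ 1 ≤ κ5 ∧ ∀ t K0 : ℕ, 1 ≤ t →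
    CF ≤ 2 ^ (5 * t) → 2 ^ t ≤ K0 → 3600 * c0 * κ5 * (10 * t + 3) ≤ 2 ^ t → ∃ κ : ℕ, 1 ≤ κ ∧
    ∀ (k : Type) [Field k] [Finite k] [CharP k 2] (h : k[X]), Adm h →
    ∃ n0 : ℕ, ∀ (F : k[X]) (M : ℕ), F.Monic → n0 ≤ F.natDegree → M ≤ F.natDegree →
      F.natDegree ≤ M + F.natDegree / κ → ∃ (Θ : ℝ) (c3 : ℕ → ℕ → ℝ),
        VV (pc 2) (T2 h (zz F.natDegree t)) ≤ Θ ∧
        Cells F.natDegree M h.natDegree (zz F.natDegree t) (dl F.natDegree t) (F.natDegree / K0)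
          (CC F h M (zz F.natDegree t)) c3 (mm (Pr k (zz F.natDegree t)))
          (rho (Pr k (zz F.natDegree t))) (QQ h M * VV (pc 2) (T2 h (zz F.natDegree t)))
          (QQ h M * Θ) (CF / 2 ^ (5 * t)) (qq k ^ M / qq k ^ (F.natDegree / κ)) (om0 c0 t)
          (lc0 c0 t) CR ∧
        ∀ j, dl F.natDegree t ≤ j →
          |rho (Pr k (zz F.natDegree t)) j - VV (pc 1) (Pr k (zz F.natDegree t))| ≤
            CF / 2 ^ (5 * t) * VV (pc 1) (Pr k (zz F.natDegree t))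

-- deps:
def S_CELL : Prop :=
  ∀ (n M g Z δ u : ℕ) (C c3 : ℕ → ℕ → ℝ) (m r : ℕ → ℝ) (Qv Qt E W ω Lc CR : ℝ),
    Cells n M g Z δ u C c3 m r Qv Qt E W ω Lc CR → ∀ i j, i ≤ j → j ≤ n →
    |C i j - (if j ≤ n / 4 then Qt * (m i * m j) else 0)| ≤ bb n Z δ u c3 r Qv E W ω CR i j

-- deps:
def S_SUM1 : Prop :=
  ∀ (n M g Z δ u : ℕ) (C c3 : ℕ → ℕ → ℝ) (m r : ℕ → ℝ) (Qv Qt E W ω Lc CR N x y : ℝ),
    Cells n M g Z δ u C c3 m r Qv Qt E W ω Lc CR → (n : ℝ) ≤ N * Z → (u : ℝ) ≤ x * Z →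
    134 * (δ : ℝ) ≤ y * Z →
    ∑ i ∈ range (n + 1), ∑ j ∈ range (n + 1),
        (if i ≤ j then ((i : ℝ) - j) ^ 2 * bb n Z δ u c3 r Qv E W ω CR i j else 0) ≤
      Qv * Z ^ 2 * eta CR E N x y ω Lc + 2 * W * ((n : ℝ) ^ 2 * (n + 1) ^ 2)

-- deps: CELL SUM1
def S_SUM : Prop :=
  ∀ (n M g Z δ u : ℕ) (C c3 : ℕ → ℕ → ℝ) (m r : ℕ → ℝ) (Qv Qt E W ω Lc CR N x y : ℝ),
    Cells n M g Z δ u C c3 m r Qv Qt E W ω Lc CR → (n : ℝ) ≤ N * Z → (u : ℝ) ≤ x * Z →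
    134 * (δ : ℝ) ≤ y * Z →
    |∑ i ∈ range (n + 1), ∑ j ∈ range (n + 1), ((i : ℝ) - j) ^ 2 * C i j -
        Qt * ∑ i ∈ range (n / 4 + 1), ∑ j ∈ range (n / 4 + 1), ((i : ℝ) - j) ^ 2 * (m i * m j)| ≤
      2 * Qv * Z ^ 2 * eta CR E N x y ω Lc + 4 * W * ((n : ℝ) ^ 2 * (n + 1) ^ 2)

-- deps:
def S_NUM : Prop :=
  ∀ (CF CR : ℝ) (c0 κ5 : ℕ), 1 ≤ CF → 1 ≤ CR → ∃ t K0 : ℕ, 1 ≤ t ∧ CF ≤ 2 ^ (5 * t) ∧
    2 ^ t ≤ K0 ∧ 3600 * c0 * κ5 * (10 * t + 3) ≤ 2 ^ t ∧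
    eta CR (CF / 2 ^ (5 * t)) (2 ^ (t + 1)) (2 ^ (t + 1) / K0) (134 * (10 * t + 3)) (om0 c0 t)
      (lc0 c0 t) ≤ 1 / 16

-- deps: MA CV MER1
def S_MAIN : Prop :=
  ∀ (k : Type) [Field k] [Finite k] (n Z δ : ℕ) (E CR N : ℝ), 4 ≤ n → 1 ≤ Z → Z < n →
    2 * δ ≤ n → (n : ℝ) ≤ N * Z → 1 ≤ CR → 0 ≤ E → 360 * CR ^ 3 * E * N ^ 4 ≤ 1 / 16 →
    (∀ j, 1 ≤ j → rho (Pr k Z) j ≤ CR / Z) →
    (∀ D, n / 4 < D → D ≤ n → |mm (Pr k Z) D| ≤ 2 * E / Z) →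
    (∀ j, δ ≤ j → |rho (Pr k Z) j - VV (pc 1) (Pr k Z)| ≤ E * VV (pc 1) (Pr k Z)) →
    VV (pc 1) (Pr k Z) ^ 2 * ∑ i ∈ range (n / 4 + 1), ∑ j ∈ range (n / 4 + 1),
      ((i : ℝ) - j) ^ 2 * (mm (Pr k Z) i * mm (Pr k Z) j) ≤ -(1 / 4)

-- deps:
def S_END : Prop :=
  ∀ A Y Q V1 V2 Θ Z η e1 e2 n π : ℝ, 0 ≤ Q → 0 < V1 → 0 ≤ Z → V1 * (Z + 1) ≤ 1 →
    V1 ^ 2 ≤ 4 * V2 → V2 ≤ Θ → η ≤ 1 / 16 → |A - Q * Θ * Y| ≤ 2 * (Q * V2) * Z ^ 2 * η + e1 →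
    V1 ^ 2 * Y ≤ -(1 / 4) → -A ≤ 2 * n ^ 2 * π + e2 → e1 + e2 ≤ Q / 64 → Q ≤ 128 * n ^ 2 * π

-- deps: NUM INP SUM MAIN IDT SING MER1 END
def S_FIN : Prop :=
  ∃ K : ℕ, 1 ≤ K ∧ ∀ (k : Type) [Field k] [Finite k] [CharP k 2] (h : k[X]), Adm h →
    ∃ n0 : ℕ, ∀ (F : k[X]) (M : ℕ), F.Monic → n0 ≤ F.natDegree → M ≤ F.natDegree →
      F.natDegree ≤ M + F.natDegree / K →
      QQ h M ≤ 128 * (F.natDegree : ℝ) ^ 2 * PI2 F h M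

end Pool.Agent.P.MP_e94e4b_nt.RP
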