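import Pool.Agent.P.MP_e94e4b_nt.RP.IfC
import Pool.Agent.P.MP_e94e4b_nt.RP.If0
import Pool.Agent.P.MP_e94e4b_nt.RP.IfW

/-! Step CT2. -/

set_option autoImplicit false
set_option linter.unusedSectionVars false

namespace Pool.Agent.P.MP_e94e4b_nt.RP

open Polynomial Finset
open Pool.Agent.P.MP_8be758_nt Pool.Agent.P.MP_8be758_nt.C2 Pool.Agent.P.MP_8be758_nt.L2
open Pool.Agent.P.MP_e94e4b_nt.LG
open scoped Classical

theorem ct2_small {q : ℝ} (hq : 2 ≤ q) {c r M w : ℕ} (h : c + w + 2 ≤ M + r) :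
    q ^ c / q ^ r ≤ q ^ M / q ^ w / 4 := by
  have h0 : 0 < q := by linarith
  rw [div_div, div_le_div_iff₀ (by positivity) (by positivity)]
  have h4 : (4 : ℝ) ≤ q ^ 2 := by nlinarith
  calc q ^ c * (q ^ w * 4) ≤ q ^ c * (q ^ w * q ^ 2) := by gcongr
    _ = q ^ (c + w + 2) := by ring
    _ ≤ q ^ (M + r) := pow_le_pow_right₀ (by linarith) h
    _ = _ := pow_add _ _ _

theorem ct2_div {n a b : ℕ} (ha : 1 ≤ a) (hb : 1 ≤ b) : 4000 * (n / (4000 * a * b)) ≤ n / a := by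
  rw [Nat.le_div_iff_mul_le ha]
  calc 4000 * (n / (4000 * a * b)) * a ≤ 4000 * (n / (4000 * a * b)) * a * b :=
        Nat.le_mul_of_pos_right _ hb
    _ = n / (4000 * a * b) * (4000 * a * b) := by ring
    _ ≤ n := Nat.div_mul_le_self _ _

theorem p_CT2 (hT : S_T) (hTW : S_TW) (hTA2 : S_TA2) (hAX : S_AX) (hDSB : S_DSB) (hDIV : S_DIV) (hLAMB : S_LAMB) :
    S_CT2 := by
  intro t K0 hK
  have hK1 : 1 ≤ K0 := le_trans Nat.one_le_two_pow hK
  obtain ⟨κT, hκT, hT⟩ := hT K0 hK1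
  have hκ : 1 ≤ 4000 * κT * K0 := Nat.mul_pos (by omega) hK1
  refine ⟨4000 * κT * K0, hκ, fun k _ _ _ h => ?_⟩
  by_cases h0 : h = 0
  · exact ⟨0, fun F M E lam xi hc => absurd h0 hc.adm.1⟩
  obtain ⟨n1, hn1⟩ := hT k h h0
  obtain ⟨n2, hn2⟩ := hDIV _ hκ k
  obtain ⟨n3, hn3⟩ := hLAMB _ hκ k
  obtain ⟨n4, hn4⟩ := NEG 1 _ 1 1 hκ one_pos
  refine ⟨n1 + n2 + n3 + n4 + (h.natDegree + 1) * (4000 * κT * K0), ?_⟩
  intro F M E lam xi hc hn hM i j β hi hj hβ hb1 hb2
  have hw0 : h.natDegree + 1 ≤ F.natDegree / (4000 * κT * K0) :=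
    (Nat.le_div_iff_mul_le hκ).2 (by omega)
  have hw1 : 4000 * (F.natDegree / (4000 * κT * K0)) ≤ F.natDegree / κT := ct2_div hκT hK1
  have hw2 : 4000 * (F.natDegree / (4000 * κT * K0)) ≤ F.natDegree / K0 := by
    have := ct2_div (n := F.natDegree) hK1 hκT
    rwa [show 4000 * K0 * κT = 4000 * κT * K0 by ring] at this
  have hw3 : F.natDegree / K0 ≤ zz F.natDegree t :=
    Nat.div_le_div_left hK (Nat.pow_pos (by norm_num))
  have hA := (hAX k F h M _ _ i j β E lam xi hc hi hj).2 hβ (by omega)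
  obtain ⟨hl1, hl2⟩ := hn3 F.natDegree (by omega) _ _ lam isPr_T2 hc.sv.l1 (by omega)
  have hτ : ∀ m ∈ Mo k F.natDegree, nd m ≤ qq k ^ (F.natDegree / (4000 * κT * K0)) :=
    fun m hm => hn2 F.natDegree (by omega) m (mem_Mo.1 hm).1.ne_zero
      (by rw [(mem_Mo.1 hm).2]; omega)
  have hN := hn4 F.natDegree (by omega)
  have hq := qq_pos (k := k)
  have hδ : ((dl F.natDegree t : ℕ) : ℝ) + 1 ≤ qq k ^ (F.natDegree / (4000 * κT * K0)) := by
    have h1 : ((dl F.natDegree t : ℕ) : ℝ) ≤ F.natDegree := by exact_mod_cast (by omega)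
    have h2 := two_pow_le_qq (k := k) (F.natDegree / (4000 * κT * K0))
    simp only [one_mul, pow_one] at hN
    linarith
  have hW := hTW k F h M (zz F.natDegree t) i β
    (fun m => sw lam m * DM (F.natDegree - j) (av (Pr k (zz F.natDegree t))) m) _
    (qq k ^ (F.natDegree / (4000 * κT * K0)) * qq k ^ (F.natDegree / (4000 * κT * K0))) _
    hc.mon h0 hc.hM hc.le hi hβ
    (fun c hc1 hc2 => hTA2 k F h M _ _ β (F.natDegree - j) (F.natDegree / K0 / 128) _
      (qq k ^ F.natDegree / qq k ^ (F.natDegree / κT)) _ lam c hc.mon h0 hc.hM hc.le hc.sv.l1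
      (by positivity) hl1
      (fun a ha => hn1 F M β _ _ hc.mon (by omega) hc.le (by omega) (by omega) (by omega))
      hτ hc1 hc2)
    (fun m hm => by
      rw [abs_mul]
      refine mul_le_mul (hl2 m hm) ?_ (abs_nonneg _) (by positivity)
      refine ((hDSB k m _ (F.natDegree - j) 0 (fun _ => 0) (mem_Mo.1 hm).1
        (by rw [(mem_Mo.1 hm).2]; omega)).1).trans ?_
      exact (le_abs_self _).trans ((DS_le_nd (bd_av _) (mem_Mo.1 hm).1.ne_zero).trans (hτ m hm)))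
    hτ
  generalize F.natDegree / (4000 * κT * K0) = w at *
  have e1 := ct2_small (two_le_qq (k := k)) (c := 2 * w + F.natDegree) (r := F.natDegree / κT)
    (M := M) (w := w) (by omega)
  have e2 := ct2_small (two_le_qq (k := k)) (c := 5 * w + (F.natDegree + 1))
    (r := F.natDegree / K0 / 128) (M := M) (w := w) (by omega)
  have e3 := ct2_small (two_le_qq (k := k)) (c := 3 * w + (F.natDegree + 1))
    (r := zz F.natDegree t) (M := M) (w := w) (by omega)
  have f1 : qq k ^ w * ((((dl F.natDegree t : ℕ) : ℝ) + 1) *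
      (qq k ^ F.natDegree / qq k ^ (F.natDegree / κT))) ≤
      qq k ^ (2 * w + F.natDegree) / qq k ^ (F.natDegree / κT) := by
    calc _ ≤ qq k ^ w * (qq k ^ w * (qq k ^ F.natDegree / qq k ^ (F.natDegree / κT))) := by
          gcongr
      _ = _ := by ring
  have f2 : qq k ^ w * ((qq k ^ w) ^ 4 *
      (qq k ^ (F.natDegree + 1) / qq k ^ (F.natDegree / K0 / 128))) =
      qq k ^ (5 * w + (F.natDegree + 1)) / qq k ^ (F.natDegree / K0 / 128) := by ring
  have f3 : qq k ^ w * (qq k ^ w * qq k ^ w) *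
      (qq k ^ (F.natDegree + 1) / qq k ^ zz F.natDegree t) =
      qq k ^ (3 * w + (F.natDegree + 1)) / qq k ^ zz F.natDegree t := by ring
  have hp : 0 ≤ qq k ^ M / qq k ^ w := by positivity
  rw [mul_add, f2, f3] at hW
  have := abs_sub_abs_le_abs_sub (CC F h M (zz F.natDegree t) i j)
    (∑ f ∈ Wn F h M, av (Pr k (zz F.natDegree t)) f * DS i mu f *
      (sw lam (f + h) * DM (F.natDegree - j) (av (Pr k (zz F.natDegree t))) (f + h)))
  linarith

end Pool.Agent.P.MP_e94e4b_nt.RP
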