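import Pool.Agent.P.MP_e94e4b_nt.RP.IfK

/-! Step KC. -/

set_option autoImplicit false
set_option linter.unusedSectionVars false

namespace Pool.Agent.P.MP_e94e4b_nt.RP

open Polynomial Finset
open Pool.Agent.P.MP_8be758_nt Pool.Agent.P.MP_8be758_nt.C2 Pool.Agent.P.MP_8be758_nt.L2
open Pool.Agent.P.MP_e94e4b_nt.LG
open scoped Classical

theorem p_KC :
    S_KC := by
  intro k _ _ _ F h A t M c L hh hA h1 ht h2 h3 C hC x hx
  obtain ⟨c1, c2⟩ := mem_Mo.1 hC
  have hx' : h * x ∈ low k c := mul_mem_low hx (by omega)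
  obtain ⟨c3, c4⟩ := monic_add_low c1 hx' c2.ge
  rw [DEC2_congr (U' := A * C) (H' := t) ⟨A * x, by ring⟩ (by simp)]
  congr 2
  rcases eq_or_ne x 0 with rfl | x0
  · simp
  rcases eq_or_ne t 0 with rfl | t0
  · simp [res_zero]
  have d1 := natDegree_lt_of_mem_low ht t0
  have d2 := natDegree_lt_of_mem_low hx x0
  have d3 := natDegree_mul_le (p := t) (q := F + h)
  have d4 := natDegree_add_le F h
  have := P1_const (Cn := t * (F + h)) c1.ne_zero c3.ne_zero (mul_ne_zero hA hh) (by
    rw [natDegree_mul hA hh, natDegree_mul hh x0]; omega)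
  rw [add_zero] at this
  rw [show A * (C + h * x) * h = (C + h * x) * (A * h) by ring, ← this]
  congr 1
  ring

end Pool.Agent.P.MP_e94e4b_nt.RP
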