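import Pool.Agent.P.MP_e94e4b_nt.RP.IfT

/-! Step TPAR. -/

set_option autoImplicit false
set_option linter.unusedSectionVars false

namespace Pool.Agent.P.MP_e94e4b_nt.RP

open Polynomial Finset
open Pool.Agent.P.MP_8be758_nt Pool.Agent.P.MP_8be758_nt.C2 Pool.Agent.P.MP_8be758_nt.L2
open Pool.Agent.P.MP_e94e4b_nt.LG
open scoped Classical

theorem p_TPAR :
    S_TPAR := by
  intro K0 dh hK
  refine ⟨1000 * (dh + 1) * K0, fun n M β y ρ hn h1 h2 h3 h4 => ?_⟩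
  have hu : 1000 * (dh + 1) ≤ n / K0 := (Nat.le_div_iff_mul_le hK).2 hn
  have hn2 : n < K0 * (n / K0 + 1) := Nat.lt_mul_div_succ n hK
  rw [mul_comm 1000 K0, ← Nat.div_div_eq_div_mul] at h2 ⊢
  clear hn
  generalize n / K0 = u at *
  have H1 : 1000 * (u / 1000) ≤ u := Nat.mul_div_le u 1000
  have H2 : dh + 1 ≤ u / 1000 := by omega
  generalize u / 1000 = H at *
  obtain ⟨G, rfl⟩ : ∃ G, n = 2 * β + G := ⟨n - 2 * β, by omega⟩
  obtain ⟨E, rfl⟩ : ∃ E, β = y + E := ⟨β - y, by omega⟩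
  obtain ⟨a, a1, a2⟩ : ∃ a, 32 * a ≤ G ∧ G < 32 * a + 32 := ⟨G / 32, by omega⟩
  obtain ⟨σ, e, e1, e2⟩ : ∃ σ e, 2 * σ = G + e ∧ e ≤ 1 := ⟨(G + 1) / 2, G % 2, by omega⟩
  obtain ⟨D, rfl⟩ : ∃ D, E = D + e := ⟨E - e, by omega⟩
  obtain ⟨p, rfl⟩ : ∃ p, σ = p + a + H := ⟨σ - a - H, by omega⟩
  obtain ⟨w, hw⟩ : ∃ w, w = y + (D + e) + D + p := ⟨_, rfl⟩
  have a0 : 0 < a := by omega
  have r1 := Nat.div_mul_le_self w a
  have r2 := Nat.lt_div_mul_add (a := w) a0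
  have r3 : 1 ≤ w / a := (Nat.one_le_div_iff a0).2 (by omega)
  generalize w / a = r at *
  have k1 : K0 * (u + 1) ≤ K0 * (64 * a) := Nat.mul_le_mul_left _ (by omega)
  have k2 : K0 * (64 * a) = 64 * (K0 * a) := by ring
  have k3 : 100 * K0 * a = 100 * (K0 * a) := by ring
  have k4 : 100 * K0 * (4 * a) = 400 * (K0 * a) := by ring
  have k6 : r ≤ 100 * K0 := Nat.le_of_mul_le_mul_right (by omega) a0
  refine ⟨D, w + a + H, w + a, p + a + H, 4 * a, a, r, p, ?_⟩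
  constructor <;> omega

end Pool.Agent.P.MP_e94e4b_nt.RP
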